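import Pool.Agent.Lib.MP_fabde4_an.SpecA

/-!
MP_fabde4_an, toolbox B (helper4): flows, collar, division, regularity of the gradient projection on a
smooth domain, Seeley extension, Poincaré, Leray projection, unique continuation, Runge approximation.
Text of every module: /team-store/MP_fabde4_an_TOOLSB.md.
-/

set_option autoImplicit false
open MeasureTheory Set Filter Topology

namespace MPfab

/-! ### common notions -/

/-- all partial derivatives of order at most `k` are bounded by `M` on `S` -/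
def Bd {F : Type*} [NormedAddCommGroup F] [NormedSpace ℝ F] (S : Set E) (k : ℕ) (f : E → F)
    (M : ℝ) : Prop := ∀ α : List (Fin 3), α.length ≤ k → ∀ x ∈ S, ‖pds α f x‖ ≤ M

/-- normalized defining function: equal to `1` far away -/
structure DomN (ρ : E → ℝ) : Prop extends Dom ρ where
  nrm : ∃ R : ℝ, ∀ x, R ≤ ‖x‖ → ρ x = 1

/-- smooth test functions of a set -/
structure Test {F : Type*} [NormedAddCommGroup F] [NormedSpace ℝ F] (U : Set E) (η : E → F) :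
    Prop where
  smooth : Sm η
  cpt : HasCompactSupport η
  sub : tsupport η ⊆ U

/-- global smooth flow of an autonomous field -/
structure IsFlow {V : Type*} [NormedAddCommGroup V] [NormedSpace ℝ V] (X : V → V)
    (F : ℝ × V → V) : Prop where
  smooth : Sm F
  zero : ∀ x, F (0, x) = x
  deriv : ∀ s x, HasDerivAt (fun r => F (r, x)) (X (F (s, x))) s
  group : ∀ s t x, F (s, F (t, x)) = F (s + t, x)

/-- smooth evolution of a time dependent field; `F (t, s, x)` is the value at time `t` of the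
solution that starts at time `s` in `x` -/
structure IsEvo (b : ℝ × E → E) (F : ℝ × ℝ × E → E) : Prop where
  smooth : Sm F
  init : ∀ s x, F (s, s, x) = x
  deriv : ∀ t s x, HasDerivAt (fun r => F (r, s, x)) (b (t, F (t, s, x))) t
  group : ∀ t s r x, F (t, s, F (s, r, x)) = F (t, r, x)

/-! ### NORMAL, flows -/

/-- NORMAL (80 lines) -/
def SpecNormal : Prop := ∀ ρ : E → ℝ, Dom ρ → ∃ ρ' : E → ℝ, DomN ρ' ∧
  (∀ x, ρ' x < 0 ↔ ρ x < 0) ∧ (∀ x, ρ' x = 0 ↔ ρ x = 0) ∧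
  ∃ U : Set E, IsOpen U ∧ {x | ρ x ≤ 0} ⊆ U ∧ ∀ x ∈ U, ρ' x = ρ x

/-- GLOB (150 lines): global integral curves of `C¹` fields of linear growth -/
def SpecGlob : Prop := ∀ (V : Type) [NormedAddCommGroup V] [NormedSpace ℝ V]
  [FiniteDimensional ℝ V] (X : V → V) (C : ℝ), ContDiff ℝ 1 X → (∀ v, ‖X v‖ ≤ C * (1 + ‖v‖)) →
  ∃ F : ℝ × V → V, (∀ x, F (0, x) = x) ∧ ∀ s x, HasDerivAt (fun r => F (r, x)) (X (F (s, x))) s

/-- FLOWC (300 lines, may use SpecGlob): smooth dependence on the initial value -/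
def SpecFlowC : Prop := ∀ (V : Type) [NormedAddCommGroup V] [NormedSpace ℝ V]
  [FiniteDimensional ℝ V] (X : V → V) (F : ℝ × V → V), Sm X → (∀ x, F (0, x) = x) →
  (∀ s x, HasDerivAt (fun r => F (r, x)) (X (F (s, x))) s) → IsFlow X F

/-- FLOWT (200 lines, uses SpecGlob, SpecFlowC): evolution of a time dependent field -/
def SpecFlowT : Prop := ∀ (b : ℝ × E → E) (R : ℝ), InT R b → ∃ F : ℝ × ℝ × E → E, IsEvo b F ∧
  (∀ t s x, R ≤ ‖x‖ → F (t, s, x) = x) ∧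
  (∀ γ : ℝ → E, (∀ t, HasDerivAt γ (b (t, γ t)) t) → ∀ t s, γ t = F (t, s, γ s))

/-- FLOWA (60 lines, uses SpecGlob, SpecFlowC): autonomous version -/
def SpecFlowA : Prop := ∀ (T : E → E) (R : ℝ), In R T → ∃ F : ℝ × E → E, IsFlow T F ∧
  ∀ s x, R ≤ ‖x‖ → F (s, x) = x

/-- FTAN (120 lines, uses SpecCollar for the inequality `|dρ(b(t,x))| ≤ C|ρ(x)|`): the evolution of a
tangential field preserves the domain and its boundary -/
def SpecFtan : Prop := ∀ (ρ : E → ℝ) (b : ℝ × E → E) (F : ℝ × ℝ × E → E) (R : ℝ), DomN ρ →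
  InT R b → (∀ t, Tan ρ fun x => b (t, x)) → IsEvo b F →
  ∀ t s x, (ρ (F (t, s, x)) < 0 ↔ ρ x < 0) ∧ (ρ (F (t, s, x)) = 0 ↔ ρ x = 0)

/-- collar data: `N = ∇ρ/|∇ρ|²` near the boundary, `Y` = flow of `-N` -/
structure Collar (ρ : E → ℝ) (c : ℝ) (N : E → E) (Y : ℝ × E → E) : Prop where
  pos : 0 < c
  lt : c < 1
  cpt : IsCompact {x | ρ x ≤ c}
  inN : ∃ R, In R N
  one : ∀ x, |ρ x| ≤ c → fderiv ℝ ρ x (N x) = 1
  nonneg : ∀ x, 0 ≤ fderiv ℝ ρ x (N x)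
  form : ∀ x, |ρ x| ≤ c → gr ρ x ≠ 0 ∧ N x = (‖gr ρ x‖ ^ 2)⁻¹ • gr ρ x
  flow : IsFlow (fun x => -N x) Y
  lev : ∀ s x, |ρ x| ≤ c → |ρ x - s| ≤ c → ρ (Y (s, x)) = ρ x - s

/-- COLLAR (200 lines, uses SpecFlowA) -/
def SpecCollar : Prop := ∀ ρ : E → ℝ, DomN ρ →
  ∃ (c : ℝ) (N : E → E) (Y : ℝ × E → E), Collar ρ c N Y

/-- PINT (120 lines): smoothness of parametric integrals -/
def SpecPint : Prop := ∀ (V W : Type) [NormedAddCommGroup V] [NormedSpace ℝ V]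
  [FiniteDimensional ℝ V] [NormedAddCommGroup W] [NormedSpace ℝ W] [FiniteDimensional ℝ W]
  (f : ℝ × V → W), Sm f → Sm fun x => ∫ θ in (0 : ℝ)..1, f (θ, x)

/-- HAD (150 lines, uses SpecCollar, SpecPint; the module contains SpecHad and SpecHadT):
division by the defining function -/
def SpecHad : Prop := ∀ (W : Type) [NormedAddCommGroup W] [NormedSpace ℝ W]
  [FiniteDimensional ℝ W] (ρ : E → ℝ) (g : E → W), DomN ρ → Sm g → (∀ x, ρ x = 0 → g x = 0) →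
  ∃ h : E → W, Sm h ∧ ∀ x, g x = ρ x • h x

/-- HADT (in module HAD, same proof with a parameter): division with a time parameter -/
def SpecHadT : Prop := ∀ (W : Type) [NormedAddCommGroup W] [NormedSpace ℝ W]
  [FiniteDimensional ℝ W] (ρ : E → ℝ) (g : ℝ × E → W), DomN ρ → Sm g →
  (∀ t x, ρ x = 0 → g (t, x) = 0) → ∃ h : ℝ × E → W, Sm h ∧ ∀ t x, g (t, x) = ρ x • h (t, x)

/-- CR (150 lines, uses SpecHad, SpecCollar): tangential fields are curls up to high order -/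
def SpecCr : Prop := ∀ (ρ : E → ℝ) (M : ℕ) (V : E → E) (h : E → ℝ) (U : Set E), DomN ρ → Sm V →
  Sm h → Tan ρ V → IsOpen U → (∀ x, ρ x = 0 → x ∈ U) → (∀ x ∈ U, dv V x = ρ x ^ M * h x) →
  ∃ C V' : E → E, Sm C ∧ Sm V' ∧ ∀ x, V x = curl (fun y => ρ y • C y) x + ρ x ^ (M + 1) • V' x

/-! ### the projection on gradients in `L²` -/

/-- square integrable fields on the domain -/
noncomputable abbrev L2 (ρ : E → ℝ) := Lp E 2 (volume.restrict (D ρ))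

/-- classes of gradients of smooth functions -/
def gradSet (ρ : E → ℝ) : Set (L2 ρ) :=
  {h | ∃ φ : E → ℝ, Sm φ ∧ (h : E → E) =ᵐ[volume.restrict (D ρ)] gr φ}

/-- closure of the space of gradients -/
noncomputable def HG (ρ : E → ℝ) : Submodule ℝ (L2 ρ) :=
  (Submodule.span ℝ (gradSet ρ)).topologicalClosure

/-- `g` is the projection of the class of `G` on the closure of the gradients -/
structure IsPi (ρ : E → ℝ) (G : E → E) (g : L2 ρ) : Prop where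
  mem : g ∈ HG ρ
  orth : ∀ φ : E → ℝ, Sm φ → ∫ x in D ρ, inner ℝ (G x - g x) (gr φ x) = 0

/-- `k` strong derivatives along all groups `U T` -/
def Dk {H : Type*} [NormedAddCommGroup H] [NormedSpace ℝ H] {ι : Type*}
    (U : ι → ℝ → H →L[ℝ] H) : ℕ → H → Prop
  | 0, _ => True
  | k + 1, w => ∀ T, ∃ w', HasDerivAt (fun s => U T s w) w' 0 ∧ Dk U k w'

/-- ABS (150 lines, Hilbert space only): the projection preserves `k` strong derivatives.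
Key identity: `L_T ΠG = Π [L_T G + M' (G - ΠG)]`. -/
def SpecAbs : Prop := ∀ (H : Type) [NormedAddCommGroup H] [InnerProductSpace ℝ H]
  [CompleteSpace H] (K : Submodule ℝ H) (ι : Type) (U M : ι → ℝ → H →L[ℝ] H)
  (M' : ι → H →L[ℝ] H) (A : Set (H →L[ℝ] H)), IsClosed (K : Set H) →
  (∀ T, U T 0 = 1) → (∀ T w, ContinuousAt (fun s => U T s w) 0) →
  (∀ T s, ∀ k ∈ K, U T s k ∈ K) → (∀ T s, ∀ k ∈ K, ∃ k' ∈ K, U T s k' = k) →
  (∀ T, M T 0 = 1) → (∀ T, HasDerivAt (M T) (M' T) 0) →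
  (∀ T s a b, inner ℝ a b = inner ℝ (M T s (U T s a)) (U T s b)) →
  (∀ T, M' T ∈ A) →
  (∀ T, ∀ a ∈ A, ∃ a' ∈ A, ∀ w w', HasDerivAt (fun s => U T s w) w' 0 →
    HasDerivAt (fun s => U T s (a w)) (a w' + a' w) 0) →
  ∀ G g : H, (∀ k, Dk U k G) → g ∈ K → (∀ h ∈ K, inner ℝ (G - g) h = 0) → ∀ k, Dk U k g

/-- tangential fields -/
abbrev TF (ρ : E → ℝ) := {T : E → E // (∃ R, In R T) ∧ Tan ρ T}

/-- `U T s` is the pull back of 1-forms by the flow of `T` -/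
def IsPull (ρ : E → ℝ) (U : TF ρ → ℝ → L2 ρ →L[ℝ] L2 ρ) : Prop :=
  ∀ (T : TF ρ) (F : ℝ × E → E), IsFlow T.1 F → ∀ s (w : L2 ρ),
    (U T s w : E → E) =ᵐ[volume.restrict (D ρ)] fun x =>
      ContinuousLinearMap.adjoint (fderiv ℝ (fun y => F (s, y)) x) (w (F (s, x)))

/-- multiplications by smooth matrices -/
def MulOps (ρ : E → ℝ) : Set (L2 ρ →L[ℝ] L2 ρ) :=
  {a | ∃ B : E → E →L[ℝ] E, Sm B ∧ ∀ w : L2 ρ,
    (a w : E → E) =ᵐ[volume.restrict (D ρ)] fun x => B x (w x)}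

/-- MULOP (80 lines): bounded multiplication operators exist, depend differentiably on the matrix -/
def SpecMulop : Prop := ∀ (ρ : E → ℝ) (B : ℝ × E → E →L[ℝ] E), Dom ρ → Sm B →
  ∃ a : ℝ → L2 ρ →L[ℝ] L2 ρ, (∀ s (w : L2 ρ),
    (a s w : E → E) =ᵐ[volume.restrict (D ρ)] fun x => B (s, x) (w x)) ∧
  ∃ a' : L2 ρ →L[ℝ] L2 ρ, a' ∈ MulOps ρ ∧ HasDerivAt a a' 0

/-- PULL1 (150 lines, uses SpecFlowA, SpecFtan): existence and boundedness of the pull back -/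
def SpecPull1 : Prop := ∀ ρ : E → ℝ, DomN ρ → ∃ U : TF ρ → ℝ → L2 ρ →L[ℝ] L2 ρ, IsPull ρ U ∧
  ∀ T, ∃ C, ∀ s, |s| ≤ 1 → ‖U T s‖ ≤ C

/-- PULL2 (200 lines, uses SpecFlowA, SpecFtan): group property, strong continuity, gradients,
derivative on smooth fields -/
def SpecPull2 : Prop := ∀ (ρ : E → ℝ) (U : TF ρ → ℝ → L2 ρ →L[ℝ] L2 ρ), DomN ρ → IsPull ρ U →
  (∀ T, ∃ C, ∀ s, |s| ≤ 1 → ‖U T s‖ ≤ C) →
  (∀ T, U T 0 = 1) ∧ (∀ T w, ContinuousAt (fun s => U T s w) 0) ∧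
  (∀ T s, ∀ k ∈ HG ρ, U T s k ∈ HG ρ) ∧ (∀ T s, ∀ k ∈ HG ρ, ∃ k' ∈ HG ρ, U T s k' = k) ∧
  (∀ (T : TF ρ) (G : E → E) (w w' : L2 ρ), Sm G → (w : E → E) =ᵐ[volume.restrict (D ρ)] G →
    (w' : E → E) =ᵐ[volume.restrict (D ρ)] lie T.1 G → HasDerivAt (fun s => U T s w) w' 0)

/-- PULL3 (200 lines, uses SpecFlowA, SpecFtan, SpecMulop): change of variables,
`M_s = det(DF_s) (DF_s)⁻¹ (DF_s)⁻ᵀ`, and the rule for multiplication operators -/
def SpecPull3 : Prop := ∀ (ρ : E → ℝ) (U : TF ρ → ℝ → L2 ρ →L[ℝ] L2 ρ), DomN ρ → IsPull ρ U →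
  (∃ (M : TF ρ → ℝ → L2 ρ →L[ℝ] L2 ρ) (M' : TF ρ → L2 ρ →L[ℝ] L2 ρ), (∀ T, M T 0 = 1) ∧
    (∀ T, HasDerivAt (M T) (M' T) 0) ∧ (∀ T, M' T ∈ MulOps ρ) ∧
    (∀ T s a b, inner ℝ a b = inner ℝ (M T s (U T s a)) (U T s b))) ∧
  (∀ T, ∀ a ∈ MulOps ρ, ∃ a' ∈ MulOps ρ, ∀ w w', HasDerivAt (fun s => U T s w) w' 0 →
    HasDerivAt (fun s => U T s (a w)) (a w' + a' w) 0)

/-- MVP (150 lines): radial mean value formula -/
def SpecMvp : Prop := ∃ η ζ : E → ℝ, Sm η ∧ Sm ζ ∧ (∀ y, 0 ≤ η y) ∧ (∀ y, 1 ≤ ‖y‖ → η y = 0) ∧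
  (∀ y, 1 ≤ ‖y‖ → ζ y = 0) ∧ (∫ y, η y) = 1 ∧ (∀ y, gr ζ y = -(η y) • y) ∧
  ∀ (U : Set E) (u : E → ℝ) (x : E) (r : ℝ), IsOpen U → ContDiffOn ℝ 2 u U → 0 < r →
    Metric.closedBall x r ⊆ U →
    (∫ y, u (x + r • y) * η y) = u x + ∫ t in (0 : ℝ)..r, t * ∫ y, lap u (x + t • y) * ζ y

/-- WEYL (350 lines, uses SpecMvp): functionals of finite order with smooth Laplacian -/
def SpecWeyl : Prop := ∀ (U : Set E) (ι : Type) [Fintype ι] (w : ι → E → ℝ)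
  (α : ι → List (Fin 3)) (f : E → ℝ), IsOpen U → (∀ i, LocallyIntegrableOn (w i) U) →
  ContDiffOn ℝ ((⊤ : ENat) : WithTop ENat) f U →
  (∀ η : E → ℝ, Test U η → ∑ i, ∫ x in U, w i x * pds (α i) (lap η) x = ∫ x in U, f x * η x) →
  ∃ l : E → ℝ, ContDiffOn ℝ ((⊤ : ENat) : WithTop ENat) l U ∧ (∀ x ∈ U, lap l x = f x) ∧
    ∀ η : E → ℝ, Test U η → ∑ i, ∫ x in U, w i x * pds (α i) η x = ∫ x in U, l x * η x

/-- UC (200 lines, uses SpecMvp): unique continuation for harmonic functions -/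
def SpecUc : Prop := ∀ (U B : Set E) (u : E → ℝ), IsOpen U → IsPreconnected U → IsOpen B →
  B.Nonempty → B ⊆ U → ContDiffOn ℝ ((⊤ : ENat) : WithTop ENat) u U → (∀ x ∈ U, lap u x = 0) →
  (∀ x ∈ B, u x = 0) → ∀ x ∈ U, u x = 0

/-- INTR (200 lines, uses SpecWeyl): interior smoothness of the projection -/
def SpecIntr : Prop := ∀ (ρ : E → ℝ) (G : E → E) (g : L2 ρ), Dom ρ → Sm G → IsPi ρ G g →
  ∃ g' : E → E, ContDiffOn ℝ ((⊤ : ENat) : WithTop ENat) g' (D ρ) ∧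
    (g : E → E) =ᵐ[volume.restrict (D ρ)] g' ∧ (∀ x ∈ D ρ, curl g' x = 0) ∧
    ∀ x ∈ D ρ, dv g' x = dv G x

/-- all iterated tangential Lie derivatives are square integrable -/
def QL (ρ : E → ℝ) : ℕ → (E → E) → Prop
  | 0, w => MemLp w 2 (volume.restrict (D ρ))
  | k + 1, w => MemLp w 2 (volume.restrict (D ρ)) ∧
      ∀ T : E → E, (∃ R, In R T) → Tan ρ T → QL ρ k (lie T w)

/-- LIEC (150 lines, uses SpecFlowA, SpecFtan): the strong derivatives of a field which is smooth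
in the open domain are the classical ones -/
def SpecLiec : Prop := ∀ (ρ : E → ℝ) (U : TF ρ → ℝ → L2 ρ →L[ℝ] L2 ρ) (w : L2 ρ) (w' : E → E),
  DomN ρ → IsPull ρ U → ContDiffOn ℝ ((⊤ : ENat) : WithTop ENat) w' (D ρ) →
  (w : E → E) =ᵐ[volume.restrict (D ρ)] w' → (∀ k, Dk U k w) → ∀ k, QL ρ k w'

/-- NORMD (300 lines, uses SpecCollar): the normal derivative is recovered from curl, divergence and
the tangential derivatives; all derivatives are square integrable -/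
def SpecNormd : Prop := ∀ (ρ : E → ℝ) (G w : E → E), DomN ρ → Sm G →
  ContDiffOn ℝ ((⊤ : ENat) : WithTop ENat) w (D ρ) → (∀ x ∈ D ρ, curl w x = 0) →
  (∀ x ∈ D ρ, dv w x = dv G x) → (∀ k, QL ρ k w) →
  ∀ α : List (Fin 3), MemLp (pds α w) 2 (volume.restrict (D ρ))

/-- SOBD (150 lines): `H³(D) ⊂ L^∞(D)` for functions smooth in the open domain only -/
def SpecSobd : Prop := ∀ ρ : E → ℝ, Dom ρ → ∃ C : ℝ, ∀ f : E → ℝ,
  ContDiffOn ℝ ((⊤ : ENat) : WithTop ENat) f (D ρ) →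
  (∀ α : List (Fin 3), α.length ≤ 3 → MemLp (pds α f) 2 (volume.restrict (D ρ))) →
  ∀ x ∈ D ρ, (f x) ^ 2 ≤ C * hs (D ρ) 3 f

/-! ### Seeley extension -/

/-- SEEC (150 lines): coefficients with all moments prescribed -/
def SpecSeec : Prop := ∃ a : ℕ → ℝ, (∀ n : ℕ, Summable fun k => |a k| * ((k : ℝ) + 1) ^ n) ∧
  ∀ n : ℕ, ∑' k, a k * ((k : ℝ) + 1) ^ n = (-1) ^ n

/-- FLAT (100 lines): cutting a flat function along the boundary -/
def SpecFlat : Prop := ∀ (ρ h : E → ℝ), Dom ρ → Sm h →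
  (∀ n : ℕ, ∃ C : ℝ, ∀ x, |h x| ≤ C * |ρ x| ^ n) → Sm fun x => if 0 < ρ x then h x else 0

/-- a bounded linear extension operator from `D ρ` to fields supported in the ball of radius `R` -/
structure IsExt (ρ : E → ℝ) (R : ℝ) (Ex : (E → ℝ) → E → ℝ) : Prop where
  add : ∀ f g, Sm f → Sm g → Ex (fun x => f x + g x) = fun x => Ex f x + Ex g x
  smul : ∀ (c : ℝ) f, Sm f → Ex (fun x => c * f x) = fun x => c * Ex f x
  supp : ∀ f, Sm f → In R (Ex f)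
  eq : ∀ f, Sm f → ∀ x, ρ x ≤ 0 → Ex f x = f x
  loc : ∀ f g, Sm f → Sm g → (∀ x ∈ D ρ, f x = g x) → Ex f = Ex g
  hsb : ∀ k, ∃ C : ℝ, ∀ f, Sm f → hs univ k (Ex f) ≤ C * hs (D ρ) k f
  bdb : ∀ k, ∃ C : ℝ, ∀ f M, Sm f → Bd (D ρ) k f M → Bd univ k (Ex f) (C * M)

/-- SEEL (500 lines, uses SpecSeec, SpecFlat, SpecCollar) -/
def SpecSeel : Prop := ∀ (ρ : E → ℝ) (R : ℝ), DomN ρ → (∀ x, ρ x ≤ 0 → ‖x‖ < R) →
  ∃ Ex : (E → ℝ) → E → ℝ, IsExt ρ R Ex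

/-- EXTB (250 lines, uses SpecSeel, SpecCollar): extension of functions which are smooth with
bounded derivatives in the open domain -/
def SpecExtb : Prop := ∀ (ρ : E → ℝ) (f : E → ℝ), DomN ρ →
  ContDiffOn ℝ ((⊤ : ENat) : WithTop ENat) f (D ρ) →
  (∀ α : List (Fin 3), ∃ C : ℝ, ∀ x ∈ D ρ, |pds α f x| ≤ C) →
  ∃ f' : E → ℝ, Sm f' ∧ ∀ x ∈ D ρ, f' x = f x

/-! ### potentials and the Leray projection -/

/-- POIN (300 lines): Poincaré inequality -/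
def SpecPoin : Prop := ∀ ρ : E → ℝ, Dom ρ → IsConnected (D ρ) → ∃ C : ℝ, ∀ φ : E → ℝ, Sm φ →
  ∃ c : ℝ, (∫ x in D ρ, (φ x - c) ^ 2) ≤ C * ∫ x in D ρ, ‖gr φ x‖ ^ 2

/-- POT (200 lines, uses SpecPoin, SpecWeyl, SpecSobd, SpecExtb): smooth potentials -/
def SpecPot : Prop := ∀ (ρ : E → ℝ) (g : E → E) (g0 : L2 ρ), DomN ρ → IsConnected (D ρ) → Sm g →
  (g0 : E → E) =ᵐ[volume.restrict (D ρ)] g → g0 ∈ HG ρ →
  ∃ q : E → ℝ, Sm q ∧ ∀ x, ρ x ≤ 0 → gr q x = g x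

/-- WTAN (200 lines, uses SpecCollar and Gauss): weakly divergence free and tangential fields -/
def SpecWtan : Prop := ∀ (ρ : E → ℝ) (w : E → E), DomN ρ → Sm w →
  (∀ φ : E → ℝ, Sm φ → ∫ x in D ρ, inner ℝ (w x) (gr φ x) = 0) → InX ρ w

/-- NEU (150 lines: assembly of the regularity modules): solvability of the Neumann problem -/
def SpecNeu : Prop := ∀ (ρ : E → ℝ) (G : E → E), DomN ρ → IsConnected (D ρ) → Sm G →
  ∃ φ : E → ℝ, Sm φ ∧ InX ρ fun x => G x - gr φ x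

/-- the Leray projection `P` (extended to the whole space) and the potential `Q` -/
structure Leray (ρ : E → ℝ) (R : ℝ) (P : (E → E) → E → E) (Q : (E → E) → E → ℝ) : Prop where
  addP : ∀ m m', Sm m → Sm m' → P (fun x => m x + m' x) = fun x => P m x + P m' x
  smulP : ∀ (c : ℝ) m, Sm m → P (fun x => c • m x) = fun x => c • P m x
  addQ : ∀ m m', Sm m → Sm m' → Q (fun x => m x + m' x) = fun x => Q m x + Q m' x
  smulQ : ∀ (c : ℝ) m, Sm m → Q (fun x => c • m x) = fun x => c * Q m x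
  locP : ∀ m m', Sm m → Sm m' → (∀ x ∈ D ρ, m x = m' x) → P m = P m'
  locQ : ∀ m m', Sm m → Sm m' → (∀ x ∈ D ρ, m x = m' x) → Q m = Q m'
  inP : ∀ m, Sm m → In R (P m)
  inQ : ∀ m, Sm m → In R (Q m)
  dec : ∀ m, Sm m → ∀ x, ρ x ≤ 0 → m x - P m x = gr (Q m) x
  inX : ∀ m, Sm m → InX ρ (P m)
  bdP : ∀ k, ∃ C : ℝ, ∀ m, Sm m → hs univ (k + 1) (P m) ≤ C * nq (D ρ) k m
  bdQ : ∀ k, ∃ C : ℝ, ∀ m, Sm m → hs univ (k + 1) (Q m) ≤ C * hs (D ρ) k m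
  l2 : ∀ m, Sm m → hs (D ρ) 0 (P m) ≤ hs (D ρ) 0 m
  uniq : ∀ m φ, Sm m → Sm φ → InX ρ (fun x => m x - gr φ x) → ∀ x, ρ x ≤ 0 → gr φ x = gr (Q m) x

/-- LERAY (300 lines, uses SpecNeu, SpecPoin, SpecSeel, Gauss, DivCurl) -/
def SpecLeray : Prop := ∀ (ρ : E → ℝ) (R : ℝ), Dom ρ → IsConnected (D ρ) →
  (∀ x, ρ x ≤ 0 → ‖x‖ < R) → ∃ (P : (E → E) → E → E) (Q : (E → E) → E → ℝ), Leray ρ R P Q

/-! ### controls -/

/-- CONN (80 lines): removing a closed ball from a connected open set -/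
def SpecConn : Prop := ∀ (U : Set E) (y : E) (r : ℝ), IsOpen U → IsConnected U → 0 < r →
  Metric.closedBall y r ⊆ U → IsConnected (U \ Metric.closedBall y r)

/-- SPAN (200 lines, uses SpecUc, SpecMvp, SpecConn, Gauss): values of the control fields -/
def SpecSpan : Prop := ∀ (ρ : E → ℝ) (R : ℝ) (P : (E → E) → E → E) (Q : (E → E) → E → ℝ)
  (B : Set E) (y e : E), DomN ρ → IsConnected (D ρ) → Leray ρ R P Q → IsOpen B → B.Nonempty →
  B ⊆ D ρ → y ∈ D ρ → ∃ Ψ : E → E, Test B Ψ ∧ gr (Q Ψ) y = e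

/-- RUNGE (350 lines, uses SpecUc, SpecWeyl, SpecCr, Gauss): approximation of formally harmonic
gradients by control fields modulo interior fields -/
def SpecRunge : Prop := ∀ (ρ : E → ℝ) (R : ℝ) (P : (E → E) → E → E) (Q : (E → E) → E → ℝ)
  (B U : Set E) (K M : ℕ) (F h : E → ℝ) (ε : ℝ), DomN ρ → IsConnected (D ρ) → Leray ρ R P Q →
  IsOpen B → B.Nonempty → B ⊆ D ρ → K ≤ M → Sm F → Sm h → Tan ρ (gr F) → IsOpen U →
  (∀ x, ρ x = 0 → x ∈ U) → (∀ x ∈ U, lap F x = ρ x ^ M * h x) → 0 < ε →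
  ∃ Ψ a : E → E, Test B Ψ ∧ Test (D ρ) a ∧
    hs (D ρ) K (fun x => gr F x - gr (Q Ψ) x - a x) < ε

end MPfab
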