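import Pool.Agent.Lib.MP_fabde4_an.SpecA

/-!
MP_fabde4_an, part P (helper59): the one existence theorem `PT` on the whole space, for general
(nonlocal, time dependent) velocity laws.  Text: /team-store/MP_fabde4_an_PT.md.
-/

set_option autoImplicit false
open MeasureTheory Set

namespace MPfab

/-- class `C^j` in time with values in the smooth fields supported in the ball of radius `R` -/
def InC {F : Type*} [NormedAddCommGroup F] [NormedSpace ℝ F] (R : ℝ) : ℕ → (ℝ × E → F) → Prop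
  | 0, m => (∀ t, In R (sl m t)) ∧
      ∀ L : List (Fin 3), Continuous fun p : ℝ × E => pds L (sl m p.1) p.2
  | j + 1, m => ((∀ t, In R (sl m t)) ∧
      ∀ L : List (Fin 3), Continuous fun p : ℝ × E => pds L (sl m p.1) p.2) ∧
      ∃ m' : ℝ × E → F, InC R j m' ∧ ∀ t x, HasDerivAt (fun s => m (s, x)) (m' (t, x)) t

/-- linear operators on smooth compactly supported functions, bounded with some loss -/
structure COp {F G : Type*} [NormedAddCommGroup F] [NormedSpace ℝ F] [NormedAddCommGroup G]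
    [NormedSpace ℝ G] (R : ℝ) (Q : (E → F) → (E → G)) : Prop where
  add : ∀ f g : E → F, In R f → In R g → Q (fun x => f x + g x) = fun x => Q f x + Q g x
  smul : ∀ (c : ℝ) (f : E → F), In R f → Q (fun x => c • f x) = fun x => c • Q f x
  maps : ∀ f : E → F, In R f → In R (Q f)
  bound : ∀ k : ℕ, ∃ (j : ℕ) (C : ℝ), 0 ≤ C ∧ ∀ f : E → F, In R f →
    hs univ k (Q f) ≤ C * hs univ j f

/-- velocity laws `P t` (velocity = `P t m`) with the gain of one derivative over the vorticity;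
`κ k t` bounds the norm, everything vanishes for `T0 ≤ |t|` -/
structure VLaw (R T0 : ℝ) (P : ℝ → (E → E) → (E → E)) (κ : ℕ → ℝ → ℝ) : Prop where
  add : ∀ t (f g : E → E), In R f → In R g → P t (fun x => f x + g x) = fun x => P t f x + P t g x
  smul : ∀ t (c : ℝ) (f : E → E), In R f → P t (fun x => c • f x) = fun x => c • P t f x
  inc : ∀ (j : ℕ) (m : ℝ × E → E), InC R j m → InC R j (fun p => P p.1 (sl m p.1) p.2)
  bound : ∀ t (k : ℕ) (f : E → E), In R f →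
    √(hs univ (k + 1) (P t f)) ≤ κ k t * √(nq univ k f)
  nonneg : ∀ k t, 0 ≤ κ k t
  bdd : ∀ k, ∃ C, ∀ t, κ k t ≤ C
  supp : ∀ k t, T0 ≤ |t| → κ k t = 0

/-- the equation `m_t + curl m × b = F` (momentum equation modulo gradients) for all times -/
def EqA (b F m : ℝ × E → E) : Prop :=
  ∀ t x, dt m (t, x) + cr (curl (sl m t) x) (b (t, x)) = F (t, x)

/-- the velocity of `m` under the law `P` -/
def vel (P : ℝ → (E → E) → (E → E)) (m : ℝ × E → E) : ℝ × E → E :=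
  fun p => P p.1 (sl m p.1) p.2

/-! ### the theorem -/

/-- PT. `V` is a reference path with residual `g`; the exact solution stays close to it. -/
def SpecPT : Prop := ∀ R T0 : ℝ, 0 < R → 0 < T0 → ∃ C : ℝ, 0 ≤ C ∧
  ∀ (P : ℝ → (E → E) → (E → E)) (κ : ℕ → ℝ → ℝ), VLaw R T0 P κ →
  ∀ V F g : ℝ × E → E, InT R V → InT R F → InT R g →
    (∀ t x, T0 ≤ |t| → F (t, x) = 0 ∧ g (t, x) = 0) →
    EqA (vel P V) (fun p => F p + g p) V →
  ∀ α γ : ℝ → ℝ, Continuous α → Continuous γ →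
    (∀ t, C * κ 5 t * (1 + √(nq univ 6 (sl V t))) ≤ α t) →
    (∀ t, C * √(nq univ 5 (sl g t)) ≤ γ t) →
  ∀ A G : ℝ, (∫ t in (-T0)..T0, α t) ≤ A → (∫ t in (-T0)..T0, γ t) ≤ G →
    G * Real.exp (2 * A) ≤ 1 →
  ∃ m : ℝ × E → E, InT R m ∧ sl m 0 = sl V 0 ∧ EqA (vel P m) F m ∧
    ∀ t, √(nq univ 5 (fun x => m (t, x) - V (t, x))) ≤ G * Real.exp (2 * A)

/-! ### modules: the classes `InC` -/

/-- INCSM. -/
structure SpecIncSm : Prop where
  of_all : ∀ (F : Type) [NormedAddCommGroup F] [NormedSpace ℝ F] [FiniteDimensional ℝ F]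
    (R : ℝ) (m : ℝ × E → F), (∀ j, InC R j m) → InT R m
  inc : ∀ (F : Type) [NormedAddCommGroup F] [NormedSpace ℝ F] (R : ℝ) (j : ℕ) (m : ℝ × E → F),
    0 < R → InT R m → InC R j m

/-- INCALG. -/
structure SpecIncAlg : Prop where
  zero_of : ∀ (F : Type) [NormedAddCommGroup F] [NormedSpace ℝ F] (R : ℝ) (j : ℕ)
    (m : ℝ × E → F), InC R j m → InC R 0 m
  add : ∀ (F : Type) [NormedAddCommGroup F] [NormedSpace ℝ F] (R : ℝ) (j : ℕ)
    (m m' : ℝ × E → F), InC R j m → InC R j m' → InC R j (fun p => m p + m' p)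
  smul : ∀ (F : Type) [NormedAddCommGroup F] [NormedSpace ℝ F] (R : ℝ) (j : ℕ)
    (c : ℝ × E → ℝ) (m : ℝ × E → F), Sm c → InC R j m → InC R j (fun p => c p • m p)
  pd : ∀ (F : Type) [NormedAddCommGroup F] [NormedSpace ℝ F] (R : ℝ) (j : ℕ)
    (m : ℝ × E → F), 0 < R → InC R j m → ∀ i, InC R j (fun p => MPfab.pd i (sl m p.1) p.2)
  mul : ∀ (R : ℝ) (j : ℕ) (a b : ℝ × E → ℝ), InC R j a → InC R j b →
    InC R j (fun p => a p * b p)
  comp : ∀ (R : ℝ) (j : ℕ) (m : ℝ × E → E),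
    InC R j m ↔ ∀ i, InC R j (fun p => m p i)
  crc : ∀ (R : ℝ) (j : ℕ) (m b : ℝ × E → E), 0 < R → InC R j m → InC R j b →
    InC R j (fun p => cr (curl (sl m p.1) p.2) (b p))

/-- INCOP (bounded linear operators preserve `InC`). -/
def SpecIncOp : Prop := ∀ (F G : Type) [NormedAddCommGroup F] [NormedSpace ℝ F]
  [FiniteDimensional ℝ F] [NormedAddCommGroup G] [NormedSpace ℝ G] [FiniteDimensional ℝ G] (R : ℝ)
  (Q : (E → F) → (E → G)), 0 < R → COp R Q → ∀ (j : ℕ) (m : ℝ × E → F), InC R j m →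
    InC R j (fun p => Q (sl m p.1) p.2)

/-! ### modules: estimates on the whole space -/

/-- SUPU (sup norm on the whole space, supports in a ball). -/
def SpecSupU : Prop := ∀ R : ℝ, 0 < R → ∃ C : ℝ, 0 ≤ C ∧
  ∀ (F : Type) [NormedAddCommGroup F] [NormedSpace ℝ F] (f : E → F), In R f →
    ∀ (L : List (Fin 3)) x, ‖pds L f x‖ ^ 2 ≤ C * hs univ (L.length + 3) f

/-- BIL (`k ≥ 4`). -/
def SpecBil : Prop := ∀ R : ℝ, 0 < R → ∀ c k, 4 ≤ k → ∃ C : ℝ, 0 ≤ C ∧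
  ∀ u a : E → E, In R u → In R a →
    √(hs univ k (trc c u a)) ≤ C * √(hs univ (k + 1) u) * √(hs univ (k + 1) a)

/-- CRB (cross product bounds). -/
structure SpecCrb : Prop where
  low : ∀ R : ℝ, 0 < R → ∃ C : ℝ, 0 ≤ C ∧ ∀ w b : E → E, In R w → In R b →
    √(hs univ 0 (fun x => cr (w x) (b x))) ≤ C * √(hs univ 3 b) * √(hs univ 0 w) ∧
    √(hs univ 0 (fun x => cr (w x) (b x))) ≤ C * √(hs univ 0 b) * √(hs univ 3 w)
  high : ∀ R : ℝ, 0 < R → ∀ k : ℕ, ∃ C : ℝ, 0 ≤ C ∧ ∀ w b : E → E, In R w → In R b →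
    √(hs univ k (fun x => cr (w x) (b x))) ≤ C * √(hs univ (k + 3) b) * √(hs univ (k + 3) w)

/-- AEN (energy inequality in the gauge `EqA`, `k ≥ 5`, `κ = max (k-1) 5`). -/
def SpecAen : Prop := ∀ R : ℝ, 0 < R → ∀ k : ℕ, 5 ≤ k → ∃ C : ℝ, 0 ≤ C ∧
  ∀ b m g : ℝ × E → E, InT R b → InT R m → InT R g → ∀ t : ℝ,
    (∀ x, dt m (t, x) + cr (curl (sl m t) x) (b (t, x)) = g (t, x)) →
    ∃ y' : ℝ, HasDerivAt (fun s => nq univ k (sl m s)) y' t ∧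
      |y'| ≤ C * (√(hs univ (max (k - 1) 5 + 1) (sl b t)) * nq univ k (sl m t) +
        √(hs univ (k + 1) (sl b t)) * √(hs univ (max (k - 1) 5) (curl (sl m t))) *
          √(nq univ k (sl m t)) +
        √(nq univ k (sl m t)) * √(nq univ k (sl g t)))

/-- DHS (time derivative of `hs univ k`). -/
def SpecDhs : Prop := ∀ R : ℝ, 0 < R → ∀ (k : ℕ) (m : ℝ × E → E), InT R m → ∀ t : ℝ,
  ∃ y' : ℝ, HasDerivAt (fun s => hs univ k (sl m s)) y' t ∧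
    |y'| ≤ 2 * √(hs univ k (sl m t)) * √(hs univ k (sl (dt m) t))

/-! ### modules: linear existence -/

/-- LINT (linear transport of 1-forms, by the flow of `b`). -/
def SpecLinT : Prop := ∀ (R : ℝ), 0 < R → ∀ (b F : ℝ × E → E) (m0 : E → E), InT R b → InT R F →
  In R m0 → ∃ m : ℝ × E → E, InT R m ∧ sl m 0 = m0 ∧
    ∀ t x, dt m (t, x) + lie (sl b t) (sl m t) x = F (t, x)

/-- LINA (the same in the gauge `EqA`: add `gr ∫ b·m`). -/
def SpecLinA : Prop := ∀ (R : ℝ), 0 < R → ∀ (b F : ℝ × E → E) (m0 : E → E), InT R b → InT R F →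
  In R m0 → ∃ m : ℝ × E → E, InT R m ∧ sl m 0 = m0 ∧ EqA b F m

/-! ### modules: Gronwall lemmas (real analysis) -/

/-- GRON1. -/
def SpecGron1 : Prop := ∀ (T0 : ℝ) (α γ z Y : ℝ → ℝ), 0 < T0 → Continuous α → Continuous γ →
  (∀ t, 0 ≤ α t) → (∀ t, 0 ≤ γ t) → (∀ t, 0 ≤ Y t) → Y 0 = 0 →
  (∀ t, |t| ≤ T0 →
    z t ≤ |∫ s in (0 : ℝ)..t, γ s| * Real.exp (2 * |∫ s in (0 : ℝ)..t, α s|)) →
  (∀ t, |t| ≤ T0 → ∃ y', HasDerivAt Y y' t ∧
    |y'| ≤ 2 * √(Y t) * (α t * √(Y t) + α t * z t + γ t)) →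
  ∀ t, |t| ≤ T0 →
    √(Y t) ≤ |∫ s in (0 : ℝ)..t, γ s| * Real.exp (2 * |∫ s in (0 : ℝ)..t, α s|)

/-- GRON2. -/
def SpecGron2 : Prop := ∀ (T0 A : ℝ) (Y : ℕ → ℝ → ℝ), 0 < T0 → 0 ≤ A → (∀ n t, 0 ≤ Y n t) →
  (∀ t, Y 0 t ≤ A) → (∀ n, Y n 0 ≤ A) →
  (∀ n t, ∃ y', HasDerivAt (Y (n + 1)) y' t ∧ |y'| ≤ A * (1 + Y (n + 1) t + Y n t)) →
  (∀ n t, T0 ≤ |t| → HasDerivAt (Y (n + 1)) 0 t) →
  ∃ B : ℝ, ∀ n t, Y n t ≤ B

/-- GRON3. -/
def SpecGron3 : Prop := ∀ (T0 A : ℝ) (Y : ℕ → ℝ → ℝ), 0 < T0 → 0 ≤ A → (∀ n t, 0 ≤ Y n t) →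
  (∀ t, Y 0 t ≤ A) → (∀ n, Y n 0 = 0) →
  (∀ n t, ∃ y', HasDerivAt (Y (n + 1)) y' t ∧ |y'| ≤ A * (Y (n + 1) t + Y n t)) →
  (∀ n t, T0 ≤ |t| → HasDerivAt (Y (n + 1)) 0 t) →
  ∃ B : ℝ, 0 ≤ B ∧ ∀ n t, Y n t ≤ B * (B ^ n / (n.factorial : ℝ))

/-! ### modules: the iteration -/

/-- the Picard iterates -/
structure Iter (R : ℝ) (P : ℝ → (E → E) → (E → E)) (V F : ℝ × E → E) (m : ℕ → ℝ × E → E) :
    Prop where
  smooth : ∀ n, InT R (m n)
  zero : m 0 = V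
  init : ∀ n, sl (m n) 0 = sl V 0
  step : ∀ n, EqA (vel P (m n)) F (m (n + 1))

/-- the common data -/
structure Data (R T0 : ℝ) (P : ℝ → (E → E) → (E → E)) (κ : ℕ → ℝ → ℝ) (V F g : ℝ × E → E) :
    Prop where
  R_pos : 0 < R
  T_pos : 0 < T0
  law : VLaw R T0 P κ
  V_in : InT R V
  F_in : InT R F
  g_in : InT R g
  F_supp : ∀ t x, T0 ≤ |t| → F (t, x) = 0
  g_supp : ∀ t x, T0 ≤ |t| → g (t, x) = 0
  eq : EqA (vel P V) (fun p => F p + g p) V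

/-- VLB (a velocity law kills nothing but is zero for large times; smoothness of velocities;
large times; everything is constant in time for `T0 ≤ |t|`). -/
structure SpecVlb : Prop where
  smooth : ∀ R T0 P κ, 0 < R → VLaw R T0 P κ → ∀ m, InT R m → InT R (vel P m)
  zero : ∀ R T0 P κ, 0 < R → VLaw R T0 P κ → ∀ t f x, T0 ≤ |t| → In R f → P t f x = 0
  sub : ∀ R T0 P κ, 0 < R → VLaw R T0 P κ → ∀ t (f g : E → E), In R f → In R g →
    P t (fun x => f x - g x) = fun x => P t f x - P t g x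
  const : ∀ (R T0 : ℝ), 0 < R → 0 < T0 → ∀ m : ℝ × E → E, InT R m →
    (∀ t x, T0 ≤ |t| → dt m (t, x) = 0) → ∀ k, ∃ B, ∀ t, hs univ k (sl m t) ≤ B

/-- ITEX. -/
def SpecItEx : Prop := ∀ R T0 P κ V F g, Data R T0 P κ V F g → ∃ m, Iter R P V F m

/-- ITBASE. -/
def SpecItBase : Prop := ∀ R : ℝ, 0 < R → ∃ C : ℝ, 0 ≤ C ∧
  ∀ T0 P κ V F g, Data R T0 P κ V F g → ∀ m, Iter R P V F m →
  ∀ α γ : ℝ → ℝ, Continuous α → Continuous γ → (∀ t, 0 ≤ α t) → (∀ t, 0 ≤ γ t) →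
    (∀ t, C * κ 5 t * (1 + √(nq univ 6 (sl V t))) ≤ α t) →
    (∀ t, C * √(nq univ 5 (sl g t)) ≤ γ t) →
    (∀ t, |t| ≤ T0 →
      |∫ s in (0 : ℝ)..t, γ s| * Real.exp (2 * |∫ s in (0 : ℝ)..t, α s|) ≤ 1) →
    ∀ n t, |t| ≤ T0 → √(nq univ 5 (fun x => m n (t, x) - V (t, x))) ≤
      |∫ s in (0 : ℝ)..t, γ s| * Real.exp (2 * |∫ s in (0 : ℝ)..t, α s|)

/-- ITHIGH (uniform bounds at every level, from the uniform bound at level 5). -/
def SpecItHigh : Prop := ∀ R T0 P κ V F g, Data R T0 P κ V F g → ∀ m, Iter R P V F m →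
  (∃ B, ∀ n t, nq univ 5 (sl (m n) t) ≤ B) → ∀ k, ∃ B, ∀ n t, nq univ k (sl (m n) t) ≤ B

/-- ITM (uniform bounds for the full norms). -/
def SpecItM : Prop := ∀ R T0 P κ V F g, Data R T0 P κ V F g → ∀ m, Iter R P V F m →
  (∀ k, ∃ B, ∀ n t, nq univ k (sl (m n) t) ≤ B) → ∀ k, ∃ B, ∀ n t, hs univ k (sl (m n) t) ≤ B

/-- ITDIFF (factorial decay of the differences, `nq` and then `hs`). -/
structure SpecItDiff : Prop where
  nq : ∀ R T0 P κ V F g, Data R T0 P κ V F g → ∀ m, Iter R P V F m →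
    (∀ k, ∃ B, ∀ n t, MPfab.nq univ k (sl (m n) t) ≤ B) → ∀ k, ∃ B : ℝ, 0 ≤ B ∧ ∀ n t,
      MPfab.nq univ k (fun x => m (n + 1) (t, x) - m n (t, x)) ≤ B * (B ^ n / (n.factorial : ℝ))
  hs : ∀ R T0 P κ V F g, Data R T0 P κ V F g → ∀ m, Iter R P V F m →
    (∀ k, ∃ B, ∀ n t, MPfab.nq univ k (sl (m n) t) ≤ B) → ∀ k, ∃ a : ℕ → ℝ, Summable a ∧ ∀ n t,
      √(MPfab.hs univ k (fun x => m (n + 1) (t, x) - m n (t, x))) ≤ a n

/-- LIM (limits of sequences with summable differences). -/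
def SpecLimC : Prop := ∀ (R : ℝ), 0 < R → ∀ (m : ℕ → ℝ × E → E), (∀ n, InC R 0 (m n)) →
  (∀ k, ∃ a : ℕ → ℝ, Summable a ∧ ∀ n t,
      √(hs univ k (fun x => m (n + 1) (t, x) - m n (t, x))) ≤ a n) →
  ∃ M : ℝ × E → E, InC R 0 M ∧
    (∀ L : List (Fin 3), TendstoUniformly (fun n (p : ℝ × E) => pds L (sl (m n) p.1) p.2)
      (fun p => pds L (sl M p.1) p.2) Filter.atTop) ∧
    ∀ k, ∃ a : ℕ → ℝ, Filter.Tendsto a Filter.atTop (nhds 0) ∧
      ∀ n t, √(hs univ k (fun x => m n (t, x) - M (t, x))) ≤ a n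

/-- LIMEQ (the limit satisfies the integrated equation). -/
def SpecLimEq : Prop := ∀ R T0 P κ V F g, Data R T0 P κ V F g → ∀ m, Iter R P V F m →
  ∀ M : ℝ × E → E, InC R 0 M →
    (∀ k, ∃ a : ℕ → ℝ, Filter.Tendsto a Filter.atTop (nhds 0) ∧
      ∀ n t, √(hs univ k (fun x => m n (t, x) - M (t, x))) ≤ a n) →
    ∀ t x, M (t, x) = V (0, x) +
      ∫ s in (0 : ℝ)..t, (F (s, x) - cr (curl (sl M s) x) (P s (sl M s) x))

/-- BOOT (regularity in time). -/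
def SpecBoot : Prop := ∀ R T0 P κ V F g, Data R T0 P κ V F g →
  ∀ M : ℝ × E → E, InC R 0 M →
    (∀ t x, M (t, x) = V (0, x) +
      ∫ s in (0 : ℝ)..t, (F (s, x) - cr (curl (sl M s) x) (P s (sl M s) x))) →
    InT R M ∧ sl M 0 = sl V 0 ∧ EqA (vel P M) F M

end MPfab
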