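import Pool.Agent.Lib.MP_fabde4_an.SpecB
import Pool.Agent.Lib.MP_fabde4_an.SpecP

/-!
MP_fabde4_an, part M (helper88): pull-backs and the moving frame, words of control fields, averaging,
the relaxed solution (level 1), the real solution (level 2), mixture phase, final assembly.
Text: /team-store/MP_fabde4_an_PARTM.md.
-/

set_option autoImplicit false
open MeasureTheory Set Filter Topology

namespace MPfab

/-! ### diffeomorphisms and pull-backs -/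

/-- derivatives of order `1, …, k` bounded by `K` -/
def DB (k : ℕ) (K : ℝ) (Φ : E → E) : Prop :=
  ∀ L : List (Fin 3), 1 ≤ L.length → L.length ≤ k → ∀ x, ‖pds L Φ x‖ ≤ K

/-- mutually inverse diffeomorphisms, equal to the identity outside the ball of radius `R` -/
structure Dif (R : ℝ) (Φ Ψ : E → E) : Prop where
  smooth : Sm Φ
  smoothi : Sm Ψ
  left : ∀ x, Ψ (Φ x) = x
  right : ∀ x, Φ (Ψ x) = x
  out : ∀ x, R ≤ ‖x‖ → Φ x = x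

/-- pull back of 1-forms -/
noncomputable def pb (Φ m : E → E) (x : E) : E :=
  WithLp.toLp 2 fun i => ∑ j, pd i Φ x j * m (Φ x) j

/-- pull back of vector fields (`Ψ` is the inverse of `Φ`) -/
noncomputable def pv (Φ Ψ b : E → E) (x : E) : E := fderiv ℝ Ψ (Φ x) (b (Φ x))

/-! ### calculus of bounds -/

/-- CMUL (80) -/
def SpecCmul : Prop := ∀ k : ℕ, ∃ C : ℝ, 0 ≤ C ∧
  ∀ (F : Type) [NormedAddCommGroup F] [NormedSpace ℝ F] (a : E → ℝ) (f : E → F) (c c' : ℝ),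
    Sm a → Sm f → Bd univ k a c → Bd univ k f c' → Bd univ k (fun x => a x • f x) (C * c * c')

/-- CCOMP (100, from CMUL) -/
def SpecCcomp : Prop := ∀ (k : ℕ) (K : ℝ), ∃ C : ℝ, 0 ≤ C ∧
  ∀ (F : Type) [NormedAddCommGroup F] [NormedSpace ℝ F] (f : E → F) (Φ : E → E) (c : ℝ),
    Sm f → Sm Φ → DB k K Φ → Bd univ k f c → Bd univ k (fun x => f (Φ x)) (C * c)

/-- CDIFF (150, from CMUL, CCOMP) -/
def SpecCdiff : Prop := ∀ (k : ℕ) (K : ℝ), ∃ C : ℝ, 0 ≤ C ∧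
  ∀ (F : Type) [NormedAddCommGroup F] [NormedSpace ℝ F] (f : E → F) (Φ Φ' : E → E) (c η : ℝ),
    Sm f → Sm Φ → Sm Φ' → DB k K Φ → DB k K Φ' → Bd univ (k + 1) f c →
    Bd univ k (fun x => Φ x - Φ' x) η → Bd univ k (fun x => f (Φ x) - f (Φ' x)) (C * c * η)

/-- CHS (60) -/
def SpecChs : Prop := ∀ (R : ℝ) (k : ℕ), ∃ C : ℝ, 0 ≤ C ∧
  ∀ (F : Type) [NormedAddCommGroup F] [NormedSpace ℝ F] (f : E → F) (c : ℝ), In R f →
    Bd univ k f c → √(hs univ k f) ≤ C * c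

/-- HMUL (80) -/
def SpecHmul : Prop := ∀ k : ℕ, ∃ C : ℝ, 0 ≤ C ∧
  ∀ (F : Type) [NormedAddCommGroup F] [NormedSpace ℝ F] (R : ℝ) (a : E → ℝ) (f : E → F) (c : ℝ),
    Sm a → Bd univ k a c → In R f → √(hs univ k (fun x => a x • f x)) ≤ C * c * √(hs univ k f)

/-- HCOMP (150, from HMUL; change of variables) -/
def SpecHcomp : Prop := ∀ (R : ℝ) (k : ℕ) (K : ℝ), ∃ C : ℝ, 0 ≤ C ∧
  ∀ Φ Ψ : E → E, Dif R Φ Ψ → DB (max k 1) K Φ → DB 1 K Ψ →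
  ∀ (F : Type) [NormedAddCommGroup F] [NormedSpace ℝ F] (f : E → F), In R f →
    √(hs univ k (fun x => f (Φ x))) ≤ C * √(hs univ k f)

/-- CPT (200): smooth families over a compact parameter set -/
structure SpecCpt : Prop where
  bd : ∀ (W F : Type) [NormedAddCommGroup W] [NormedSpace ℝ W] [FiniteDimensional ℝ W]
    [NormedAddCommGroup F] [NormedSpace ℝ F] (R : ℝ) (f : W × E → F), Sm f →
    (∀ w x, R ≤ ‖x‖ → f (w, x) = 0) → ∀ K : Set W, IsCompact K → ∀ k : ℕ, ∃ c : ℝ, ∀ w ∈ K,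
      Bd univ k (fun x => f (w, x)) c
  uc : ∀ (W F : Type) [NormedAddCommGroup W] [NormedSpace ℝ W] [FiniteDimensional ℝ W]
    [NormedAddCommGroup F] [NormedSpace ℝ F] (R : ℝ) (f : W × E → F), Sm f →
    (∀ w x, R ≤ ‖x‖ → f (w, x) = 0) → ∀ K : Set W, IsCompact K → ∀ (k : ℕ) (η : ℝ), 0 < η →
      ∃ δ : ℝ, 0 < δ ∧ ∀ w ∈ K, ∀ w' ∈ K, ‖w - w'‖ < δ →
        Bd univ k (fun x => f (w, x) - f (w', x)) η
  db : ∀ (W : Type) [NormedAddCommGroup W] [NormedSpace ℝ W] [FiniteDimensional ℝ W] (R : ℝ)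
    (Φ : W × E → E), Sm Φ → (∀ w x, R ≤ ‖x‖ → Φ (w, x) = x) → ∀ K : Set W, IsCompact K →
    ∀ k : ℕ, ∃ c : ℝ, ∀ w ∈ K, DB k c (fun x => Φ (w, x))

/-! ### the algebra of pull-backs -/

/-- PBALG (250) -/
structure SpecPbAlg : Prop where
  inp : ∀ (R : ℝ) (Φ Ψ m : E → E), Dif R Φ Ψ → In R m → In R (pb Φ m)
  inv : ∀ (R : ℝ) (Φ Ψ b : E → E), Dif R Φ Ψ → In R b → In R (pv Φ Ψ b)
  gr : ∀ (Φ : E → E) (q : E → ℝ), Sm Φ → Sm q → ∀ x, pb Φ (gr q) x = gr (fun y => q (Φ y)) x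
  comp : ∀ (Φ Φ' m : E → E), Sm Φ → Sm Φ' → ∀ x, pb Φ (pb Φ' m) x = pb (fun y => Φ' (Φ y)) m x
  id : ∀ (m : E → E) x, pb (fun y => y) m x = m x
  cr : ∀ (R : ℝ) (Φ Ψ m b : E → E), Dif R Φ Ψ → Sm m → ∀ x,
    cr (curl (pb Φ m) x) (pv Φ Ψ b x) = pb Φ (fun y => MPfab.cr (curl m y) (b y)) x
  lie : ∀ (b m : E → E), Sm b → Sm m → ∀ x, lie b m x =
    MPfab.cr (curl m x) (b x) + MPfab.gr (fun y => inner ℝ (b y) (m y)) x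
  dif : ∀ (R : ℝ) (Φ Ψ : E → E), Dif R Φ Ψ → Dif R Ψ Φ

/-- PBDT (150): time derivative of a pull-back along a flow -/
def SpecPbDt : Prop := ∀ (Φ b m : ℝ × E → E), Sm Φ → Sm b → Sm m →
  (∀ t x, HasDerivAt (fun s => Φ (s, x)) (b (t, Φ (t, x))) t) → ∀ t x,
    HasDerivAt (fun s => pb (sl Φ s) (sl m s) x)
      (pb (sl Φ t) (fun y => dt m (t, y) + lie (sl b t) (sl m t) y) x) t

/-- PBSM (100): joint smoothness -/
structure SpecPbSm : Prop where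
  pb : ∀ (W : Type) [NormedAddCommGroup W] [NormedSpace ℝ W] [FiniteDimensional ℝ W]
    (Φ m : W × E → E), Sm Φ → Sm m →
    Sm fun p : W × E => MPfab.pb (fun x => Φ (p.1, x)) (fun x => m (p.1, x)) p.2
  pv : ∀ (W : Type) [NormedAddCommGroup W] [NormedSpace ℝ W] [FiniteDimensional ℝ W]
    (Φ Ψ b : W × E → E), Sm Φ → Sm Ψ → Sm b →
    Sm fun p : W × E => MPfab.pv (fun x => Φ (p.1, x)) (fun x => Ψ (p.1, x))
      (fun x => b (p.1, x)) p.2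

/-- PBB (200, from HMUL, HCOMP, CMUL): the pull-backs are bounded -/
def SpecPbb : Prop := ∀ (R : ℝ) (k : ℕ) (K : ℝ), ∃ C : ℝ, 0 ≤ C ∧
  ∀ Φ Ψ : E → E, Dif R Φ Ψ → DB (k + 2) K Φ → DB (k + 2) K Ψ →
    (∀ m, In R m → √(nq univ k (pb Φ m)) ≤ C * √(nq univ k m)) ∧
    (∀ b, In R b → √(hs univ (k + 1) (pv Φ Ψ b)) ≤ C * √(hs univ (k + 1) b))

/-- PBC (200, from CMUL, CCOMP, CDIFF): the pull-backs depend continuously on the map -/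
def SpecPbc : Prop := ∀ (k : ℕ) (K : ℝ), ∃ C : ℝ, 0 ≤ C ∧
  ∀ (R : ℝ) (Φ Ψ Φ' Ψ' : E → E) (η : ℝ), Dif R Φ Ψ → Dif R Φ' Ψ' →
    DB (k + 2) K Φ → DB (k + 2) K Ψ → DB (k + 2) K Φ' → DB (k + 2) K Ψ' →
    Bd univ (k + 1) (fun x => Φ x - Φ' x) η → Bd univ (k + 1) (fun x => Ψ x - Ψ' x) η →
    (∀ m c, Sm m → Bd univ (k + 1) m c →
      Bd univ k (fun x => pb Φ m x - pb Φ' m x) (C * c * η)) ∧
    (∀ b c, Sm b → Bd univ (k + 1) b c →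
      Bd univ k (fun x => pv Φ Ψ b x - pv Φ' Ψ' b x) (C * c * η))

/-! ### the moving law -/

/-- INCPULL (200, from INCALG): pull-backs preserve the classes `InC` -/
structure SpecIncPull : Prop where
  comp : ∀ (F : Type) [NormedAddCommGroup F] [NormedSpace ℝ F] (R : ℝ) (j : ℕ) (Φ : ℝ × E → E)
    (m : ℝ × E → F), 0 < R → Sm Φ → (∀ t x, R ≤ ‖x‖ → Φ (t, x) = x) → InC R j m →
    InC R j (fun p => m (p.1, Φ p))
  pb : ∀ (R : ℝ) (j : ℕ) (Φ Ψ m : ℝ × E → E), 0 < R → Sm Φ → Sm Ψ →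
    (∀ t, Dif R (sl Φ t) (sl Ψ t)) → InC R j m →
    InC R j (fun p => MPfab.pb (sl Φ p.1) (sl m p.1) p.2)
  pv : ∀ (R : ℝ) (j : ℕ) (Φ Ψ b : ℝ × E → E), 0 < R → Sm Φ → Sm Ψ →
    (∀ t, Dif R (sl Φ t) (sl Ψ t)) → InC R j b →
    InC R j (fun p => MPfab.pv (sl Φ p.1) (sl Ψ p.1) (sl b p.1) p.2)

/-- operators with the gain of one derivative over the vorticity -/
structure LOp (R : ℝ) (P : (E → E) → E → E) : Prop where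
  cop : COp R P
  gain : ∀ k : ℕ, ∃ C : ℝ, 0 ≤ C ∧ ∀ m, In R m → √(hs univ (k + 1) (P m)) ≤ C * √(nq univ k m)

/-- LOP (60) -/
def SpecLop : Prop := ∀ (ρ : E → ℝ) (R : ℝ) (P : (E → E) → E → E) (Q : (E → E) → E → ℝ),
  Dom ρ → Leray ρ R P Q → LOp R P

/-- convex combination of two laws -/
noncomputable def mix (P1 P2 : (E → E) → E → E) (a : ℝ) (m : E → E) (x : E) : E :=
  (1 - a) • P1 m x + a • P2 m x

/-- the law in the moving frame `Φ` (`Ψ` = inverse), time cutoff `κ`, mixture `a` -/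
noncomputable def mlaw (P1 P2 : (E → E) → E → E) (Φ Ψ : ℝ × E → E) (κ a : ℝ → ℝ) (t : ℝ)
    (M : E → E) (x : E) : E :=
  κ t • pv (sl Φ t) (sl Ψ t) (mix P1 P2 (a t) (pb (sl Ψ t) M)) x

/-- MOV (250, from PBALG, PBB, INCPULL, INCOP, INCALG, CPT) -/
def SpecMov : Prop := ∀ (R : ℝ) (P1 P2 : (E → E) → E → E), 0 < R → LOp R P1 → LOp R P2 →
  ∃ Cf : ℝ → ℝ, ∀ (T0 : ℝ) (κ a : ℝ → ℝ) (Φ Ψ : ℝ × E → E), 0 < T0 → Sm κ → Sm a →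
    (∀ t, T0 ≤ |t| → κ t = 0) → (∀ t, 0 ≤ a t ∧ a t ≤ 1) → Sm Φ → Sm Ψ →
    (∀ t, Dif R (sl Φ t) (sl Ψ t)) →
    ∃ κ' : ℕ → ℝ → ℝ, VLaw R T0 (mlaw P1 P2 Φ Ψ κ a) κ' ∧
      ∀ t K, DB 7 K (sl Φ t) → DB 7 K (sl Ψ t) → κ' 5 t ≤ Cf K * |κ t|

/-- FASTB (100, from PBB, HMUL, CHS): crude bound of the nonlinear term -/
def SpecFastB : Prop := ∀ (R : ℝ) (P1 P2 : (E → E) → E → E), 0 < R → LOp R P1 → LOp R P2 →
  ∀ K : ℝ, ∃ C : ℝ, ∀ (Φ Ψ M : E → E) (a : ℝ), Dif R Φ Ψ → DB 8 K Φ → DB 8 K Ψ → In R M →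
    Bd univ 8 M K → 0 ≤ a → a ≤ 1 →
    √(nq univ 6 M) ≤ C ∧
    √(nq univ 5 (fun x => cr (curl M x) (pv Φ Ψ (mix P1 P2 a (pb Ψ M)) x))) ≤ C

/-- CONT (250, from PBC, PBB, CPT, HMUL, CHS, INCOP): continuity of the nonlinear term in the frame -/
def SpecCont : Prop := ∀ (R T : ℝ) (P : (E → E) → E → E) (B : E → E) (FB u : ℝ × E → E),
  0 < R → LOp R P → In R B → IsFlow B FB → (∀ s x, R ≤ ‖x‖ → FB (s, x) = x) → InT R u →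
  ∀ η : ℝ, 0 < η → ∃ δ : ℝ, 0 < δ ∧ ∀ t : ℝ, 0 ≤ t → t ≤ T → ∀ Φ Ψ S : E → E, Dif R Φ Ψ →
    Bd univ 8 (fun x => Φ x - FB (t, x)) δ → Bd univ 8 (fun x => Ψ x - FB (-t, x)) δ →
    In R S → Bd univ 8 S δ →
    √(nq univ 5 (fun x =>
      cr (curl (fun y => pb (sl FB t) (sl u t) y + S y) x)
        (pv Φ Ψ (P (pb Ψ (fun y => pb (sl FB t) (sl u t) y + S y))) x) -
      cr (curl (pb (sl FB t) (sl u t)) x)
        (pv (sl FB t) (sl FB (-t)) (P (sl u t)) x))) ≤ η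

/-! ### flows of words -/

/-- flow of a time dependent field from time `0`, with its inverse -/
structure WF (R : ℝ) (c Θ Θi : ℝ × E → E) : Prop where
  field : InT R c
  smooth : Sm Θ
  smoothi : Sm Θi
  zero : ∀ x, Θ (0, x) = x
  deriv : ∀ s x, HasDerivAt (fun r => Θ (r, x)) (c (s, Θ (s, x))) s
  left : ∀ s x, Θi (s, Θ (s, x)) = x
  right : ∀ s x, Θ (s, Θi (s, x)) = x
  out : ∀ s x, R ≤ ‖x‖ → Θ (s, x) = x

/-- WFL (250, from FLOWT, FLOWA): flows of words -/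
structure SpecWfl : Prop where
  one : ∀ (R : ℝ) (X : E → E) (F : ℝ × E → E) (γ : ℝ → ℝ), In R X → IsFlow X F →
    (∀ s x, R ≤ ‖x‖ → F (s, x) = x) → Sm γ → γ 0 = 0 →
    WF R (fun p => _root_.deriv γ p.1 • X p.2) (fun p => F (γ p.1, p.2)) fun p => F (-γ p.1, p.2)
  cat : ∀ (R s0 : ℝ) (c1 Θ1 Θ1i c2 Θ2 Θ2i : ℝ × E → E), WF R c1 Θ1 Θ1i → WF R c2 Θ2 Θ2i →
    0 ≤ s0 → (∀ s x, s0 ≤ s → c1 (s, x) = 0) → (∀ s x, s ≤ s0 → c2 (s, x) = 0) →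
    WF R (fun p => c1 p + c2 p) (fun p => Θ2 (p.1, Θ1 p)) fun p => Θ1i (p.1, Θ2i p)
  time : ∀ (R : ℝ) (c Θ Θi : ℝ × E → E) (σ : ℝ → ℝ), WF R c Θ Θi → Sm σ → σ 0 = 0 →
    WF R (fun p => _root_.deriv σ p.1 • c (σ p.1, p.2)) (fun p => Θ (σ p.1, p.2))
      fun p => Θi (σ p.1, p.2)
  const : ∀ (R s0 s1 : ℝ) (c Θ Θi : ℝ × E → E), WF R c Θ Θi → s0 ≤ s1 →
    (∀ s x, s0 ≤ s → s ≤ s1 → c (s, x) = 0) → ∀ x, Θ (s1, x) = Θ (s0, x)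
  dif : ∀ (R : ℝ) (c Θ Θi : ℝ × E → E), WF R c Θ Θi → ∀ s, Dif R (sl Θ s) (sl Θi s)

/-- WFTAN (60, from FTAN): tangential fields preserve the domain -/
def SpecWftan : Prop := ∀ (ρ : E → ℝ) (R : ℝ) (c Θ Θi : ℝ × E → E), Dom ρ → WF R c Θ Θi →
  (∀ s, Tan ρ (sl c s)) → ∀ s x, (ρ (Θ (s, x)) < 0 ↔ ρ x < 0) ∧ (ρ (Θ (s, x)) = 0 ↔ ρ x = 0)

/-- WFREP (200, from WFL): `n`-fold repetition -/
def SpecWfrep : Prop := ∀ (R : ℝ) (c Θ Θi : ℝ × E → E) (n : ℕ), WF R c Θ Θi →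
  (∀ s x, (s ≤ 0 ∨ 1 ≤ s) → c (s, x) = 0) → ∃ ΘN ΘNi : ℝ × E → E,
    WF R (fun p => ∑ k ∈ Finset.range n, c (p.1 - k, p.2)) ΘN ΘNi ∧
    (∀ (k : ℕ) (x : E), k ≤ n → ΘN ((k : ℝ), x) = (fun y => Θ (1, y))^[k] x ∧
      ΘNi ((k : ℝ), x) = (fun y => Θi (1, y))^[k] x) ∧
    ∀ (k : ℕ) (s : ℝ) (x : E), k < n → 0 ≤ s → s ≤ 1 →
      ΘN ((k : ℝ) + s, x) = Θ (s, (fun y => Θ (1, y))^[k] x)

/-- words: finite combinations of fields of a class with time dependent coefficients -/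
def Word (Cl : (E → E) → Prop) (c : ℝ × E → E) : Prop :=
  ∃ (N : ℕ) (lam : Fin N → ℝ → ℝ) (X : Fin N → E → E), (∀ i, Sm (lam i)) ∧ (∀ i, Cl (X i)) ∧
    ∀ p, c p = ∑ i, lam i p.1 • X i p.2

/-- displacement families: words `w r` on `[0,1/2]` whose flow is `x + r² β(r,x)` -/
structure Dsp (Cl : (E → E) → Prop) (R : ℝ) (w : ℝ → ℝ × E → E) (φ φi β βi : ℝ × E → E)
    (B : E → E) : Prop where
  word : ∀ r, Word Cl (w r)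
  supp : ∀ r s x, (s ≤ 0 ∨ 1 / 2 ≤ s) → w r (s, x) = 0
  flow : ∀ r, ∃ Θ Θi : ℝ × E → E, WF R (w r) Θ Θi ∧
    ∀ s x, 1 / 2 ≤ s → Θ (s, x) = φ (r, x) ∧ Θi (s, x) = φi (r, x)
  sm : Sm β
  smi : Sm βi
  out : ∀ r x, R ≤ ‖x‖ → β (r, x) = 0 ∧ βi (r, x) = 0
  exp : ∀ r x, φ (r, x) = x + r ^ 2 • β (r, x)
  expi : ∀ r x, φi (r, x) = x + r ^ 2 • βi (r, x)
  zero : ∀ x, β (0, x) = B x
  zeroi : ∀ x, βi (0, x) = -B x

/-- COMM (350, from WFL, FLOWA): commutators of flows -/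
def SpecComm : Prop := ∀ (R : ℝ) (Cl : (E → E) → Prop) (N : ℕ) (X Y : Fin N → E → E) (H : E → E),
  0 < R → (∀ Z, Cl Z → In R Z) → (∀ i, Cl (X i)) → (∀ i, Cl (Y i)) → Cl H →
  ∃ (w : ℝ → ℝ × E → E) (φ φi β βi : ℝ × E → E),
    Dsp Cl R w φ φi β βi fun x => H x + ∑ i, brk (X i) (Y i) x

/-- AVG (300, from CDIFF, CPT): iterates of `x + r² β(r,x)` converge to the flow of `β(0,·)` -/
def SpecAvg : Prop := ∀ (R : ℝ) (β FB : ℝ × E → E), 0 < R → Sm β →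
  (∀ r x, R ≤ ‖x‖ → β (r, x) = 0) → IsFlow (fun x => β (0, x)) FB →
  (∀ s x, R ≤ ‖x‖ → FB (s, x) = x) → ∀ (k : ℕ) (T η : ℝ), 0 < T → 0 < η →
  ∃ r0 : ℝ, 0 < r0 ∧ ∀ r : ℝ, 0 < r → r < r0 → ∀ n : ℕ, (n : ℝ) * r ^ 2 ≤ T →
    Bd univ k (fun x => (fun y => y + r ^ 2 • β (r, y))^[n] x - FB ((n : ℝ) * r ^ 2, x)) η

end MPfab
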