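import Pool.Agent.Lib.MP_fabde4_an.SpecP
import Pool.Agent.Lib.MP_fabde4_an.SpecB

/-!
MP_fabde4_an, part F (helper59): the freeze algebra on the boundary, the ideal path as a formal
power series in `ρ`, the last target, transitivity of the control flows.
Text: /team-store/MP_fabde4_an_F.md.
-/

set_option autoImplicit false
open MeasureTheory Set

namespace MPfab

/-- Neumann function, harmonic up to order `M` at the boundary -/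
structure FH (ρ : E → ℝ) (M : ℕ) (f : E → ℝ) : Prop where
  smooth : Sm f
  neu : Tan ρ (gr f)
  harm : ∃ h : E → ℝ, Sm h ∧ ∀ x, lap f x = ρ x ^ M * h x

/-! ### (5a): every tangential field on the boundary is a gradient plus brackets of gradients -/

/-- THETA: a smooth function equal to `1/|∇ρ|²` on the boundary (`|N|²/(|N|⁴+ρ²)`). -/
def SpecTheta : Prop := ∀ ρ : E → ℝ, Dom ρ → ∃ θ : E → ℝ, Sm θ ∧
  ∀ x, ρ x = 0 → θ x * ‖gr ρ x‖ ^ 2 = 1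

/-- NEUC: Neumann correction `f - ρ θ (∇f·∇ρ)`. -/
def SpecNeuC : Prop := ∀ ρ : E → ℝ, Dom ρ → ∀ f : E → ℝ, Sm f → ∃ f' : E → ℝ, Sm f' ∧
  Tan ρ (gr f') ∧ (∀ x, ρ x = 0 → f' x = f x) ∧
  ∀ θ : E → ℝ, (∀ x, ρ x = 0 → θ x * ‖gr ρ x‖ ^ 2 = 1) → ∀ x, ρ x = 0 →
    gr f' x = gr f x - (θ x * inner ℝ (gr f x) (gr ρ x)) • gr ρ x

/-- HARM: formal harmonic correction. -/
def SpecHarm : Prop := ∀ ρ : E → ℝ, DomN ρ → ∀ (M : ℕ) (f : E → ℝ), Sm f → Tan ρ (gr f) →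
  ∃ k : E → ℝ, Sm k ∧ FH ρ M (fun x => f x + ρ x ^ 2 * k x)

/-- BRKG: on the boundary the bracket of tangential gradients does not see `O(ρ²)` corrections. -/
def SpecBrkG : Prop := ∀ ρ : E → ℝ, Sm ρ → ∀ f g k l : E → ℝ, Sm f → Sm g → Sm k → Sm l →
  Tan ρ (gr f) → Tan ρ (gr g) → ∀ x, ρ x = 0 →
    brk (gr fun y => f y + ρ y ^ 2 * k y) (gr fun y => g y + ρ y ^ 2 * l y) x =
      brk (gr f) (gr g) x ∧
    gr (fun y => f y + ρ y ^ 2 * k y) x = gr f x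

/-- the expression `S(h,χ) = [∇h,∇χ] + ∇⟨∇h,∇χ⟩ = 2 Hess χ ∇h` -/
noncomputable def Sx (h χ : E → ℝ) (x : E) : E :=
  brk (gr h) (gr χ) x + gr (fun y => inner ℝ (gr h y) (gr χ y)) x

/-- IDENT: the algebraic identity, `p(s) = s²/2 + c s`. -/
def SpecIdent : Prop := ∀ (h χ : E → ℝ) (c : ℝ), Sm h → Sm χ → ∀ x,
  -(3 * h x * (χ x + c) * ‖gr χ x‖ ^ 2) • gr χ x =
    (1 / 4 : ℝ) • Sx h (fun y => (χ y ^ 2 / 2 + c * χ y) ^ 2) x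
    - (1 / 2 : ℝ) • Sx (fun y => (χ y ^ 2 / 2 + c * χ y) * h y) (fun y => χ y ^ 2 / 2 + c * χ y) x
    - (1 / 4 : ℝ) • Sx (fun y => (χ y + c) ^ 2 * h y) (fun y => χ y ^ 2) x
    + (1 / 2 : ℝ) • Sx (fun y => χ y * ((χ y + c) ^ 2 * h y)) χ x

/-- CUBA: the cubature with 7 vectors; `a_T = a - (a·n) n` for a unit vector `n`. -/
def SpecCuba : Prop := ∃ (a : Fin 7 → E) (w : Fin 7 → ℝ), ∀ n X : E, ‖n‖ = 1 →
  inner ℝ X n = 0 →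
  ∑ i, (w i * ‖a i - inner ℝ (a i) n • n‖ ^ 2 * inner ℝ X (a i)) • (a i - inner ℝ (a i) n • n) = X

/-- BDRY (5a). -/
def SpecBdry : Prop := ∀ ρ : E → ℝ, DomN ρ → ∀ (M : ℕ) (X : E → E), Sm X → Tan ρ X →
  ∃ (n : ℕ) (F G : Fin n → E → ℝ) (H : E → ℝ), (∀ i, FH ρ M (F i)) ∧ (∀ i, FH ρ M (G i)) ∧
    FH ρ M H ∧ ∀ x, ρ x = 0 → X x = gr H x + ∑ i, brk (gr (F i)) (gr (G i)) x

/-- DIVB: divergence of the field of `BDRY` vanishes at the boundary. -/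
def SpecDivB : Prop := ∀ ρ : E → ℝ, DomN ρ → ∀ (n : ℕ) (F G : Fin n → E → ℝ) (H : E → ℝ),
  (∀ i, FH ρ 2 (F i)) → (∀ i, FH ρ 2 (G i)) → FH ρ 2 H → ∃ h : E → ℝ, Sm h ∧
    ∀ x, dv (fun y => gr H y + ∑ i, brk (gr (F i)) (gr (G i)) y) x = ρ x * h x

/-! ### (5b): the ideal path -/

/-- LODE: linear ODE with smooth parameters. -/
def SpecLode : Prop := ∀ (A : E → E →L[ℝ] E) (b : ℝ × E → E), Sm A → Sm b →
  ∃ Y : ℝ × E → E, Sm Y ∧ (∀ x, Y (0, x) = 0) ∧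
    ∀ t x, HasDerivAt (fun s => Y (s, x)) (A x (Y (t, x)) + b (t, x)) t

/-- the path of the jets -/
noncomputable def Vc (ρ : E → ℝ) (V0 : E → E) (C : ℝ × E → E) : ℝ × E → E :=
  fun p => V0 p.2 + curl (fun y => ρ y ^ 2 • C (p.1, y)) p.2

/-- the equation of the ideal path with a residual of order `j` -/
structure IdJ (ρ : E → ℝ) (V0 B : E → E) (j : ℕ) (C : ℝ × E → E) (q : ℝ × E → ℝ)
    (r : ℝ × E → E) : Prop where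
  smC : Sm C
  smq : Sm q
  smr : Sm r
  init : ∀ x, C (0, x) = 0
  eq : ∀ t x, dt (Vc ρ V0 C) (t, x) +
    cr (curl (sl (Vc ρ V0 C) t) x) (Vc ρ V0 C (t, x) + B x) = gr (sl q t) x + ρ x ^ j • r (t, x)

/-- IDBASE: the first step, `C = 0`, `q = 0`. -/
def SpecIdBase : Prop := ∀ (ρ : E → ℝ) (V0 B : E → E), DomN ρ → Sm V0 → Sm B →
  (∀ x, ρ x = 0 → V0 x + B x = 0) → ∃ r, IdJ ρ V0 B 1 (fun _ => 0) (fun _ => 0) r

/-- IDSTEP. -/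
def SpecIdStep : Prop := ∀ (ρ : E → ℝ) (V0 B : E → E), DomN ρ → Sm V0 → Sm B →
  (∀ x, ρ x = 0 → V0 x + B x = 0) → (∃ h : E → ℝ, Sm h ∧ ∀ x, dv V0 x + dv B x = ρ x * h x) →
  ∀ j C q r, 1 ≤ j → IdJ ρ V0 B j C q r → ∃ C' q' r', IdJ ρ V0 B (j + 1) C' q' r'

/-- IDEAL (5b). -/
def SpecIdeal : Prop := ∀ (ρ : E → ℝ) (V0 B : E → E), DomN ρ → Sm V0 → Sm B →
  (∀ x, ρ x = 0 → V0 x + B x = 0) → (∃ h : E → ℝ, Sm h ∧ ∀ x, dv V0 x + dv B x = ρ x * h x) →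
  ∀ j : ℕ, ∃ C q r, IdJ ρ V0 B j C q r

/-! ### (6): the last target -/

/-- FLATD: the divergence of a field of `InX` is divisible by every power of `ρ`. -/
def SpecFlatD : Prop := ∀ (ρ : E → ℝ) (g : E → ℝ), DomN ρ → Sm g → (∀ x, ρ x ≤ 0 → g x = 0) →
  ∀ M : ℕ, ∃ h : E → ℝ, Sm h ∧ ∀ x, g x = ρ x ^ M * h x

/-- CUTF: the field `u` cut to a thin layer at the boundary, bounded, almost divergence free. -/
def SpecCutF : Prop := ∀ (ρ : E → ℝ) (u : E → E), DomN ρ → InX ρ u → ∀ k : ℕ,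
  ∃ C : ℝ, 0 ≤ C ∧ ∀ δ : ℝ, 0 < δ → δ ≤ 1 → ∃ w : E → E, Sm w ∧
    (∀ x, |ρ x| ≤ δ → w x = u x) ∧ (∀ x, 2 * δ ≤ |ρ x| → w x = 0) ∧
    (∀ x ∈ D ρ, ‖w x‖ ≤ C) ∧ hs (D ρ) k (dv w) ≤ C * δ

/-- LAYER: thin layers have small volume. -/
def SpecLayer : Prop := ∀ (ρ : E → ℝ), Dom ρ → ∀ ε : ℝ, 0 < ε → ∃ δ0 : ℝ, 0 < δ0 ∧
  volume (D ρ ∩ {x | |ρ x| ≤ δ0}) < ENNReal.ofReal ε

/-- ELLD: sup norm of the potential part of a tangential field by its divergence. -/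
def SpecEllD : Prop := ∀ (ρ : E → ℝ) (R : ℝ) (P : (E → E) → E → E) (Q : (E → E) → E → ℝ),
  DomN ρ → IsConnected (D ρ) → Leray ρ R P Q → ∃ C : ℝ, 0 ≤ C ∧ ∀ w : E → E, Sm w → Tan ρ w →
    ∀ x ∈ D ρ, ‖gr (Q w) x‖ ^ 2 ≤ C * hs (D ρ) 2 (dv w)

/-- LAST (6). -/
def SpecLast : Prop := ∀ (ρ σ : E → ℝ) (R : ℝ) (P : (E → E) → E → E) (Q : (E → E) → E → ℝ),
  DomN ρ → DomN σ → D σ ⊆ D ρ → IsConnected (D ρ) → Leray ρ R P Q →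
  ∀ u v : E → E, InX ρ u → InX σ v → ∀ p : ENNReal, 1 ≤ p → p ≠ ⊤ → ∀ ε : ℝ, 0 < ε →
  ∃ w : E → E, Sm w ∧ Test (D ρ) (fun x => w x - u x) ∧
    eLpNorm (fun x => P w x - v x) p (volume.restrict (D σ)) < ENNReal.ofReal ε

/-! ### transitivity of the control flows -/

/-- CTAN: control fields are in `In R`, tangential, preserve the domain. -/
def SpecCTan : Prop := ∀ (ρ : E → ℝ) (R : ℝ) (P : (E → E) → E → E) (Q : (E → E) → E → ℝ)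
  (B : Set E) (Ψ : E → E), DomN ρ → Leray ρ R P Q → B ⊆ D ρ → Test B Ψ → 0 < R →
  In R (gr (Q Ψ)) ∧ Tan ρ (gr (Q Ψ))

/-- ORBIT. -/
def SpecOrbit : Prop := ∀ (ρ : E → ℝ) (R : ℝ) (P : (E → E) → E → E) (Q : (E → E) → E → ℝ)
  (B : Set E) (y : E), DomN ρ → IsConnected (D ρ) → Leray ρ R P Q → 0 < R → IsOpen B →
  B.Nonempty → B ⊆ D ρ → y ∈ D ρ →
  ∀ Fl : (E → E) → ℝ × E → E, (∀ Ψ, Test B Ψ → IsFlow (gr (Q Ψ)) (Fl Ψ)) →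
  ∃ L : List (E → E), (∀ Ψ ∈ L, Test B Ψ) ∧ L.foldl (fun x Ψ => Fl Ψ (1, x)) y ∈ B

end MPfab
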