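import Pool.Agent.Lib.MP_fabde4_an.SpecM
import Pool.Agent.Lib.MP_fabde4_an.SpecF

/-!
MP_fabde4_an, part N (helper88): the relaxed solution (level 1), the real solution (level 2), mixture
phase, final stage, pressure, assembly.  Text: /team-store/MP_fabde4_an_PARTN.md.
-/

set_option autoImplicit false
open MeasureTheory Set Filter Topology

namespace MPfab

/-- control fields: gradients of potentials generated in `B0` -/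
def Ctl (Q : (E → E) → E → ℝ) (B0 : Set E) (X : E → E) : Prop := ∃ Ψ : E → E, Test B0 Ψ ∧
  X = gr (Q Ψ)

/-- a drift made of control fields -/
noncomputable def drift {n : ℕ} (X Y : Fin n → E → E) (H : E → E) (x : E) : E :=
  H x + ∑ i, brk (X i) (Y i) x

/-- the domain with its projection and its control region -/
structure Dat (ρ : E → ℝ) (R : ℝ) (P : (E → E) → E → E) (Q : (E → E) → E → ℝ) (B0 : Set E) :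
    Prop where
  dom : DomN ρ
  conn : IsConnected (D ρ)
  pos : 0 < R
  ball : ∀ x, ρ x ≤ 0 → ‖x‖ < R
  ler : Leray ρ R P Q
  op : IsOpen B0
  ne : B0.Nonempty
  sub : B0 ⊆ D ρ

/-! ### auxiliary modules -/

/-- TINT (60, from PINT): primitives in time -/
def SpecTint : Prop := ∀ (F : Type) [NormedAddCommGroup F] [NormedSpace ℝ F]
  [FiniteDimensional ℝ F] (R : ℝ) (f : ℝ × E → F), InT R f → ∃ I : ℝ × E → F, InT R I ∧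
    (∀ x, I (0, x) = 0) ∧ ∀ t x, HasDerivAt (fun s => I (s, x)) (f (t, x)) t

/-- FLOWBD (150, from LEIB, CCOMP): bounds for flows in terms of the field -/
def SpecFlowBd : Prop := ∀ (k : ℕ) (K T : ℝ), ∃ C : ℝ, ∀ (R : ℝ) (B : E → E) (FB : ℝ × E → E),
  In R B → IsFlow B FB → Bd univ k B K → ∀ t : ℝ, |t| ≤ T → DB k C (sl FB t)

/-- BRKC (80, from CMUL): closeness of drifts -/
def SpecBrkC : Prop := ∀ (n k : ℕ) (K : ℝ), ∃ C : ℝ, 0 ≤ C ∧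
  ∀ (X Y X' Y' : Fin n → E → E) (H H' : E → E) (η : ℝ), (∀ i, Sm (X i)) → (∀ i, Sm (Y i)) →
    (∀ i, Sm (X' i)) → (∀ i, Sm (Y' i)) → Sm H → Sm H' →
    (∀ i, Bd univ (k + 1) (X i) K) → (∀ i, Bd univ (k + 1) (Y i) K) →
    (∀ i, Bd univ (k + 1) (X' i) K) → (∀ i, Bd univ (k + 1) (Y' i) K) →
    (∀ i, Bd univ (k + 1) (fun x => X i x - X' i x) η) →
    (∀ i, Bd univ (k + 1) (fun x => Y i x - Y' i x) η) → Bd univ (k + 1) (fun x => H x - H' x) η →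
    Bd univ k (fun x => drift X Y H x - drift X' Y' H' x) (C * η)

/-- CLOSE (60): equality on the domain gives equality of all derivatives on the closed domain -/
def SpecClose : Prop := ∀ (F : Type) [NormedAddCommGroup F] [NormedSpace ℝ F] (ρ : E → ℝ)
  (f g : E → F), Dom ρ → Sm f → Sm g → (∀ x ∈ D ρ, f x = g x) → ∀ (L : List (Fin 3)) (x : E),
    ρ x ≤ 0 → pds L f x = pds L g x

/-- SCHED (200): the time functions. `st` = staircase (`k` on the `k`-th slow interval), `κ` = cutoff,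
`β` = mixture, `θ` = clipped time, `h` = majorant of the indicator of the fast times -/
def SpecSched : Prop := ∀ (T : ℝ) (n : ℕ) (ε : ℝ), 0 < T → 1 ≤ n → 0 < ε → 4 * ε < T / n → ε < 1 →
  ∃ st κ β θ h : ℝ → ℝ, Sm st ∧ Sm κ ∧ Sm β ∧ Sm θ ∧ Continuous h ∧
    (∀ t, 0 ≤ st t ∧ st t ≤ n) ∧ (∀ t, 0 ≤ κ t ∧ κ t ≤ 1) ∧ (∀ t, 0 ≤ β t ∧ β t ≤ 1) ∧
    (∀ t, -1 ≤ θ t ∧ θ t ≤ T + 1) ∧ (∀ t, 0 ≤ h t ∧ h t ≤ 1) ∧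
    (∀ t, t ≤ ε → st t = 0) ∧ (∀ t, T ≤ t → st t = n) ∧
    (∀ t, 0 ≤ t → t ≤ T → κ t = 1) ∧ (∀ t, (t ≤ -ε ∨ T + ε ≤ t) → κ t = 0) ∧
    (∀ t, t ≤ 0 → β t = 0) ∧ (∀ t, ε ≤ t → β t = 1) ∧
    (∀ t, -ε ≤ t → t ≤ T + ε → θ t = t) ∧ (∀ t, T + 2 ≤ |t| → deriv θ t = 0) ∧
    (∫ t in (-(T + 2))..(T + 2), h t) ≤ 6 * (n + 1) * ε ∧
    ∀ t, κ t = 0 ∨ h t = 1 ∨ (ε ≤ t ∧ t ≤ T ∧ κ t = 1 ∧ ∃ k : ℕ, k < n ∧
      T / n * k ≤ t ∧ t ≤ T / n * (k + 1) ∧ st t = k)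

/-- RESET (350, from ORBIT, CTAN, WFL, FLOWA): loops which bring every point of `K` into `B0` -/
def SpecReset : Prop := ∀ (ρ : E → ℝ) (R : ℝ) (P : (E → E) → E → E) (Q : (E → E) → E → ℝ)
  (B0 K : Set E), Dat ρ R P Q B0 → IsCompact K → K ⊆ D ρ →
  ∃ (J : ℕ) (χ : Fin J → E → ℝ) (s0 s1 : Fin J → ℝ) (c Θ Θi : ℝ × E → E),
    (∀ j, Test (D ρ) (χ j)) ∧ (∀ x ∈ K, ∑ j, χ j x = 1) ∧ Word (Ctl Q B0) c ∧ WF R c Θ Θi ∧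
    (∀ s x, (s ≤ 1 / 2 ∨ 1 ≤ s) → c (s, x) = 0) ∧ (∀ x, Θ (1, x) = x) ∧
    ∀ j, 1 / 2 < s0 j ∧ s0 j < s1 j ∧ s1 j < 1 ∧
      ∀ s x, s0 j ≤ s → s ≤ s1 j → x ∈ tsupport (χ j) → Θ (s, x) ∈ B0

/-- CYC (200, from WFL, WFREP): one cycle = displacement, then loops; `n` cycles -/
def SpecCyc : Prop := ∀ (Cl : (E → E) → Prop) (R : ℝ) (w : ℝ → ℝ × E → E)
  (φ φi β βi c Θ Θi : ℝ × E → E) (B : E → E), Dsp Cl R w φ φi β βi B → Word Cl c →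
  WF R c Θ Θi → (∀ s x, (s ≤ 1 / 2 ∨ 1 ≤ s) → c (s, x) = 0) → (∀ x, Θ (1, x) = x) →
  ∀ (r : ℝ) (n : ℕ), ∃ C ΘN ΘNi : ℝ × E → E, Word Cl C ∧ WF R C ΘN ΘNi ∧
    (∀ (k : ℕ) (x : E), k ≤ n → ΘN ((k : ℝ), x) = (fun y => φ (r, y))^[k] x ∧
      ΘNi ((k : ℝ), x) = (fun y => φi (r, y))^[k] x) ∧
    ∀ (k : ℕ) (s : ℝ) (x : E), k < n → 1 / 2 ≤ s → s ≤ 1 →
      ΘN ((k : ℝ) + s, x) = Θ (s, (fun y => φ (r, y))^[k + 1] x)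

/-! ### level 1: the relaxed solution -/

/-- RXA (300, from BDRY, DIVB, FLATD, RUNGE, SEEL, SOB, BRKC, CLOSE, CTAN): ideal and tame drifts -/
def SpecRxA : Prop := ∀ (ρ : E → ℝ) (R : ℝ) (P : (E → E) → E → E) (Q : (E → E) → E → ℝ)
  (B0 : Set E) (V0 : E → E), Dat ρ R P Q B0 → InX ρ V0 →
  ∃ B Bh : E → E, Sm B ∧ In R Bh ∧ (∀ x, ρ x ≤ 0 → Bh x = B x) ∧
    (∀ x, ρ x = 0 → V0 x + B x = 0) ∧ (∃ h : E → ℝ, Sm h ∧ ∀ x, dv V0 x + dv B x = ρ x * h x) ∧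
    ∀ η : ℝ, 0 < η → ∃ (n : ℕ) (X Y : Fin n → E → E) (H Bt : E → E) (K : Set E),
      (∀ i, Ctl Q B0 (X i)) ∧ (∀ i, Ctl Q B0 (Y i)) ∧ Ctl Q B0 H ∧ In R Bt ∧ Tan ρ Bt ∧
      Bd univ 8 (fun x => Bt x - Bh x) η ∧ IsCompact K ∧ K ⊆ D ρ ∧
      ∀ x, ρ x ≤ 0 → x ∉ K → Bt x = drift X Y H x

/-- RXB (500, from IDEAL, PT, MOV, FLOWBD, PBALG, PBDT, PBB, SEEL, WFTAN, ...): relaxed solution with
a tame drift -/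
def SpecRxB : Prop := ∀ (ρ : E → ℝ) (R : ℝ) (P : (E → E) → E → E) (Q : (E → E) → E → ℝ)
  (B0 : Set E) (V0 B Bh : E → E) (T : ℝ), Dat ρ R P Q B0 → InX ρ V0 → In R V0 → 0 < T →
  Sm B → In R Bh → (∀ x, ρ x ≤ 0 → Bh x = B x) → (∀ x, ρ x = 0 → V0 x + B x = 0) →
  (∃ h : E → ℝ, Sm h ∧ ∀ x, dv V0 x + dv B x = ρ x * h x) →
  ∃ η : ℝ, 0 < η ∧ ∀ Bt : E → E, In R Bt → Tan ρ Bt → Bd univ 8 (fun x => Bt x - Bh x) η →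
  ∃ (u : ℝ × E → E) (q : ℝ × E → ℝ) (Z : ℝ × E → E) (c : ℝ), InT R u ∧ InT R q ∧ InT R Z ∧
    0 < c ∧ (∀ x, ρ x ≤ 0 → u (0, x) = V0 x) ∧ (∀ t x, |ρ x| ≤ c → Z (t, x) = 0) ∧
    ∀ t x, 0 ≤ t → t ≤ T → ρ x ≤ 0 →
      dt u (t, x) + lie Bt (sl u t) x + cr (curl (sl u t) x) (P (sl u t) x) =
        gr (sl q t) x + Z (t, x)

/-- RELAX (200, from RXA, RXB, CLOSE): the relaxed solution with a drift of control fields -/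
def SpecRelax : Prop := ∀ (ρ : E → ℝ) (R : ℝ) (P : (E → E) → E → E) (Q : (E → E) → E → ℝ)
  (B0 : Set E) (u0 : E → E) (T : ℝ), Dat ρ R P Q B0 → InX ρ u0 → In R u0 → 0 < T →
  ∃ (n : ℕ) (X Y : Fin n → E → E) (H : E → E) (u : ℝ × E → E) (q : ℝ × E → ℝ)
    (Z2 Zo : ℝ × E → E) (K : Set E), (∀ i, Ctl Q B0 (X i)) ∧ (∀ i, Ctl Q B0 (Y i)) ∧
    Ctl Q B0 H ∧ InT R u ∧ InT R q ∧ InT R Z2 ∧ InT R Zo ∧ (∀ x, ρ x ≤ 0 → u (0, x) = u0 x) ∧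
    IsCompact K ∧ K ⊆ D ρ ∧ (∀ t x, x ∉ K → Z2 (t, x) = 0) ∧
    (∀ t x, 0 ≤ t → t ≤ T → ρ x ≤ 0 → Zo (t, x) = 0) ∧
    ∀ t x, 0 ≤ t → t ≤ T →
      dt u (t, x) + lie (drift X Y H) (sl u t) x + cr (curl (sl u t) x) (P (sl u t) x) =
        gr (sl q t) x + Z2 (t, x) + Zo (t, x)

/-! ### level 2: the real solution -/

/-- the data of level 2: `σ` = physical domain, `ρ` = enlarged domain -/
structure Lv (σ ρ : E → ℝ) (R T : ℝ) (P1 : (E → E) → E → E) (Q1 : (E → E) → E → ℝ)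
    (P2 : (E → E) → E → E) (Q2 : (E → E) → E → ℝ) (B0 : Set E) (B : E → E) (FB u : ℝ × E → E)
    (q : ℝ × E → ℝ) (Z2 Zo : ℝ × E → E) (K : Set E) (v0 : E → E) (q0 : E → ℝ) (r0 af : E → E) :
    Prop where
  domσ : DomN σ
  sub : ∀ x, σ x ≤ 0 → ρ x ≤ 0
  ler1 : Leray σ R P1 Q1
  dat : Dat ρ R P2 Q2 B0
  out0 : ∀ x ∈ B0, 0 < σ x
  Tpos : 0 < T
  inB : In R B
  tanB : Tan ρ B
  flow : IsFlow B FB
  outF : ∀ s x, R ≤ ‖x‖ → FB (s, x) = x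
  inu : InT R u
  inq : InT R q
  inZ2 : InT R Z2
  inZo : InT R Zo
  cpt : IsCompact K
  subK : K ⊆ D ρ
  suppZ2 : ∀ t x, x ∉ K → Z2 (t, x) = 0
  suppZo : ∀ t x, 0 ≤ t → t ≤ T → ρ x ≤ 0 → Zo (t, x) = 0
  eq : ∀ t x, 0 ≤ t → t ≤ T →
    dt u (t, x) + lie B (sl u t) x + cr (curl (sl u t) x) (P2 (sl u t) x) =
      gr (sl q t) x + Z2 (t, x) + Zo (t, x)
  inv0 : In R v0
  inq0 : In R q0
  inr0 : In R r0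
  init : ∀ x, v0 x - u (0, x) = gr q0 x + r0 x
  suppr0 : ∀ x, ρ x ≤ 0 → r0 x = 0
  test : Test (D ρ) af

/-- REALIZE (helper88, 700): the real controlled solution in the moving frame -/
def SpecRealize : Prop := ∀ (σ ρ : E → ℝ) (R T : ℝ) (P1 : (E → E) → E → E)
  (Q1 : (E → E) → E → ℝ) (P2 : (E → E) → E → E) (Q2 : (E → E) → E → ℝ) (B0 : Set E)
  (FB u : ℝ × E → E) (q : ℝ × E → ℝ) (Z2 Zo : ℝ × E → E) (K : Set E) (v0 : E → E) (q0 : E → ℝ)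
  (r0 af : E → E) (n : ℕ) (X Y : Fin n → E → E) (H : E → E),
  (∀ i, Ctl Q2 B0 (X i)) → (∀ i, Ctl Q2 B0 (Y i)) → Ctl Q2 B0 H →
  Lv σ ρ R T P1 Q1 P2 Q2 B0 (drift X Y H) FB u q Z2 Zo K v0 q0 r0 af → ∀ η : ℝ, 0 < η →
  ∃ (κ a : ℝ → ℝ) (b Φ Ψ M F : ℝ × E → E) (π : ℝ × E → ℝ), Sm κ ∧ Sm a ∧ Sm π ∧
    (∀ t, 0 ≤ t → t ≤ T → κ t = 1) ∧ a 0 = 0 ∧ a T = 1 ∧ Word (Ctl Q2 B0) b ∧
    (∀ x, b (0, x) = 0) ∧ (∀ x, b (T, x) = 0) ∧ WF R b Φ Ψ ∧ InT R M ∧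
    EqA (vel (mlaw P1 P2 Φ Ψ κ a) M) F M ∧ (∀ x, M (0, x) = v0 x) ∧
    (∀ t x, 0 ≤ t → t ≤ T → σ x ≤ 0 → pb (sl Ψ t) (sl F t) x = gr (sl π t) x) ∧
    ∀ x, ‖P2 (pb (sl Ψ T) (sl M T)) x - P2 (fun y => u (T, y) + af y) x‖ ≤ η

/-! ### the end -/

/-- FINAL (350, from PBALG, PBDT, CLOSE, INCOP, INCSM): from the moving frame to the Euler equation -/
def SpecFinal : Prop := ∀ (σ ρ : E → ℝ) (R T : ℝ) (P1 : (E → E) → E → E)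
  (Q1 : (E → E) → E → ℝ) (P2 : (E → E) → E → E) (Q2 : (E → E) → E → ℝ) (B0 : Set E)
  (v0 : E → E) (κ a : ℝ → ℝ) (b Φ Ψ M F : ℝ × E → E) (π : ℝ × E → ℝ), DomN σ →
  (∀ x, σ x ≤ 0 → ρ x ≤ 0) → Leray σ R P1 Q1 → Dat ρ R P2 Q2 B0 → (∀ x ∈ B0, 0 < σ x) →
  InX σ v0 → 0 < T → Sm κ → Sm a → Sm π → (∀ t, 0 ≤ t → t ≤ T → κ t = 1) → a 0 = 0 →
  a T = 1 → Word (Ctl Q2 B0) b → (∀ x, b (0, x) = 0) → (∀ x, b (T, x) = 0) → WF R b Φ Ψ →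
  InT R M → EqA (vel (mlaw P1 P2 Φ Ψ κ a) M) F M → (∀ x, M (0, x) = v0 x) →
  (∀ t x, 0 ≤ t → t ≤ T → σ x ≤ 0 → pb (sl Ψ t) (sl F t) x = gr (sl π t) x) →
  ∃ (V : ℝ × E → E) (Pr : ℝ × E → ℝ), Sm V ∧ Sm Pr ∧
    (∀ t x, 0 ≤ t → t ≤ T → σ x ≤ 0 → deriv (fun s => V (s, x)) t +
      fderiv ℝ (fun y => V (t, y)) x (V (t, x)) + gr (fun y => Pr (t, y)) x = 0) ∧
    (∀ t x, 0 ≤ t → t ≤ T → σ x ≤ 0 → dv (sl V t) x = 0) ∧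
    (∀ t x, 0 ≤ t → t ≤ T → σ x = 0 → ρ x = 0 → fderiv ℝ σ x = fderiv ℝ ρ x →
      fderiv ℝ σ x (V (t, x)) = 0) ∧
    (∀ x, σ x ≤ 0 → V (0, x) = v0 x) ∧ ∀ x, V (T, x) = P2 (pb (sl Ψ T) (sl M T)) x

/-- DOM2 (200): the enlarged domain -/
def SpecDom2 : Prop := ∀ (σ : E → ℝ) (x0 : E) (U : Set E), Dom σ → IsConnected (D σ) →
  σ x0 = 0 → IsOpen U → x0 ∈ U → ∃ ρ : E → ℝ, Dom ρ ∧ IsConnected (D ρ) ∧
    (∀ x, ρ x ≤ σ x) ∧ (∀ x, x ∉ U → ρ x = σ x ∧ fderiv ℝ ρ x = fderiv ℝ σ x) ∧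
    ({x | 0 < σ x} ∩ D ρ).Nonempty

end MPfab
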