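import Pool.Agent.Lib.MP_fabde4_an.SpecA
import Pool.Agent.Lib.MP_fabde4_an.SpecB
import Pool.Agent.Lib.MP_fabde4_an.M.Lop
import Pool.Agent.Lib.MP_fabde4_an.F.EllD
import Pool.Agent.Lib.MP_fabde4_an.B.RungeD

section
/-!
MP_fabde4_an, module TDER: differentiation of integrals in time.
-/
set_option autoImplicit false
open MeasureTheory Set Filter Topology

namespace MPfab.Tder

theorem hasDerivAt_sl {F : Type*} [NormedAddCommGroup F] [NormedSpace ℝ F] {f : ℝ × E → F}
    (hf : Sm f) (s : ℝ) (x : E) :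
    HasDerivAt (fun s => f (s, x)) (fderiv ℝ f (s, x) (1, 0)) s := by
  have h1 : HasFDerivAt f (fderiv ℝ f (s, x)) (s, x) :=
    (Sm.differentiable hf (s, x)).hasFDerivAt
  have h2 : HasDerivAt (fun s : ℝ => (s, x)) ((1 : ℝ), (0 : E)) s :=
    (hasDerivAt_id s).prodMk (hasDerivAt_const s x)
  exact h1.comp_hasDerivAt s h2

theorem dt_eq {F : Type*} [NormedAddCommGroup F] [NormedSpace ℝ F] {f : ℝ × E → F}
    (hf : Sm f) (p : ℝ × E) : dt f p = fderiv ℝ f p (1, 0) :=
  (hasDerivAt_sl hf p.1 p.2).deriv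

theorem continuous_dt {F : Type*} [NormedAddCommGroup F] [NormedSpace ℝ F] {f : ℝ × E → F}
    (hf : Sm f) : Continuous (dt f) := by
  have h : dt f = fun p => fderiv ℝ f p (1, 0) := funext fun p => dt_eq hf p
  rw [h]
  exact (hf.continuous_fderiv (by simp)).clm_apply continuous_const

theorem integrableOn_of_continuous {S : Set E} (hb : Bornology.IsBounded S) {g : E → ℝ}
    (hg : Continuous g) : IntegrableOn g S := by
  have hc : IsCompact (closure S) := hb.isCompact_closure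
  exact (hg.continuousOn.integrableOn_compact hc).mono_set subset_closure

theorem specTder : SpecTder := by
  intro S _ hb F hF t
  have hc : IsCompact (closure S) := hb.isCompact_closure
  have hK : IsCompact (Icc (t - 1) (t + 1) ×ˢ closure S) := isCompact_Icc.prod hc
  obtain ⟨C, hC⟩ := hK.exists_bound_of_continuousOn (continuous_dt hF).continuousOn
  have hFc : Continuous F := hF.continuous
  have key := hasDerivAt_integral_of_dominated_loc_of_deriv_le (μ := volume.restrict S)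
    (F := fun s x => F (s, x)) (F' := fun s x => dt F (s, x)) (x₀ := t) (s := Icc (t - 1) (t + 1))
    (bound := fun _ => C) (Icc_mem_nhds (by linarith) (by linarith))
    (Eventually.of_forall fun s => (integrableOn_of_continuous hb
      (hFc.comp (Continuous.prodMk_right s))).aestronglyMeasurable)
    (integrableOn_of_continuous hb (hFc.comp (Continuous.prodMk_right t)))
    (integrableOn_of_continuous hb
      ((continuous_dt hF).comp (Continuous.prodMk_right t))).aestronglyMeasurable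
    ?_ ?_ ?_
  · exact key.2
  · have hS : ∀ᵐ x ∂(volume.restrict S), x ∈ closure S := by
      have := ae_restrict_mem (μ := (volume : Measure E)) hc.measurableSet
      exact ae_restrict_of_ae_restrict_of_subset subset_closure this
    filter_upwards [hS] with x hx s hs
    exact hC (s, x) ⟨hs, hx⟩
  · have : IsFiniteMeasure (volume.restrict S : Measure E) :=
      ⟨by simpa using (measure_mono subset_closure).trans_lt hc.measure_lt_top⟩
    exact integrable_const C
  · refine Eventually.of_forall fun x s _ => ?_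
    rw [dt_eq hF]
    exact hasDerivAt_sl hF s x

end MPfab.Tder

namespace MPfab

theorem specTder : SpecTder := Tder.specTder

end MPfab
end

section
/-!
MP_fabde4_an, module CRUDE: bilinear estimates for transport operators.
-/
set_option autoImplicit false
open MeasureTheory Set Filter Topology

namespace MPfab.EngM

/-! ### linearity of iterated partial derivatives -/

theorem pd_add {F : Type*} [NormedAddCommGroup F] [NormedSpace ℝ F] {f g : E → F} (hf : Sm f)
    (hg : Sm g) (i : Fin 3) : pd i (fun x => f x + g x) = fun x => pd i f x + pd i g x := by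
  funext x
  simp only [pd_def]
  rw [fderiv_fun_add (Sm.differentiable hf x) (Sm.differentiable hg x)]
  rfl

theorem pd_sub {F : Type*} [NormedAddCommGroup F] [NormedSpace ℝ F] {f g : E → F} (hf : Sm f)
    (hg : Sm g) (i : Fin 3) : pd i (fun x => f x - g x) = fun x => pd i f x - pd i g x := by
  funext x
  simp only [pd_def]
  rw [fderiv_fun_sub (Sm.differentiable hf x) (Sm.differentiable hg x)]
  rfl

theorem pd_smul {F : Type*} [NormedAddCommGroup F] [NormedSpace ℝ F] {f : E → F} (hf : Sm f)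
    (c : ℝ) (i : Fin 3) : pd i (fun x => c • f x) = fun x => c • pd i f x := by
  funext x
  simp only [pd_def]
  rw [fderiv_fun_const_smul (Sm.differentiable hf x)]
  rfl

theorem pds_smooth {F : Type*} [NormedAddCommGroup F] [NormedSpace ℝ F] {f : E → F} (hf : Sm f)
    (L : List (Fin 3)) : Sm (pds L f) := by
  induction L with
  | nil => exact hf
  | cons i L ih => exact Sm.pd ih i

theorem pds_add {F : Type*} [NormedAddCommGroup F] [NormedSpace ℝ F] {f g : E → F} (hf : Sm f)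
    (hg : Sm g) (L : List (Fin 3)) :
    pds L (fun x => f x + g x) = fun x => pds L f x + pds L g x := by
  induction L with
  | nil => rfl
  | cons i L ih =>
    simp only [pds]
    rw [ih, pd_add (pds_smooth hf L) (pds_smooth hg L)]

theorem pds_sub {F : Type*} [NormedAddCommGroup F] [NormedSpace ℝ F] {f g : E → F} (hf : Sm f)
    (hg : Sm g) (L : List (Fin 3)) :
    pds L (fun x => f x - g x) = fun x => pds L f x - pds L g x := by
  induction L with
  | nil => rfl
  | cons i L ih =>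
    simp only [pds]
    rw [ih, pd_sub (pds_smooth hf L) (pds_smooth hg L)]

theorem pds_smul {F : Type*} [NormedAddCommGroup F] [NormedSpace ℝ F] {f : E → F} (hf : Sm f)
    (c : ℝ) (L : List (Fin 3)) : pds L (fun x => c • f x) = fun x => c • pds L f x := by
  induction L with
  | nil => rfl
  | cons i L ih =>
    simp only [pds]
    rw [ih, pd_smul (pds_smooth hf L)]

theorem pds_zero {F : Type*} [NormedAddCommGroup F] [NormedSpace ℝ F] (L : List (Fin 3)) :
    pds L (fun _ : E => (0 : F)) = fun _ => 0 := by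
  induction L with
  | nil => rfl
  | cons i L ih =>
    simp only [pds]
    rw [ih]
    funext x
    simp [pd_def]

theorem pds_sum {F : Type*} [NormedAddCommGroup F] [NormedSpace ℝ F] {ι : Type*} [DecidableEq ι]
    (s : Finset ι) {f : ι → E → F} (hf : ∀ i ∈ s, Sm (f i)) (L : List (Fin 3)) :
    pds L (fun x => ∑ i ∈ s, f i x) = fun x => ∑ i ∈ s, pds L (f i) x := by
  induction s using Finset.induction_on with
  | empty => simpa using pds_zero L
  | insert a s ha ih =>
    have e : (fun x => ∑ i ∈ insert a s, f i x) = fun x => f a x + ∑ i ∈ s, f i x := by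
      funext x
      rw [Finset.sum_insert ha]
    rw [e, pds_add (hf a (Finset.mem_insert_self a s))
      (ContDiff.sum fun i hi => hf i (Finset.mem_insert_of_mem hi)),
      ih fun i hi => hf i (Finset.mem_insert_of_mem hi)]
    funext x
    rw [Finset.sum_insert ha]

/-- equality on an open set is inherited by the derivatives -/
theorem pds_congr {F : Type*} [NormedAddCommGroup F] [NormedSpace ℝ F] {S : Set E} (hS : IsOpen S)
    {f g : E → F} (h : ∀ x ∈ S, f x = g x) (L : List (Fin 3)) : ∀ x ∈ S, pds L f x = pds L g x := by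
  induction L with
  | nil => exact h
  | cons i L ih =>
    intro x hx
    simp only [pds, pd_def]
    have : pds L f =ᶠ[𝓝 x] pds L g := by
      filter_upwards [hS.mem_nhds hx] with y hy using ih y hy
    rw [this.fderiv_eq]

/-! ### integrals -/

theorem intOn {S : Set E} (hb : Bornology.IsBounded S) {g : E → ℝ} (hg : Continuous g) :
    IntegrableOn g S := Tder.integrableOn_of_continuous hb hg

theorem D_open {ρ : E → ℝ} (h : Dom ρ) : IsOpen (D ρ) :=
  isOpen_lt h.smooth.continuous continuous_const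

theorem int_nonneg (S : Set E) (g : E → ℝ) : 0 ≤ ∫ x in S, g x ^ 2 :=
  integral_nonneg fun _ => sq_nonneg _

/-- the square of a finite sum -/
theorem int_sq_list {ι : Type*} {S : Set E} (hb : Bornology.IsBounded S) (T : List ι)
    (F : ι → E → ℝ) (hF : ∀ p ∈ T, Continuous (F p)) :
    Continuous (fun x => (T.map fun p => F p x).sum) ∧
    ∫ x in S, ((T.map fun p => F p x).sum) ^ 2 ≤
      2 ^ T.length * (T.map fun p => ∫ x in S, F p x ^ 2).sum := by
  induction T with
  | nil => exact ⟨by simpa using continuous_const, by simp⟩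
  | cons p T ih =>
    have h1 : Continuous fun x => F p x := hF p List.mem_cons_self
    obtain ⟨h2, h3⟩ := ih fun q hq => hF q (List.mem_cons_of_mem p hq)
    have h12 : Continuous fun x => F p x + (T.map fun p => F p x).sum := h1.add h2
    have c1 : Continuous fun x => (F p x + (T.map fun p => F p x).sum) ^ 2 := h12.pow 2
    have c2 : Continuous fun x => F p x ^ 2 := h1.pow 2
    have c3 : Continuous fun x => ((T.map fun p => F p x).sum) ^ 2 := h2.pow 2
    have c4 : Continuous fun x => 2 * F p x ^ 2 + 2 * ((T.map fun p => F p x).sum) ^ 2 :=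
      (continuous_const.mul c2).add (continuous_const.mul c3)
    refine ⟨?_, ?_⟩
    · simp only [List.map_cons, List.sum_cons]
      exact h12
    · simp only [List.map_cons, List.sum_cons, List.length_cons]
      have hs : 0 ≤ (T.map fun p => ∫ x in S, F p x ^ 2).sum := by
        apply List.sum_nonneg
        intro a ha
        obtain ⟨q, -, rfl⟩ := List.mem_map.1 ha
        exact int_nonneg S (F q)
      calc ∫ x in S, (F p x + (T.map fun p => F p x).sum) ^ 2
          ≤ ∫ x in S, (2 * F p x ^ 2 + 2 * ((T.map fun p => F p x).sum) ^ 2) := by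
            apply integral_mono (intOn hb c1) (intOn hb c4)
            intro x
            simp only
            nlinarith [sq_nonneg (F p x - (T.map fun p => F p x).sum)]
        _ = 2 * (∫ x in S, F p x ^ 2) + 2 * ∫ x in S, ((T.map fun p => F p x).sum) ^ 2 := by
            rw [integral_add ((intOn hb c2).const_mul 2) ((intOn hb c3).const_mul 2),
              integral_const_mul, integral_const_mul]
        _ ≤ 2 * (∫ x in S, F p x ^ 2) +
            2 * (2 ^ T.length * (T.map fun p => ∫ x in S, F p x ^ 2).sum) := by linarith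
        _ ≤ 2 ^ (T.length + 1) * ((∫ x in S, F p x ^ 2) +
            (T.map fun p => ∫ x in S, F p x ^ 2).sum) := by
            have h4 : (1 : ℝ) ≤ 2 ^ T.length := one_le_pow₀ (by norm_num)
            have h5 := int_nonneg S (F p)
            have h6 : 2 * (∫ x in S, F p x ^ 2) ≤ 2 * (2 ^ T.length * ∫ x in S, F p x ^ 2) := by
              nlinarith
            rw [pow_succ]
            linarith

theorem list_sum_le_const {ι : Type*} (T : List ι) (F : ι → ℝ) (C : ℝ) (h : ∀ p ∈ T, F p ≤ C) :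
    (T.map F).sum ≤ T.length * C := by
  induction T with
  | nil => simp
  | cons p T ih =>
    simp only [List.map_cons, List.sum_cons, List.length_cons]
    have h1 := h p List.mem_cons_self
    have h2 := ih fun q hq => h q (List.mem_cons_of_mem p hq)
    push_cast
    linarith

/-- product estimate for `hs` -/
theorem prod2 (hH : SpecHSB) (hL : SpecLeib) (hP : SpecProd) (ρ : E → ℝ) (hρ : Dom ρ) (k : ℕ) :
    ∃ C : ℝ, 0 ≤ C ∧ ∀ f g : E → ℝ, Sm f → Sm g →
      hs (D ρ) k (fun x => f x * g x) ≤ C * hs (D ρ) (k + 3) f * hs (D ρ) k g := by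
  obtain ⟨T, hT, hu⟩ := hH.upper k
  obtain ⟨C0, hC0, hP0⟩ := hP ρ hρ
  have key : ∀ L : List (Fin 3), L.length ≤ k → ∃ C : ℝ, 0 ≤ C ∧ ∀ f g : E → ℝ, Sm f → Sm g →
      ∫ x in D ρ, ‖pds L (fun x => f x * g x) x‖ ^ 2 ≤
        C * (hs (D ρ) (k + 3) f * hs (D ρ) k g) := by
    intro L hLk
    obtain ⟨TL, hTL, hleib⟩ := hL L
    set T' : List (List (Fin 3) × List (Fin 3)) := ([], L) :: TL with hT'
    refine ⟨2 ^ T'.length * (T'.length * C0), by positivity, fun f g hf hg => ?_⟩
    have e : ∀ x, pds L (fun x => f x * g x) x =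
        (T'.map fun p => pds p.1 f x * pds p.2 g x).sum := by
      intro x
      rw [hleib f g hf hg x, hT']
      simp [pds]
    have hcont : ∀ p ∈ T', Continuous fun x => pds p.1 f x * pds p.2 g x := fun p _ =>
      (pds_smooth hf p.1).continuous.mul (pds_smooth hg p.2).continuous
    have h1 := (int_sq_list hρ.bdd T' (fun p x => pds p.1 f x * pds p.2 g x) hcont).2
    have h2 : (T'.map fun p => ∫ x in D ρ, (pds p.1 f x * pds p.2 g x) ^ 2).sum ≤
        T'.length * (C0 * (hs (D ρ) (k + 3) f * hs (D ρ) k g)) := by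
      apply list_sum_le_const
      intro p hp
      have hlen : p.1.length ≤ k ∧ p.2.length ≤ k := by
        rw [hT', List.mem_cons] at hp
        rcases hp with rfl | hp
        · exact ⟨Nat.zero_le _, hLk⟩
        · have := (hTL p hp).2
          constructor <;> omega
      refine (hP0 p.1 p.2 f g hf hg).trans ?_
      rw [mul_assoc]
      refine mul_le_mul_of_nonneg_left ?_ hC0
      exact mul_le_mul (hH.mono ℝ _ _ _ f (by omega)) (hH.mono ℝ _ _ _ g hlen.2)
        (hH.nonneg ℝ _ _ g) (hH.nonneg ℝ _ _ f)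
    calc ∫ x in D ρ, ‖pds L (fun x => f x * g x) x‖ ^ 2
        = ∫ x in D ρ, ((T'.map fun p => pds p.1 f x * pds p.2 g x).sum) ^ 2 := by
          congr 1
          funext x
          rw [e x, Real.norm_eq_abs, sq_abs]
      _ ≤ 2 ^ T'.length * (T'.map fun p => ∫ x in D ρ, (pds p.1 f x * pds p.2 g x) ^ 2).sum := h1
      _ ≤ 2 ^ T'.length * (T'.length * (C0 * (hs (D ρ) (k + 3) f * hs (D ρ) k g))) :=
          mul_le_mul_of_nonneg_left h2 (by positivity)
      _ = 2 ^ T'.length * (T'.length * C0) * (hs (D ρ) (k + 3) f * hs (D ρ) k g) := by ring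
  choose! C hC hCb using key
  have hlist : ∀ T : List (List (Fin 3)), (∀ L ∈ T, L.length ≤ k) → ∃ C : ℝ, 0 ≤ C ∧
      ∀ f g : E → ℝ, Sm f → Sm g →
        (T.map fun L => ∫ x in D ρ, ‖pds L (fun x => f x * g x) x‖ ^ 2).sum ≤
          C * (hs (D ρ) (k + 3) f * hs (D ρ) k g) := by
    intro T hT
    induction T with
    | nil => exact ⟨0, le_rfl, fun f g _ _ => by simp⟩
    | cons L T ih =>
      obtain ⟨C1, hC1, h1⟩ := ih fun L' hL' => hT L' (List.mem_cons_of_mem L hL')
      have hLk := hT L List.mem_cons_self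
      refine ⟨C L + C1, add_nonneg (hC L hLk) hC1, fun f g hf hg => ?_⟩
      simp only [List.map_cons, List.sum_cons]
      rw [add_mul]
      exact add_le_add (hCb L hLk f g hf hg) (h1 f g hf hg)
  obtain ⟨C1, hC1, h1⟩ := hlist T hT
  refine ⟨C1, hC1, fun f g hf hg => ?_⟩
  rw [hu ℝ (D ρ) _ (hf.mul hg), mul_assoc]
  exact h1 f g hf hg

theorem hs_sum_le (hH : SpecHSB) {S : Set E} (hS : MeasurableSet S) (hb : Bornology.IsBounded S)
    (k : ℕ) {ι : Type*} [DecidableEq ι] (s : Finset ι) (f : ι → E → ℝ) (hf : ∀ i ∈ s, Sm (f i)) :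
    hs S k (fun x => ∑ i ∈ s, f i x) ≤ 2 ^ s.card * ∑ i ∈ s, hs S k (f i) := by
  induction s using Finset.induction_on with
  | empty =>
    have h0 : hs S k (fun _ : E => (0 : ℝ)) = 0 := by
      have := hH.smul ℝ S k 0 (fun _ : E => (0 : ℝ)) contDiff_const
      simpa using this
    simp [h0]
  | insert a s ha ih =>
    have e : (fun x => ∑ i ∈ insert a s, f i x) = fun x => f a x + ∑ i ∈ s, f i x := by
      funext x
      rw [Finset.sum_insert ha]
    have h1 := hH.add_le ℝ S k (f a) (fun x => ∑ i ∈ s, f i x) hS (Or.inl hb)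
      (hf a (Finset.mem_insert_self a s))
      (ContDiff.sum fun i hi => hf i (Finset.mem_insert_of_mem hi))
    have h2 := ih fun i hi => hf i (Finset.mem_insert_of_mem hi)
    rw [e, Finset.sum_insert ha, Finset.card_insert_of_notMem ha]
    have h3 : (1 : ℝ) ≤ 2 ^ s.card := one_le_pow₀ (by norm_num)
    have h4 := hH.nonneg ℝ S k (f a)
    have h5 : 2 * hs S k (f a) ≤ 2 * (2 ^ s.card * hs S k (f a)) := by nlinarith
    rw [pow_succ]
    linarith

theorem sum_fin3_le {F : Fin 3 → ℝ} {Z : ℝ} (h : ∀ i, F i ≤ Z) : ∑ i, F i ≤ 3 * Z := by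
  rw [Fin.sum_univ_three]
  linarith [h 0, h 1, h 2]

theorem sum3 (hH : SpecHSB) {S : Set E} (hS : MeasurableSet S) (hb : Bornology.IsBounded S)
    (k : ℕ) {f : Fin 3 → E → ℝ} {Z : ℝ} (hf : ∀ i, Sm (f i)) (h : ∀ i, hs S k (f i) ≤ Z) :
    hs S k (fun x => ∑ i, f i x) ≤ 24 * Z := by
  have h1 := hs_sum_le hH hS hb k Finset.univ f fun i _ => hf i
  have h2 := sum_fin3_le h
  have h3 : (Finset.univ : Finset (Fin 3)).card = 3 := rfl
  rw [h3] at h1
  norm_num at h1
  linarith

theorem comp_le (hH : SpecHSB) {ρ : E → ℝ} (hρ : Dom ρ) (k : ℕ) {w : E → E} (hw : Sm w)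
    (j : Fin 3) : hs (D ρ) k (fun x => w x j) ≤ hs (D ρ) k w := by
  rw [hH.comp (D ρ) k w (D_open hρ).measurableSet (Or.inl hρ.bdd) hw]
  exact Finset.single_le_sum (f := fun j => hs (D ρ) k (fun x => w x j))
    (fun j _ => hH.nonneg ℝ _ _ _) (Finset.mem_univ j)

theorem pd_le (hH : SpecHSB) {ρ : E → ℝ} (k : ℕ) {f : E → ℝ} (hf : Sm f)
    (p : Fin 3) : hs (D ρ) k (pd p f) ≤ hs (D ρ) (k + 1) f := by
  simpa [pds] using hH.pds_le ℝ (D ρ) k [p] f hf

theorem pd_comp_eq {w : E → E} (hw : Sm w) (p q : Fin 3) :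
    (fun x => pd p w x q) = pd p (fun x => w x q) := by
  funext x
  exact pd_apply (Sm.differentiable hw x) p q

theorem trc_apply (c : Fin 3 → Fin 3 → Fin 3 → Fin 3 → ℝ) (u a : E → E) (x : E) (i : Fin 3) :
    trc c u a x i = (∑ j, u x j * pd j a x i) +
      ∑ j, ∑ p, ∑ q, c i j p q * pd p u x q * a x j := rfl

theorem trc_smooth (c : Fin 3 → Fin 3 → Fin 3 → Fin 3 → ℝ) {u a : E → E} (hu : Sm u) (ha : Sm a) :
    Sm (trc c u a) := by
  rw [sm_iff]
  intro i
  simp only [trc_apply]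
  refine ContDiff.add (ContDiff.sum fun j _ => (hu.comp_apply j).mul ((ha.pd j).comp_apply i)) ?_
  exact ContDiff.sum fun j _ => ContDiff.sum fun p _ => ContDiff.sum fun q _ =>
    (contDiff_const.mul ((hu.pd p).comp_apply q)).mul (ha.comp_apply j)

theorem exists_bd4 (c : Fin 3 → Fin 3 → Fin 3 → Fin 3 → ℝ) :
    ∃ M : ℝ, 0 ≤ M ∧ ∀ i j p q, c i j p q ^ 2 ≤ M := by
  obtain ⟨M, hM⟩ := (Set.finite_range (fun x : Fin 3 × Fin 3 × Fin 3 × Fin 3 =>
    c x.1 x.2.1 x.2.2.1 x.2.2.2 ^ 2)).bddAbove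
  refine ⟨M, (sq_nonneg _).trans (hM ⟨(0, 0, 0, 0), rfl⟩), fun i j p q => ?_⟩
  exact hM ⟨(i, j, p, q), rfl⟩

theorem specCrude (hH : SpecHSB) (hL : SpecLeib) (hP : SpecProd) : SpecCrude := by
  intro ρ hρ c k
  obtain ⟨C, hC, hprod⟩ := prod2 hH hL hP ρ hρ k
  have hm := (D_open hρ).measurableSet
  -- one product, both ways
  have one : ∀ (u a : E → E), Sm u → Sm a → ∀ X Y : E → ℝ, Sm X → Sm Y →
      (hs (D ρ) k X ≤ hs (D ρ) (k + 1) u ∧ hs (D ρ) (k + 3) X ≤ hs (D ρ) (k + 4) u) →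
      (hs (D ρ) k Y ≤ hs (D ρ) (k + 1) a ∧ hs (D ρ) (k + 3) Y ≤ hs (D ρ) (k + 4) a) →
      hs (D ρ) k (fun x => X x * Y x) ≤ C * (hs (D ρ) (k + 1) u * hs (D ρ) (k + 4) a) ∧
      hs (D ρ) k (fun x => X x * Y x) ≤ C * (hs (D ρ) (k + 4) u * hs (D ρ) (k + 1) a) := by
    intro u a hu ha X Y hX hY h1 h2
    constructor
    · have e : (fun x => X x * Y x) = fun x => Y x * X x := by funext x; ring
      rw [e]
      refine (hprod Y X hY hX).trans ?_
      rw [mul_assoc]
      refine mul_le_mul_of_nonneg_left ?_ hC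
      rw [mul_comm]
      exact mul_le_mul h1.1 h2.2 (hH.nonneg ℝ _ _ _) (hH.nonneg E _ _ _)
    · refine (hprod X Y hX hY).trans ?_
      rw [mul_assoc]
      refine mul_le_mul_of_nonneg_left ?_ hC
      exact mul_le_mul h1.2 h2.1 (hH.nonneg ℝ _ _ _) (hH.nonneg E _ _ _)
  have hcomp : ∀ (w : E → E), Sm w → ∀ j, hs (D ρ) k (fun x => w x j) ≤ hs (D ρ) (k + 1) w ∧
      hs (D ρ) (k + 3) (fun x => w x j) ≤ hs (D ρ) (k + 4) w := by
    intro w hw j
    exact ⟨(comp_le hH hρ k hw j).trans (hH.mono E _ _ _ w (by omega)),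
      (comp_le hH hρ (k + 3) hw j).trans (hH.mono E _ _ _ w (by omega))⟩
  have hpd : ∀ (w : E → E), Sm w → ∀ p q, hs (D ρ) k (fun x => pd p w x q) ≤
      hs (D ρ) (k + 1) w ∧ hs (D ρ) (k + 3) (fun x => pd p w x q) ≤ hs (D ρ) (k + 4) w := by
    intro w hw p q
    rw [pd_comp_eq hw]
    exact ⟨(pd_le hH k (hw.comp_apply q) p).trans (comp_le hH hρ (k + 1) hw q),
      (pd_le hH (k + 3) (hw.comp_apply q) p).trans (comp_le hH hρ (k + 4) hw q)⟩
  -- the bound of one component, for an abstract bounding quantity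
  obtain ⟨M, hM0, hcM⟩ := exists_bd4 c
  have abs1 : ∀ (u a : E → E), Sm u → Sm a → ∀ Z : ℝ,
      (∀ i j, hs (D ρ) k (fun x => u x j * pd j a x i) ≤ Z) →
      (∀ j p q, hs (D ρ) k (fun x => pd p u x q * a x j) ≤ Z) →
      hs (D ρ) k (trc c u a) ≤ 3 * (2 * (24 * Z) + 2 * (24 * (24 * (24 * (M * Z))))) := by
    intro u a hu ha Z h1 h2
    have hi : ∀ i, hs (D ρ) k (fun x => trc c u a x i) ≤
        2 * (24 * Z) + 2 * (24 * (24 * (24 * (M * Z)))) := by
      intro i
      have s1 : ∀ j, Sm (fun x => u x j * pd j a x i) := fun j =>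
        (hu.comp_apply j).mul ((ha.pd j).comp_apply i)
      have s2 : ∀ j p q, Sm (fun x => c i j p q * pd p u x q * a x j) := fun j p q =>
        (contDiff_const.mul ((hu.pd p).comp_apply q)).mul (ha.comp_apply j)
      have s3 : ∀ j p, Sm (fun x => ∑ q, c i j p q * pd p u x q * a x j) := fun j p =>
        ContDiff.sum fun q _ => s2 j p q
      have s4 : ∀ j, Sm (fun x => ∑ p, ∑ q, c i j p q * pd p u x q * a x j) := fun j =>
        ContDiff.sum fun p _ => s3 j p
      have t0 : ∀ j p q, hs (D ρ) k (fun x => c i j p q * pd p u x q * a x j) ≤ M * Z := by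
        intro j p q
        have e : (fun x => c i j p q * pd p u x q * a x j) =
            fun x => c i j p q • (pd p u x q * a x j) := by
          funext x
          rw [smul_eq_mul, mul_assoc]
        rw [e, hH.smul ℝ _ _ _ _ (((hu.pd p).comp_apply q).mul (ha.comp_apply j))]
        exact mul_le_mul (hcM i j p q) (h2 j p q) (hH.nonneg ℝ _ _ _) hM0
      have t1 : ∀ j p, hs (D ρ) k (fun x => ∑ q, c i j p q * pd p u x q * a x j) ≤
          24 * (M * Z) := fun j p => sum3 hH hm hρ.bdd k (s2 j p) (t0 j p)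
      have t2 : ∀ j, hs (D ρ) k (fun x => ∑ p, ∑ q, c i j p q * pd p u x q * a x j) ≤
          24 * (24 * (M * Z)) := fun j => sum3 hH hm hρ.bdd k (s3 j) (t1 j)
      have t3 : hs (D ρ) k (fun x => ∑ j, ∑ p, ∑ q, c i j p q * pd p u x q * a x j) ≤
          24 * (24 * (24 * (M * Z))) := sum3 hH hm hρ.bdd k s4 t2
      have t4 : hs (D ρ) k (fun x => ∑ j, u x j * pd j a x i) ≤ 24 * Z :=
        sum3 hH hm hρ.bdd k s1 (h1 i)
      have h := hH.add_le ℝ (D ρ) k (fun x => ∑ j, u x j * pd j a x i)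
        (fun x => ∑ j, ∑ p, ∑ q, c i j p q * pd p u x q * a x j) hm (Or.inl hρ.bdd)
        (ContDiff.sum fun j _ => s1 j) (ContDiff.sum fun j _ => s4 j)
      have e : (fun x => trc c u a x i) = fun x => (∑ j, u x j * pd j a x i) +
          ∑ j, ∑ p, ∑ q, c i j p q * pd p u x q * a x j := by
        funext x
        exact trc_apply c u a x i
      rw [e]
      linarith
    rw [hH.comp (D ρ) k _ hm (Or.inl hρ.bdd) (trc_smooth c hu ha)]
    exact sum_fin3_le hi
  refine ⟨3 * (2 * (24 * C) + 2 * (24 * (24 * (24 * (M * C))))),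
    by positivity, fun u a hu ha => ⟨?_, ?_⟩⟩
  · have h := abs1 u a hu ha (C * (hs (D ρ) (k + 1) u * hs (D ρ) (k + 4) a))
      (fun i j => (one u a hu ha _ _ (hu.comp_apply j) ((ha.pd j).comp_apply i)
        (hcomp u hu j) (hpd a ha j i)).1)
      (fun j p q => (one u a hu ha _ _ ((hu.pd p).comp_apply q) (ha.comp_apply j)
        (hpd u hu p q) (hcomp a ha j)).1)
    refine h.trans (le_of_eq ?_)
    ring
  · have h := abs1 u a hu ha (C * (hs (D ρ) (k + 4) u * hs (D ρ) (k + 1) a))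
      (fun i j => (one u a hu ha _ _ (hu.comp_apply j) ((ha.pd j).comp_apply i)
        (hcomp u hu j) (hpd a ha j i)).2)
      (fun j p q => (one u a hu ha _ _ ((hu.pd p).comp_apply q) (ha.comp_apply j)
        (hpd u hu p q) (hcomp a ha j)).2)
    refine h.trans (le_of_eq ?_)
    ring

end MPfab.EngM

namespace MPfab

theorem specCrude (hH : SpecHSB) (hL : SpecLeib) (hP : SpecProd) : SpecCrude :=
  EngM.specCrude hH hL hP

end MPfab
end

section
/-!
MP_fabde4_an, module RUNGE, step (4): approximation of a formally harmonic Neumann gradient by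
`gr (Q Z)` with test fields `Z` of the domain.
-/
set_option autoImplicit false
open MeasureTheory Set Filter Topology

namespace MPfab

namespace RungeB

/-- derivatives of rescaled functions of `ρ` -/
lemma scaled {ρ : E → ℝ} (hρ : Dom ρ) (k : ℕ) : ∀ G : ℝ → ℝ, Sm G → HasCompactSupport G →
    ∃ C : ℝ, 0 ≤ C ∧ ∀ c : ℝ, 1 ≤ c → hs (D ρ) k (fun x => G (c * ρ x)) ≤ C * (c ^ k) ^ 2 := by
  have hmeas : MeasurableSet (D ρ) := (EngM.D_open hρ).measurableSet
  have h0 : ∀ G : ℝ → ℝ, Sm G → HasCompactSupport G → ∃ C : ℝ, 0 ≤ C ∧ ∀ c : ℝ,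
      (∫ x in D ρ, ‖G (c * ρ x)‖ ^ 2) ≤ C := by
    intro G hG hGc
    obtain ⟨M, hM⟩ := hG.continuous.bounded_above_of_compact_support hGc
    have hM0 : 0 ≤ M := (norm_nonneg _).trans (hM 0)
    refine ⟨M ^ 2 * (volume.real (D ρ)), by positivity, fun c => ?_⟩
    have hvol : volume (D ρ) < ⊤ := hρ.bdd.measure_lt_top
    have h1 := norm_setIntegral_le_of_norm_le_const (μ := volume) (s := D ρ)
      (f := fun x => ‖G (c * ρ x)‖ ^ 2) (C := M ^ 2) hvol (fun x _ => by
        rw [Real.norm_of_nonneg (by positivity)]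
        exact pow_le_pow_left₀ (norm_nonneg _) (hM _) 2)
    exact (le_abs_self _).trans h1
  induction k with
  | zero =>
    intro G hG hGc
    obtain ⟨C, hC, h⟩ := h0 G hG hGc
    refine ⟨C, hC, fun c _ => ?_⟩
    rw [pow_zero, one_pow, mul_one]
    exact h c
  | succ k ih =>
    intro G hG hGc
    obtain ⟨C0, hC0, h⟩ := h0 G hG hGc
    have hG' : Sm (deriv G) := by
      have h : Sm (fun x : ℝ => fderiv ℝ G x 1) :=
        (hG.fderiv_right (m := ((⊤ : ENat) : WithTop ENat)) (by simp)).clm_apply contDiff_const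
      exact h
    obtain ⟨C1, hC1, h1⟩ := ih (deriv G) hG' hGc.deriv
    have hm : ∀ i : Fin 3, ∃ C : ℝ, 0 ≤ C ∧ ∀ f : E → ℝ, Sm f →
        hs (D ρ) k (fun x => pd i ρ x • f x) ≤ C * hs (D ρ) k f := by
      intro i
      obtain ⟨C, hC, hh⟩ := specMult (D ρ) hmeas hρ.bdd (pd i ρ) (hρ.smooth.pd i) k
      exact ⟨C, hC, fun f hf => hh ℝ f hf⟩
    choose C2 hC2 h2 using hm
    refine ⟨C0 + ∑ i, C2 i * C1, add_nonneg hC0 (Finset.sum_nonneg fun i _ =>
      mul_nonneg (hC2 i) hC1), fun c hc => ?_⟩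
    have hsm : Sm (fun x => deriv G (c * ρ x)) := hG'.comp (contDiff_const.mul hρ.smooth)
    have e : ∀ i, pd i (fun x => G (c * ρ x)) = fun x => pd i ρ x • (c • deriv G (c * ρ x)) := by
      intro i
      funext x
      have d1 : HasFDerivAt (fun x => c * ρ x) (c • fderiv ℝ ρ x) x :=
        (hρ.smooth.differentiable x).hasFDerivAt.const_mul c
      have d2 : HasDerivAt G (deriv G (c * ρ x)) (c * ρ x) := (hG.differentiable _).hasDerivAt
      have d3 := d2.comp_hasFDerivAt x d1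
      rw [pd_def]
      have d4 : fderiv ℝ (fun x => G (c * ρ x)) x = deriv G (c * ρ x) • c • fderiv ℝ ρ x :=
        d3.fderiv
      rw [d4]
      simp only [_root_.smul_apply, smul_eq_mul, pd_def]
      ring
    have hc2 : 1 ≤ (c ^ (k + 1)) ^ 2 := one_le_pow₀ (one_le_pow₀ hc)
    rw [HSB.succ_eq]
    have b1 : (∫ x in D ρ, ‖G (c * ρ x)‖ ^ 2) ≤ C0 * (c ^ (k + 1)) ^ 2 :=
      (h c).trans (le_mul_of_one_le_right hC0 hc2)
    have b2 : ∑ i, hs (D ρ) k (pd i fun x => G (c * ρ x)) ≤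
        ∑ i, C2 i * C1 * (c ^ (k + 1)) ^ 2 := by
      refine Finset.sum_le_sum fun i _ => ?_
      rw [e i]
      refine (h2 i _ (hsm.const_smul c)).trans ?_
      rw [HSB.smul (D ρ) k c _ hsm]
      have h3 := h1 c hc
      calc C2 i * (c ^ 2 * hs (D ρ) k (fun x => deriv G (c * ρ x))) ≤
          C2 i * (c ^ 2 * (C1 * (c ^ k) ^ 2)) :=
            mul_le_mul_of_nonneg_left (mul_le_mul_of_nonneg_left h3 (sq_nonneg c)) (hC2 i)
        _ = C2 i * C1 * (c ^ (k + 1)) ^ 2 := by ring
    calc _ ≤ C0 * (c ^ (k + 1)) ^ 2 + ∑ i, C2 i * C1 * (c ^ (k + 1)) ^ 2 := add_le_add b1 b2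
      _ = (C0 + ∑ i, C2 i * C1) * (c ^ (k + 1)) ^ 2 := by
        rw [add_mul, Finset.sum_mul]

/-- approximation of `ρ^(M+1) V` by test fields of the domain -/
theorem approx {ρ : E → ℝ} (hρ : Dom ρ) {K M : ℕ} (hKM : K ≤ M) {V : E → E} (hV : Sm V)
    {ε : ℝ} (hε : 0 < ε) : ∃ Z : E → E, Test (D ρ) Z ∧
      hs (D ρ) K (fun x => ρ x ^ (M + 1) • V x - Z x) < ε := by
  have hmeas : MeasurableSet (D ρ) := (EngM.D_open hρ).measurableSet
  set S := Real.smoothTransition with hS
  have hSs : Sm S := Real.smoothTransition.contDiff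
  set G : ℝ → ℝ := fun s => (1 - S (-s - 1)) * S (1 - s) * s ^ (M + 1) with hG
  have hGs : Sm G := by
    refine ContDiff.mul (ContDiff.mul (contDiff_const.sub (hSs.comp ?_)) (hSs.comp ?_)) ?_
    · exact contDiff_id.neg.sub contDiff_const
    · exact contDiff_const.sub contDiff_id
    · exact contDiff_id.pow _
  have hGc : HasCompactSupport G := by
    refine HasCompactSupport.intro (isCompact_Icc (a := (-2 : ℝ)) (b := 1)) fun s hs => ?_
    rw [mem_Icc, not_and_or, not_le, not_le] at hs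
    rcases hs with h | h
    · have : S (-s - 1) = 1 := Real.smoothTransition.one_of_one_le (by linarith)
      simp [hG, this]
    · have : S (1 - s) = 0 := Real.smoothTransition.zero_of_nonpos (by linarith)
      simp [hG, this]
  obtain ⟨C1, hC1, h1⟩ := scaled hρ K G hGs hGc
  have hm : ∀ j : Fin 3, ∃ C : ℝ, 0 ≤ C ∧ ∀ f : E → ℝ, Sm f →
      hs (D ρ) K (fun x => V x j • f x) ≤ C * hs (D ρ) K f := by
    intro j
    obtain ⟨C, hC, hh⟩ := specMult (D ρ) hmeas hρ.bdd (fun x => V x j) (hV.comp_apply j) K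
    exact ⟨C, hC, fun f hf => hh ℝ f hf⟩
  choose C2 hC2 h2 using hm
  set C3 : ℝ := ∑ j, C2 j * C1 with hC3
  have hC30 : 0 ≤ C3 := Finset.sum_nonneg fun i _ => mul_nonneg (hC2 i) hC1
  obtain ⟨n, hn⟩ := exists_nat_gt (C3 / ε + 1)
  have hn1 : (1 : ℝ) ≤ n := by
    have : 0 ≤ C3 / ε := by positivity
    linarith
  have hn0 : (0 : ℝ) < n := by linarith
  set c : ℝ := (n : ℝ) with hc
  refine ⟨fun x => S (-(c * ρ x) - 1) • (ρ x ^ (M + 1) • V x), ⟨?_, ?_, ?_⟩, ?_⟩
  · refine ContDiff.smul (hSs.comp ?_) ((hρ.smooth.pow _).smul hV)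
    exact (contDiff_const.mul hρ.smooth).neg.sub contDiff_const
  · have hcl : IsCompact (closure (D ρ)) := hρ.bdd.isCompact_closure
    refine HasCompactSupport.intro hcl fun x hx => ?_
    have hx' : ¬ ρ x < 0 := fun h => hx (subset_closure h)
    have : S (-(c * ρ x) - 1) = 0 := by
      apply Real.smoothTransition.zero_of_nonpos
      have : 0 ≤ c * ρ x := mul_nonneg hn0.le (not_lt.mp hx')
      linarith
    rw [this, zero_smul]
  · have hclosed : IsClosed {x : E | ρ x ≤ -(1 / c)} :=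
      isClosed_le hρ.smooth.continuous continuous_const
    have hsub : tsupport (fun x => S (-(c * ρ x) - 1) • (ρ x ^ (M + 1) • V x)) ⊆
        {x : E | ρ x ≤ -(1 / c)} := by
      refine closure_minimal (fun x hx => ?_) hclosed
      by_contra hcon
      have hcon' : -(1 / c) < ρ x := not_le.mp hcon
      apply hx
      have : S (-(c * ρ x) - 1) = 0 := by
        apply Real.smoothTransition.zero_of_nonpos
        have h3 : c * -(1 / c) < c * ρ x := mul_lt_mul_of_pos_left hcon' hn0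
        have h4 : c * -(1 / c) = -1 := by
          field_simp
        linarith
      simp only [this, zero_smul]
    refine hsub.trans fun x hx => ?_
    have hx' : ρ x ≤ -(1 / c) := hx
    have : 0 < 1 / c := by positivity
    change ρ x < 0
    linarith
  · have e1 : ∀ x ∈ D ρ, (fun x => ρ x ^ (M + 1) • V x -
        S (-(c * ρ x) - 1) • (ρ x ^ (M + 1) • V x)) x =
        (fun x => ((c ^ (M + 1))⁻¹ * G (c * ρ x)) • V x) x := by
      intro x hx
      have hx' : ρ x < 0 := hx
      have h3 : S (1 - c * ρ x) = 1 := by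
        apply Real.smoothTransition.one_of_one_le
        nlinarith
      simp only [hG]
      rw [h3, smul_smul, ← sub_smul]
      congr 1
      rw [mul_pow]
      field_simp
    rw [HSB.congr K _ _ (EngM.D_open hρ) e1]
    have hGsm : Sm (fun x => G (c * ρ x)) := hGs.comp (contDiff_const.mul hρ.smooth)
    have hsm : Sm (fun x => ((c ^ (M + 1))⁻¹ * G (c * ρ x)) • V x) :=
      (contDiff_const.mul hGsm).smul hV
    rw [HSB.comp K _ (Or.inl hρ.bdd) hsm]
    have b1 : ∀ j, hs (D ρ) K (fun x => (((c ^ (M + 1))⁻¹ * G (c * ρ x)) • V x) j) ≤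
        C2 j * C1 * (c ^ 2)⁻¹ := by
      intro j
      have e2 : (fun x => (((c ^ (M + 1))⁻¹ * G (c * ρ x)) • V x) j) =
          fun x => V x j • ((c ^ (M + 1))⁻¹ • G (c * ρ x)) := by
        funext x
        simp only [PiLp.smul_apply, smul_eq_mul]
        ring
      rw [e2]
      refine (h2 j _ (hGsm.const_smul _)).trans ?_
      rw [HSB.smul (D ρ) K _ _ hGsm]
      have h3 := h1 c hn1
      have h4 : (c ^ K) ^ 2 ≤ (c ^ M) ^ 2 :=
        pow_le_pow_left₀ (by positivity) (pow_le_pow_right₀ hn1 hKM) 2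
      have h5 : ((c ^ (M + 1))⁻¹) ^ 2 * (c ^ M) ^ 2 = (c ^ 2)⁻¹ := by
        field_simp
        ring
      calc C2 j * (((c ^ (M + 1))⁻¹) ^ 2 * hs (D ρ) K (fun x => G (c * ρ x))) ≤
          C2 j * (((c ^ (M + 1))⁻¹) ^ 2 * (C1 * (c ^ M) ^ 2)) := by
            refine mul_le_mul_of_nonneg_left (mul_le_mul_of_nonneg_left ?_ (sq_nonneg _)) (hC2 j)
            exact h3.trans (mul_le_mul_of_nonneg_left h4 hC1)
        _ = C2 j * C1 * (((c ^ (M + 1))⁻¹) ^ 2 * (c ^ M) ^ 2) := by ring
        _ = C2 j * C1 * (c ^ 2)⁻¹ := by rw [h5]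
    calc _ ≤ ∑ j, C2 j * C1 * (c ^ 2)⁻¹ := Finset.sum_le_sum fun j _ => b1 j
      _ = C3 * (c ^ 2)⁻¹ := by rw [hC3, Finset.sum_mul]
      _ < ε := by
        rw [← div_eq_mul_inv, div_lt_iff₀ (by positivity)]
        have h6 : C3 / ε < c := by linarith
        rw [div_lt_iff₀ hε] at h6
        have h7 : c ≤ c ^ 2 := by nlinarith
        nlinarith

/-- the field `curl (ρ C)` is tangential -/
lemma tan_curl {ρ : E → ℝ} (hρ : Sm ρ) {C : E → E} (hC : Sm C) :
    InX ρ (curl fun y => ρ y • C y) := by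
  have hs : Sm (fun y => ρ y • C y) := hρ.smul hC
  refine ⟨hs.curl, fun x _ => PDC.dv_curl hs x, fun x hx => ?_⟩
  have h1 : ∀ i, pd i (fun y => ρ y • C y) x = pd i ρ x • C x := by
    intro i
    rw [PDC.pd_smul (hρ.differentiable x) (hC.differentiable x), hx, zero_smul, zero_add]
  rw [fderiv_eq_sum, Fin.sum_univ_three]
  simp only [curl_apply0, curl_apply1, curl_apply2, h1, PiLp.smul_apply, smul_eq_mul]
  ring

lemma gr_Q_zero {ρ : E → ℝ} {R : ℝ} {P : (E → E) → E → E} {Q : (E → E) → E → ℝ}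
    (hL : Leray ρ R P Q) {v : E → E} (hv : InX ρ v) {x : E} (hx : ρ x ≤ 0) :
    gr (Q v) x = 0 := by
  have h0 : ∀ y, gr (fun _ : E => (0 : ℝ)) y = 0 := by
    intro y
    ext i
    simp [pd_def]
  have h1 : InX ρ (fun x => v x - gr (fun _ : E => (0 : ℝ)) x) := by
    have e : (fun x => v x - gr (fun _ : E => (0 : ℝ)) x) = v := by
      funext y
      rw [h0, sub_zero]
    rw [e]
    exact hv
  have h2 := hL.uniq v (fun _ => 0) hv.smooth contDiff_const h1 x hx
  rw [← h2, h0]

lemma gr_Q_gr {ρ : E → ℝ} {R : ℝ} {P : (E → E) → E → E} {Q : (E → E) → E → ℝ}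
    (hL : Leray ρ R P Q) {φ : E → ℝ} (hφ : Sm φ) {x : E} (hx : ρ x ≤ 0) :
    gr (Q (gr φ)) x = gr φ x := by
  have h1 : InX ρ (fun x => gr φ x - gr φ x) := by
    have e : (fun x => gr φ x - gr φ x) = fun _ => (0 : E) := by
      funext y
      rw [sub_self]
    rw [e]
    refine ⟨contDiff_const, fun y _ => ?_, fun y _ => by simp⟩
    simp [dv, pd_def]
  exact (hL.uniq (gr φ) φ hφ.gr hφ h1 x hx).symm

lemma gr_add {f g : E → ℝ} (hf : Sm f) (hg : Sm g) (x : E) :
    gr (fun y => f y + g y) x = gr f x + gr g x := by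
  ext i
  rw [PiLp.add_apply, gr_apply, gr_apply, gr_apply]
  exact PDC.pd_add (hf.differentiable x) (hg.differentiable x) i

/-- `Q` of differences -/
lemma gr_Q_sub {ρ : E → ℝ} {R : ℝ} {P : (E → E) → E → E} {Q : (E → E) → E → ℝ}
    (hL : Leray ρ R P Q) {m m' : E → E} (hm : Sm m) (hm' : Sm m') (x : E) :
    gr (Q (fun y => m y - m' y)) x = gr (Q m) x - gr (Q m') x := by
  have h1 : Sm (fun y => m y - m' y) := hm.sub hm'
  have h2 := hL.addQ (fun y => m y - m' y) m' h1 hm'
  have h3 : (fun x => (m x - m' x) + m' x) = m := by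
    funext y
    abel
  rw [h3] at h2
  rw [h2, gr_add (hL.inQ _ h1).smooth (hL.inQ _ hm').smooth]
  abel

/-- boundedness of `gr Q` -/
lemma bd_grQ {ρ : E → ℝ} {R : ℝ} {P : (E → E) → E → E} {Q : (E → E) → E → ℝ}
    (hL : Leray ρ R P Q) (K : ℕ) : ∃ C : ℝ, 0 ≤ C ∧ ∀ m : E → E, Sm m →
      hs (D ρ) K (gr (Q m)) ≤ C * hs (D ρ) K m := by
  obtain ⟨C, hC⟩ := hL.bdQ K
  refine ⟨3 * |C|, by positivity, fun m hm => ?_⟩
  have hq := hL.inQ m hm
  have hgs : Sm (gr (Q m)) := hq.smooth.gr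
  have hgc : HasCompactSupport (gr (Q m)) := by
    have hc := LopM.hcs hq
    refine HasCompactSupport.intro hc.isCompact fun x hx => ?_
    have h1 : Q m =ᶠ[𝓝 x] fun _ => 0 := by
      have h2 : (tsupport (Q m))ᶜ ∈ 𝓝 x := (isClosed_tsupport _).isOpen_compl.mem_nhds hx
      filter_upwards [h2] with y hy
      exact image_eq_zero_of_notMem_tsupport hy
    ext i
    rw [gr_apply, pd_def, h1.fderiv_eq]
    simp
  have b1 := HSB.mono_set (S := D ρ) (S' := univ) K (gr (Q m)) (subset_univ _) (Or.inr hgc) hgs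
  have b2 : hs univ K (gr (Q m)) ≤ 3 * hs univ (K + 1) (Q m) := by
    rw [HSB.comp K _ (Or.inr hgc) hgs]
    have : ∀ j, hs univ K (fun x => gr (Q m) x j) ≤ hs univ (K + 1) (Q m) := fun j =>
      HSB.pd_le univ K j (Q m)
    calc _ ≤ ∑ _j : Fin 3, hs univ (K + 1) (Q m) := Finset.sum_le_sum fun j _ => this j
      _ = 3 * hs univ (K + 1) (Q m) := by
        rw [Finset.sum_const, Finset.card_univ, Fintype.card_fin]
        simp
  have b3 := hC m hm
  have b4 : C * hs (D ρ) K m ≤ |C| * hs (D ρ) K m :=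
    mul_le_mul_of_nonneg_right (le_abs_self C) (HSB.nonneg _ _ _)
  nlinarith

end RungeB

open RungeB

/-- step (4) of RUNGE -/
theorem rungeB (hCr : SpecCr) : ∀ (ρ : E → ℝ) (R : ℝ) (P : (E → E) → E → E)
    (Q : (E → E) → E → ℝ) (U : Set E) (K M : ℕ) (F h : E → ℝ) (ε : ℝ), DomN ρ →
    Leray ρ R P Q → K ≤ M → Sm F → Sm h → Tan ρ (gr F) → IsOpen U → (∀ x, ρ x = 0 → x ∈ U) →
    (∀ x ∈ U, lap F x = ρ x ^ M * h x) → 0 < ε →
    ∃ Z : E → E, Test (D ρ) Z ∧ hs (D ρ) K (fun x => gr F x - gr (Q Z) x) < ε := by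
  intro ρ R P Q U K M F h ε hρ hL hKM hF hh hT hU hUb hlap hε
  have hdv : ∀ x ∈ U, dv (gr F) x = ρ x ^ M * h x := by
    intro x hx
    rw [← hlap x hx]
    unfold dv lap
    refine Finset.sum_congr rfl fun i _ => ?_
    rw [PDC.pd_comp_apply hF.gr]
    rfl
  obtain ⟨C, V', hC, hV', hdec⟩ := hCr ρ M (gr F) h U hρ hF.gr hh hT hU hUb hdv
  have hW := tan_curl hρ.smooth hC
  have hZ0 : Sm (fun x => ρ x ^ (M + 1) • V' x) := (hρ.smooth.pow _).smul hV'
  have e1 : ∀ x, ρ x ≤ 0 → gr F x = gr (Q fun x => ρ x ^ (M + 1) • V' x) x := by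
    intro x hx
    have e2 : gr F = fun x => (curl fun y => ρ y • C y) x + ρ x ^ (M + 1) • V' x :=
      funext hdec
    have e3 := hL.addQ _ _ hW.smooth hZ0
    rw [← e2] at e3
    rw [← gr_Q_gr hL hF hx, e3, gr_add (hL.inQ _ hW.smooth).smooth (hL.inQ _ hZ0).smooth,
      gr_Q_zero hL hW hx, zero_add]
  obtain ⟨C1, hC1, hb⟩ := bd_grQ hL K
  obtain ⟨Z, hZ, hZb⟩ := approx hρ.toDom hKM hV' (ε := ε / (C1 + 1)) (by positivity)
  refine ⟨Z, hZ, ?_⟩
  have e4 : ∀ x ∈ D ρ, (fun x => gr F x - gr (Q Z) x) x =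
      gr (Q fun x => ρ x ^ (M + 1) • V' x - Z x) x := by
    intro x hx
    rw [gr_Q_sub hL hZ0 hZ.smooth, ← e1 x (le_of_lt hx)]
  rw [HSB.congr K _ _ (EngM.D_open hρ.toDom) e4]
  refine (hb _ (hZ0.sub hZ.smooth)).trans_lt ?_
  have h0 := HSB.nonneg (D ρ) K (fun x => ρ x ^ (M + 1) • V' x - Z x)
  rw [lt_div_iff₀ (by positivity)] at hZb
  nlinarith

end MPfab
end

section
/-!
MP_fabde4_an, module RUNGE: approximation of formally harmonic gradients by control fields modulo
interior fields (assembly).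
-/
set_option autoImplicit false
open MeasureTheory Set Filter Topology

namespace MPfab

theorem specRunge (hCr : SpecCr) : SpecRunge := by
  intro ρ R P Q B U K M F h ε hρ hconn hL hB hBne hBD hKM hF hh hT hU hUb hlap hε
  exact RgD.rungeA @RungeA.sep @RungeA.repr B K F hρ.toDom hconn hL hB hBne hBD hF
    (fun ε hε => rungeB hCr ρ R P Q U K M F h ε hρ hL hKM hF hh hT hU hUb hlap hε) ε hε

end MPfab
end

section
/-!
MP_fabde4_an, module ENG, static part: the bilinear energy estimate for transport operators.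
-/
set_option autoImplicit false
open MeasureTheory Set Filter Topology

namespace MPfab.EngM

theorem unif {ι : Type*} (T : List ι) (P : ι → ℝ → Prop)
    (mono : ∀ p C C', C ≤ C' → P p C → P p C') (h : ∀ p ∈ T, ∃ C, 0 ≤ C ∧ P p C) :
    ∃ C, 0 ≤ C ∧ ∀ p ∈ T, P p C := by
  induction T with
  | nil => exact ⟨0, le_rfl, by simp⟩
  | cons p T ih =>
    obtain ⟨C1, h1, h2⟩ := ih fun q hq => h q (List.mem_cons_of_mem p hq)
    obtain ⟨C2, h3, h4⟩ := h p List.mem_cons_self
    refine ⟨max C1 C2, le_max_of_le_left h1, fun q hq => ?_⟩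
    rcases List.mem_cons.1 hq with rfl | hq
    · exact mono _ _ _ (le_max_right _ _) h4
    · exact mono _ _ _ (le_max_left _ _) (h2 q hq)

/-- Cauchy–Schwarz on a bounded set -/
theorem cs {S : Set E} (hb : Bornology.IsBounded S) {f g : E → ℝ} (hf : Continuous f)
    (hg : Continuous g) :
    |∫ x in S, f x * g x| ≤ √(∫ x in S, f x ^ 2) * √(∫ x in S, g x ^ 2) := by
  have h : ∀ t : ℝ, 0 ≤ (∫ x in S, f x ^ 2) * (t * t) + (2 * ∫ x in S, f x * g x) * t +
      ∫ x in S, g x ^ 2 := by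
    intro t
    have c1 : Continuous fun x => f x ^ 2 := hf.pow 2
    have c2 : Continuous fun x => f x * g x := hf.mul hg
    have c3 : Continuous fun x => g x ^ 2 := hg.pow 2
    have e : ∫ x in S, (f x * t + g x) ^ 2 = (∫ x in S, f x ^ 2) * (t * t) +
        (2 * ∫ x in S, f x * g x) * t + ∫ x in S, g x ^ 2 := by
      have e1 : ∀ x, (f x * t + g x) ^ 2 =
          (t * t) * f x ^ 2 + (2 * t) * (f x * g x) + g x ^ 2 := by
        intro x
        ring
      simp_rw [e1]
      have c12 : Continuous fun x => (t * t) * f x ^ 2 + (2 * t) * (f x * g x) :=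
        (continuous_const.mul c1).add (continuous_const.mul c2)
      rw [integral_add (intOn hb c12) (intOn hb c3),
        integral_add ((intOn hb c1).const_mul _) ((intOn hb c2).const_mul _),
        integral_const_mul, integral_const_mul]
      ring
    rw [← e]
    exact integral_nonneg fun _ => sq_nonneg _
  have h2 := discrim_le_zero h
  rw [discrim] at h2
  have h3 : (∫ x in S, f x * g x) ^ 2 ≤ (∫ x in S, f x ^ 2) * ∫ x in S, g x ^ 2 := by nlinarith
  rw [← Real.sqrt_mul (integral_nonneg fun _ => sq_nonneg _)]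
  exact Real.abs_le_sqrt h3

theorem dv_smul' {f : E → ℝ} {v : E → E} {x : E} (hf : DifferentiableAt ℝ f x)
    (hv : DifferentiableAt ℝ v x) :
    dv (fun y => f y • v y) x = f x * dv v x + fderiv ℝ f x (v x) := by
  have h1 : ∀ i, pd i (fun y => f y • v y) x = f x • pd i v x + pd i f x • v x := by
    intro i
    unfold pd
    rw [fderiv_fun_smul hf hv]
    simp
  unfold dv
  simp only [h1]
  rw [fderiv_eq_sum f x (v x), Finset.mul_sum, ← Finset.sum_add_distrib]
  refine Finset.sum_congr rfl fun i _ => ?_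
  simp only [PiLp.add_apply, PiLp.smul_apply, smul_eq_mul]
  ring

/-- the transport term -/
theorem transport (hG : SpecGauss) {ρ : E → ℝ} (hρ : Dom ρ) {U : E → E} (hU : Sm U)
    (hT : Tan ρ U) {f : E → ℝ} (hf : Sm f) :
    2 * ∫ x in D ρ, f x * ∑ j, U x j * pd j f x = -∫ x in D ρ, dv U x * f x ^ 2 := by
  have hf2 : Sm fun x => f x ^ 2 := hf.pow 2
  have hw : Sm fun x => f x ^ 2 • U x := hf2.smul hU
  have hg := hG ρ hρ (fun x => f x ^ 2 • U x) hw
    (fun x hx => by rw [map_smul, hT x hx, smul_zero])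
  have e : ∀ x, dv (fun x => f x ^ 2 • U x) x =
      dv U x * f x ^ 2 + 2 * (f x * ∑ j, U x j * pd j f x) := by
    intro x
    rw [dv_smul' (Sm.differentiable hf2 x) (Sm.differentiable hU x)]
    have h1 : fderiv ℝ (fun y => f y ^ 2) x (U x) = 2 * (f x * ∑ j, U x j * pd j f x) := by
      rw [fderiv_eq_sum, Finset.mul_sum, Finset.mul_sum]
      refine Finset.sum_congr rfl fun j _ => ?_
      have h2 : pd j (fun y => f y ^ 2) x = 2 * f x * pd j f x := by
        simp only [pd_def]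
        rw [((Sm.differentiable hf x).hasFDerivAt.pow 2).fderiv]
        simp
      rw [h2, smul_eq_mul]
      ring
    rw [h1]
    ring
  simp_rw [e] at hg
  have c1 : Continuous fun x => dv U x * f x ^ 2 := (Sm.dv hU).continuous.mul (hf.continuous.pow 2)
  have c2 : Continuous fun x => f x * ∑ j, U x j * pd j f x := by
    refine hf.continuous.mul (continuous_finsetSum _ fun j _ => ?_)
    exact (hU.comp_apply j).continuous.mul (hf.pd j).continuous
  rw [integral_add (intOn hρ.bdd c1) ((intOn hρ.bdd c2).const_mul 2), integral_const_mul] at hg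
  linarith

/-- sup norm of the divergence -/
theorem dv_sup (hH : SpecHSB) (hS : SpecSob) {ρ : E → ℝ} (hρ : Dom ρ) :
    ∃ C : ℝ, 0 ≤ C ∧ ∀ U : E → E, Sm U → ∀ x ∈ D ρ, |dv U x| ≤ C * √(hs (D ρ) 4 U) := by
  obtain ⟨C, hC, h⟩ := hS ρ hρ
  refine ⟨√(C * 24), Real.sqrt_nonneg _, fun U hU x hx => ?_⟩
  have h1 := h ℝ (dv U) (Sm.dv hU) x hx
  have h2 : hs (D ρ) 3 (dv U) ≤ 24 * hs (D ρ) 4 U := by
    have e : dv U = fun x => ∑ i, pd i (fun y => U y i) x := by
      funext x
      unfold dv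
      exact Finset.sum_congr rfl fun i _ => pd_apply (Sm.differentiable hU x) i i
    rw [e]
    exact sum3 hH (D_open hρ).measurableSet hρ.bdd 3 (fun i => (hU.comp_apply i).pd i)
      fun i => (pd_le hH 3 (hU.comp_apply i) i).trans (comp_le hH hρ 4 hU i)
  rw [← Real.sqrt_mul (by positivity)]
  apply Real.le_sqrt_of_sq_le
  rw [sq_abs, mul_assoc]
  rw [Real.norm_eq_abs, sq_abs] at h1
  exact h1.trans (mul_le_mul_of_nonneg_left h2 hC)

/-! ### good remainders -/

/-- remainders: continuous functions depending on two fields, with square integral bounded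
by `Q` -/
def Gd (ρ : E → ℝ) (Q : (E → E) → (E → E) → ℝ) (R : (E → E) → (E → E) → E → ℝ) : Prop :=
  ∃ C : ℝ, 0 ≤ C ∧ ∀ U A : E → E, Sm U → Sm A →
    Continuous (R U A) ∧ ∫ x in D ρ, R U A x ^ 2 ≤ C * Q U A

theorem Gd.zero {ρ : E → ℝ} {Q : (E → E) → (E → E) → ℝ} : Gd ρ Q fun _ _ _ => 0 :=
  ⟨0, le_rfl, fun U A _ _ => ⟨continuous_const, by simp⟩⟩

theorem Gd.add {ρ : E → ℝ} (hρ : Dom ρ) {Q : (E → E) → (E → E) → ℝ}
    {R R' : (E → E) → (E → E) → E → ℝ} (h : Gd ρ Q R) (h' : Gd ρ Q R') :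
    Gd ρ Q fun U A x => R U A x + R' U A x := by
  obtain ⟨C, hC, H⟩ := h
  obtain ⟨C', hC', H'⟩ := h'
  refine ⟨2 * C + 2 * C', by positivity, fun U A hU hA => ?_⟩
  obtain ⟨c1, i1⟩ := H U A hU hA
  obtain ⟨c2, i2⟩ := H' U A hU hA
  have c3 : Continuous fun x => R U A x + R' U A x := c1.add c2
  refine ⟨c3, ?_⟩
  have d1 : Continuous fun x => (R U A x + R' U A x) ^ 2 := c3.pow 2
  have d2 : Continuous fun x => R U A x ^ 2 := c1.pow 2
  have d3 : Continuous fun x => R' U A x ^ 2 := c2.pow 2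
  have d4 : Continuous fun x => 2 * R U A x ^ 2 + 2 * R' U A x ^ 2 :=
    (continuous_const.mul d2).add (continuous_const.mul d3)
  calc ∫ x in D ρ, (R U A x + R' U A x) ^ 2
      ≤ ∫ x in D ρ, (2 * R U A x ^ 2 + 2 * R' U A x ^ 2) := by
        apply integral_mono (intOn hρ.bdd d1) (intOn hρ.bdd d4)
        intro x
        simp only
        nlinarith [sq_nonneg (R U A x - R' U A x)]
    _ = 2 * (∫ x in D ρ, R U A x ^ 2) + 2 * ∫ x in D ρ, R' U A x ^ 2 := by
        rw [integral_add ((intOn hρ.bdd d2).const_mul 2) ((intOn hρ.bdd d3).const_mul 2),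
          integral_const_mul, integral_const_mul]
    _ ≤ (2 * C + 2 * C') * Q U A := by linarith

theorem Gd.smul {ρ : E → ℝ} {Q : (E → E) → (E → E) → ℝ}
    {R : (E → E) → (E → E) → E → ℝ} (h : Gd ρ Q R) (c : ℝ) :
    Gd ρ Q fun U A x => c * R U A x := by
  obtain ⟨C, hC, H⟩ := h
  refine ⟨c ^ 2 * C, by positivity, fun U A hU hA => ?_⟩
  obtain ⟨c1, i1⟩ := H U A hU hA
  refine ⟨continuous_const.mul c1, ?_⟩
  simp_rw [mul_pow]
  rw [integral_const_mul, mul_assoc]
  exact mul_le_mul_of_nonneg_left i1 (sq_nonneg c)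

theorem Gd.list {ρ : E → ℝ} (hρ : Dom ρ) {Q : (E → E) → (E → E) → ℝ} {ι : Type*} (T : List ι)
    (R : ι → (E → E) → (E → E) → E → ℝ) (h : ∀ p ∈ T, Gd ρ Q (R p)) :
    Gd ρ Q fun U A x => (T.map fun p => R p U A x).sum := by
  induction T with
  | nil => simpa using Gd.zero
  | cons p T ih =>
    simp only [List.map_cons, List.sum_cons]
    exact Gd.add hρ (h p List.mem_cons_self) (ih fun q hq => h q (List.mem_cons_of_mem p hq))

theorem Gd.fin3 {ρ : E → ℝ} (hρ : Dom ρ) {Q : (E → E) → (E → E) → ℝ}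
    (R : Fin 3 → (E → E) → (E → E) → E → ℝ) (h : ∀ p, Gd ρ Q (R p)) :
    Gd ρ Q fun U A x => ∑ p, R p U A x := by
  simp only [Fin.sum_univ_three]
  exact Gd.add hρ (Gd.add hρ (h 0) (h 1)) (h 2)

/-- commutation of one partial derivative -/
theorem pds_pd (hP : SpecPDC) {f : E → ℝ} (hf : Sm f) (L : List (Fin 3)) (j : Fin 3) (x : E) :
    pds L (pd j f) x = pds (j :: L) f x := hP.pds_comm ℝ f hf j L x

/-- the decomposition of a derivative of the transport operator -/
theorem decomp (hP : SpecPDC) (hL : SpecLeib) {ρ : E → ℝ} (hρ : Dom ρ) (k : ℕ)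
    {Q : (E → E) → (E → E) → ℝ}
    (hb : ∀ (P P' : List (Fin 3)) (q m : Fin 3), 1 ≤ P.length → P.length + P'.length ≤ k + 1 →
      Gd ρ Q fun U A x => pds P (fun y => U y q) x * pds P' (fun y => A y m) x)
    (c : Fin 3 → Fin 3 → Fin 3 → Fin 3 → ℝ) (i : Fin 3) (L : List (Fin 3)) (hLk : L.length ≤ k) :
    ∃ R, Gd ρ Q R ∧ ∀ U A : E → E, Sm U → Sm A → ∀ x,
      pds L (fun y => trc c U A y i) x =
        (∑ j, U x j * pd j (pds L fun y => A y i) x) + R U A x := by
  obtain ⟨TL, hTL, hleib⟩ := hL L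
  -- first part
  have g1 : ∀ j : Fin 3, Gd ρ Q fun U A x =>
      (TL.map fun p => pds p.1 (fun y => U y j) x * pds (j :: p.2) (fun y => A y i) x).sum := by
    intro j
    refine Gd.list hρ TL (fun p U A x =>
      pds p.1 (fun y => U y j) x * pds (j :: p.2) (fun y => A y i) x) fun p hp => ?_
    refine hb p.1 (j :: p.2) j i (hTL p hp).1 ?_
    have := (hTL p hp).2
    simp only [List.length_cons]
    omega
  -- second part
  have g2 : ∀ j p q : Fin 3, Gd ρ Q fun U A x => c i j p q *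
      (pds [p] (fun y => U y q) x * pds L (fun y => A y j) x +
        (TL.map fun l => pds (p :: l.1) (fun y => U y q) x * pds l.2 (fun y => A y j) x).sum) := by
    intro j p q
    refine Gd.smul (Gd.add hρ (hb [p] L q j (by simp) (by simp; omega)) ?_) _
    refine Gd.list hρ TL (fun l U A x =>
      pds (p :: l.1) (fun y => U y q) x * pds l.2 (fun y => A y j) x) fun l hl => ?_
    refine hb (p :: l.1) l.2 q j (by simp) ?_
    have := (hTL l hl).2
    simp only [List.length_cons]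
    omega
  refine ⟨_, Gd.add hρ (Gd.fin3 hρ _ g1)
    (Gd.fin3 hρ _ fun j => Gd.fin3 hρ _ fun p => Gd.fin3 hρ _ fun q => g2 j p q),
    fun U A hU hA x => ?_⟩
  have s1 : ∀ j, Sm fun y => U y j * pd j A y i := fun j =>
    (hU.comp_apply j).mul ((hA.pd j).comp_apply i)
  have s2 : ∀ j p q, Sm fun y => c i j p q * pd p U y q * A y j := fun j p q =>
    (contDiff_const.mul ((hU.pd p).comp_apply q)).mul (hA.comp_apply j)
  have e1 : ∀ j, pds L (fun y => U y j * pd j A y i) x = U x j * pd j (pds L fun y => A y i) x +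
      (TL.map fun p => pds p.1 (fun y => U y j) x * pds (j :: p.2) (fun y => A y i) x).sum := by
    intro j
    have hg : (fun y => pd j A y i) = pd j fun y => A y i := pd_comp_eq hA j i
    have h1 := hleib (fun y => U y j) (fun y => pd j A y i) (hU.comp_apply j)
      ((hA.pd j).comp_apply i) x
    rw [h1, hg]
    have h2 : ∀ M, pds M (pd j fun y => A y i) x = pds (j :: M) (fun y => A y i) x := fun M =>
      pds_pd hP (hA.comp_apply i) M j x
    simp only [h2]
    rfl
  have e2 : ∀ j p q, pds L (fun y => c i j p q * pd p U y q * A y j) x = c i j p q *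
      (pds [p] (fun y => U y q) x * pds L (fun y => A y j) x +
        (TL.map fun l => pds (p :: l.1) (fun y => U y q) x * pds l.2 (fun y => A y j) x).sum) := by
    intro j p q
    have e : (fun y => c i j p q * pd p U y q * A y j) =
        fun y => c i j p q • (pd p U y q * A y j) := by
      funext y
      rw [smul_eq_mul, mul_assoc]
    rw [e, pds_smul (((hU.pd p).comp_apply q).mul (hA.comp_apply j))]
    have hg : (fun y => pd p U y q) = pd p fun y => U y q := pd_comp_eq hU p q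
    have h1 := hleib (fun y => pd p U y q) (fun y => A y j) ((hU.pd p).comp_apply q)
      (hA.comp_apply j) x
    simp only
    rw [h1, hg]
    have h2 : ∀ M, pds M (pd p fun y => U y q) x = pds (p :: M) (fun y => U y q) x := fun M =>
      pds_pd hP (hU.comp_apply q) M p x
    simp only [h2, smul_eq_mul]
    have h3 : pd p U x q = pds [p] (fun y => U y q) x := congrFun hg x
    rw [h3]
  have e3 : (fun y => trc c U A y i) = fun y => (∑ j, U y j * pd j A y i) +
      ∑ j, ∑ p, ∑ q, c i j p q * pd p U y q * A y j := by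
    funext y
    exact trc_apply c U A y i
  rw [e3, pds_add (ContDiff.sum fun j _ => s1 j)
    (ContDiff.sum fun j _ => ContDiff.sum fun p _ => ContDiff.sum fun q _ => s2 j p q)]
  simp only
  rw [pds_sum Finset.univ (fun j _ => s1 j),
    pds_sum Finset.univ (fun j _ => ContDiff.sum fun p _ => ContDiff.sum fun q _ => s2 j p q)]
  have e4 : ∀ j, pds L (fun y => ∑ p, ∑ q, c i j p q * pd p U y q * A y j) x =
      ∑ p, ∑ q, pds L (fun y => c i j p q * pd p U y q * A y j) x := by
    intro j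
    rw [pds_sum Finset.univ (fun p _ => ContDiff.sum fun q _ => s2 j p q)]
    simp only
    refine Finset.sum_congr rfl fun p _ => ?_
    rw [pds_sum Finset.univ (fun q _ => s2 j p q)]
  simp only [e4, e1, e2]
  rw [Finset.sum_add_distrib]
  ring

end MPfab.EngM
end

section
/-!
MP_fabde4_an, modules ENG and ENG0: energy inequalities for transport equations.
-/
set_option autoImplicit false
open MeasureTheory Set Filter Topology

namespace MPfab.EngM

theorem sq_le (hH : SpecHSB) {ρ : E → ℝ} (hρ : Dom ρ) (k : ℕ) {A : E → E} (hA : Sm A) (i : Fin 3)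
    (L : List (Fin 3)) (hL : L.length ≤ k) :
    ∫ x in D ρ, pds L (fun y => A y i) x ^ 2 ≤ hs (D ρ) k A := by
  have h1 : ∫ x in D ρ, pds L (fun y => A y i) x ^ 2 = hs (D ρ) 0 (pds L fun y => A y i) := by
    simp only [hs, Real.norm_eq_abs, sq_abs]
  rw [h1]
  refine (hH.pds_le ℝ (D ρ) 0 L _ (hA.comp_apply i)).trans ?_
  exact (hH.mono ℝ _ _ _ _ (by omega)).trans (comp_le hH hρ k hA i)

/-- the static estimate -/
def St (ρ : E → ℝ) (k : ℕ) (c : Fin 3 → Fin 3 → Fin 3 → Fin 3 → ℝ)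
    (Q : (E → E) → (E → E) → ℝ) (L : List (Fin 3)) (i : Fin 3) (C : ℝ) : Prop :=
  ∀ U A : E → E, Sm U → Sm A → Tan ρ U →
    |∫ x in D ρ, pds L (fun y => A y i) x * pds L (fun y => trc c U A y i) x| ≤
      C * (√(hs (D ρ) 4 U) * hs (D ρ) k A + √(hs (D ρ) k A) * √(Q U A))

theorem stat (hH : SpecHSB) (hS : SpecSob) (hG : SpecGauss) (hP : SpecPDC) (hL : SpecLeib)
    {ρ : E → ℝ} (hρ : Dom ρ) (k : ℕ) {Q : (E → E) → (E → E) → ℝ}
    (hb : ∀ (P P' : List (Fin 3)) (q m : Fin 3), 1 ≤ P.length → P.length + P'.length ≤ k + 1 →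
      Gd ρ Q fun U A x => pds P (fun y => U y q) x * pds P' (fun y => A y m) x)
    (c : Fin 3 → Fin 3 → Fin 3 → Fin 3 → ℝ) (i : Fin 3) (L : List (Fin 3)) (hLk : L.length ≤ k) :
    ∃ C : ℝ, 0 ≤ C ∧ St ρ k c Q L i C := by
  obtain ⟨R, ⟨CR, hCR, HR⟩, hdec⟩ := decomp hP hL hρ k hb c i L hLk
  obtain ⟨Cd, hCd, hdv⟩ := dv_sup hH hS hρ
  refine ⟨Cd + √CR, by positivity, fun U A hU hA hT => ?_⟩
  set f := pds L fun y => A y i with hfdef
  have hf : Sm f := pds_smooth (hA.comp_apply i) L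
  have hfk : ∫ x in D ρ, f x ^ 2 ≤ hs (D ρ) k A := sq_le hH hρ k hA i L hLk
  have hf0 : 0 ≤ ∫ x in D ρ, f x ^ 2 := int_nonneg _ _
  obtain ⟨cR, iR⟩ := HR U A hU hA
  have c1 : Continuous fun x => f x * ∑ j, U x j * pd j f x := by
    refine hf.continuous.mul (continuous_finsetSum _ fun j _ => ?_)
    exact (hU.comp_apply j).continuous.mul (hf.pd j).continuous
  have c2 : Continuous fun x => f x * R U A x := hf.continuous.mul cR
  have e : ∫ x in D ρ, f x * pds L (fun y => trc c U A y i) x =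
      (∫ x in D ρ, f x * ∑ j, U x j * pd j f x) + ∫ x in D ρ, f x * R U A x := by
    rw [← integral_add (intOn hρ.bdd c1) (intOn hρ.bdd c2)]
    congr 1
    funext x
    rw [hdec U A hU hA x]
    ring
  have hA0 : 0 ≤ hs (D ρ) k A := hH.nonneg E _ _ _
  -- transport
  have b1 : |∫ x in D ρ, f x * ∑ j, U x j * pd j f x| ≤
      Cd * (√(hs (D ρ) 4 U) * hs (D ρ) k A) := by
    have h1 := transport hG hρ hU hT hf
    have h2 : |∫ x in D ρ, dv U x * f x ^ 2| ≤ Cd * √(hs (D ρ) 4 U) * ∫ x in D ρ, f x ^ 2 := by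
      have c3 : Continuous fun x => dv U x * f x ^ 2 :=
        (Sm.dv hU).continuous.mul (hf.continuous.pow 2)
      have c4 : Continuous fun x => |dv U x * f x ^ 2| := c3.abs
      have c5 : Continuous fun x => Cd * √(hs (D ρ) 4 U) * f x ^ 2 :=
        continuous_const.mul (hf.continuous.pow 2)
      refine (abs_integral_le_integral_abs).trans ?_
      rw [← integral_const_mul]
      refine setIntegral_mono_on (intOn hρ.bdd c4) (intOn hρ.bdd c5)
        (D_open hρ).measurableSet fun x hx => ?_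
      rw [abs_mul, abs_of_nonneg (sq_nonneg (f x))]
      exact mul_le_mul_of_nonneg_right (hdv U hU x hx) (sq_nonneg _)
    have h3 : Cd * √(hs (D ρ) 4 U) * ∫ x in D ρ, f x ^ 2 ≤
        Cd * (√(hs (D ρ) 4 U) * hs (D ρ) k A) := by
      rw [mul_assoc]
      exact mul_le_mul_of_nonneg_left (mul_le_mul_of_nonneg_left hfk (Real.sqrt_nonneg _)) hCd
    have h4 : |2 * ∫ x in D ρ, f x * ∑ j, U x j * pd j f x| =
        |∫ x in D ρ, dv U x * f x ^ 2| := by
      rw [h1, abs_neg]
    rw [abs_mul, abs_of_pos (by norm_num : (0 : ℝ) < 2)] at h4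
    have h5 := abs_nonneg (∫ x in D ρ, f x * ∑ j, U x j * pd j f x)
    linarith
  have b2 : |∫ x in D ρ, f x * R U A x| ≤ √CR * (√(hs (D ρ) k A) * √(Q U A)) := by
    have h1 := cs hρ.bdd hf.continuous cR
    have h2 : √(∫ x in D ρ, f x ^ 2) ≤ √(hs (D ρ) k A) := Real.sqrt_le_sqrt hfk
    have h3 : √(∫ x in D ρ, R U A x ^ 2) ≤ √CR * √(Q U A) := by
      rw [← Real.sqrt_mul hCR]
      exact Real.sqrt_le_sqrt iR
    calc |∫ x in D ρ, f x * R U A x|
        ≤ √(∫ x in D ρ, f x ^ 2) * √(∫ x in D ρ, R U A x ^ 2) := h1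
      _ ≤ √(hs (D ρ) k A) * (√CR * √(Q U A)) :=
          mul_le_mul h2 h3 (Real.sqrt_nonneg _) (Real.sqrt_nonneg _)
      _ = √CR * (√(hs (D ρ) k A) * √(Q U A)) := by ring
  rw [e]
  have n1 : 0 ≤ √(hs (D ρ) 4 U) * hs (D ρ) k A := mul_nonneg (Real.sqrt_nonneg _) hA0
  have n2 : 0 ≤ √(hs (D ρ) k A) * √(Q U A) := mul_nonneg (Real.sqrt_nonneg _) (Real.sqrt_nonneg _)
  have n3 := mul_nonneg hCd n2
  have n4 := mul_nonneg (Real.sqrt_nonneg CR) n1
  calc |(∫ x in D ρ, f x * ∑ j, U x j * pd j f x) + ∫ x in D ρ, f x * R U A x|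
      ≤ |∫ x in D ρ, f x * ∑ j, U x j * pd j f x| + |∫ x in D ρ, f x * R U A x| :=
        abs_add_le _ _
    _ ≤ Cd * (√(hs (D ρ) 4 U) * hs (D ρ) k A) + √CR * (√(hs (D ρ) k A) * √(Q U A)) :=
        add_le_add b1 b2
    _ ≤ _ := by nlinarith

theorem list_deriv {ι : Type*} (T : List ι) (h : ι → ℝ → ℝ) (h' : ι → ℝ) (t : ℝ)
    (H : ∀ p ∈ T, HasDerivAt (h p) (h' p) t) :
    HasDerivAt (fun s => (T.map fun p => h p s).sum) ((T.map h').sum) t := by
  induction T with
  | nil => simpa using hasDerivAt_const t (0 : ℝ)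
  | cons p T ih =>
    simp only [List.map_cons, List.sum_cons]
    exact (H p List.mem_cons_self).fun_add (ih fun q hq => H q (List.mem_cons_of_mem p hq))

theorem list_abs {ι : Type*} (T : List ι) (h' : ι → ℝ) (B : ℝ) (H : ∀ p ∈ T, |h' p| ≤ B) :
    |(T.map h').sum| ≤ T.length * B := by
  induction T with
  | nil => simp
  | cons p T ih =>
    simp only [List.map_cons, List.sum_cons, List.length_cons]
    have h1 := H p List.mem_cons_self
    have h2 := ih fun q hq => H q (List.mem_cons_of_mem p hq)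
    have h3 := abs_add_le (h' p) ((T.map h').sum)
    push_cast
    linarith

/-- the time derivative of a component -/
theorem dt_comp {a : ℝ × E → E} (ha : Sm a) (i : Fin 3) (t : ℝ) (x : E) :
    dt (fun p => a p i) (t, x) = dt a (t, x) i := by
  have h1 := Tder.hasDerivAt_sl ha t x
  have h2 : HasDerivAt (fun s => a (s, x) i) ((fderiv ℝ a (t, x) (1, 0)) i) t :=
    ((EuclideanSpace.proj i : E →L[ℝ] ℝ).hasFDerivAt.comp_hasDerivAt t h1)
  have h3 : dt (fun p => a p i) (t, x) = (fderiv ℝ a (t, x) (1, 0)) i := h2.deriv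
  rw [h3, Tder.dt_eq ha]

theorem dyn (hH : SpecHSB) (hS : SpecSob) (hG : SpecGauss) (hP : SpecPDC) (hL : SpecLeib)
    (hT : SpecTder) {ρ : E → ℝ} (hρ : Dom ρ) (k : ℕ) {Q : (E → E) → (E → E) → ℝ}
    (hb : ∀ (P P' : List (Fin 3)) (q m : Fin 3), 1 ≤ P.length → P.length + P'.length ≤ k + 1 →
      Gd ρ Q fun U A x => pds P (fun y => U y q) x * pds P' (fun y => A y m) x)
    (c : Fin 3 → Fin 3 → Fin 3 → Fin 3 → ℝ) :
    ∃ C : ℝ, 0 ≤ C ∧ ∀ u a g : ℝ × E → E, Sm u → Sm a → Sm g → ∀ t : ℝ, Tan ρ (sl u t) →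
      (∀ x ∈ D ρ, dt a (t, x) + trc c (sl u t) (sl a t) x = g (t, x)) →
      ∃ y' : ℝ, HasDerivAt (fun s => hs (D ρ) k (sl a s)) y' t ∧
        |y'| ≤ C * (√(hs (D ρ) 4 (sl u t)) * hs (D ρ) k (sl a t) +
          √(hs (D ρ) k (sl a t)) * √(Q (sl u t) (sl a t)) +
          √(hs (D ρ) k (sl a t)) * √(hs (D ρ) k (sl g t))) := by
  obtain ⟨T, hTl, hup⟩ := hH.upper k
  obtain ⟨C1, hC1, hst⟩ := unif T (fun L C => ∀ i ∈ List.finRange 3, St ρ k c Q L i C)
    (fun L C C' hCC h i hi U A hU hA hTan => (h i hi U A hU hA hTan).trans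
      (mul_le_mul_of_nonneg_right hCC (add_nonneg
        (mul_nonneg (Real.sqrt_nonneg _) (hH.nonneg E _ _ _))
        (mul_nonneg (Real.sqrt_nonneg _) (Real.sqrt_nonneg _)))))
    (fun L hLT => unif (List.finRange 3) (fun i C => St ρ k c Q L i C)
      (fun i C C' hCC h U A hU hA hTan => (h U A hU hA hTan).trans
        (mul_le_mul_of_nonneg_right hCC (add_nonneg
          (mul_nonneg (Real.sqrt_nonneg _) (hH.nonneg E _ _ _))
          (mul_nonneg (Real.sqrt_nonneg _) (Real.sqrt_nonneg _)))))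
      fun i _ => stat hH hS hG hP hL hρ k hb c i L (hTl L hLT))
  refine ⟨3 * (T.length * (2 * (C1 + 1))), by positivity, fun u a g hu ha hg t hTan heq => ?_⟩
  have hm := (D_open hρ).measurableSet
  have hU : Sm (sl u t) := hP.sl_smooth E u hu t
  have hA : Sm (sl a t) := hP.sl_smooth E a ha t
  have hGs : Sm (sl g t) := hP.sl_smooth E g hg t
  have hai : ∀ i, Sm fun p : ℝ × E => a p i := fun i => contDiff_euclidean.mp ha i
  have hform : (fun s => hs (D ρ) k (sl a s)) = fun s => ∑ i, (T.map fun L =>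
      ∫ x in D ρ, pds L (sl (fun p => a p i) s) x ^ 2).sum := by
    funext s
    rw [hH.comp (D ρ) k (sl a s) hm (Or.inl hρ.bdd) (hP.sl_smooth E a ha s)]
    refine Finset.sum_congr rfl fun i _ => ?_
    have hi : Sm fun x => sl a s x i := (hP.sl_smooth E a ha s).comp_apply i
    rw [hup ℝ (D ρ) _ hi]
    simp only [Real.norm_eq_abs, sq_abs]
    rfl
  -- the derivative of one term
  have hone : ∀ (i : Fin 3) (L : List (Fin 3)), HasDerivAt
      (fun s => ∫ x in D ρ, pds L (sl (fun p => a p i) s) x ^ 2)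
      (∫ x in D ρ, 2 * (pds L (fun y => sl a t y i) x *
        pds L (sl (dt fun p => a p i) t) x)) t := by
    intro i L
    have h1 := hT (D ρ) hm hρ.bdd (fun p => pds L (sl (fun p => a p i) p.1) p.2 ^ 2)
      ((hP.pdt_smooth ℝ _ (hai i) L).pow 2) t
    have h2 : (fun x => dt (fun p : ℝ × E => pds L (sl (fun p => a p i) p.1) p.2 ^ 2) (t, x)) =
        fun x => 2 * (pds L (fun y => sl a t y i) x * pds L (sl (dt fun p => a p i) t) x) := by
      funext x
      have h3 := (hP.dt_pds ℝ _ (hai i) L t x).fun_pow 2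
      have h4 : dt (fun p : ℝ × E => pds L (sl (fun p => a p i) p.1) p.2 ^ 2) (t, x) = _ :=
        h3.deriv
      rw [h4]
      simp only [Nat.cast_ofNat, Nat.add_one_sub_one, pow_one]
      rw [mul_assoc]
      rfl
    rw [h2] at h1
    exact h1
  refine ⟨∑ i, (T.map fun L => ∫ x in D ρ, 2 * (pds L (fun y => sl a t y i) x *
    pds L (sl (dt fun p => a p i) t) x)).sum, ?_, ?_⟩
  · rw [hform]
    exact HasDerivAt.fun_sum fun i _ => list_deriv T
      (fun L s => ∫ x in D ρ, pds L (sl (fun p => a p i) s) x ^ 2) _ t fun L _ => hone i L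
  · set X : ℝ := √(hs (D ρ) 4 (sl u t)) * hs (D ρ) k (sl a t) with hX
    set Y : ℝ := √(hs (D ρ) k (sl a t)) * √(Q (sl u t) (sl a t)) with hY
    set Z : ℝ := √(hs (D ρ) k (sl a t)) * √(hs (D ρ) k (sl g t)) with hZ
    have hX0 : 0 ≤ X := mul_nonneg (Real.sqrt_nonneg _) (hH.nonneg E _ _ _)
    have hY0 : 0 ≤ Y := mul_nonneg (Real.sqrt_nonneg _) (Real.sqrt_nonneg _)
    have hZ0 : 0 ≤ Z := mul_nonneg (Real.sqrt_nonneg _) (Real.sqrt_nonneg _)
    have hterm : ∀ (i : Fin 3), ∀ L ∈ T,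
        |∫ x in D ρ, 2 * (pds L (fun y => sl a t y i) x *
          pds L (sl (dt fun p => a p i) t) x)| ≤ 2 * (C1 + 1) * (X + Y + Z) := by
      intro i L hLT
      have hLk := hTl L hLT
      set f := pds L fun y => sl a t y i with hfdef
      have hf : Sm f := pds_smooth (hA.comp_apply i) L
      have hgL : Sm (pds L fun y => sl g t y i) := pds_smooth (hGs.comp_apply i) L
      have htr : Sm fun y => trc c (sl u t) (sl a t) y i := (trc_smooth c hU hA).comp_apply i
      have htL : Sm (pds L fun y => trc c (sl u t) (sl a t) y i) := pds_smooth htr L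
      have hon : ∀ x ∈ D ρ, pds L (sl (dt fun p => a p i) t) x =
          pds L (fun y => sl g t y i) x - pds L (fun y => trc c (sl u t) (sl a t) y i) x := by
        intro x hx
        have h1 := pds_congr (D_open hρ) (f := sl (dt fun p => a p i) t)
          (g := fun y => sl g t y i - trc c (sl u t) (sl a t) y i) (fun y hy => by
            have h2 : sl (dt fun p => a p i) t y = dt a (t, y) i := dt_comp ha i t y
            have h3 := congrArg (fun v : E => v i) (heq y hy)
            simp only [PiLp.add_apply] at h3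
            rw [h2]
            have h4 : sl g t y i = g (t, y) i := rfl
            rw [h4]
            linarith) L x hx
        rw [h1, pds_sub (hGs.comp_apply i) htr]
      have c1 : Continuous fun x => f x * pds L (fun y => sl g t y i) x :=
        hf.continuous.mul hgL.continuous
      have c2 : Continuous fun x => f x * pds L (fun y => trc c (sl u t) (sl a t) y i) x :=
        hf.continuous.mul htL.continuous
      have e1 : ∫ x in D ρ, 2 * (f x * pds L (sl (dt fun p => a p i) t) x) =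
          2 * ((∫ x in D ρ, f x * pds L (fun y => sl g t y i) x) -
            ∫ x in D ρ, f x * pds L (fun y => trc c (sl u t) (sl a t) y i) x) := by
        rw [← integral_sub (intOn hρ.bdd c1) (intOn hρ.bdd c2), ← integral_const_mul]
        refine setIntegral_congr_fun hm fun x hx => ?_
        simp only
        rw [hon x hx]
        ring
      have b1 : |∫ x in D ρ, f x * pds L (fun y => sl g t y i) x| ≤ Z := by
        refine (cs hρ.bdd hf.continuous hgL.continuous).trans ?_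
        exact mul_le_mul (Real.sqrt_le_sqrt (sq_le hH hρ k hA i L hLk))
          (Real.sqrt_le_sqrt (sq_le hH hρ k hGs i L hLk)) (Real.sqrt_nonneg _)
          (Real.sqrt_nonneg _)
      have b2 : |∫ x in D ρ, f x * pds L (fun y => trc c (sl u t) (sl a t) y i) x| ≤
          C1 * (X + Y) := hst L hLT i (List.mem_finRange i) (sl u t) (sl a t) hU hA hTan
      rw [e1, abs_mul, abs_of_pos (by norm_num : (0 : ℝ) < 2)]
      have b3 := abs_sub (∫ x in D ρ, f x * pds L (fun y => sl g t y i) x)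
        (∫ x in D ρ, f x * pds L (fun y => trc c (sl u t) (sl a t) y i) x)
      have n1 := mul_nonneg hC1 hZ0
      nlinarith
    have hsum : ∀ i : Fin 3, |(T.map fun L => ∫ x in D ρ, 2 * (pds L (fun y => sl a t y i) x *
        pds L (sl (dt fun p => a p i) t) x)).sum| ≤ T.length * (2 * (C1 + 1) * (X + Y + Z)) :=
      fun i => list_abs T _ _ (hterm i)
    refine (Finset.abs_sum_le_sum_abs _ _).trans ?_
    refine (sum_fin3_le hsum).trans (le_of_eq ?_)
    ring

theorem sqrt_add_le' {a b : ℝ} (ha : 0 ≤ a) (hb : 0 ≤ b) : √(a + b) ≤ √a + √b := by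
  rw [Real.sqrt_le_left (by positivity)]
  have h1 := Real.sq_sqrt ha
  have h2 := Real.sq_sqrt hb
  have h3 : 0 ≤ √a * √b := by positivity
  nlinarith

/-- the basic terms for `k ≥ 5` -/
theorem basic (hH : SpecHSB) (hP : SpecProd) {ρ : E → ℝ} (hρ : Dom ρ) (k κ : ℕ)
    (h1 : 5 ≤ κ) (h2 : k ≤ κ + 1) (h3 : κ ≤ k) (P P' : List (Fin 3)) (q m : Fin 3)
    (hP1 : 1 ≤ P.length) (hPP : P.length + P'.length ≤ k + 1) :
    Gd ρ (fun U A => hs (D ρ) (κ + 1) U * hs (D ρ) k A + hs (D ρ) (k + 1) U * hs (D ρ) κ A)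
      fun U A x => pds P (fun y => U y q) x * pds P' (fun y => A y m) x := by
  obtain ⟨C, hC, hprod⟩ := hP ρ hρ
  refine ⟨C, hC, fun U A hU hA => ⟨(pds_smooth (hU.comp_apply q) P).continuous.mul
    (pds_smooth (hA.comp_apply m) P').continuous, ?_⟩⟩
  have nU : ∀ j, 0 ≤ hs (D ρ) j U := fun j => hH.nonneg E _ _ _
  have nA : ∀ j, 0 ≤ hs (D ρ) j A := fun j => hH.nonneg E _ _ _
  have mU : ∀ {j l : ℕ}, j ≤ l → hs (D ρ) j (fun y => U y q) ≤ hs (D ρ) l U := fun h =>
    (comp_le hH hρ _ hU q).trans (hH.mono E _ _ _ _ h)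
  have mA : ∀ {j l : ℕ}, j ≤ l → hs (D ρ) j (fun y => A y m) ≤ hs (D ρ) l A := fun h =>
    (comp_le hH hρ _ hA m).trans (hH.mono E _ _ _ _ h)
  have n1 : 0 ≤ hs (D ρ) (κ + 1) U * hs (D ρ) k A := mul_nonneg (nU _) (nA _)
  have n2 : 0 ≤ hs (D ρ) (k + 1) U * hs (D ρ) κ A := mul_nonneg (nU _) (nA _)
  by_cases hc1 : P.length + 3 ≤ κ + 1
  · -- sup norm on `U`, low order
    refine (hprod P P' _ _ (hU.comp_apply q) (hA.comp_apply m)).trans ?_
    rw [mul_assoc]
    refine mul_le_mul_of_nonneg_left ?_ hC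
    have h4 : hs (D ρ) (P.length + 3) (fun y => U y q) * hs (D ρ) P'.length (fun y => A y m) ≤
        hs (D ρ) (κ + 1) U * hs (D ρ) k A :=
      mul_le_mul (mU hc1) (mA (by omega)) (hH.nonneg ℝ _ _ _) (nU _)
    linarith
  · by_cases hc2 : P.length + 3 ≤ k + 1
    · refine (hprod P P' _ _ (hU.comp_apply q) (hA.comp_apply m)).trans ?_
      rw [mul_assoc]
      refine mul_le_mul_of_nonneg_left ?_ hC
      have h4 : hs (D ρ) (P.length + 3) (fun y => U y q) * hs (D ρ) P'.length (fun y => A y m) ≤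
          hs (D ρ) (k + 1) U * hs (D ρ) κ A :=
        mul_le_mul (mU hc2) (mA (by omega)) (hH.nonneg ℝ _ _ _) (nU _)
      linarith
    · have e : ∀ x, (pds P (fun y => U y q) x * pds P' (fun y => A y m) x) ^ 2 =
          (pds P' (fun y => A y m) x * pds P (fun y => U y q) x) ^ 2 := by
        intro x
        ring
      simp_rw [e]
      refine (hprod P' P _ _ (hA.comp_apply m) (hU.comp_apply q)).trans ?_
      rw [mul_assoc]
      refine mul_le_mul_of_nonneg_left ?_ hC
      have h4 : hs (D ρ) (P'.length + 3) (fun y => A y m) * hs (D ρ) P.length (fun y => U y q) ≤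
          hs (D ρ) κ A * hs (D ρ) (k + 1) U :=
        mul_le_mul (mA (by omega)) (mU (by omega)) (hH.nonneg ℝ _ _ _) (nA _)
      linarith [mul_comm (hs (D ρ) κ A) (hs (D ρ) (k + 1) U)]

theorem specEng (hH : SpecHSB) (hS : SpecSob) (hG : SpecGauss) (hP : SpecPDC) (hL : SpecLeib)
    (hT : SpecTder) (hPr : SpecProd) : SpecEng := by
  intro ρ hρ c k hk
  set κ := max (k - 1) 5 with hκ
  have h1 : 5 ≤ κ := le_max_right _ _
  have h2 : k ≤ κ + 1 := by
    have := le_max_left (k - 1) 5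
    omega
  have h3 : κ ≤ k := max_le (by omega) hk
  obtain ⟨C, hC, H⟩ := dyn hH hS hG hP hL hT hρ k
    (Q := fun U A => hs (D ρ) (κ + 1) U * hs (D ρ) k A + hs (D ρ) (k + 1) U * hs (D ρ) κ A)
    (basic hH hPr hρ k κ h1 h2 h3) c
  refine ⟨C * 2, by positivity, fun u a g hu ha hg t hTan heq => ?_⟩
  obtain ⟨y', hy, hb⟩ := H u a g hu ha hg t hTan heq
  refine ⟨y', hy, hb.trans ?_⟩
  have nU : ∀ j, 0 ≤ hs (D ρ) j (sl u t) := fun j => hH.nonneg E _ _ _
  have nA : ∀ j, 0 ≤ hs (D ρ) j (sl a t) := fun j => hH.nonneg E _ _ _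
  have e1 : √(hs (D ρ) 4 (sl u t)) * hs (D ρ) k (sl a t) ≤
      √(hs (D ρ) (κ + 1) (sl u t)) * hs (D ρ) k (sl a t) :=
    mul_le_mul_of_nonneg_right (Real.sqrt_le_sqrt (hH.mono E _ _ _ _ (by omega))) (nA k)
  have e2 : √(hs (D ρ) k (sl a t)) * √(hs (D ρ) (κ + 1) (sl u t) * hs (D ρ) k (sl a t) +
      hs (D ρ) (k + 1) (sl u t) * hs (D ρ) κ (sl a t)) ≤
      √(hs (D ρ) (κ + 1) (sl u t)) * hs (D ρ) k (sl a t) +
        √(hs (D ρ) (k + 1) (sl u t)) * √(hs (D ρ) κ (sl a t)) * √(hs (D ρ) k (sl a t)) := by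
    have h5 : √(hs (D ρ) (κ + 1) (sl u t) * hs (D ρ) k (sl a t) +
        hs (D ρ) (k + 1) (sl u t) * hs (D ρ) κ (sl a t)) ≤
        √(hs (D ρ) (κ + 1) (sl u t)) * √(hs (D ρ) k (sl a t)) +
          √(hs (D ρ) (k + 1) (sl u t)) * √(hs (D ρ) κ (sl a t)) := by
      rw [← Real.sqrt_mul (nU _), ← Real.sqrt_mul (nU _)]
      exact sqrt_add_le' (mul_nonneg (nU _) (nA _)) (mul_nonneg (nU _) (nA _))
    refine (mul_le_mul_of_nonneg_left h5 (Real.sqrt_nonneg _)).trans (le_of_eq ?_)
    have h6 := Real.mul_self_sqrt (nA k)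
    linear_combination (√(hs (D ρ) (κ + 1) (sl u t))) * h6
  have n3 : 0 ≤ √(hs (D ρ) k (sl a t)) * √(hs (D ρ) k (sl g t)) :=
    mul_nonneg (Real.sqrt_nonneg _) (Real.sqrt_nonneg _)
  have n4 : 0 ≤ √(hs (D ρ) (k + 1) (sl u t)) * √(hs (D ρ) κ (sl a t)) *
      √(hs (D ρ) k (sl a t)) := by positivity
  rw [mul_assoc C 2]
  refine mul_le_mul_of_nonneg_left ?_ hC
  linarith

theorem specEng0 (hH : SpecHSB) (hS : SpecSob) (hG : SpecGauss) (hP : SpecPDC) (hL : SpecLeib)
    (hT : SpecTder) (hPr : SpecProd) : SpecEng0 := by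
  intro ρ hρ c
  obtain ⟨C0, hC0, hprod⟩ := hPr ρ hρ
  obtain ⟨C, hC, H⟩ := dyn hH hS hG hP hL hT hρ 0
    (Q := fun U A => hs (D ρ) 4 U * hs (D ρ) 0 A) (fun P P' q m hP1 hPP =>
      ⟨C0, hC0, fun U A hU hA => ⟨(pds_smooth (hU.comp_apply q) P).continuous.mul
        (pds_smooth (hA.comp_apply m) P').continuous, by
        refine (hprod P P' _ _ (hU.comp_apply q) (hA.comp_apply m)).trans ?_
        rw [mul_assoc]
        refine mul_le_mul_of_nonneg_left ?_ hC0
        exact mul_le_mul ((comp_le hH hρ _ hU q).trans (hH.mono E _ _ _ _ (by omega)))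
          ((comp_le hH hρ _ hA m).trans (hH.mono E _ _ _ _ (by omega)))
          (hH.nonneg ℝ _ _ _) (hH.nonneg E _ _ _)⟩⟩) c
  refine ⟨C * 2, by positivity, fun u a g hu ha hg t hTan heq => ?_⟩
  obtain ⟨y', hy, hb⟩ := H u a g hu ha hg t hTan heq
  refine ⟨y', hy, hb.trans ?_⟩
  have nU : 0 ≤ hs (D ρ) 4 (sl u t) := hH.nonneg E _ _ _
  have nA : 0 ≤ hs (D ρ) 0 (sl a t) := hH.nonneg E _ _ _
  have e2 : √(hs (D ρ) 0 (sl a t)) * √(hs (D ρ) 4 (sl u t) * hs (D ρ) 0 (sl a t)) =
      √(hs (D ρ) 4 (sl u t)) * hs (D ρ) 0 (sl a t) := by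
    rw [Real.sqrt_mul nU]
    have h6 := Real.mul_self_sqrt nA
    linear_combination (√(hs (D ρ) 4 (sl u t))) * h6
  have n3 : 0 ≤ √(hs (D ρ) 0 (sl a t)) * √(hs (D ρ) 0 (sl g t)) :=
    mul_nonneg (Real.sqrt_nonneg _) (Real.sqrt_nonneg _)
  simp only [e2]
  rw [mul_assoc C 2]
  refine mul_le_mul_of_nonneg_left ?_ hC
  linarith

end MPfab.EngM

namespace MPfab

theorem specEng (hH : SpecHSB) (hS : SpecSob) (hG : SpecGauss) (hP : SpecPDC) (hL : SpecLeib)
    (hT : SpecTder) (hPr : SpecProd) : SpecEng := EngM.specEng hH hS hG hP hL hT hPr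

theorem specEng0 (hH : SpecHSB) (hS : SpecSob) (hG : SpecGauss) (hP : SpecPDC) (hL : SpecLeib)
    (hT : SpecTder) (hPr : SpecProd) : SpecEng0 := EngM.specEng0 hH hS hG hP hL hT hPr

end MPfab
end
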