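import Pool.Agent.Lib.MP_fabde4_an.SpecA

section
/-!
MP_fabde4_an, module BALL (helper87): the ball as a domain, and functions supported in it.
-/
set_option autoImplicit false
open MeasureTheory Set

namespace MPfab

namespace BallM

theorem dom {R : ℝ} (hR : 0 < R) : Dom (ballρ R) where
  smooth := by
    unfold ballρ
    exact (contDiff_norm_sq ℝ).sub contDiff_const
  bdd := by
    refine Metric.isBounded_ball.subset (s := D (ballρ R)) (t := Metric.ball 0 R) ?_
    intro x hx
    have hx' : ‖x‖ ^ 2 - R ^ 2 < 0 := hx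
    rw [mem_ball_zero_iff]
    by_contra hc
    push Not at hc
    nlinarith [norm_nonneg x]
  reg := by
    intro x hx h0
    have hx' : ‖x‖ ^ 2 - R ^ 2 = 0 := hx
    have h1 : HasFDerivAt (ballρ R) (2 • (innerSL ℝ x)) x := by
      unfold ballρ
      exact (hasStrictFDerivAt_norm_sq x).hasFDerivAt.sub_const _
    rw [h1.fderiv] at h0
    have h2 := congrArg (fun l => l x) h0
    simp at h2
    rw [h2] at hx'
    simp at hx'
    exact hR.ne' hx'

theorem tan {R : ℝ} {u : E → E} (hR : 0 < R) (hu : In R u) : Tan (ballρ R) u := by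
  intro x hx
  have hx' : ‖x‖ ^ 2 - R ^ 2 = 0 := hx
  have h1 : R ≤ ‖x‖ := by
    by_contra hc
    push Not at hc
    nlinarith [norm_nonneg x]
  rw [hu.supp x h1, map_zero]

/-- partial derivatives of functions supported in a ball -/
theorem in_pd {F : Type*} [NormedAddCommGroup F] [NormedSpace ℝ F] {R : ℝ} (hR : 0 < R)
    {f : E → F} (hf : In R f) (i : Fin 3) : In R (pd i f) where
  smooth := hf.smooth.pd i
  supp := by
    intro x hx
    have h1 : ∀ y : E, R < ‖y‖ → pd i f y = 0 := by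
      intro y hy
      have hev : f =ᶠ[nhds y] fun _ => 0 := by
        have : {z : E | R < ‖z‖} ∈ nhds y := (isOpen_lt continuous_const continuous_norm).mem_nhds hy
        filter_upwards [this] with z hz
        exact hf.supp z (le_of_lt hz)
      unfold pd
      rw [hev.fderiv_eq]
      simp
    have hc : Continuous (pd i f) := (hf.smooth.pd i).continuous
    have h2 : Filter.Tendsto (fun n : ℕ => pd i f ((1 + 1 / ((n : ℝ) + 1)) • x)) Filter.atTop
        (nhds (pd i f x)) := by
      have h3 : Filter.Tendsto (fun n : ℕ => (1 + 1 / ((n : ℝ) + 1)) • x) Filter.atTop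
          (nhds ((1 + 0 : ℝ) • x)) :=
        (tendsto_const_nhds.add tendsto_one_div_add_atTop_nhds_zero_nat).smul_const x
      rw [add_zero, one_smul] at h3
      exact (hc.tendsto x).comp h3
    have h4 : (fun n : ℕ => pd i f ((1 + 1 / ((n : ℝ) + 1)) • x)) = fun _ => 0 := by
      funext n
      refine h1 _ ?_
      rw [norm_smul, Real.norm_eq_abs, abs_of_pos (by positivity)]
      have : 0 < 1 / ((n : ℝ) + 1) := by positivity
      nlinarith
    rw [h4] at h2
    exact (tendsto_nhds_unique h2 tendsto_const_nhds)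

theorem hs_eq {R : ℝ} (hR : 0 < R) {F : Type*} [NormedAddCommGroup F] [NormedSpace ℝ F] (k : ℕ) :
    ∀ (f : E → F), In R f → hs univ k f = hs (D (ballρ R)) k f := by
  have key : ∀ (f : E → F), In R f →
      ∫ x in (univ : Set E), ‖f x‖ ^ 2 = ∫ x in D (ballρ R), ‖f x‖ ^ 2 := by
    intro f hf
    rw [Measure.restrict_univ]
    symm
    refine setIntegral_eq_integral_of_forall_compl_eq_zero ?_
    intro x hx
    have hx' : ¬ (‖x‖ ^ 2 - R ^ 2 < 0) := hx
    have h1 : R ≤ ‖x‖ := by
      by_contra hc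
      push Not at hc
      apply hx'
      nlinarith [norm_nonneg x]
    rw [hf.supp x h1]
    simp
  induction k with
  | zero => exact key
  | succ k ih =>
    intro f hf
    show (∫ x in (univ : Set E), ‖f x‖ ^ 2) + ∑ i, hs univ k (pd i f) =
      (∫ x in D (ballρ R), ‖f x‖ ^ 2) + ∑ i, hs (D (ballρ R)) k (pd i f)
    rw [key f hf]
    congr 1
    exact Finset.sum_congr rfl fun i _ => ih _ (in_pd hR hf i)

end BallM

/-- module BALL -/
theorem specBall : SpecBall where
  dom _ hR := BallM.dom hR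
  tan _ _ hR hu := BallM.tan hR hu
  hs_eq _ _ _ _ k _ hR hf := BallM.hs_eq hR k _ hf

end MPfab
end

section
/-!
MP_fabde4_an, modules BND and TAND: a smooth function vanishing on the regular level `ρ = 0` is
`O(ρ)` locally uniformly, and its tangential derivatives vanish there.
-/
set_option autoImplicit false
open MeasureTheory Set Filter Topology

namespace MPfab
namespace BndM

lemma loc_neg {ρ h : E → ℝ} (hρ : Sm ρ) (hh : Sm h) (h0 : ∀ x, ρ x = 0 → h x = 0) {x₀ : E}
    (hx : ρ x₀ = 0) (hreg : fderiv ℝ ρ x₀ ≠ 0) :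
    ∃ C : ℝ, 0 ≤ C ∧ ∀ᶠ y in 𝓝 x₀, ρ y ≤ 0 → |h y| ≤ C * |ρ y| := by
  obtain ⟨v, hv⟩ : ∃ v : E, fderiv ℝ ρ x₀ v = 1 := by
    obtain ⟨u, hu⟩ : ∃ u : E, fderiv ℝ ρ x₀ u ≠ 0 := by
      by_contra hc
      push Not at hc
      exact hreg (ContinuousLinearMap.ext fun u => by simpa using hc u)
    exact ⟨(fderiv ℝ ρ x₀ u)⁻¹ • u, by simp [hu]⟩
  have hρc : Continuous (fun y => fderiv ℝ ρ y) := hρ.continuous_fderiv (by simp)
  have hhc : Continuous (fun y => fderiv ℝ h y) := hh.continuous_fderiv (by simp)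
  have hρd : Differentiable ℝ ρ := Sm.differentiable hρ
  have hhd : Differentiable ℝ h := Sm.differentiable hh
  have e1 : ∀ᶠ y in 𝓝 x₀, 1 / 2 < fderiv ℝ ρ y v := by
    have : Tendsto (fun y => fderiv ℝ ρ y v) (𝓝 x₀) (𝓝 (fderiv ℝ ρ x₀ v)) :=
      (hρc.clm_apply continuous_const).tendsto x₀
    rw [hv] at this
    exact this.eventually (lt_mem_nhds (by norm_num))
  have e2 : ∀ᶠ y in 𝓝 x₀, ‖fderiv ℝ h y‖ < ‖fderiv ℝ h x₀‖ + 1 := by
    have : Tendsto (fun y => ‖fderiv ℝ h y‖) (𝓝 x₀) (𝓝 ‖fderiv ℝ h x₀‖) :=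
      hhc.norm.tendsto x₀
    exact this.eventually (gt_mem_nhds (by linarith))
  obtain ⟨δ, hδ, hball⟩ := Metric.eventually_nhds_iff_ball.mp (e1.and e2)
  set M := ‖fderiv ℝ h x₀‖ + 1 with hM
  have hM0 : 0 ≤ M := by positivity
  have e3 : ∀ᶠ y in 𝓝 x₀, 2 * |ρ y| * ‖v‖ < δ / 2 := by
    have : Tendsto (fun y => 2 * |ρ y| * ‖v‖) (𝓝 x₀) (𝓝 (2 * |ρ x₀| * ‖v‖)) :=
      ((continuous_const.mul hρ.continuous.abs).mul continuous_const).tendsto x₀
    rw [hx] at this
    simp only [abs_zero, mul_zero, zero_mul] at this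
    exact this.eventually (gt_mem_nhds (by linarith))
  refine ⟨M * (2 * ‖v‖), by positivity, ?_⟩
  filter_upwards [e3, Metric.ball_mem_nhds x₀ (half_pos hδ)] with y h3 hy hneg
  have hin : ∀ s ∈ Icc (0 : ℝ) (2 * |ρ y|), y + s • v ∈ Metric.ball x₀ δ := by
    intro s hs
    rw [Metric.mem_ball, dist_eq_norm]
    have h5 : ‖s • v‖ ≤ 2 * |ρ y| * ‖v‖ := by
      rw [norm_smul, Real.norm_eq_abs, abs_of_nonneg hs.1]
      exact mul_le_mul_of_nonneg_right hs.2 (norm_nonneg _)
    rw [Metric.mem_ball, dist_eq_norm] at hy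
    calc ‖y + s • v - x₀‖ = ‖(y - x₀) + s • v‖ := by congr 1; abel
      _ ≤ ‖y - x₀‖ + ‖s • v‖ := norm_add_le _ _
      _ < δ := by linarith
  have hder : ∀ s : ℝ, HasDerivAt (fun s : ℝ => ρ (y + s • v)) (fderiv ℝ ρ (y + s • v) v) s := by
    intro s
    have h1 : HasDerivAt (fun s : ℝ => y + s • v) v s := by
      simpa using ((hasDerivAt_id s).smul_const v).const_add y
    exact (hρd (y + s • v)).hasFDerivAt.comp_hasDerivAt s h1
  have hmono := Convex.mul_sub_le_image_sub_of_le_deriv (convex_Icc (0 : ℝ) (2 * |ρ y|))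
    (f := fun s : ℝ => ρ (y + s • v)) (C := 1 / 2)
    (fun s _ => (hder s).continuousAt.continuousWithinAt)
    (fun s _ => (hder s).differentiableAt.differentiableWithinAt)
    (fun s hs => by
      rw [(hder s).deriv]
      exact (hball _ (hin s (interior_subset hs))).1.le)
    0 (left_mem_Icc.mpr (by positivity)) (2 * |ρ y|) (right_mem_Icc.mpr (by positivity))
    (by positivity)
  simp only [zero_smul, add_zero, sub_zero] at hmono
  have hend : 0 ≤ ρ (y + (2 * |ρ y|) • v) := by
    have : |ρ y| = - ρ y := abs_of_nonpos hneg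
    linarith
  have hivt := intermediate_value_Icc (a := (0 : ℝ)) (b := 2 * |ρ y|) (by positivity)
    (f := fun s : ℝ => ρ (y + s • v)) (fun s _ => (hder s).continuousAt.continuousWithinAt)
  obtain ⟨s, hs, hs0⟩ := hivt (show (0 : ℝ) ∈ Icc _ _ from ⟨by simpa using hneg, hend⟩)
  have hz : h (y + s • v) = 0 := h0 _ hs0
  have hlip := Convex.norm_image_sub_le_of_norm_fderiv_le (𝕜 := ℝ) (f := h) (C := M)
    (s := Metric.ball x₀ δ) (x := y + s • v) (y := y) (fun z _ => hhd z)
    (fun z hz => (hball z hz).2.le) (convex_ball x₀ δ) (hin s hs)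
    (by simpa using hin 0 (left_mem_Icc.mpr (by positivity)))
  rw [hz, sub_zero, Real.norm_eq_abs] at hlip
  calc |h y| ≤ M * ‖y - (y + s • v)‖ := hlip
    _ = M * (s * ‖v‖) := by
      rw [sub_add_cancel_left, norm_neg, norm_smul, Real.norm_eq_abs, abs_of_nonneg hs.1]
    _ ≤ M * (2 * |ρ y| * ‖v‖) :=
      mul_le_mul_of_nonneg_left (mul_le_mul_of_nonneg_right hs.2 (norm_nonneg _)) hM0
    _ = M * (2 * ‖v‖) * |ρ y| := by ring

lemma loc {ρ h : E → ℝ} (hρ : Sm ρ) (hh : Sm h) (h0 : ∀ x, ρ x = 0 → h x = 0)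
    (hreg : ∀ x, ρ x = 0 → fderiv ℝ ρ x ≠ 0) (x₀ : E) :
    ∃ C : ℝ, 0 ≤ C ∧ ∀ᶠ y in 𝓝 x₀, |h y| ≤ C * |ρ y| := by
  by_cases hx : ρ x₀ = 0
  · obtain ⟨C1, hC1, e1⟩ := loc_neg hρ hh h0 hx (hreg x₀ hx)
    have hneg : fderiv ℝ (fun y => - ρ y) x₀ ≠ 0 := by
      rw [fderiv_fun_neg]
      exact neg_ne_zero.mpr (hreg x₀ hx)
    obtain ⟨C2, hC2, e2⟩ := loc_neg (ρ := fun y => - ρ y) hρ.neg hh
      (fun x hx => h0 x (neg_eq_zero.mp hx)) (by simp [hx]) hneg
    refine ⟨max C1 C2, le_max_of_le_left hC1, ?_⟩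
    filter_upwards [e1, e2] with y h1 h2
    rcases le_total (ρ y) 0 with hy | hy
    · exact (h1 hy).trans (mul_le_mul_of_nonneg_right (le_max_left _ _) (abs_nonneg _))
    · have := h2 (by linarith)
      rw [abs_neg] at this
      exact this.trans (mul_le_mul_of_nonneg_right (le_max_right _ _) (abs_nonneg _))
  · have hpos : 0 < |ρ x₀| := abs_pos.mpr hx
    have e1 : ∀ᶠ y in 𝓝 x₀, |ρ x₀| / 2 < |ρ y| :=
      (hρ.continuous.abs.tendsto x₀).eventually (lt_mem_nhds (by linarith))
    have e2 : ∀ᶠ y in 𝓝 x₀, |h y| < |h x₀| + 1 :=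
      (hh.continuous.abs.tendsto x₀).eventually (gt_mem_nhds (by linarith))
    refine ⟨(|h x₀| + 1) / (|ρ x₀| / 2), by positivity, ?_⟩
    filter_upwards [e1, e2] with y h1 h2
    rw [div_mul_eq_mul_div, le_div_iff₀ (by linarith)]
    have h3 : 0 ≤ |h x₀| + 1 := by positivity
    nlinarith [abs_nonneg (h y)]

end BndM

theorem specBnd : SpecBnd := by
  intro ρ hρ hreg h hh h0 R
  have hcomp : IsCompact (Metric.closedBall (0 : E) R) := isCompact_closedBall 0 R
  have key : ∃ C : ℝ, 0 ≤ C ∧ ∀ x ∈ Metric.closedBall (0 : E) R, |h x| ≤ C * |ρ x| := by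
    refine hcomp.induction_on (p := fun S => ∃ C : ℝ, 0 ≤ C ∧ ∀ x ∈ S, |h x| ≤ C * |ρ x|)
      ⟨0, le_rfl, by simp⟩ ?_ ?_ ?_
    · rintro S T hST ⟨C, hC, hT⟩
      exact ⟨C, hC, fun x hx => hT x (hST hx)⟩
    · rintro S T ⟨C, hC, hS⟩ ⟨C', hC', hT⟩
      refine ⟨max C C', le_max_of_le_left hC, ?_⟩
      rintro x (hx | hx)
      · exact (hS x hx).trans (mul_le_mul_of_nonneg_right (le_max_left _ _) (abs_nonneg _))
      · exact (hT x hx).trans (mul_le_mul_of_nonneg_right (le_max_right _ _) (abs_nonneg _))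
    · intro x _
      obtain ⟨C, hC, he⟩ := BndM.loc hρ hh h0 hreg x
      exact ⟨_, mem_nhdsWithin_of_mem_nhds he, C, hC, fun y hy => hy⟩
  obtain ⟨C, hC, hS⟩ := key
  exact ⟨C, hC, fun x hx => hS x (by simpa using hx)⟩

theorem specTanD (hB : SpecBnd) : SpecTanD := by
  intro ρ hρ hreg h hh h0 x v hx hv
  obtain ⟨C, hC, hb⟩ := hB ρ hρ hreg h hh h0 (‖x‖ + ‖v‖)
  have hline : HasDerivAt (fun s : ℝ => x + s • v) v 0 := by
    simpa using ((hasDerivAt_id (0 : ℝ)).smul_const v).const_add x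
  have hdρ : HasDerivAt (fun s : ℝ => ρ (x + s • v)) 0 0 := by
    have h1 : HasFDerivAt ρ (fderiv ℝ ρ x) (x + (0 : ℝ) • v) := by
      simpa using ((Sm.differentiable hρ) x).hasFDerivAt
    have h2 := h1.comp_hasDerivAt (0 : ℝ) hline
    rw [hv] at h2
    exact h2
  have hdh : HasDerivAt (fun s : ℝ => h (x + s • v)) (fderiv ℝ h x v) 0 := by
    have h1 : HasFDerivAt h (fderiv ℝ h x) (x + (0 : ℝ) • v) := by
      simpa using ((Sm.differentiable hh) x).hasFDerivAt
    exact h1.comp_hasDerivAt (0 : ℝ) hline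
  have hd0 : HasDerivAt (fun s : ℝ => h (x + s • v)) 0 0 := by
    rw [hasDerivAt_iff_isLittleO_nhds_zero] at hdρ ⊢
    simp only [zero_add, zero_smul, add_zero, smul_zero, sub_zero, hx, h0 x hx] at hdρ ⊢
    refine Asymptotics.IsBigO.trans_isLittleO ?_ hdρ
    refine Asymptotics.IsBigO.of_bound C ?_
    have : ∀ᶠ s : ℝ in 𝓝 0, |s| < 1 := by
      have := (continuous_abs.tendsto (0 : ℝ)).eventually (gt_mem_nhds (by simp : |(0 : ℝ)| < 1))
      exact this
    filter_upwards [this] with s hs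
    simp only [Real.norm_eq_abs]
    refine hb _ ?_
    calc ‖x + s • v‖ ≤ ‖x‖ + ‖s • v‖ := norm_add_le _ _
      _ ≤ ‖x‖ + ‖v‖ := by
        rw [norm_smul, Real.norm_eq_abs]
        nlinarith [norm_nonneg v]
  exact hdh.unique hd0

end MPfab
end

section
/-!
MP_fabde4_an, module GAUSS: the integral of the divergence of a tangential field vanishes.
-/
set_option autoImplicit false
open MeasureTheory Set Filter Topology

namespace MPfab
namespace GaussM

lemma dv_smul {f : E → ℝ} {v : E → E} {x : E} (hf : DifferentiableAt ℝ f x)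
    (hv : DifferentiableAt ℝ v x) :
    dv (fun y => f y • v y) x = f x * dv v x + fderiv ℝ f x (v x) := by
  have h1 : ∀ i, pd i (fun y => f y • v y) x = f x • pd i v x + pd i f x • v x := by
    intro i
    unfold pd
    rw [fderiv_fun_smul hf hv]
    simp
  unfold dv
  simp only [h1]
  rw [fderiv_eq_sum f x (v x), Finset.mul_sum, ← Finset.sum_add_distrib]
  refine Finset.sum_congr rfl fun i _ => ?_
  simp only [PiLp.add_apply, PiLp.smul_apply, smul_eq_mul]
  ring

lemma dv_add {v w : E → E} {x : E} (hv : DifferentiableAt ℝ v x)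
    (hw : DifferentiableAt ℝ w x) :
    dv (fun y => v y + w y) x = dv v x + dv w x := by
  unfold dv pd
  rw [← Finset.sum_add_distrib]
  refine Finset.sum_congr rfl fun i _ => ?_
  rw [fderiv_fun_add hv hw]
  simp

lemma dv_sub {v w : E → E} {x : E} (hv : DifferentiableAt ℝ v x)
    (hw : DifferentiableAt ℝ w x) :
    dv (fun y => v y - w y) x = dv v x - dv w x := by
  unfold dv pd
  rw [← Finset.sum_sub_distrib]
  refine Finset.sum_congr rfl fun i _ => ?_
  rw [fderiv_fun_sub hv hw]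
  simp

/-- the divergence of a compactly supported smooth field has integral zero -/
lemma integral_dv {w : E → E} (hw : Sm w) (hc : HasCompactSupport w) : ∫ x, dv w x = 0 := by
  have hint : ∀ i : Fin 3, Integrable (fun x => pd i w x i) := by
    intro i
    have h1 : Continuous (fun x => pd i w x i) := ((hw.pd i).comp_apply i).continuous
    refine h1.integrable_of_hasCompactSupport ?_
    have h2 : HasCompactSupport (fderiv ℝ w) := hc.fderiv ℝ
    exact h2.comp_left (g := fun L : E →L[ℝ] E => (L (eb i)) i) (by simp)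
  unfold dv
  rw [integral_finsetSum _ (fun i _ => hint i)]
  refine Finset.sum_eq_zero fun i _ => ?_
  have hd : Differentiable ℝ (fun y => w y i) := Sm.differentiable (hw.comp_apply i)
  have hpd : ∀ x, pd i w x i = fderiv ℝ (fun y => w y i) x (eb i) := fun x =>
    pd_apply ((Sm.differentiable hw) x) i i
  have hci : HasCompactSupport (fun y => w y i) :=
    hc.comp_left (g := fun u : E => u i) (by simp)
  have key := integral_mul_fderiv_eq_neg_fderiv_mul_of_integrable (𝕜 := ℝ) (μ := volume)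
    (f := fun _ : E => (1 : ℝ)) (g := fun y => w y i) (v := eb i)
    (by simp) (by simpa [← hpd] using hint i)
    (by simpa using (hw.comp_apply i).continuous.integrable_of_hasCompactSupport hci)
    (fun _ _ => differentiableAt_const _) (fun x _ => hd x)
  simp only [one_mul, fderiv_fun_const, Pi.zero_apply, zero_apply, zero_mul,
    integral_zero, neg_zero] at key
  simp only [hpd]
  exact key

/-- the cutoff profile: `1` on `(-∞,-2]`, `0` on `[-1,∞)` -/
noncomputable def bt (t : ℝ) : ℝ := Real.smoothTransition (-1 - t)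

lemma sm_bt : Sm bt := Real.smoothTransition.contDiff.comp (contDiff_const.sub contDiff_id)

lemma bt_one {t : ℝ} (h : t ≤ -2) : bt t = 1 := Real.smoothTransition.one_of_one_le (by linarith)

lemma bt_zero {t : ℝ} (h : -1 ≤ t) : bt t = 0 := Real.smoothTransition.zero_of_nonpos (by linarith)

lemma bt_nonneg (t : ℝ) : 0 ≤ bt t := Real.smoothTransition.nonneg _

lemma bt_le (t : ℝ) : bt t ≤ 1 := Real.smoothTransition.le_one _

lemma deriv_bt_one {t : ℝ} (h : t < -2) : deriv bt t = 0 := by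
  have : bt =ᶠ[𝓝 t] fun _ => 1 := by
    filter_upwards [gt_mem_nhds h] with s hs using bt_one hs.le
  rw [this.deriv_eq]
  simp

lemma deriv_bt_zero {t : ℝ} (h : -1 < t) : deriv bt t = 0 := by
  have : bt =ᶠ[𝓝 t] fun _ => 0 := by
    filter_upwards [lt_mem_nhds h] with s hs using bt_zero hs.le
  rw [this.deriv_eq]
  simp

lemma deriv_bt_bound : ∃ M : ℝ, 0 ≤ M ∧ ∀ t, |deriv bt t * t| ≤ M := by
  have hc : Continuous (fun t => |deriv bt t * t|) :=
    ((sm_bt.continuous_deriv (by simp)).mul continuous_id).abs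
  obtain ⟨M, hM⟩ := (isCompact_Icc (a := (-2 : ℝ)) (b := -1)).bddAbove_image hc.continuousOn
  refine ⟨max M 0, le_max_right _ _, fun t => ?_⟩
  by_cases h1 : t < -2
  · rw [deriv_bt_one h1]; simp
  by_cases h2 : -1 < t
  · rw [deriv_bt_zero h2]; simp
  exact (hM (mem_image_of_mem _ ⟨not_lt.mp h1, not_lt.mp h2⟩)).trans (le_max_left _ _)

lemma D_open {ρ : E → ℝ} (h : Sm ρ) : IsOpen (D ρ) := isOpen_lt h.continuous continuous_const

lemma D_meas {ρ : E → ℝ} (h : Sm ρ) : MeasurableSet (D ρ) := (D_open h).measurableSet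

lemma D_ball {ρ : E → ℝ} (h : Dom ρ) : ∃ R : ℝ, ∀ x ∈ D ρ, ‖x‖ ≤ R := by
  obtain ⟨R, hR⟩ := h.bdd.subset_closedBall (0 : E)
  exact ⟨R, fun x hx => by simpa using hR hx⟩

/-- continuous functions are integrable on a bounded set -/
lemma integrableOn_of_cont {F : Type*} [NormedAddCommGroup F] {f : E → F} (hf : Continuous f)
    {S : Set E} (hS : Bornology.IsBounded S) : IntegrableOn f S := by
  obtain ⟨R, hR⟩ := hS.subset_closedBall (0 : E)
  exact (hf.continuousOn.integrableOn_compact (isCompact_closedBall 0 R)).mono_set hR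

end GaussM

open GaussM

theorem specGauss (hB : SpecBnd) : SpecGauss := by
  intro ρ hD w hw htan
  obtain ⟨R, hR⟩ := D_ball hD
  have hρ := hD.smooth
  have hρd : Differentiable ℝ ρ := Sm.differentiable hρ
  have hwd : Differentiable ℝ w := Sm.differentiable hw
  have hn : Sm (fun x => fderiv ℝ ρ x (w x)) :=
    (hρ.fderiv_right (m := ((⊤ : ENat) : WithTop ENat)) (by simp)).clm_apply hw
  obtain ⟨C, hC, hb⟩ := hB ρ hρ hD.reg _ hn htan R
  obtain ⟨M, hM, hbt⟩ := deriv_bt_bound
  -- the cutoffs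
  set χ : ℕ → E → ℝ := fun n x => bt (((n : ℝ) + 1) * ρ x) with hχ
  have sχ : ∀ n, Sm (χ n) := fun n => sm_bt.comp (contDiff_const.mul hρ)
  have dχ : ∀ n x, fderiv ℝ (χ n) x (w x) =
      deriv bt (((n : ℝ) + 1) * ρ x) * (((n : ℝ) + 1) * fderiv ℝ ρ x (w x)) := by
    intro n x
    have h1 : HasFDerivAt (fun y => ((n : ℝ) + 1) * ρ y) (((n : ℝ) + 1) • fderiv ℝ ρ x) x :=
      (hρd x).hasFDerivAt.const_mul _
    have h2 : HasDerivAt bt (deriv bt (((n : ℝ) + 1) * ρ x)) (((n : ℝ) + 1) * ρ x) :=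
      ((Sm.differentiable sm_bt) _).hasDerivAt
    have h3 := h2.comp_hasFDerivAt x h1
    have h4 : fderiv ℝ (χ n) x = deriv bt (((n : ℝ) + 1) * ρ x) • (((n : ℝ) + 1) • fderiv ℝ ρ x) :=
      h3.fderiv
    rw [h4]
    simp
  have hsupp : ∀ n, HasCompactSupport (fun x => χ n x • w x) := by
    intro n
    refine HasCompactSupport.of_support_subset_isCompact (isCompact_closedBall (0 : E) R) ?_
    intro x hx
    have h1 : χ n x ≠ 0 := by
      intro h0
      exact hx (by simp [h0])
    have h2 : ((n : ℝ) + 1) * ρ x < -1 := by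
      by_contra hc
      exact h1 (bt_zero (not_lt.mp hc))
    have h3 : ρ x < 0 := by
      by_contra hc
      have : 0 ≤ ((n : ℝ) + 1) * ρ x := mul_nonneg (by positivity) (not_lt.mp hc)
      linarith
    simpa using hR x h3
  have hz : ∀ n, ∫ x in D ρ, (χ n x * dv w x + fderiv ℝ (χ n) x (w x)) = 0 := by
    intro n
    have h1 := integral_dv ((sχ n).smul hw) (hsupp n)
    rw [← h1]
    have h2 : ∀ x, dv (fun y => χ n y • w y) x = χ n x * dv w x + fderiv ℝ (χ n) x (w x) :=
      fun x => dv_smul ((Sm.differentiable (sχ n)) x) (hwd x)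
    rw [setIntegral_eq_integral_of_forall_compl_eq_zero]
    · exact integral_congr_ae (Eventually.of_forall fun x => (h2 x).symm)
    · intro x hx
      have h3 : 0 ≤ ρ x := not_lt.mp hx
      have h4 : 0 ≤ ((n : ℝ) + 1) * ρ x := mul_nonneg (by positivity) h3
      rw [dχ, deriv_bt_zero (by linarith)]
      have : χ n x = 0 := bt_zero (by linarith)
      rw [this]
      simp
  obtain ⟨K, hK⟩ : ∃ K : ℝ, ∀ x ∈ D ρ, |dv w x| ≤ K := by
    obtain ⟨K, hK⟩ := (isCompact_closedBall (0 : E) R).bddAbove_image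
      (hw.dv.continuous.abs.continuousOn)
    exact ⟨K, fun x hx => hK (mem_image_of_mem _ (by simpa using hR x hx))⟩
  have hfin : volume (D ρ) < ⊤ := hD.bdd.measure_lt_top
  have hlim : Tendsto (fun n => ∫ x in D ρ, (χ n x * dv w x + fderiv ℝ (χ n) x (w x))) atTop
      (𝓝 (∫ x in D ρ, dv w x)) := by
    refine tendsto_integral_of_dominated_convergence (fun _ => K + M * C) ?_ ?_ ?_ ?_
    · intro n
      have h1 : Continuous (fun x => χ n x * dv w x + fderiv ℝ (χ n) x (w x)) :=
        ((sχ n).continuous.mul hw.dv.continuous).add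
          (((sχ n).continuous_fderiv (by simp)).clm_apply hw.continuous)
      exact h1.aestronglyMeasurable
    · exact integrableOn_const (by exact hfin.ne)
    · intro n
      rw [ae_restrict_iff' (D_meas hρ)]
      refine Eventually.of_forall fun x hx => ?_
      rw [Real.norm_eq_abs]
      refine (abs_add_le _ _).trans (add_le_add ?_ ?_)
      · rw [abs_mul, abs_of_nonneg (bt_nonneg _)]
        calc bt (((n : ℝ) + 1) * ρ x) * |dv w x| ≤ 1 * K :=
              mul_le_mul (bt_le _) (hK x hx) (abs_nonneg _) zero_le_one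
          _ = K := one_mul _
      · rw [dχ]
        have h5 := hb x (hR x hx)
        calc |deriv bt (((n : ℝ) + 1) * ρ x) * (((n : ℝ) + 1) * fderiv ℝ ρ x (w x))|
            = |deriv bt (((n : ℝ) + 1) * ρ x)| * (((n : ℝ) + 1) * |fderiv ℝ ρ x (w x)|) := by
              rw [abs_mul, abs_mul, abs_of_nonneg (by positivity : (0 : ℝ) ≤ (n : ℝ) + 1)]
          _ ≤ |deriv bt (((n : ℝ) + 1) * ρ x)| * (((n : ℝ) + 1) * (C * |ρ x|)) := by
              gcongr
          _ = |deriv bt (((n : ℝ) + 1) * ρ x) * (((n : ℝ) + 1) * ρ x)| * C := by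
              rw [abs_mul, abs_mul, abs_of_nonneg (by positivity : (0 : ℝ) ≤ (n : ℝ) + 1)]
              ring
          _ ≤ M * C := mul_le_mul_of_nonneg_right (hbt _) hC
    · rw [ae_restrict_iff' (D_meas hρ)]
      refine Eventually.of_forall fun x hx => ?_
      have hneg : ρ x < 0 := hx
      have hev : ∀ᶠ n : ℕ in atTop, ((n : ℝ) + 1) * ρ x < -2 := by
        have h1 : Tendsto (fun n : ℕ => ((n : ℝ) + 1)) atTop atTop :=
          tendsto_atTop_add_const_right _ _ tendsto_natCast_atTop_atTop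
        have h2 : Tendsto (fun n : ℕ => ((n : ℝ) + 1) * ρ x) atTop atBot :=
          h1.atTop_mul_const_of_neg hneg
        exact h2.eventually (eventually_lt_atBot _)
      refine tendsto_const_nhds.congr' ?_
      filter_upwards [hev] with n hn
      rw [dχ, deriv_bt_one hn]
      have : χ n x = 1 := bt_one hn.le
      rw [this]
      simp
  have hc : (fun n => ∫ x in D ρ, (χ n x * dv w x + fderiv ℝ (χ n) x (w x))) = fun _ => 0 :=
    funext hz
  rw [hc] at hlim
  exact (tendsto_nhds_unique hlim tendsto_const_nhds)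

end MPfab
end
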