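import Pool.Agent.Lib.MP_fabde4_an.Gauss

/-!
MP_fabde4_an, module GAFF: the Gaffney inequality.
-/

set_option autoImplicit false
open MeasureTheory Set Filter Topology

namespace MPfab
namespace GaffM

open GaussM

lemma nsq (v : E) : ‖v‖ ^ 2 = v 0 ^ 2 + v 1 ^ 2 + v 2 ^ 2 := by
  rw [EuclideanSpace.norm_sq_eq, Fin.sum_univ_three]
  simp only [Real.norm_eq_abs, sq_abs]

lemma Sm.fderiv' {F : Type*} [NormedAddCommGroup F] [NormedSpace ℝ F] {f : E → F} (h : Sm f) :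
    Sm (fderiv ℝ f) := h.fderiv_right (m := ((⊤ : ENat) : WithTop ENat)) (by simp)

lemma fd_adv {w : E → E} (hw : Sm w) (x u : E) :
    fderiv ℝ (fun y => fderiv ℝ w y (w y)) x u =
      fderiv ℝ w x (fderiv ℝ w x u) + fderiv ℝ (fderiv ℝ w) x u (w x) := by
  have h1 : HasFDerivAt (fderiv ℝ w) (fderiv ℝ (fderiv ℝ w) x) x :=
    ((Sm.differentiable (Sm.fderiv' hw)) x).hasFDerivAt
  have h2 : HasFDerivAt w (fderiv ℝ w x) x := ((Sm.differentiable hw) x).hasFDerivAt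
  rw [(h1.clm_apply h2).fderiv]
  simp

lemma fd_dv {w : E → E} (hw : Sm w) (x u : E) :
    fderiv ℝ (dv w) x u = ∑ i, fderiv ℝ (fderiv ℝ w) x u (eb i) i := by
  have h1 : HasFDerivAt (fderiv ℝ w) (fderiv ℝ (fderiv ℝ w) x) x :=
    ((Sm.differentiable (Sm.fderiv' hw)) x).hasFDerivAt
  have h2 : ∀ i : Fin 3, HasFDerivAt (fun y => fderiv ℝ w y (eb i) i)
      ((EuclideanSpace.proj i : E →L[ℝ] ℝ).comp
        ((fderiv ℝ (fderiv ℝ w) x).flip (eb i))) x := by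
    intro i
    have h3 := h1.clm_apply (hasFDerivAt_const (eb i) x)
    have h4 := (EuclideanSpace.proj i : E →L[ℝ] ℝ).hasFDerivAt.comp x h3
    refine h4.congr_fderiv ?_
    ext v
    simp
  have h5 : HasFDerivAt (dv w) (∑ i, (EuclideanSpace.proj i : E →L[ℝ] ℝ).comp
        ((fderiv ℝ (fderiv ℝ w) x).flip (eb i))) x := by
    unfold dv pd
    exact HasFDerivAt.fun_sum fun i _ => h2 i
  rw [h5.fderiv]
  simp

/-- the field whose divergence is the difference -/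
noncomputable def Z (w : E → E) (x : E) : E := fderiv ℝ w x (w x) - dv w x • w x

lemma sm_Z {w : E → E} (hw : Sm w) : Sm (Z w) :=
  ((Sm.fderiv' hw).clm_apply hw).sub (hw.dv.smul hw)

lemma dv_Z {w : E → E} (hw : Sm w) (x : E) :
    dv (Z w) x = (∑ i, ∑ j, pd i w x j * pd j w x i) - dv w x ^ 2 := by
  have hA : Sm (fun y => fderiv ℝ w y (w y)) := (Sm.fderiv' hw).clm_apply hw
  have hB : Sm (fun y => dv w y • w y) := hw.dv.smul hw
  have h1 : dv (Z w) x = dv (fun y => fderiv ℝ w y (w y)) x - dv (fun y => dv w y • w y) x :=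
    dv_sub ((Sm.differentiable hA) x) ((Sm.differentiable hB) x)
  rw [h1, dv_smul ((Sm.differentiable hw.dv) x) ((Sm.differentiable hw) x), fd_dv hw]
  have h2 : dv (fun y => fderiv ℝ w y (w y)) x =
      ∑ i, ((∑ j, pd i w x j * pd j w x i) + fderiv ℝ (fderiv ℝ w) x (w x) (eb i) i) := by
    unfold dv
    refine Finset.sum_congr rfl fun i _ => ?_
    have hsym : fderiv ℝ (fderiv ℝ w) x (eb i) (w x) = fderiv ℝ (fderiv ℝ w) x (w x) (eb i) :=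
      (hw.contDiffAt.isSymmSndFDerivAt (by
        rw [minSmoothness_of_isRCLikeNormedField]
        exact WithTop.coe_le_coe.mpr (le_top : (2 : ENat) ≤ ⊤))) (eb i) (w x)
    rw [pd_def i (fun y => fderiv ℝ w y (w y)), fd_adv hw, hsym, PiLp.add_apply,
      fderiv_eq_sum w x (fderiv ℝ w x (eb i))]
    simp only [WithLp.ofLp_sum, Finset.sum_apply, PiLp.smul_apply, smul_eq_mul]
    rfl
  rw [h2, Finset.sum_add_distrib]
  ring

lemma curl_id {w : E → E} (hw : Sm w) (x : E) :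
    ∑ i, ‖pd i w x‖ ^ 2 = ‖curl w x‖ ^ 2 + dv w x ^ 2 + dv (Z w) x := by
  rw [dv_Z hw, nsq (curl w x)]
  simp only [Fin.sum_univ_three, nsq, curl_apply0, curl_apply1, curl_apply2]
  ring

/-- the second derivative of `ρ` in direction `w` -/
noncomputable def hh (ρ : E → ℝ) (w : E → E) (x : E) : ℝ :=
  (fderiv ℝ (fderiv ℝ ρ) x (w x)) (w x)

lemma sm_hh {ρ : E → ℝ} {w : E → E} (hρ : Sm ρ) (hw : Sm w) : Sm (hh ρ w) :=
  ((Sm.fderiv' (Sm.fderiv' hρ)).clm_apply hw).clm_apply hw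

lemma fd_hh {ρ : E → ℝ} {w : E → E} (hρ : Sm ρ) (hw : Sm w) (x u : E) :
    fderiv ℝ (hh ρ w) x u = fderiv ℝ (fderiv ℝ ρ) x (w x) (fderiv ℝ w x u) +
      (fderiv ℝ (fderiv ℝ ρ) x (fderiv ℝ w x u) (w x) +
        fderiv ℝ (fderiv ℝ (fderiv ℝ ρ)) x u (w x) (w x)) := by
  have h1 : HasFDerivAt (fderiv ℝ (fderiv ℝ ρ)) (fderiv ℝ (fderiv ℝ (fderiv ℝ ρ)) x) x :=
    ((Sm.differentiable (Sm.fderiv' (Sm.fderiv' hρ))) x).hasFDerivAt
  have h2 : HasFDerivAt w (fderiv ℝ w x) x := ((Sm.differentiable hw) x).hasFDerivAt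
  have h3 := (h1.clm_apply h2).clm_apply h2
  have h4 : fderiv ℝ (hh ρ w) x = _ := h3.fderiv
  rw [h4]
  simp

lemma opn_le {w : E → E} (x : E) : ‖fderiv ℝ w x‖ ≤ ∑ i, ‖pd i w x‖ := by
  refine ContinuousLinearMap.opNorm_le_bound _ (Finset.sum_nonneg fun i _ => norm_nonneg _) ?_
  intro u
  rw [fderiv_eq_sum w x u, Finset.sum_mul]
  refine (norm_sum_le _ _).trans (Finset.sum_le_sum fun i _ => ?_)
  rw [norm_smul, mul_comm]
  exact mul_le_mul_of_nonneg_left (PiLp.norm_apply_le u i) (norm_nonneg _)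

lemma sum_sq {w : E → E} (x : E) : (∑ i, ‖pd i w x‖) ^ 2 ≤ 3 * ∑ i, ‖pd i w x‖ ^ 2 := by
  simp only [Fin.sum_univ_three]
  nlinarith [sq_nonneg (‖pd 0 w x‖ - ‖pd 1 w x‖), sq_nonneg (‖pd 0 w x‖ - ‖pd 2 w x‖),
    sq_nonneg (‖pd 1 w x‖ - ‖pd 2 w x‖)]

/-- the transversal field `∇ρ / (|∇ρ|² + ρ²)` -/
noncomputable def G (ρ : E → ℝ) (x : E) : E := (‖gr ρ x‖ ^ 2 + ρ x ^ 2)⁻¹ • gr ρ x

lemma gr_ne {ρ : E → ℝ} {x : E} (h : fderiv ℝ ρ x ≠ 0) : gr ρ x ≠ 0 := by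
  intro h0
  apply h
  ext v
  rw [← inner_gr, h0]
  simp

lemma den_ne {ρ : E → ℝ} (hD : Dom ρ) (x : E) : ‖gr ρ x‖ ^ 2 + ρ x ^ 2 ≠ 0 := by
  by_cases h : ρ x = 0
  · have h1 := gr_ne (hD.reg x h)
    have : 0 < ‖gr ρ x‖ := norm_pos_iff.mpr h1
    positivity
  · have : 0 < ρ x ^ 2 := by positivity
    positivity

lemma sm_G {ρ : E → ℝ} (hD : Dom ρ) : Sm (G ρ) := by
  have h1 : Sm (gr ρ) := hD.smooth.gr
  exact (((h1.norm_sq ℝ).add (hD.smooth.pow 2)).inv (den_ne hD)).smul h1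

lemma fd_G {ρ : E → ℝ} (hD : Dom ρ) {x : E} (hx : ρ x = 0) : fderiv ℝ ρ x (G ρ x) = 1 := by
  unfold G
  rw [map_smul, ← inner_gr, real_inner_self_eq_norm_sq, smul_eq_mul, hx]
  have h1 : 0 < ‖gr ρ x‖ := norm_pos_iff.mpr (gr_ne (hD.reg x hx))
  field_simp
  ring

lemma tan_Z' {ρ : E → ℝ} (hT : SpecTanD) (hD : Dom ρ) {w : E → E} (hw : Sm w)
    (ht : Tan ρ w) : Tan ρ (fun x => Z w x + hh ρ w x • G ρ x) := by
  intro x hx
  have hρ := hD.smooth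
  have hn : Sm (fun x => fderiv ℝ ρ x (w x)) := (Sm.fderiv' hρ).clm_apply hw
  have h1 := hT ρ hρ hD.reg _ hn ht x (w x) hx (ht x hx)
  have h2 : HasFDerivAt (fderiv ℝ ρ) (fderiv ℝ (fderiv ℝ ρ) x) x :=
    ((Sm.differentiable (Sm.fderiv' hρ)) x).hasFDerivAt
  have h3 : HasFDerivAt w (fderiv ℝ w x) x := ((Sm.differentiable hw) x).hasFDerivAt
  rw [(h2.clm_apply h3).fderiv] at h1
  simp only [add_apply, ContinuousLinearMap.comp_apply,
    ContinuousLinearMap.flip_apply] at h1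
  rw [map_add, map_smul, fd_G hD hx]
  unfold Z hh
  rw [map_sub, map_smul, ht x hx]
  simp only [smul_eq_mul, mul_zero, mul_one, sub_zero]
  exact h1

end GaffM

open GaussM GaffM

theorem specGaff (hG : SpecGauss) (hT : SpecTanD) : SpecGaff := by
  intro ρ hD
  have hρ := hD.smooth
  obtain ⟨R, hR⟩ := D_ball hD
  have hDo : MeasurableSet (D ρ) := D_meas hρ
  have sG := sm_G hD
  have s2 := (Sm.fderiv' (Sm.fderiv' hρ)).continuous
  have s3 := ((Sm.fderiv' (Sm.fderiv' (Sm.fderiv' hρ))).clm_apply sG).continuous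
  obtain ⟨A2, hA2⟩ := (isCompact_closedBall (0 : E) R).exists_bound_of_continuousOn
    s2.continuousOn
  obtain ⟨A3, hA3⟩ := (isCompact_closedBall (0 : E) R).exists_bound_of_continuousOn
    s3.continuousOn
  obtain ⟨AG, hAG⟩ := (isCompact_closedBall (0 : E) R).exists_bound_of_continuousOn
    sG.continuous.continuousOn
  obtain ⟨Ad, hAd⟩ := (isCompact_closedBall (0 : E) R).exists_bound_of_continuousOn
    sG.dv.continuous.continuousOn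
  have hin : ∀ x ∈ D ρ, x ∈ Metric.closedBall (0 : E) R := fun x hx => by simpa using hR x hx
  obtain ⟨K1, hK1⟩ : ∃ K : ℝ, ∀ x ∈ D ρ, ‖fderiv ℝ (fderiv ℝ ρ) x‖ * |dv (G ρ) x| +
      ‖fderiv ℝ (fderiv ℝ (fderiv ℝ ρ)) x (G ρ x)‖ ≤ K := by
    refine ⟨A2 * Ad + A3, fun x hx => add_le_add ?_ (hA3 x (hin x hx))⟩
    exact mul_le_mul (hA2 x (hin x hx)) (hAd x (hin x hx)) (abs_nonneg _)
      ((norm_nonneg _).trans (hA2 x (hin x hx)))
  obtain ⟨K2, hK2⟩ : ∃ K : ℝ, ∀ x ∈ D ρ, 2 * ‖fderiv ℝ (fderiv ℝ ρ) x‖ * ‖G ρ x‖ ≤ K := by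
    refine ⟨2 * A2 * AG, fun x hx => ?_⟩
    have h1 := hA2 x (hin x hx)
    have h2 := hAG x (hin x hx)
    have h3 := (norm_nonneg _).trans h1
    exact mul_le_mul (by linarith) h2 (norm_nonneg _) (by linarith)
  set K := |K1| + 3 / 2 * K2 ^ 2 with hK
  have hK0 : 0 ≤ K := by positivity
  refine ⟨2 * K + 3, by positivity, ?_⟩
  intro w hw ht
  have sZ := sm_Z hw
  have shG : Sm (fun x => hh ρ w x • G ρ x) := (sm_hh hρ hw).smul sG
  -- pointwise inequality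
  have hpt : ∀ x ∈ D ρ, ∑ i, ‖pd i w x‖ ^ 2 ≤ 2 * (‖curl w x‖ ^ 2 + dv w x ^ 2 +
      K * ‖w x‖ ^ 2 + dv (fun y => Z w y + hh ρ w y • G ρ y) x) := by
    intro x hx
    have e1 := curl_id hw x
    have e2 : dv (fun y => Z w y + hh ρ w y • G ρ y) x = dv (Z w) x +
        (hh ρ w x * dv (G ρ) x + fderiv ℝ (hh ρ w) x (G ρ x)) := by
      rw [dv_add ((Sm.differentiable sZ) x) ((Sm.differentiable shG) x),
        dv_smul ((Sm.differentiable (sm_hh hρ hw)) x) ((Sm.differentiable sG) x)]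
    set g := ∑ i, ‖pd i w x‖ ^ 2 with hg
    set s := ∑ i, ‖pd i w x‖ with hs
    have hs0 : 0 ≤ s := Finset.sum_nonneg fun i _ => norm_nonneg _
    have hsg : s ^ 2 ≤ 3 * g := sum_sq x
    have hop : ‖fderiv ℝ w x‖ ≤ s := opn_le x
    have b1 : |hh ρ w x| ≤ ‖fderiv ℝ (fderiv ℝ ρ) x‖ * ‖w x‖ ^ 2 := by
      unfold hh
      have := (fderiv ℝ (fderiv ℝ ρ) x).le_opNorm₂ (w x) (w x)
      rw [Real.norm_eq_abs] at this
      nlinarith
    have b2 : |fderiv ℝ (hh ρ w) x (G ρ x)| ≤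
        ‖fderiv ℝ (fderiv ℝ (fderiv ℝ ρ)) x (G ρ x)‖ * ‖w x‖ ^ 2 +
          2 * ‖fderiv ℝ (fderiv ℝ ρ) x‖ * ‖G ρ x‖ * (s * ‖w x‖) := by
      rw [fd_hh hρ hw]
      have hd : ‖fderiv ℝ w x (G ρ x)‖ ≤ s * ‖G ρ x‖ :=
        ((fderiv ℝ w x).le_opNorm _).trans (mul_le_mul_of_nonneg_right hop (norm_nonneg _))
      have c1 : |fderiv ℝ (fderiv ℝ ρ) x (w x) (fderiv ℝ w x (G ρ x))| ≤
          ‖fderiv ℝ (fderiv ℝ ρ) x‖ * ‖w x‖ * (s * ‖G ρ x‖) := by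
        refine ((fderiv ℝ (fderiv ℝ ρ) x).le_opNorm₂ (w x) _).trans ?_
        exact mul_le_mul_of_nonneg_left hd (by positivity)
      have c2 : |fderiv ℝ (fderiv ℝ ρ) x (fderiv ℝ w x (G ρ x)) (w x)| ≤
          ‖fderiv ℝ (fderiv ℝ ρ) x‖ * (s * ‖G ρ x‖) * ‖w x‖ := by
        refine ((fderiv ℝ (fderiv ℝ ρ) x).le_opNorm₂ _ (w x)).trans ?_
        exact mul_le_mul_of_nonneg_right (mul_le_mul_of_nonneg_left hd (by positivity))
          (norm_nonneg _)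
      have c3 : |fderiv ℝ (fderiv ℝ (fderiv ℝ ρ)) x (G ρ x) (w x) (w x)| ≤
          ‖fderiv ℝ (fderiv ℝ (fderiv ℝ ρ)) x (G ρ x)‖ * ‖w x‖ * ‖w x‖ :=
        (fderiv ℝ (fderiv ℝ (fderiv ℝ ρ)) x (G ρ x)).le_opNorm₂ (w x) (w x)
      refine (abs_add_le _ _).trans ?_
      have := abs_add_le (fderiv ℝ (fderiv ℝ ρ) x (fderiv ℝ w x (G ρ x)) (w x))
        (fderiv ℝ (fderiv ℝ (fderiv ℝ ρ)) x (G ρ x) (w x) (w x))
      calc _ ≤ ‖fderiv ℝ (fderiv ℝ ρ) x‖ * ‖w x‖ * (s * ‖G ρ x‖) +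
            (‖fderiv ℝ (fderiv ℝ ρ) x‖ * (s * ‖G ρ x‖) * ‖w x‖ +
            ‖fderiv ℝ (fderiv ℝ (fderiv ℝ ρ)) x (G ρ x)‖ * ‖w x‖ * ‖w x‖) :=
            add_le_add c1 (this.trans (add_le_add c2 c3))
        _ = _ := by ring
    have b3 : |hh ρ w x * dv (G ρ) x| ≤ ‖fderiv ℝ (fderiv ℝ ρ) x‖ * |dv (G ρ) x| * ‖w x‖ ^ 2 := by
      rw [abs_mul]
      calc |hh ρ w x| * |dv (G ρ) x| ≤
            (‖fderiv ℝ (fderiv ℝ ρ) x‖ * ‖w x‖ ^ 2) * |dv (G ρ) x| :=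
            mul_le_mul_of_nonneg_right b1 (abs_nonneg _)
        _ = _ := by ring
    have b4 : |hh ρ w x * dv (G ρ) x + fderiv ℝ (hh ρ w) x (G ρ x)| ≤
        K1 * ‖w x‖ ^ 2 + K2 * (s * ‖w x‖) := by
      refine (abs_add_le _ _).trans ((add_le_add b3 b2).trans ?_)
      have k1 := mul_le_mul_of_nonneg_right (hK1 x hx) (sq_nonneg ‖w x‖)
      have k2 := mul_le_mul_of_nonneg_right (hK2 x hx) (mul_nonneg hs0 (norm_nonneg (w x)))
      linarith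
    have b5 : K2 * (s * ‖w x‖) ≤ g / 2 + 3 / 2 * K2 ^ 2 * ‖w x‖ ^ 2 := by
      nlinarith [sq_nonneg (s - 3 * (K2 * ‖w x‖))]
    have b6 := neg_abs_le (hh ρ w x * dv (G ρ) x + fderiv ℝ (hh ρ w) x (G ρ x))
    have b7 : K1 * ‖w x‖ ^ 2 ≤ |K1| * ‖w x‖ ^ 2 :=
      mul_le_mul_of_nonneg_right (le_abs_self _) (sq_nonneg _)
    rw [e2, hK]
    nlinarith
  -- integrate
  have hbd := hD.bdd
  have i1 : IntegrableOn (fun x => ‖curl w x‖ ^ 2) (D ρ) :=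
    integrableOn_of_cont (hw.curl.continuous.norm.pow 2) hbd
  have i2 : IntegrableOn (fun x => dv w x ^ 2) (D ρ) :=
    integrableOn_of_cont (hw.dv.continuous.pow 2) hbd
  have i3 : IntegrableOn (fun x => ‖w x‖ ^ 2) (D ρ) :=
    integrableOn_of_cont (hw.continuous.norm.pow 2) hbd
  have i4 : IntegrableOn (dv (fun y => Z w y + hh ρ w y • G ρ y)) (D ρ) :=
    integrableOn_of_cont (Sm.dv (sZ.add shG)).continuous hbd
  have i12 : IntegrableOn (fun x => ‖curl w x‖ ^ 2 + dv w x ^ 2) (D ρ) := i1.add i2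
  have i3K : IntegrableOn (fun x => K * ‖w x‖ ^ 2) (D ρ) := i3.const_mul K
  have i123 : IntegrableOn (fun x => ‖curl w x‖ ^ 2 + dv w x ^ 2 + K * ‖w x‖ ^ 2) (D ρ) :=
    i12.add i3K
  have i5 : ∀ i, IntegrableOn (fun x => ‖pd i w x‖ ^ 2) (D ρ) := fun i =>
    integrableOn_of_cont ((hw.pd i).continuous.norm.pow 2) hbd
  have hint : ∑ i, ∫ x in D ρ, ‖pd i w x‖ ^ 2 ≤ 2 * ((∫ x in D ρ, ‖curl w x‖ ^ 2) +
      (∫ x in D ρ, dv w x ^ 2) + K * ∫ x in D ρ, ‖w x‖ ^ 2) := by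
    have h0 := hG ρ hD _ (sZ.add shG) (tan_Z' hT hD hw ht)
    rw [← integral_finsetSum _ (fun i _ => i5 i)]
    calc ∫ x in D ρ, ∑ i, ‖pd i w x‖ ^ 2 ≤ ∫ x in D ρ, 2 * (‖curl w x‖ ^ 2 + dv w x ^ 2 +
          K * ‖w x‖ ^ 2 + dv (fun y => Z w y + hh ρ w y • G ρ y) x) := by
          refine setIntegral_mono_on ?_ ?_ hDo hpt
          · exact integrable_finsetSum _ fun i _ => i5 i
          · exact (i123.add i4).const_mul 2
      _ = 2 * ((∫ x in D ρ, ‖curl w x‖ ^ 2) +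
      (∫ x in D ρ, dv w x ^ 2) + K * (∫ x in D ρ, ‖w x‖ ^ 2) +
        ∫ x in D ρ, dv (fun y => Z w y + hh ρ w y • G ρ y) x) := by
          rw [integral_const_mul, integral_add i123 i4, integral_add i12 i3K,
            integral_add i1 i2, integral_const_mul]
      _ = _ := by
          have h0' : ∫ x in D ρ, dv (fun y => Z w y + hh ρ w y • G ρ y) x = 0 := h0
          rw [h0', add_zero]
  have p1 : 0 ≤ ∫ x in D ρ, ‖curl w x‖ ^ 2 := integral_nonneg fun x => by positivity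
  have p2 : 0 ≤ ∫ x in D ρ, dv w x ^ 2 := integral_nonneg fun x => by positivity
  have p3 : 0 ≤ ∫ x in D ρ, ‖w x‖ ^ 2 := integral_nonneg fun x => by positivity
  simp only [hs]
  have e3 : ∫ x in D ρ, ‖dv w x‖ ^ 2 = ∫ x in D ρ, dv w x ^ 2 := by
    simp only [Real.norm_eq_abs, sq_abs]
  rw [e3]
  nlinarith [mul_nonneg hK0 p1, mul_nonneg hK0 p2, mul_nonneg hK0 p3]

end MPfab
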