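import Pool.Agent.Lib.MP_fabde4_an.SpecP
import Pool.Agent.Lib.MP_fabde4_an.SpecN
import Pool.Agent.Lib.MP_fabde4_an.Eng
import Pool.Agent.Lib.MP_fabde4_an.M.Lop
import Pool.Agent.Lib.MP_fabde4_an.M.Cont

section
/-!
MP_fabde4_an, part P: module BOOT (helper87): regularity in time.
-/
set_option autoImplicit false
open MeasureTheory Set

namespace MPfab

/-- module BOOT -/
theorem specBoot (hSm : SpecIncSm) (hAlg : SpecIncAlg) : SpecBoot := by
  intro R T0 P κ V F g hD M hM hint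
  -- the right-hand side
  set G : ℝ × E → E := fun p => F p + (fun _ : ℝ × E => (-1 : ℝ)) p •
    cr (curl (sl M p.1) p.2) (vel P M p) with hG
  have hGe : ∀ t x, G (t, x) = F (t, x) - cr (curl (sl M t) x) (P t (sl M t) x) := by
    intro t x
    simp only [hG, neg_smul, one_smul, vel, ← sub_eq_add_neg]
  have hGin : ∀ j, InC R j M → InC R j G := by
    intro j hj
    have h1 : InC R j (vel P M) := hD.law.inc j M hj
    have h2 := hAlg.crc R j M (vel P M) hD.R_pos hj h1
    have h3 := hAlg.smul E R j (fun _ => (-1 : ℝ)) _ contDiff_const h2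
    exact hAlg.add E R j F _ (hSm.inc E R j F hD.R_pos hD.F_in) h3
  have hGc : Continuous G := (hGin 0 hM).2 []
  have hder : ∀ t x, HasDerivAt (fun s => M (s, x)) (G (t, x)) t := by
    intro t x
    have h1 : (fun s => M (s, x)) = fun s => V (0, x) + ∫ u in (0 : ℝ)..s, G (u, x) := by
      funext s
      rw [hint s x]
      congr 1
      refine intervalIntegral.integral_congr fun u _ => ?_
      exact (hGe u x).symm
    rw [h1]
    have hc : Continuous fun u : ℝ => G (u, x) := hGc.comp (Continuous.prodMk continuous_id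
      continuous_const)
    have h2 := (intervalIntegral.integral_hasDerivAt_right (hc.intervalIntegrable 0 t)
      (hc.stronglyMeasurableAtFilter volume (nhds t)) hc.continuousAt)
    exact h2.const_add _
  have hall : ∀ j, InC R j M := by
    intro j
    induction j with
    | zero => exact hM
    | succ j ih => exact ⟨hM, G, hGin j ih, hder⟩
  refine ⟨hSm.of_all E R M hall, ?_, ?_⟩
  · funext x
    show M (0, x) = V (0, x)
    rw [hint 0 x]
    simp
  · intro t x
    have h1 : dt M (t, x) = G (t, x) := (hder t x).deriv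
    rw [h1, hGe]
    show F (t, x) - cr (curl (sl M t) x) (P t (sl M t) x) + cr (curl (sl M t) x)
      (P t (sl M t) x) = F (t, x)
    abel

end MPfab
end

section
/-!
MP_fabde4_an, part P: module GRON1 (a Gronwall lemma).
-/
set_option autoImplicit false
open MeasureTheory Set

namespace MPfab

namespace GRON1

/-- forward version -/
theorem fwd (T0 : ℝ) (α γ Y : ℝ → ℝ) (hα : Continuous α) (hγ : Continuous γ)
    (hα0 : ∀ t, 0 ≤ α t) (hγ0 : ∀ t, 0 ≤ γ t) (hY : ∀ t, 0 ≤ Y t) (hY0 : Y 0 = 0)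
    (hd : ∀ t, 0 ≤ t → t ≤ T0 → ∃ y', HasDerivAt Y y' t ∧
      y' ≤ 2 * √(Y t) * (α t * √(Y t) + α t * ((∫ s in (0 : ℝ)..t, γ s) *
        Real.exp (2 * ∫ s in (0 : ℝ)..t, α s)) + γ t)) :
    ∀ t, 0 ≤ t → t ≤ T0 → √(Y t) ≤ (∫ s in (0 : ℝ)..t, γ s) *
      Real.exp (2 * ∫ s in (0 : ℝ)..t, α s) := by
  set Λ : ℝ → ℝ := fun t => ∫ s in (0 : ℝ)..t, α s with hΛ
  set Γ : ℝ → ℝ := fun t => ∫ s in (0 : ℝ)..t, γ s with hΓ
  have hΛd : ∀ t, HasDerivAt Λ (α t) t := fun t => hα.integral_hasStrictDerivAt 0 t |>.hasDerivAt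
  have hΓd : ∀ t, HasDerivAt Γ (γ t) t := fun t => hγ.integral_hasStrictDerivAt 0 t |>.hasDerivAt
  have hΛ0 : ∀ t, 0 ≤ t → 0 ≤ Λ t := fun t ht =>
    intervalIntegral.integral_nonneg ht fun s _ => hα0 s
  have hΓ0 : ∀ t, 0 ≤ t → 0 ≤ Γ t := fun t ht =>
    intervalIntegral.integral_nonneg ht fun s _ => hγ0 s
  choose! y' hy' using hd
  intro t ht0 htT
  -- the estimate with `η`
  have key : ∀ η : ℝ, 0 < η → √(Y t + η ^ 2) ≤ (Γ t + η * (1 + t)) * Real.exp (2 * Λ t) := by
    intro η hη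
    have hpos : ∀ s, 0 < Y s + η ^ 2 := fun s => by have := hY s; positivity
    have hder : ∀ s, 0 ≤ s → s ≤ T0 → HasDerivAt (fun s => √(Y s + η ^ 2))
        (y' s / (2 * √(Y s + η ^ 2))) s := by
      intro s hs0 hsT
      exact ((hy' s hs0 hsT).1.add_const (η ^ 2)).sqrt (hpos s).ne'
    have hBder : ∀ s, HasDerivAt (fun s => (Γ s + η * (1 + s)) * Real.exp (2 * Λ s))
        ((γ s + η) * Real.exp (2 * Λ s) +
          (Γ s + η * (1 + s)) * (Real.exp (2 * Λ s) * (2 * α s))) s := by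
      intro s
      have h1 : HasDerivAt (fun s => Γ s + η * (1 + s)) (γ s + η) s := by
        have h2 : HasDerivAt (fun s : ℝ => η * (1 + s)) (η * 1) s :=
          ((hasDerivAt_id s).const_add 1).const_mul η
        rw [mul_one] at h2
        exact (hΓd s).add h2
      have h3 : HasDerivAt (fun s => Real.exp (2 * Λ s)) (Real.exp (2 * Λ s) * (2 * α s)) s :=
        ((hΛd s).const_mul 2).exp
      exact h1.mul h3
    have hmain := image_le_of_deriv_right_lt_deriv_boundary (f := fun s => √(Y s + η ^ 2))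
      (f' := fun s => y' s / (2 * √(Y s + η ^ 2))) (a := 0) (b := T0)
      (B := fun s => (Γ s + η * (1 + s)) * Real.exp (2 * Λ s))
      (B' := fun s => (γ s + η) * Real.exp (2 * Λ s) +
          (Γ s + η * (1 + s)) * (Real.exp (2 * Λ s) * (2 * α s)))
      (fun s hs => (hder s hs.1 hs.2).continuousAt.continuousWithinAt)
      (fun s hs => (hder s hs.1 hs.2.le).hasDerivWithinAt)
      (by
        have h1 : Γ 0 = 0 := by simp [hΓ]
        have h2 : Λ 0 = 0 := by simp [hΛ]
        simp only [h1, h2, hY0, mul_zero, Real.exp_zero, add_zero, mul_one, zero_add]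
        rw [Real.sqrt_sq hη.le])
      hBder
      (by
        intro s hs heq
        have hζ : 0 < √(Y s + η ^ 2) := Real.sqrt_pos.2 (hpos s)
        set ζ := √(Y s + η ^ 2) with hζdef
        have hYζ : √(Y s) ≤ ζ := Real.sqrt_le_sqrt (by have := sq_nonneg η; linarith)
        have hYnn := Real.sqrt_nonneg (Y s)
        have h1 := (hy' s hs.1 hs.2.le).2
        have hZ : 0 ≤ Γ s * Real.exp (2 * Λ s) := mul_nonneg (hΓ0 s hs.1) (Real.exp_pos _).le
        have hαs := hα0 s
        have hγs := hγ0 s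
        have hexp : 1 ≤ Real.exp (2 * Λ s) := Real.one_le_exp (by have := hΛ0 s hs.1; linarith)
        have h2 : y' s ≤ 2 * ζ * (α s * ζ + α s * (Γ s * Real.exp (2 * Λ s)) + γ s) := by
          refine h1.trans ?_
          have h3 : α s * √(Y s) + α s * (Γ s * Real.exp (2 * Λ s)) + γ s ≤
              α s * ζ + α s * (Γ s * Real.exp (2 * Λ s)) + γ s := by
            have := mul_le_mul_of_nonneg_left hYζ hαs
            linarith
          have h4 : 0 ≤ α s * √(Y s) + α s * (Γ s * Real.exp (2 * Λ s)) + γ s := by positivity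
          calc 2 * √(Y s) * (α s * √(Y s) + α s * (Γ s * Real.exp (2 * Λ s)) + γ s)
              ≤ 2 * ζ * (α s * √(Y s) + α s * (Γ s * Real.exp (2 * Λ s)) + γ s) :=
                mul_le_mul_of_nonneg_right (by linarith) h4
            _ ≤ _ := mul_le_mul_of_nonneg_left h3 (by positivity)
        have h5 : y' s / (2 * ζ) ≤ α s * ζ + α s * (Γ s * Real.exp (2 * Λ s)) + γ s := by
          rw [div_le_iff₀ (by positivity)]
          linarith
        have heq' : ζ = (Γ s + η * (1 + s)) * Real.exp (2 * Λ s) := heq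
        have h6 : Γ s * Real.exp (2 * Λ s) ≤ ζ := by
          rw [heq']
          apply mul_le_mul_of_nonneg_right _ (Real.exp_pos _).le
          have : 0 ≤ η * (1 + s) := mul_nonneg hη.le (by linarith [hs.1])
          linarith
        have h7 : α s * (Γ s * Real.exp (2 * Λ s)) ≤ α s * ζ := mul_le_mul_of_nonneg_left h6 hαs
        have h8 : γ s < (γ s + η) * Real.exp (2 * Λ s) := by
          have : (γ s + η) * 1 ≤ (γ s + η) * Real.exp (2 * Λ s) :=
            mul_le_mul_of_nonneg_left hexp (by positivity)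
          linarith
        have h9 : (Γ s + η * (1 + s)) * (Real.exp (2 * Λ s) * (2 * α s)) = 2 * α s * ζ := by
          rw [heq']; ring
        show y' s / (2 * ζ) < _
        rw [h9]
        linarith)
    exact hmain ⟨ht0, htT⟩
  -- let `η → 0`
  have h1 : ∀ η : ℝ, 0 < η → √(Y t) ≤ (Γ t + η * (1 + t)) * Real.exp (2 * Λ t) := fun η hη =>
    (Real.sqrt_le_sqrt (by have := sq_nonneg η; linarith)).trans (key η hη)
  have h2 : Filter.Tendsto (fun η : ℝ => (Γ t + η * (1 + t)) * Real.exp (2 * Λ t))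
      (nhdsWithin 0 (Ioi 0)) (nhds ((Γ t + 0 * (1 + t)) * Real.exp (2 * Λ t))) := by
    have hc : Continuous fun η : ℝ => (Γ t + η * (1 + t)) * Real.exp (2 * Λ t) := by fun_prop
    exact (hc.tendsto 0).mono_left nhdsWithin_le_nhds
  have h3 := ge_of_tendsto h2 (by
    filter_upwards [self_mem_nhdsWithin] with η hη
    exact h1 η hη)
  simpa using h3

end GRON1

open GRON1 in
theorem specGron1 : SpecGron1 := by
  intro T0 α γ z Y hT hα hγ hα0 hγ0 hY hY0 hz hd t ht
  have habs : ∀ (φ : ℝ → ℝ), (∀ t, 0 ≤ φ t) → ∀ s, 0 ≤ s →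
      |∫ u in (0 : ℝ)..s, φ u| = ∫ u in (0 : ℝ)..s, φ u := fun φ hφ s hs =>
    abs_of_nonneg (intervalIntegral.integral_nonneg hs fun u _ => hφ u)
  rcases le_total 0 t with h0 | h0
  · rw [abs_of_nonneg h0] at ht
    rw [habs α hα0 t h0, habs γ hγ0 t h0]
    refine fwd T0 α γ Y hα hγ hα0 hγ0 hY hY0 ?_ t h0 ht
    intro s hs0 hsT
    have hs : |s| ≤ T0 := by rwa [abs_of_nonneg hs0]
    obtain ⟨y', h1, h2⟩ := hd s hs
    refine ⟨y', h1, (le_abs_self y').trans (h2.trans ?_)⟩
    have h3 := hz s hs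
    rw [habs α hα0 s hs0, habs γ hγ0 s hs0] at h3
    have h4 := mul_le_mul_of_nonneg_left h3 (hα0 s)
    have h5 := Real.sqrt_nonneg (Y s)
    apply mul_le_mul_of_nonneg_left _ (by positivity)
    linarith
  · have hrefl : ∀ (φ : ℝ → ℝ) (s : ℝ), (∫ u in (0 : ℝ)..s, φ (-u)) =
        - ∫ u in (0 : ℝ)..(-s), φ u := by
      intro φ s
      rw [intervalIntegral.integral_comp_neg, neg_zero, intervalIntegral.integral_symm]
    have h0' : 0 ≤ -t := by linarith
    have h1 := fwd T0 (fun s => α (-s)) (fun s => γ (-s)) (fun s => Y (-s))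
      (hα.comp continuous_neg) (hγ.comp continuous_neg) (fun s => hα0 _) (fun s => hγ0 _)
      (fun s => hY _) (by simpa using hY0) (by
        intro s hs0 hsT
        have hs : |(-s)| ≤ T0 := by rwa [abs_neg, abs_of_nonneg hs0]
        obtain ⟨y', h1, h2⟩ := hd (-s) hs
        refine ⟨-y', ?_, (neg_le_abs y').trans (h2.trans ?_)⟩
        · have h6 : HasDerivAt (fun s => Y (-s)) (y' * -1) s := h1.comp s (hasDerivAt_neg s)
          rwa [mul_neg_one] at h6
        · have h3 := hz (-s) hs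
          have e1 := habs (fun u => α (-u)) (fun u => hα0 _) s hs0
          have e2 := habs (fun u => γ (-u)) (fun u => hγ0 _) s hs0
          rw [← e1, ← e2, hrefl α s, hrefl γ s, abs_neg, abs_neg]
          have h4 := mul_le_mul_of_nonneg_left h3 (hα0 (-s))
          have h5 := Real.sqrt_nonneg (Y (-s))
          apply mul_le_mul_of_nonneg_left _ (by positivity)
          linarith) (-t) h0' (by rwa [abs_of_nonpos h0] at ht)
    have e1 := habs (fun u => α (-u)) (fun u => hα0 _) (-t) h0'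
    have e2 := habs (fun u => γ (-u)) (fun u => hγ0 _) (-t) h0'
    rw [← e1, ← e2, hrefl α (-t), hrefl γ (-t), abs_neg, abs_neg, neg_neg] at h1
    exact h1

end MPfab
end

section
/-!
MP_fabde4_an, part P: modules GRON2 and GRON3 (Gronwall lemmas for sequences).
-/
set_option autoImplicit false
open MeasureTheory Set

namespace MPfab

namespace GRON2

/-- a function with derivative `0` behind `T0` -/
theorem const_of (Y : ℝ → ℝ) (T0 : ℝ) (h : ∀ t, T0 ≤ t → HasDerivAt Y 0 t) (t : ℝ)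
    (ht : T0 ≤ t) : Y t = Y T0 :=
  constant_of_has_deriv_right_zero (f := Y) (a := T0) (b := t)
    (fun s hs => (h s hs.1).continuousAt.continuousWithinAt)
    (fun s hs => (h s hs.1).hasDerivWithinAt) t ⟨ht, le_rfl⟩

theorem fwd (T0 A : ℝ) (Y : ℕ → ℝ → ℝ) (hT : 0 < T0) (hA : 0 ≤ A)
    (h0 : ∀ t, 0 ≤ t → Y 0 t ≤ A) (hi : ∀ n, Y n 0 ≤ A)
    (hd : ∀ n t, 0 ≤ t → ∃ y', HasDerivAt (Y (n + 1)) y' t ∧ y' ≤ A * (1 + Y (n + 1) t + Y n t))
    (hc : ∀ n t, T0 ≤ t → HasDerivAt (Y (n + 1)) 0 t) :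
    ∀ n t, 0 ≤ t → Y n t ≤ (A + 1) * Real.exp ((3 * A + 1) * T0) := by
  have hlam : 0 ≤ 3 * A + 1 := by linarith
  have key : ∀ n t, 0 ≤ t → t ≤ T0 → Y n t ≤ (A + 1) * Real.exp ((3 * A + 1) * t) := by
    intro n
    induction n with
    | zero =>
      intro t ht _
      have h1 := h0 t ht
      have h2 : 1 ≤ Real.exp ((3 * A + 1) * t) := Real.one_le_exp (by positivity)
      have h3 : (A + 1) * 1 ≤ (A + 1) * Real.exp ((3 * A + 1) * t) :=
        mul_le_mul_of_nonneg_left h2 (by linarith)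
      linarith
    | succ n ih =>
      intro t ht htT
      choose! y' hy' using hd
      have hBder : ∀ s, HasDerivAt (fun s => (A + 1) * Real.exp ((3 * A + 1) * s))
          ((A + 1) * (Real.exp ((3 * A + 1) * s) * (3 * A + 1))) s := by
        intro s
        have h1 : HasDerivAt (fun s : ℝ => (3 * A + 1) * s) (3 * A + 1) s := by
          simpa using (hasDerivAt_id s).const_mul (3 * A + 1)
        exact h1.exp.const_mul (A + 1)
      have hmain := image_le_of_deriv_right_lt_deriv_boundary (f := Y (n + 1))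
        (f' := fun s => y' n s) (a := 0) (b := T0)
        (B := fun s => (A + 1) * Real.exp ((3 * A + 1) * s))
        (B' := fun s => (A + 1) * (Real.exp ((3 * A + 1) * s) * (3 * A + 1)))
        (fun s hs => (hy' n s hs.1).1.continuousAt.continuousWithinAt)
        (fun s hs => (hy' n s hs.1).1.hasDerivWithinAt)
        (by
          have := hi (n + 1)
          simp only [mul_zero, Real.exp_zero, mul_one]
          linarith)
        hBder
        (by
          intro s hs heq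
          have h1 := (hy' n s hs.1).2
          have h2 := ih s hs.1 hs.2.le
          have h3 : 1 ≤ Real.exp ((3 * A + 1) * s) :=
            Real.one_le_exp (mul_nonneg hlam hs.1)
          have heq' : Y (n + 1) s = (A + 1) * Real.exp ((3 * A + 1) * s) := heq
          set B := (A + 1) * Real.exp ((3 * A + 1) * s) with hB
          have hB1 : 1 ≤ B := by
            have : (A + 1) * 1 ≤ (A + 1) * Real.exp ((3 * A + 1) * s) :=
              mul_le_mul_of_nonneg_left h3 (by linarith)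
            linarith
          have h4 : A * (1 + Y (n + 1) s + Y n s) ≤ A * (3 * B) :=
            mul_le_mul_of_nonneg_left (by linarith) hA
          have h5 : (A + 1) * (Real.exp ((3 * A + 1) * s) * (3 * A + 1)) = 3 * A * B + B := by
            rw [hB]; ring
          show y' n s < _
          rw [h5]
          nlinarith)
      exact hmain ⟨ht, htT⟩
  intro n t ht
  rcases le_total t T0 with h | h
  · refine (key n t ht h).trans (mul_le_mul_of_nonneg_left (Real.exp_le_exp.2 ?_) (by linarith))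
    exact mul_le_mul_of_nonneg_left h hlam
  · cases n with
    | zero =>
      have h1 := h0 t ht
      have h2 : 1 ≤ Real.exp ((3 * A + 1) * T0) := Real.one_le_exp (by positivity)
      have h3 : (A + 1) * 1 ≤ (A + 1) * Real.exp ((3 * A + 1) * T0) :=
        mul_le_mul_of_nonneg_left h2 (by linarith)
      linarith
    | succ n =>
      rw [const_of (Y (n + 1)) T0 (hc n) t h]
      exact key (n + 1) T0 hT.le le_rfl

theorem fwd3 (T0 A : ℝ) (Y : ℕ → ℝ → ℝ) (hT : 0 < T0) (hA : 0 ≤ A) (hY : ∀ n t, 0 ≤ Y n t)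
    (h0 : ∀ t, 0 ≤ t → Y 0 t ≤ A) (hi : ∀ n, Y n 0 = 0)
    (hd : ∀ n t, 0 ≤ t → ∃ y', HasDerivAt (Y (n + 1)) y' t ∧ y' ≤ A * (Y (n + 1) t + Y n t))
    (hc : ∀ n t, T0 ≤ t → HasDerivAt (Y (n + 1)) 0 t) :
    ∀ n t, 0 ≤ t → Y n t ≤ A * Real.exp (A * T0) * ((A * T0) ^ n / (n.factorial : ℝ)) := by
  have key : ∀ n t, 0 ≤ t → t ≤ T0 → Real.exp (-(A * t)) * Y n t ≤
      A * ((A * t) ^ n / (n.factorial : ℝ)) := by
    intro n
    induction n with
    | zero =>
      intro t ht _
      have h1 := h0 t ht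
      have h2 : Real.exp (-(A * t)) ≤ 1 := Real.exp_le_one_iff.2 (by
        have := mul_nonneg hA ht; linarith)
      have h3 : Real.exp (-(A * t)) * Y 0 t ≤ 1 * Y 0 t :=
        mul_le_mul_of_nonneg_right h2 (hY 0 t)
      simp only [pow_zero, Nat.factorial_zero, Nat.cast_one, div_one, mul_one]
      linarith
    | succ n ih =>
      intro t ht htT
      choose! y' hy' using hd
      have hder : ∀ s, 0 ≤ s → HasDerivAt (fun s => Real.exp (-(A * s)) * Y (n + 1) s)
          (Real.exp (-(A * s)) * (-A) * Y (n + 1) s + Real.exp (-(A * s)) * y' n s) s := by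
        intro s hs
        have h1 : HasDerivAt (fun s : ℝ => -(A * s)) (-A) s := by
          have h2 : HasDerivAt (fun s : ℝ => A * s) A s := by
            simpa using (hasDerivAt_id s).const_mul A
          exact h2.neg
        exact h1.exp.mul (hy' n s hs).1
      have hBder : ∀ s, HasDerivAt (fun s : ℝ => A * ((A * s) ^ (n + 1) / ((n + 1).factorial : ℝ)))
          (A * (((n + 1 : ℕ) : ℝ) * (A * s) ^ n * A / ((n + 1).factorial : ℝ))) s := by
        intro s
        have h1 : HasDerivAt (fun s : ℝ => A * s) A s := by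
          simpa using (hasDerivAt_id s).const_mul A
        have h2 := h1.pow (n + 1)
        simp only [Nat.add_sub_cancel] at h2
        exact (h2.div_const _).const_mul A
      have hmain := image_le_of_deriv_right_le_deriv_boundary
        (f := fun s => Real.exp (-(A * s)) * Y (n + 1) s)
        (f' := fun s => Real.exp (-(A * s)) * (-A) * Y (n + 1) s + Real.exp (-(A * s)) * y' n s)
        (a := 0) (b := T0)
        (B := fun s : ℝ => A * ((A * s) ^ (n + 1) / ((n + 1).factorial : ℝ)))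
        (B' := fun s => A * (((n + 1 : ℕ) : ℝ) * (A * s) ^ n * A / ((n + 1).factorial : ℝ)))
        (fun s hs => (hder s hs.1).continuousAt.continuousWithinAt)
        (fun s hs => (hder s hs.1).hasDerivWithinAt)
        (by simp [hi (n + 1)])
        (fun s _ => (hBder s).continuousAt.continuousWithinAt)
        (fun s _ => (hBder s).hasDerivWithinAt)
        (by
          intro s hs
          have h1 := (hy' n s hs.1).2
          have h2 := ih s hs.1 hs.2.le
          have he := Real.exp_pos (-(A * s))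
          have h3 : Real.exp (-(A * s)) * y' n s ≤
              Real.exp (-(A * s)) * (A * (Y (n + 1) s + Y n s)) :=
            mul_le_mul_of_nonneg_left h1 he.le
          have h4 : A * (Real.exp (-(A * s)) * Y n s) ≤
              A * (A * ((A * s) ^ n / (n.factorial : ℝ))) := mul_le_mul_of_nonneg_left h2 hA
          have h5 : A * (((n + 1 : ℕ) : ℝ) * (A * s) ^ n * A / ((n + 1).factorial : ℝ)) =
              A * (A * ((A * s) ^ n / (n.factorial : ℝ))) := by
            rw [Nat.factorial_succ, Nat.cast_mul]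
            have h6 : ((n + 1 : ℕ) : ℝ) ≠ 0 := by positivity
            have h7 : (n.factorial : ℝ) ≠ 0 := by positivity
            field_simp
          rw [h5]
          nlinarith)
      exact hmain ⟨ht, htT⟩
  have key2 : ∀ n t, 0 ≤ t → t ≤ T0 → Y n t ≤
      A * Real.exp (A * T0) * ((A * T0) ^ n / (n.factorial : ℝ)) := by
    intro n t ht htT
    have h1 := key n t ht htT
    have h2 : Y n t = Real.exp (A * t) * (Real.exp (-(A * t)) * Y n t) := by
      rw [← mul_assoc, ← Real.exp_add]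
      simp
    rw [h2]
    have hAt : 0 ≤ A * t := mul_nonneg hA ht
    have hAT : A * t ≤ A * T0 := mul_le_mul_of_nonneg_left htT hA
    calc Real.exp (A * t) * (Real.exp (-(A * t)) * Y n t)
        ≤ Real.exp (A * T0) * (A * ((A * T0) ^ n / (n.factorial : ℝ))) := by
          refine mul_le_mul (Real.exp_le_exp.2 hAT) (h1.trans ?_)
            (mul_nonneg (Real.exp_pos _).le (hY n t)) (Real.exp_pos _).le
          apply mul_le_mul_of_nonneg_left _ hA
          apply div_le_div_of_nonneg_right _ (by positivity)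
          exact pow_le_pow_left₀ hAt hAT n
      _ = _ := by ring
  intro n t ht
  rcases le_total t T0 with h | h
  · exact key2 n t ht h
  · cases n with
    | zero =>
      have h1 := h0 t ht
      have h2 : 1 ≤ Real.exp (A * T0) := Real.one_le_exp (mul_nonneg hA hT.le)
      have h3 : A * 1 ≤ A * Real.exp (A * T0) := mul_le_mul_of_nonneg_left h2 hA
      simp only [pow_zero, Nat.factorial_zero, Nat.cast_one, div_one, mul_one]
      linarith
    | succ n =>
      rw [const_of (Y (n + 1)) T0 (hc n) t h]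
      exact key2 (n + 1) T0 hT.le le_rfl

/-- reflection of derivatives -/
theorem refl_deriv {Y : ℝ → ℝ} {y' s : ℝ} (h : HasDerivAt Y y' (-s)) :
    HasDerivAt (fun u => Y (-u)) (-y') s := by
  have h6 : HasDerivAt (fun s => Y (-s)) (y' * -1) s := h.comp s (hasDerivAt_neg s)
  rwa [mul_neg_one] at h6

end GRON2

open GRON2 in
theorem specGron2 : SpecGron2 := by
  intro T0 A Y hT hA hY h0 hi hd hc
  refine ⟨(A + 1) * Real.exp ((3 * A + 1) * T0), ?_⟩
  intro n t
  rcases le_total 0 t with ht | ht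
  · refine fwd T0 A Y hT hA (fun s _ => h0 s) hi (fun n s _ => ?_) (fun n s hs => ?_) n t ht
    · obtain ⟨y', h1, h2⟩ := hd n s
      exact ⟨y', h1, (le_abs_self y').trans h2⟩
    · exact hc n s (hs.trans (le_abs_self s))
  · have h := fwd T0 A (fun n s => Y n (-s)) hT hA (fun s _ => h0 _)
      (fun n => by simpa using hi n) (fun n s _ => by
        obtain ⟨y', h1, h2⟩ := hd n (-s)
        exact ⟨-y', refl_deriv h1, (neg_le_abs y').trans h2⟩)
      (fun n s hs => by
        have h1 := refl_deriv (hc n (-s) (by rw [abs_neg]; exact hs.trans (le_abs_self s)))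
        simpa using h1) n (-t) (by linarith)
    simpa using h

open GRON2 in
theorem specGron3 : SpecGron3 := by
  intro T0 A Y hT hA hY h0 hi hd hc
  have hAT : 0 ≤ A * T0 := mul_nonneg hA hT.le
  have hAe : 0 ≤ A * Real.exp (A * T0) := mul_nonneg hA (Real.exp_pos _).le
  have hbound : ∀ n t, Y n t ≤ A * Real.exp (A * T0) * ((A * T0) ^ n / (n.factorial : ℝ)) := by
    intro n t
    rcases le_total 0 t with ht | ht
    · refine fwd3 T0 A Y hT hA hY (fun s _ => h0 s) hi (fun n s _ => ?_) (fun n s hs => ?_) n t ht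
      · obtain ⟨y', h1, h2⟩ := hd n s
        exact ⟨y', h1, (le_abs_self y').trans h2⟩
      · exact hc n s (hs.trans (le_abs_self s))
    · have h := fwd3 T0 A (fun n s => Y n (-s)) hT hA (fun n s => hY n _) (fun s _ => h0 _)
        (fun n => by simpa using hi n) (fun n s _ => by
          obtain ⟨y', h1, h2⟩ := hd n (-s)
          exact ⟨-y', refl_deriv h1, (neg_le_abs y').trans h2⟩)
        (fun n s hs => by
          have h1 := refl_deriv (hc n (-s) (by rw [abs_neg]; exact hs.trans (le_abs_self s)))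
          simpa using h1) n (-t) (by linarith)
      simpa using h
  refine ⟨A * Real.exp (A * T0) + A * T0, by linarith, ?_⟩
  intro n t
  refine (hbound n t).trans ?_
  have h1 : (A * T0) ^ n ≤ (A * Real.exp (A * T0) + A * T0) ^ n :=
    pow_le_pow_left₀ hAT (by linarith) n
  refine mul_le_mul (by linarith) (div_le_div_of_nonneg_right h1 (by positivity)) (by positivity)
    (by linarith)

end MPfab
end

section
/-! MP_fabde4_an, modules VLB and ITEX. -/
set_option autoImplicit false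
open MeasureTheory Set

namespace MPfab

namespace Vlb

variable {F : Type*} [NormedAddCommGroup F] [NormedSpace ℝ F]

lemma inT_const {R : ℝ} {f : E → F} (h : In R f) : InT R (fun p : ℝ × E => f p.2) :=
  ⟨h.smooth.comp contDiff_snd, fun _ x hx => h.supp x hx⟩

lemma law_in (hI : SpecIncSm) {R T0 : ℝ} {P : ℝ → (E → E) → E → E} {κ : ℕ → ℝ → ℝ} (hR : 0 < R)
    (h : VLaw R T0 P κ) (t : ℝ) {f : E → E} (hf : In R f) : In R (P t f) := by
  have h1 := h.inc 0 _ (hI.inc E R 0 _ hR (inT_const hf))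
  exact h1.1 t

lemma cpt {R : ℝ} {f : E → F} (h : In R f) : HasCompactSupport f := by
  refine HasCompactSupport.intro (isCompact_closedBall (0 : E) R) fun x hx => ?_
  apply h.supp
  rw [mem_closedBall_zero_iff, not_le] at hx
  exact hx.le

lemma sq_integrable {R : ℝ} {f : E → F} (h : In R f) : Integrable (fun x => ‖f x‖ ^ 2) := by
  apply Continuous.integrable_of_hasCompactSupport
  · exact (h.smooth.continuous.norm).pow 2
  · refine HasCompactSupport.intro (isCompact_closedBall (0 : E) R) fun x hx => ?_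
    rw [mem_closedBall_zero_iff, not_le] at hx
    simp [h.supp x hx.le]

lemma eq_zero {R : ℝ} {f : E → F} (hf : In R f) (h : hs univ 0 f ≤ 0) : ∀ x, f x = 0 := by
  have h0 : ∫ x, ‖f x‖ ^ 2 = 0 := by
    apply le_antisymm
    · simpa [hs] using h
    · exact integral_nonneg fun x => by positivity
  rw [integral_eq_zero_iff_of_nonneg (fun x => by positivity) (sq_integrable hf)] at h0
  have h1 : (fun x => ‖f x‖ ^ 2) = 0 :=
    (Continuous.ae_eq_iff_eq volume ((hf.smooth.continuous.norm).pow 2)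
      continuous_const).mp h0
  intro x
  have := congrFun h1 x
  simpa using this

lemma const_right {m : ℝ × E → F} (hm : Sm m) {T0 : ℝ}
    (h : ∀ t x, T0 ≤ |t| → dt m (t, x) = 0) (x : E) {t : ℝ} (ht : T0 ≤ t) :
    m (t, x) = m (T0, x) := by
  have hc : Sm (fun s => m (s, x)) := hm.comp (contDiff_id.prodMk contDiff_const)
  have := constant_of_has_deriv_right_zero (f := fun s => m (s, x)) (a := T0) (b := t)
    hc.continuous.continuousOn ?_ t ⟨ht, le_rfl⟩
  · exact this
  · intro s hs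
    have h1 : deriv (fun r => m (r, x)) s = 0 := h s x (hs.1.trans (le_abs_self s))
    have h2 : DifferentiableAt ℝ (fun r => m (r, x)) s := hc.differentiable s
    have h3 := h2.hasDerivAt
    rw [h1] at h3
    exact h3.hasDerivWithinAt

lemma const_left {m : ℝ × E → F} (hm : Sm m) {T0 : ℝ}
    (h : ∀ t x, T0 ≤ |t| → dt m (t, x) = 0) (x : E) {t : ℝ} (ht : t ≤ -T0) :
    m (t, x) = m (-T0, x) := by
  have hc : Sm (fun s => m (s, x)) := hm.comp (contDiff_id.prodMk contDiff_const)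
  have := constant_of_has_deriv_right_zero (f := fun s => m (s, x)) (a := t) (b := -T0)
    hc.continuous.continuousOn ?_ (-T0) ⟨ht, le_rfl⟩
  · exact this.symm
  · intro s hs
    have h1 : deriv (fun r => m (r, x)) s = 0 := by
      refine h s x ?_
      rw [le_abs]
      right
      linarith [hs.2]
    have h2 : DifferentiableAt ℝ (fun r => m (r, x)) s := hc.differentiable s
    have h3 := h2.hasDerivAt
    rw [h1] at h3
    exact h3.hasDerivWithinAt

/-- large times reduce to `±T0` -/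
lemma const_abs {m : ℝ × E → F} (hm : Sm m) {T0 : ℝ}
    (h : ∀ t x, T0 ≤ |t| → dt m (t, x) = 0) (hT : 0 < T0) (t : ℝ) :
    ∃ s, |s| ≤ T0 ∧ sl m t = sl m s := by
  by_cases h1 : |t| ≤ T0
  · exact ⟨t, h1, rfl⟩
  · rw [not_le] at h1
    rcases le_total 0 t with h0 | h0
    · rw [abs_of_nonneg h0] at h1
      refine ⟨T0, by rw [abs_of_pos hT], ?_⟩
      funext x
      exact const_right hm h x h1.le
    · rw [abs_of_nonpos h0] at h1
      refine ⟨-T0, by rw [abs_neg, abs_of_pos hT], ?_⟩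
      funext x
      exact const_left hm h x (by linarith)

end Vlb

theorem specVlb (hI : SpecIncSm) (hD : SpecDhs) : SpecVlb where
  smooth := by
    intro R T0 P κ hR h m hm
    exact hI.of_all E R _ fun j => h.inc j m (hI.inc E R j m hR hm)
  zero := by
    intro R T0 P κ hR h t f x ht hf
    have h1 := h.bound t 0 f hf
    rw [h.supp 0 t ht, zero_mul] at h1
    have h2 : hs univ (0 + 1) (P t f) ≤ 0 := by
      have := Real.sqrt_eq_zero'.mp (le_antisymm h1 (Real.sqrt_nonneg _))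
      exact this
    have h3 : hs univ 0 (P t f) ≤ 0 := by
      have h4 : 0 ≤ ∑ i, hs univ 0 (pd i (P t f)) :=
        Finset.sum_nonneg fun i _ => by
          simp only [hs]
          exact integral_nonneg fun x => by positivity
      have h5 : hs univ (0 + 1) (P t f) = hs univ 0 (P t f) + ∑ i, hs univ 0 (pd i (P t f)) := rfl
      linarith
    exact Vlb.eq_zero (Vlb.law_in hI hR h t hf) h3 x
  sub := by
    intro R T0 P κ hR h t f g hf hg
    have hg' : In R (fun x => (-1 : ℝ) • g x) :=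
      ⟨hg.smooth.const_smul (-1 : ℝ), fun x hx => by simp [hg.supp x hx]⟩
    have h1 := h.add t f (fun x => (-1 : ℝ) • g x) hf hg'
    have h2 := h.smul t (-1) g hg
    have h3 : (fun x => f x - g x) = fun x => f x + (-1 : ℝ) • g x := by
      funext x
      simp [sub_eq_add_neg]
    rw [h3, h1]
    funext x
    rw [h2]
    simp [sub_eq_add_neg]
  const := by
    intro R T0 hR hT m hm h k
    have hc : Continuous (fun s => hs univ k (sl m s)) := by
      rw [continuous_iff_continuousAt]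
      intro s
      obtain ⟨y', hy, -⟩ := hD R hR k m hm s
      exact hy.continuousAt
    obtain ⟨B, hB⟩ := (isCompact_Icc (a := -T0) (b := T0)).exists_bound_of_continuousOn
      hc.continuousOn
    refine ⟨B, fun t => ?_⟩
    obtain ⟨s, hs1, hs2⟩ := Vlb.const_abs hm.smooth h hT t
    rw [hs2]
    exact (le_abs_self _).trans (hB s (abs_le.mp hs1))

theorem specItEx (hV : SpecVlb) (hL : SpecLinA) : SpecItEx := by
  intro R T0 P κ V F g hd
  have hR := hd.R_pos
  have hV0 : In R (sl V 0) :=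
    ⟨hd.V_in.smooth.comp (contDiff_const.prodMk contDiff_id), fun x hx => hd.V_in.supp 0 x hx⟩
  have step : ∀ m : {m : ℝ × E → E // InT R m ∧ sl m 0 = sl V 0},
      ∃ m' : {m : ℝ × E → E // InT R m ∧ sl m 0 = sl V 0}, EqA (vel P m.1) F m'.1 := by
    intro m
    obtain ⟨m', h1, h2, h3⟩ := hL R hR (vel P m.1) F (sl V 0)
      (hV.smooth R T0 P κ hR hd.law m.1 m.2.1) hd.F_in hV0
    exact ⟨⟨m', h1, h2⟩, h3⟩
  choose st hst using step
  let m : ℕ → {m : ℝ × E → E // InT R m ∧ sl m 0 = sl V 0} :=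
    fun n => Nat.rec ⟨V, hd.V_in, rfl⟩ (fun _ m => st m) n
  refine ⟨fun n => (m n).1, fun n => (m n).2.1, rfl, fun n => (m n).2.2, fun n => ?_⟩
  exact hst (m n)

end MPfab
end

section
/-! MP_fabde4_an, module ITBASE. -/
set_option autoImplicit false
open MeasureTheory Set

namespace MPfab

namespace ItB

/-- `lie w V = curl V × w + ∇(w·V)` -/
lemma lie_eq {w V : E → E} (hw : Sm w) (hV : Sm V) (x : E) :
    lie w V x = cr (curl V x) (w x) + gr (fun y => inner ℝ (w y) (V y)) x := by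
  have hin : (fun y => inner ℝ (w y) (V y)) = fun y => ∑ j, w y j * V y j := by
    funext y
    exact inner_eq _ _
  have hg : ∀ i, gr (fun y => inner ℝ (w y) (V y)) x i =
      ∑ j, (pd i w x j * V x j + w x j * pd i V x j) := by
    intro i
    rw [gr_apply, hin]
    have h1 : ∀ j : Fin 3, HasFDerivAt (fun y => w y j * V y j)
        (w x j • fderiv ℝ (fun y => V y j) x + V x j • fderiv ℝ (fun y => w y j) x) x := by
      intro j
      exact ((hw.comp_apply j).differentiable x).hasFDerivAt.mul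
        ((hV.comp_apply j).differentiable x).hasFDerivAt
    have h2 := HasFDerivAt.fun_sum (u := Finset.univ) fun j _ => h1 j
    rw [pd_def, h2.fderiv]
    simp only [_root_.sum_apply, _root_.add_apply,
      _root_.smul_apply, smul_eq_mul]
    refine Finset.sum_congr rfl fun j _ => ?_
    rw [pd_apply (hw.differentiable x), pd_apply (hV.differentiable x)]
    simp only [pd_def]
    ring
  ext i
  rw [PiLp.add_apply, hg, lie_apply]
  simp only [Fin.sum_univ_three]
  fin_cases i <;> simp <;> ring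

/-- curl of `curl V × w` -/
lemma curl_cr (hP : SpecPDC) {w V : E → E} (hw : Sm w) (hV : Sm V) (x : E) :
    curl (fun y => cr (curl V y) (w y)) x = lie2 w (curl V) x := by
  have h1 : Sm (fun y => inner ℝ (w y) (V y)) := hw.inner ℝ hV
  have h2 : (fun y => cr (curl V y) (w y)) =
      fun y => lie w V y - gr (fun z => inner ℝ (w z) (V z)) y := by
    funext y
    rw [lie_eq hw hV y]
    abel
  have h3 : ∀ y, curl (fun y => lie w V y - gr (fun z => inner ℝ (w z) (V z)) y) y =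
      curl (lie w V) y - curl (gr (fun z => inner ℝ (w z) (V z))) y := by
    intro y
    have d1 := (Sm.lie hw hV).differentiable y
    have d2 := (Sm.gr h1).differentiable y
    have h4 : ∀ i, pd i (fun y => lie w V y - gr (fun z => inner ℝ (w z) (V z)) y) y =
        pd i (lie w V) y - pd i (gr (fun z => inner ℝ (w z) (V z))) y := by
      intro i
      rw [pd_def, fderiv_fun_sub d1 d2]
      rfl
    ext i
    fin_cases i <;> simp [h4] <;> ring
  rw [h2, h3 x, hP.curl_gr _ h1, hP.curl_lie w V hw hV, sub_zero]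

variable {R : ℝ}

lemma inT_add {F : Type*} [NormedAddCommGroup F] [NormedSpace ℝ F] {a b : ℝ × E → F}
    (ha : InT R a) (hb : InT R b) : InT R (fun p => a p + b p) :=
  ⟨ha.smooth.add hb.smooth, fun t x hx => by simp [ha.supp t x hx, hb.supp t x hx]⟩

lemma inT_sub {F : Type*} [NormedAddCommGroup F] [NormedSpace ℝ F] {a b : ℝ × E → F}
    (ha : InT R a) (hb : InT R b) : InT R (fun p => a p - b p) :=
  ⟨ha.smooth.sub hb.smooth, fun t x hx => by simp [ha.supp t x hx, hb.supp t x hx]⟩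

lemma inT_neg {F : Type*} [NormedAddCommGroup F] [NormedSpace ℝ F] {a : ℝ × E → F}
    (ha : InT R a) : InT R (fun p => - a p) :=
  ⟨ha.smooth.neg, fun t x hx => by simp [ha.supp t x hx]⟩

lemma in_sl {F : Type*} [NormedAddCommGroup F] [NormedSpace ℝ F] {a : ℝ × E → F}
    (ha : InT R a) (t : ℝ) : In R (sl a t) :=
  ⟨ha.smooth.comp (contDiff_const.prodMk contDiff_id), fun x hx => ha.supp t x hx⟩

/-- `curl m × b` for time dependent fields -/
lemma inT_cr (hI : SpecIncSm) (hA : SpecIncAlg) (hR : 0 < R) {m b : ℝ × E → E}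
    (hm : InT R m) (hb : InT R b) : InT R (fun p => cr (curl (sl m p.1) p.2) (b p)) :=
  hI.of_all E R _ fun j => hA.crc R j m b hR (hI.inc E R j m hR hm) (hI.inc E R j b hR hb)

lemma in_cr {w b : E → E} (hw : In R w) (hb : In R b) : In R (fun x => cr (w x) (b x)) := by
  refine ⟨Sm.cr hw.smooth hb.smooth, fun x hx => ?_⟩
  rw [hw.supp x hx]
  ext i
  fin_cases i <;> simp

lemma in_pd {F : Type*} [NormedAddCommGroup F] [NormedSpace ℝ F] (hR : 0 < R) {f : E → F}
    (hf : In R f) (i : Fin 3) : In R (pd i f) := by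
  refine ⟨hf.smooth.pd i, ?_⟩
  have hc : Continuous (pd i f) := (hf.smooth.pd i).continuous
  have hcl : IsClosed {x : E | pd i f x = 0} := isClosed_eq hc continuous_const
  have hop : {x : E | R < ‖x‖} ⊆ {x : E | pd i f x = 0} := by
    intro x hx
    have hx' : R < ‖x‖ := hx
    have h1 : f =ᶠ[nhds x] fun _ => 0 := by
      have : {y : E | R < ‖y‖} ∈ nhds x :=
        (isOpen_lt continuous_const continuous_norm).mem_nhds hx'
      filter_upwards [this] with y hy
      exact hf.supp y (le_of_lt hy)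
    change pd i f x = 0
    rw [pd_def, h1.fderiv_eq]
    simp
  have h2 : {x : E | R ≤ ‖x‖} ⊆ closure {x : E | R < ‖x‖} := by
    intro x hx
    have hx' : R ≤ ‖x‖ := hx
    have hx0 : 0 < ‖x‖ := hR.trans_le hx'
    rw [Metric.mem_closure_iff]
    intro ε hε
    refine ⟨(1 + ε / (2 * ‖x‖)) • x, ?_, ?_⟩
    · change R < ‖(1 + ε / (2 * ‖x‖)) • x‖
      rw [norm_smul, Real.norm_of_nonneg (by positivity)]
      have : (1 + ε / (2 * ‖x‖)) * ‖x‖ = ‖x‖ + ε / 2 := by
        field_simp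
      rw [this]
      linarith
    · rw [dist_eq_norm]
      have : x - (1 + ε / (2 * ‖x‖)) • x = -((ε / (2 * ‖x‖)) • x) := by
        rw [add_smul, one_smul]
        abel
      rw [this, norm_neg, norm_smul, Real.norm_of_nonneg (by positivity)]
      have : ε / (2 * ‖x‖) * ‖x‖ = ε / 2 := by
        field_simp
      rw [this]
      linarith
  intro x hx
  exact (hcl.closure_subset_iff.mpr hop) (h2 hx)

lemma in_curl (hR : 0 < R) {f : E → E} (hf : In R f) : In R (curl f) := by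
  refine ⟨hf.smooth.curl, fun x hx => ?_⟩
  have h : ∀ i, pd i f x = 0 := fun i => (in_pd hR hf i).supp x hx
  ext i
  fin_cases i <;> simp [h]

lemma sqrt_add_le {a b c : ℝ} (hb : 0 ≤ b) (hc : 0 ≤ c) (h : a ≤ 2 * b + 2 * c) :
    √a ≤ 2 * √b + 2 * √c := by
  have h1 : √b ^ 2 = b := Real.sq_sqrt hb
  have h2 : √c ^ 2 = c := Real.sq_sqrt hc
  have h3 := Real.sqrt_nonneg b
  have h4 := Real.sqrt_nonneg c
  apply Real.sqrt_le_iff.mpr
  constructor
  · positivity
  · nlinarith [mul_nonneg h3 h4]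

lemma sqrt_add_le' {b c : ℝ} (hb : 0 ≤ b) (hc : 0 ≤ c) : √(b + c) ≤ √b + √c := by
  have h1 : √b ^ 2 = b := Real.sq_sqrt hb
  have h2 : √c ^ 2 = c := Real.sq_sqrt hc
  have h3 := Real.sqrt_nonneg b
  have h4 := Real.sqrt_nonneg c
  apply Real.sqrt_le_iff.mpr
  constructor
  · positivity
  · nlinarith [mul_nonneg h3 h4]

lemma nq_nonneg (hH : SpecHSB) (S : Set E) (k : ℕ) (w : E → E) : 0 ≤ nq S k w :=
  add_nonneg (hH.nonneg E S k _) (hH.nonneg E S 0 _)

lemma curl_add {a b : E → E} (ha : Sm a) (hb : Sm b) (x : E) :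
    curl (fun y => a y + b y) x = curl a x + curl b x := by
  have h4 : ∀ i, pd i (fun y => a y + b y) x = pd i a x + pd i b x := by
    intro i
    rw [pd_def, fderiv_fun_add (ha.differentiable x) (hb.differentiable x)]
    rfl
  ext i
  fin_cases i <;> simp [h4] <;> ring

lemma curl_smul (c : ℝ) {a : E → E} (ha : Sm a) (x : E) :
    curl (fun y => c • a y) x = c • curl a x := by
  have h4 : ∀ i, pd i (fun y => c • a y) x = c • pd i a x := by
    intro i
    rw [pd_def, fderiv_fun_const_smul (ha.differentiable x)]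
    rfl
  ext i
  fin_cases i <;> simp [h4] <;> ring

lemma nq_add (hH : SpecHSB) (k : ℕ) {a b : E → E} (ha : In R a) (hb : In R b) (hR : 0 < R) :
    nq univ k (fun x => a x + b x) ≤ 2 * nq univ k a + 2 * nq univ k b := by
  have h1 : curl (fun y => a y + b y) = fun x => curl a x + curl b x :=
    funext fun x => curl_add ha.smooth hb.smooth x
  have h2 := hH.add_le E univ k (curl a) (curl b) MeasurableSet.univ
    (Or.inr ⟨Vlb.cpt (in_curl hR ha), Vlb.cpt (in_curl hR hb)⟩) ha.smooth.curl hb.smooth.curl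
  have h3 := hH.add_le E univ 0 a b MeasurableSet.univ
    (Or.inr ⟨Vlb.cpt ha, Vlb.cpt hb⟩) ha.smooth hb.smooth
  unfold nq
  rw [h1]
  linarith

lemma nq_smul (hH : SpecHSB) (k : ℕ) (c : ℝ) {a : E → E} (ha : Sm a) :
    nq univ k (fun x => c • a x) = c ^ 2 * nq univ k a := by
  have h1 : curl (fun y => c • a y) = fun x => c • curl a x :=
    funext fun x => curl_smul c ha x
  unfold nq
  rw [h1, hH.smul E univ k c _ ha.curl, hH.smul E univ 0 c _ ha]
  ring

lemma nq_neg (hH : SpecHSB) (k : ℕ) {a : E → E} (ha : Sm a) :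
    nq univ k (fun x => - a x) = nq univ k a := by
  have h := nq_smul hH k (-1) ha
  have h2 : (fun x => (-1 : ℝ) • a x) = fun x => - a x := by
    funext x
    simp
  rw [h2] at h
  rw [h]
  ring

lemma sqrt_nq_add (hH : SpecHSB) (k : ℕ) {a b : E → E} (ha : In R a) (hb : In R b)
    (hR : 0 < R) :
    √(nq univ k (fun x => a x + b x)) ≤ 2 * √(nq univ k a) + 2 * √(nq univ k b) :=
  sqrt_add_le (nq_nonneg hH _ _ _) (nq_nonneg hH _ _ _) (nq_add hH k ha hb hR)

lemma nq_mono (hH : SpecHSB) {j k : ℕ} (h : j ≤ k) (w : E → E) : nq univ j w ≤ nq univ k w := by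
  unfold nq
  have := hH.mono E univ j k (curl w) h
  linarith

/-- norm of `curl V × w` -/
lemma nq_cr (hP : SpecPDC) (hH : SpecHSB) (hB : SpecBil) (hC : SpecCrb) (hR : 0 < R) (k : ℕ)
    (hk : 4 ≤ k) : ∃ C : ℝ, 0 ≤ C ∧ ∀ w V : E → E, In R w → In R V →
      √(nq univ k (fun x => cr (curl V x) (w x))) ≤
        C * √(hs univ (k + 1) w) * √(nq univ (k + 1) V) := by
  obtain ⟨c, hc⟩ := hP.lie2_trc
  obtain ⟨C1, hC1, h1⟩ := hB R hR c k hk
  obtain ⟨C2, hC2, h2⟩ := hC.low R hR
  refine ⟨C1 + C2, by positivity, fun w V hw hV => ?_⟩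
  have e1 : curl (fun x => cr (curl V x) (w x)) = trc c w (curl V) := by
    rw [← hc]
    funext x
    exact curl_cr hP hw.smooth hV.smooth x
  have hcV := in_curl hR hV
  have b1 := h1 w (curl V) hw hcV
  have b2 := (h2 (curl V) w hcV hw).2
  unfold nq
  rw [e1]
  refine (sqrt_add_le' (hH.nonneg E _ _ _) (hH.nonneg E _ _ _)).trans ?_
  have m1 : √(hs univ (k + 1) (curl V)) ≤ √(hs univ (k + 1) (curl V) + hs univ 0 V) :=
    Real.sqrt_le_sqrt (by linarith [hH.nonneg E univ 0 V])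
  have m2 : √(hs univ 3 (curl V)) ≤ √(hs univ (k + 1) (curl V)) :=
    Real.sqrt_le_sqrt (hH.mono E univ 3 (k + 1) _ (by omega))
  have m3 : √(hs univ 0 w) ≤ √(hs univ (k + 1) w) :=
    Real.sqrt_le_sqrt (hH.mono E univ 0 (k + 1) _ (by omega))
  have n1 := Real.sqrt_nonneg (hs univ (k + 1) w)
  have n2 := Real.sqrt_nonneg (hs univ 3 (curl V))
  calc _ ≤ C1 * √(hs univ (k + 1) w) * √(hs univ (k + 1) (curl V)) +
        C2 * √(hs univ 0 w) * √(hs univ 3 (curl V)) := add_le_add b1 b2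
    _ ≤ C1 * √(hs univ (k + 1) w) * √(hs univ (k + 1) (curl V) + hs univ 0 V) +
        C2 * √(hs univ (k + 1) w) * √(hs univ (k + 1) (curl V) + hs univ 0 V) := by
        have m4 := m2.trans m1
        gcongr
    _ = _ := by ring

end ItB

open ItB

theorem specItBase (hP : SpecPDC) (hH : SpecHSB) (hI : SpecIncSm) (hA : SpecIncAlg)
    (hB : SpecBil) (hC : SpecCrb) (hAe : SpecAen) (hG : SpecGron1) (hV : SpecVlb) :
    SpecItBase := by
  intro R hR
  obtain ⟨Ca, hCa, hae⟩ := hAe R hR 5 le_rfl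
  obtain ⟨Cc, hCc, hcr⟩ := nq_cr hP hH hB hC hR 5 (by norm_num)
  refine ⟨4 * (Ca + 1) * (Cc + 1), by positivity, ?_⟩
  intro T0 P κ V F g hd m hm α γ hα hγ hα0 hγ0 hα1 hγ1 hsmall n
  have law := hd.law
  have hT := hd.T_pos
  induction n with
  | zero =>
    intro t _
    have h0 : (fun x => m 0 (t, x) - V (t, x)) = fun _ => 0 := by
      funext x
      rw [hm.zero, sub_self]
    rw [h0]
    have h1 : nq univ 5 (fun _ : E => (0 : E)) = 0 := by
      have h2 := nq_smul hH 5 0 (a := fun _ : E => (0 : E)) contDiff_const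
      simpa using h2
    rw [h1, Real.sqrt_zero]
    positivity
  | succ n ih =>
    -- the difference
    set δ : ℝ × E → E := fun p => m (n + 1) p - V p with hδ
    set z : ℝ → ℝ := fun t => √(nq univ 5 (fun x => m n (t, x) - V (t, x))) with hz
    set Y : ℝ → ℝ := fun t => nq univ 5 (sl δ t) with hY
    have hδT : InT R δ := inT_sub (hm.smooth (n + 1)) hd.V_in
    have hdnT : InT R (fun p => m n p - V p) := inT_sub (hm.smooth n) hd.V_in
    have hvn : InT R (vel P (m n)) := hV.smooth R T0 P κ hR law _ (hm.smooth n)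
    have hvd : InT R (vel P (fun p => m n p - V p)) := hV.smooth R T0 P κ hR law _ hdnT
    -- right hand side
    set g1 : ℝ × E → E := fun p => cr (curl (sl V p.1) p.2) (vel P (fun p => m n p - V p) p)
      with hg1
    have hg1T : InT R g1 := inT_cr hI hA hR hd.V_in hvd
    set g2 : ℝ × E → E := fun p => - (g1 p + g p) with hg2
    have hg2T : InT R g2 := inT_neg (inT_add hg1T hd.g_in)
    have hsub : ∀ p, vel P (fun p => m n p - V p) p = vel P (m n) p - vel P V p := by
      intro p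
      have := hV.sub R T0 P κ hR law p.1 (sl (m n) p.1) (sl V p.1) (in_sl (hm.smooth n) _)
        (in_sl hd.V_in _)
      exact congrFun this p.2
    have hcrs : ∀ a b c : E, cr a (b - c) = cr a b - cr a c := by
      intro a b c
      ext i
      fin_cases i <;> simp <;> ring
    have hcrs' : ∀ a b c : E, cr (a - b) c = cr a c - cr b c := by
      intro a b c
      ext i
      fin_cases i <;> simp <;> ring
    have heq : ∀ t x, dt δ (t, x) + cr (curl (sl δ t) x) (vel P (m n) (t, x)) = g2 (t, x) := by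
      intro t x
      have e1 := hm.step n t x
      have e2 := hd.eq t x
      have e3 : dt δ (t, x) = dt (m (n + 1)) (t, x) - dt V (t, x) := by
        have s1 : DifferentiableAt ℝ (fun s => m (n + 1) (s, x)) t :=
          ((hm.smooth (n + 1)).smooth.comp (contDiff_id.prodMk contDiff_const)).differentiable
            (by simp) t
        have s2 : DifferentiableAt ℝ (fun s => V (s, x)) t :=
          (hd.V_in.smooth.comp (contDiff_id.prodMk contDiff_const)).differentiable (by simp) t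
        exact deriv_fun_sub s1 s2
      have e4 : curl (sl δ t) x = curl (sl (m (n + 1)) t) x - curl (sl V t) x := by
        have h5 : sl δ t = fun y => sl (m (n + 1)) t y + (-1 : ℝ) • sl V t y := by
          funext y
          simp [sl, hδ, sub_eq_add_neg]
        rw [h5, curl_add (in_sl (hm.smooth (n + 1)) t).smooth
          ((in_sl hd.V_in t).smooth.const_smul (-1 : ℝ))]
        have h6 := curl_smul (-1) (in_sl hd.V_in t).smooth x
        rw [h6]
        simp [sub_eq_add_neg]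
      have e5 := hsub (t, x)
      simp only [hg2, hg1]
      rw [e3, e4, e5, hcrs', hcrs]
      have e1' : dt (m (n + 1)) (t, x) = F (t, x) -
          cr (curl (sl (m (n + 1)) t) x) (vel P (m n) (t, x)) := by
        rw [← e1]
        abel
      have e2' : dt V (t, x) = F (t, x) + g (t, x) -
          cr (curl (sl V t) x) (vel P V (t, x)) := by
        have e2'' : dt V (t, x) + cr (curl (sl V t) x) (vel P V (t, x)) =
          F (t, x) + g (t, x) := e2
        rw [← e2'']
        abel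
      rw [e1', e2']
      abel
    -- Gronwall
    have key := hG T0 α γ z Y hT hα hγ hα0 hγ0 (fun t => nq_nonneg hH _ _ _) ?_ ?_ ?_
    · intro t ht
      exact key t ht
    · -- initial value
      have h0 : sl δ 0 = fun _ => 0 := by
        funext x
        have h1 := congrFun (hm.init (n + 1)) x
        simp only [sl] at h1
        simp [sl, hδ, h1]
      have h1 : nq univ 5 (fun _ : E => (0 : E)) = 0 := by
        have h2 := nq_smul hH 5 0 (a := fun _ : E => (0 : E)) contDiff_const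
        simpa using h2
      simp only [hY]
      rw [h0, h1]
    · intro t ht
      exact ih t ht
    · intro t ht
      obtain ⟨y', hy1, hy2⟩ := hae (vel P (m n)) δ g2 hvn hδT hg2T t (heq t)
      refine ⟨y', hy1, hy2.trans ?_⟩
      -- bounds
      have hκ := law.nonneg 5 t
      have hz1 : z t ≤ 1 := (ih t ht).trans (hsmall t ht)
      have hz0 : 0 ≤ z t := Real.sqrt_nonneg _
      have hY0 : 0 ≤ √(Y t) := Real.sqrt_nonneg _
      set N6 : ℝ := √(nq univ 6 (sl V t)) with hN6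
      have hN60 : 0 ≤ N6 := Real.sqrt_nonneg _
      have b1 : √(hs univ 6 (sl (vel P (m n)) t)) ≤ κ 5 t * (2 * (1 + N6)) := by
        have c1 := law.bound t 5 (sl (m n) t) (in_sl (hm.smooth n) t)
        have c2 : sl (m n) t = fun x => (fun x => m n (t, x) - V (t, x)) x + sl V t x := by
          funext x
          simp [sl]
        have c3 : √(nq univ 5 (sl (m n) t)) ≤ 2 * z t + 2 * √(nq univ 5 (sl V t)) := by
          rw [c2]
          exact sqrt_nq_add hH 5 (in_sl hdnT t) (in_sl hd.V_in t) hR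
        have c4 : √(nq univ 5 (sl V t)) ≤ N6 := Real.sqrt_le_sqrt (nq_mono hH (by norm_num) _)
        have c5 : sl (vel P (m n)) t = P t (sl (m n) t) := rfl
        rw [c5]
        refine c1.trans ?_
        gcongr
        linarith
      have b2 : √(hs univ 5 (curl (sl δ t))) ≤ √(Y t) := by
        apply Real.sqrt_le_sqrt
        simp only [hY, nq]
        linarith [hH.nonneg E univ 0 (sl δ t)]
      have b3 : √(nq univ 5 (sl g2 t)) ≤
          2 * (Cc * (κ 5 t * z t) * N6) + 2 * √(nq univ 5 (sl g t)) := by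
        have c0 : sl g2 t = fun x => - (sl g1 t x + sl g t x) := rfl
        have c1 : nq univ 5 (sl g2 t) = nq univ 5 (fun x => sl g1 t x + sl g t x) := by
          rw [c0]
          exact nq_neg hH 5 ((in_sl hg1T t).smooth.add (in_sl hd.g_in t).smooth)
        rw [c1]
        refine (sqrt_nq_add hH 5 (in_sl hg1T t) (in_sl hd.g_in t) hR).trans ?_
        have c2' : sl g1 t = fun x => cr (curl (sl V t) x)
            (sl (vel P (fun p => m n p - V p)) t x) := rfl
        have c2 : √(nq univ 5 (sl g1 t)) ≤ Cc *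
            √(hs univ (5 + 1) (sl (vel P (fun p => m n p - V p)) t)) *
            √(nq univ (5 + 1) (sl V t)) := by
          rw [c2']
          exact hcr _ _ (in_sl hvd t) (in_sl hd.V_in t)
        have c3 := law.bound t 5 _ (in_sl hdnT t)
        have c4 : √(nq univ 5 (sl g1 t)) ≤ Cc * (κ 5 t * z t) * N6 := by
          refine c2.trans ?_
          gcongr
          exact c3
        linarith
      have hg0 : 0 ≤ √(nq univ 5 (sl g t)) := Real.sqrt_nonneg _
      have e1 : nq univ 5 (sl δ t) = √(Y t) * √(Y t) :=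
        (Real.mul_self_sqrt (nq_nonneg hH _ _ _)).symm
      have hα' := hα1 t
      have hγ' := hγ1 t
      have s1 : max (5 - 1) 5 = 5 := by norm_num
      have s2 : (5 : ℕ) + 1 = 6 := by norm_num
      rw [s1, s2]
      rw [e1]
      rw [Real.sqrt_mul_self hY0]
      set y := √(Y t) with hy
      set gg := √(nq univ 5 (sl g t)) with hgg
      set b6 := √(hs univ 6 (sl (vel P (m n)) t)) with hb6
      have hb60 : 0 ≤ b6 := Real.sqrt_nonneg _
      have t1 : Ca * (b6 * (y * y) + b6 * √(hs univ 5 (curl (sl δ t))) * y +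
          y * √(nq univ 5 (sl g2 t))) ≤
          Ca * (b6 * (y * y) + b6 * y * y +
          y * (2 * (Cc * (κ 5 t * z t) * N6) + 2 * gg)) := by
        gcongr
      refine t1.trans ?_
      have t2 : Ca * (b6 * (y * y) + b6 * y * y +
          y * (2 * (Cc * (κ 5 t * z t) * N6) + 2 * gg)) =
          2 * y * (Ca * b6 * y + (Ca * Cc * κ 5 t * N6) * z t + Ca * gg) := by ring
      rw [t2]
      have t3 : Ca * b6 ≤ α t := by
        calc Ca * b6 ≤ Ca * (κ 5 t * (2 * (1 + N6))) := by gcongr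
          _ ≤ 4 * (Ca + 1) * (Cc + 1) * κ 5 t * (1 + N6) := by
            have : 0 ≤ κ 5 t * (1 + N6) := by positivity
            nlinarith [mul_nonneg hCa hCc, mul_nonneg (mul_nonneg hCa hCc) this,
              mul_nonneg hCa this, mul_nonneg hCc this]
          _ ≤ α t := hα'
      have t4 : Ca * Cc * κ 5 t * N6 ≤ α t := by
        calc Ca * Cc * κ 5 t * N6 ≤ Ca * Cc * (κ 5 t * (1 + N6)) := by
              have : κ 5 t * N6 ≤ κ 5 t * (1 + N6) := by
                gcongr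
                linarith
              calc Ca * Cc * κ 5 t * N6 = Ca * Cc * (κ 5 t * N6) := by ring
                _ ≤ _ := by gcongr
          _ ≤ 4 * (Ca + 1) * (Cc + 1) * κ 5 t * (1 + N6) := by
            have : 0 ≤ κ 5 t * (1 + N6) := by positivity
            nlinarith [mul_nonneg hCa hCc, mul_nonneg (mul_nonneg hCa hCc) this,
              mul_nonneg hCa this, mul_nonneg hCc this]
          _ ≤ α t := hα'
      have t5 : Ca * gg ≤ γ t := by
        calc Ca * gg ≤ 4 * (Ca + 1) * (Cc + 1) * gg := by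
              nlinarith [mul_nonneg hCa hCc, mul_nonneg (mul_nonneg hCa hCc) hg0,
                mul_nonneg hCa hg0, mul_nonneg hCc hg0]
          _ ≤ γ t := hγ'
      gcongr

end MPfab
end

section
/-! MP_fabde4_an, module ITHIGH. -/
set_option autoImplicit false
open MeasureTheory Set

namespace MPfab

namespace ItH

open ItB

/-- the iterates are constant in time for `T0 ≤ |t|` -/
lemma dt_zero (hV : SpecVlb) {R T0 : ℝ} {P κ V F g} (hd : Data R T0 P κ V F g)
    {m : ℕ → ℝ × E → E} (hm : Iter R P V F m) (n : ℕ) (t : ℝ) (x : E) (ht : T0 ≤ |t|) :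
    dt (m n) (t, x) = 0 := by
  have hcr0 : ∀ a : E, cr a 0 = 0 := by
    intro a
    ext i
    fin_cases i <;> simp
  cases n with
  | zero =>
    rw [hm.zero]
    have h1 : dt V (t, x) + cr (curl (sl V t) x) (vel P V (t, x)) = F (t, x) + g (t, x) :=
      hd.eq t x
    have h2 : vel P V (t, x) = 0 :=
      hV.zero R T0 P κ hd.R_pos hd.law t (sl V t) x ht (in_sl hd.V_in t)
    rw [h2, hcr0, hd.F_supp t x ht, hd.g_supp t x ht] at h1
    simpa using h1
  | succ n =>
    have h1 := hm.step n t x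
    have h2 : vel P (m n) (t, x) = 0 :=
      hV.zero R T0 P κ hd.R_pos hd.law t (sl (m n) t) x ht (in_sl (hm.smooth n) t)
    rw [h2, hcr0, hd.F_supp t x ht] at h1
    simpa using h1

lemma dt_F {R T0 : ℝ} {P κ V F g} (hd : Data R T0 P κ V F g) (t : ℝ) (x : E)
    (ht : T0 ≤ |t|) : dt F (t, x) = 0 := by
  have hs : Sm (fun s => F (s, x)) := hd.F_in.smooth.comp (contDiff_id.prodMk contDiff_const)
  have h0 := (hs.differentiable t).hasDerivAt
  change deriv (fun s => F (s, x)) t = 0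
  rcases le_total 0 t with h | h
  · rw [abs_of_nonneg h] at ht
    have h1 : HasDerivWithinAt (fun s => F (s, x)) 0 (Ici t) t := by
      refine (hasDerivWithinAt_const t (Ici t) (0 : E)).congr ?_ ?_
      · intro s hs
        exact hd.F_supp s x ((ht.trans hs).trans (le_abs_self _))
      · exact hd.F_supp t x (ht.trans (le_abs_self _))
    exact (uniqueDiffWithinAt_Ici t).eq_deriv _ h0.hasDerivWithinAt h1
  · rw [abs_of_nonpos h] at ht
    have h1 : HasDerivWithinAt (fun s => F (s, x)) 0 (Iic t) t := by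
      refine (hasDerivWithinAt_const t (Iic t) (0 : E)).congr ?_ ?_
      · intro s hs
        have hs' : s ≤ t := hs
        refine hd.F_supp s x ?_
        rw [le_abs]
        right
        linarith
      · refine hd.F_supp t x ?_
        rw [le_abs]
        right
        exact ht
    exact (uniqueDiffWithinAt_Iic t).eq_deriv _ h0.hasDerivWithinAt h1

/-- uniform bound of `nq` for a field which is constant in time for large times -/
lemma nq_bdd (hV : SpecVlb) (hI : SpecIncSm) (hA : SpecIncAlg) {R T0 : ℝ}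
    (hR : 0 < R) (hT : 0 < T0) {m : ℝ × E → E} (hm : InT R m)
    (h : ∀ t x, T0 ≤ |t| → dt m (t, x) = 0) (k : ℕ) : ∃ B, ∀ t, nq univ k (sl m t) ≤ B := by
  -- the curl as a time dependent field
  have hc : InT R (fun p : ℝ × E => curl (sl m p.1) p.2) := by
    refine hI.of_all E R _ fun j => ?_
    have hj := hI.inc E R j m hR hm
    have hp := fun i => hA.pd E R j m hR hj i
    rw [hA.comp]
    have hcomp : ∀ i l, InC R j (fun p : ℝ × E => pd i (sl m p.1) p.2 l) :=
      fun i l => (hA.comp R j _).mp (hp i) l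
    have hneg : ∀ (f : ℝ × E → ℝ), InC R j f → InC R j (fun p => - f p) := by
      intro f hf
      have := hA.smul ℝ R j (fun _ => (-1 : ℝ)) f contDiff_const hf
      simpa using this
    intro i
    fin_cases i
    · have := hA.add ℝ R j _ _ (hcomp 1 2) (hneg _ (hcomp 2 1))
      simpa [sub_eq_add_neg] using this
    · have := hA.add ℝ R j _ _ (hcomp 2 0) (hneg _ (hcomp 0 2))
      simpa [sub_eq_add_neg] using this
    · have := hA.add ℝ R j _ _ (hcomp 0 1) (hneg _ (hcomp 1 0))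
      simpa [sub_eq_add_neg] using this
  have hc0 : ∀ t x, T0 ≤ |t| → dt (fun p : ℝ × E => curl (sl m p.1) p.2) (t, x) = 0 := by
    intro t x ht
    -- `sl m` is constant near/after `T0`
    have hs : Sm (fun s => curl (sl m s) x) := hc.smooth.comp (contDiff_id.prodMk contDiff_const)
    have h0 := (hs.differentiable t).hasDerivAt
    change deriv (fun s => curl (sl m s) x) t = 0
    rcases le_total 0 t with h' | h'
    · rw [abs_of_nonneg h'] at ht
      have h2 : ∀ s, t ≤ s → sl m s = sl m t := by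
        intro s hs
        funext y
        have e1 := Vlb.const_right hm.smooth h y (ht.trans hs)
        have e2 := Vlb.const_right hm.smooth h y ht
        exact e1.trans e2.symm
      have h1 : HasDerivWithinAt (fun s => curl (sl m s) x) 0 (Ici t) t := by
        refine (hasDerivWithinAt_const t (Ici t) (curl (sl m t) x)).congr ?_ rfl
        intro s hs
        rw [h2 s hs]
      exact (uniqueDiffWithinAt_Ici t).eq_deriv _ h0.hasDerivWithinAt h1
    · rw [abs_of_nonpos h'] at ht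
      have h2 : ∀ s, s ≤ t → sl m s = sl m t := by
        intro s hs
        funext y
        have e1 := Vlb.const_left hm.smooth h y (t := s) (by linarith)
        have e2 := Vlb.const_left hm.smooth h y (t := t) (by linarith)
        exact e1.trans e2.symm
      have h1 : HasDerivWithinAt (fun s => curl (sl m s) x) 0 (Iic t) t := by
        refine (hasDerivWithinAt_const t (Iic t) (curl (sl m t) x)).congr ?_ rfl
        intro s hs
        rw [h2 s hs]
      exact (uniqueDiffWithinAt_Iic t).eq_deriv _ h0.hasDerivWithinAt h1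
  obtain ⟨B1, h1⟩ := hV.const R T0 hR hT _ hc hc0 k
  obtain ⟨B2, h2⟩ := hV.const R T0 hR hT m hm h 0
  exact ⟨B1 + B2, fun t => add_le_add (h1 t) (h2 t)⟩

end ItH

open ItB ItH

theorem specItHigh (hH : SpecHSB) (hI : SpecIncSm) (hA : SpecIncAlg)
    (hAe : SpecAen) (hG : SpecGron2) (hV : SpecVlb) : SpecItHigh := by
  intro R T0 P κ V F g hd m hm hbase k
  have hR := hd.R_pos
  have hT := hd.T_pos
  have law := hd.law
  -- small levels
  have hsmall : ∀ k ≤ 5, ∃ B, ∀ n t, nq univ k (sl (m n) t) ≤ B := by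
    intro k hk
    obtain ⟨B, hB⟩ := hbase
    exact ⟨B, fun n t => (nq_mono hH hk _).trans (hB n t)⟩
  by_cases hk5 : k ≤ 5
  · exact hsmall k hk5
  · -- induction from level 5
    obtain ⟨j, rfl⟩ : ∃ j, k = 5 + j := ⟨k - 5, by omega⟩
    clear hk5
    induction j with
    | zero => exact hsmall 5 le_rfl
    | succ j ih =>
      obtain ⟨B, hB⟩ := ih
      obtain ⟨C, hC, hae⟩ := hAe R hR (5 + (j + 1)) (by omega)
      obtain ⟨K1, hK1⟩ := law.bdd (5 + j)
      obtain ⟨K2, hK2⟩ := law.bdd (5 + (j + 1))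
      obtain ⟨BF, hBF⟩ := nq_bdd hV hI hA hR hT hd.F_in (fun t x ht => dt_F hd t x ht)
        (5 + (j + 1))
      obtain ⟨BV, hBV⟩ := nq_bdd hV hI hA hR hT hd.V_in
        (fun t x ht => by
          have := dt_zero hV hd hm 0 t x ht
          rwa [hm.zero] at this) (5 + (j + 1))
      have hB0 : 0 ≤ B := (nq_nonneg hH univ _ _).trans (hB 0 0)
      have hBF0 : 0 ≤ BF := (nq_nonneg hH univ _ _).trans (hBF 0)
      have hBV0 : 0 ≤ BV := (nq_nonneg hH univ _ _).trans (hBV 0)
      have hK10 : 0 ≤ K1 := (law.nonneg _ 0).trans (hK1 0)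
      have hK20 : 0 ≤ K2 := (law.nonneg _ 0).trans (hK2 0)
      set k' : ℕ := 5 + (j + 1) with hk'
      set A : ℝ := C * (K1 * (1 + B) + K2 * (1 + B) + 1 + BF) + BV with hAdef
      have hA0 : 0 ≤ A := by positivity
      refine hG T0 A (fun n t => nq univ k' (sl (m n) t)) hT hA0
        (fun n t => nq_nonneg hH _ _ _) ?_ ?_ ?_ ?_
      · intro t
        rw [hm.zero]
        refine (hBV t).trans ?_
        have : 0 ≤ C * (K1 * (1 + B) + K2 * (1 + B) + 1 + BF) := by positivity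
        linarith
      · intro n
        rw [hm.init n]
        refine (hBV 0).trans ?_
        have : 0 ≤ C * (K1 * (1 + B) + K2 * (1 + B) + 1 + BF) := by positivity
        linarith
      · intro n t
        obtain ⟨y', hy1, hy2⟩ := hae (vel P (m n)) (m (n + 1)) F
          (hV.smooth R T0 P κ hR law _ (hm.smooth n)) (hm.smooth (n + 1)) hd.F_in t
          (fun x => hm.step n t x)
        refine ⟨y', hy1, hy2.trans ?_⟩
        have s1 : max (k' - 1) 5 = 5 + j := by omega
        rw [s1]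
        set Y1 := nq univ k' (sl (m (n + 1)) t) with hY1
        set Y0 := nq univ k' (sl (m n) t) with hY0
        have hY10 : 0 ≤ Y1 := nq_nonneg hH _ _ _
        have hY00 : 0 ≤ Y0 := nq_nonneg hH _ _ _
        have q1 : √Y1 * √Y1 = Y1 := Real.mul_self_sqrt hY10
        have q0 : √Y0 * √Y0 = Y0 := Real.mul_self_sqrt hY00
        have r1 := Real.sqrt_nonneg Y1
        have r0 := Real.sqrt_nonneg Y0
        have hin := in_sl (hm.smooth n) t
        -- velocity bounds
        have b1 : √(hs univ (5 + j + 1) (sl (vel P (m n)) t)) ≤ K1 * (1 + B) := by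
          have c1 := law.bound t (5 + j) (sl (m n) t) hin
          have c2 : √(nq univ (5 + j) (sl (m n) t)) ≤ 1 + B := by
            refine Real.sqrt_le_iff.mpr ⟨by linarith, ?_⟩
            have := hB n t
            nlinarith
          refine (c1 : √(hs univ (5 + j + 1) (P t (sl (m n) t))) ≤ _).trans ?_
          exact mul_le_mul (hK1 t) c2 (Real.sqrt_nonneg _) hK10
        have b2 : √(hs univ (k' + 1) (sl (vel P (m n)) t)) ≤ K2 * √Y0 := by
          have c1 := law.bound t k' (sl (m n) t) hin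
          refine (c1 : √(hs univ (k' + 1) (P t (sl (m n) t))) ≤ _).trans ?_
          exact mul_le_mul_of_nonneg_right (hK2 t) r0
        have b3 : √(hs univ (5 + j) (curl (sl (m (n + 1)) t))) ≤ 1 + B := by
          refine Real.sqrt_le_iff.mpr ⟨by linarith, ?_⟩
          have h1 : hs univ (5 + j) (curl (sl (m (n + 1)) t)) ≤
              nq univ (5 + j) (sl (m (n + 1)) t) := by
            unfold nq
            linarith [hH.nonneg E univ 0 (sl (m (n + 1)) t)]
          have := hB (n + 1) t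
          nlinarith
        have b4 : √(nq univ k' (sl F t)) ≤ 1 + BF := by
          refine Real.sqrt_le_iff.mpr ⟨by linarith, ?_⟩
          have := hBF t
          nlinarith
        have t1 : C * (√(hs univ (5 + j + 1) (sl (vel P (m n)) t)) * Y1 +
            √(hs univ (k' + 1) (sl (vel P (m n)) t)) *
              √(hs univ (5 + j) (curl (sl (m (n + 1)) t))) * √Y1 +
            √Y1 * √(nq univ k' (sl F t))) ≤
            C * (K1 * (1 + B) * Y1 + K2 * √Y0 * (1 + B) * √Y1 + √Y1 * (1 + BF)) := by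
          gcongr
        refine t1.trans ?_
        have t2 : √Y0 * √Y1 ≤ Y0 + Y1 := by nlinarith [sq_nonneg (√Y0 - √Y1)]
        have t3 : √Y1 ≤ 1 + Y1 := by nlinarith [sq_nonneg (√Y1 - 1)]
        have t4 : K2 * √Y0 * (1 + B) * √Y1 ≤ K2 * (1 + B) * (Y0 + Y1) := by
          calc K2 * √Y0 * (1 + B) * √Y1 = K2 * (1 + B) * (√Y0 * √Y1) := by ring
            _ ≤ _ := by gcongr
        have t5 : √Y1 * (1 + BF) ≤ (1 + Y1) * (1 + BF) := by gcongr
        calc C * (K1 * (1 + B) * Y1 + K2 * √Y0 * (1 + B) * √Y1 + √Y1 * (1 + BF))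
            ≤ C * (K1 * (1 + B) * Y1 + K2 * (1 + B) * (Y0 + Y1) + (1 + Y1) * (1 + BF)) := by
              gcongr
          _ ≤ C * (K1 * (1 + B) + K2 * (1 + B) + 1 + BF) * (1 + Y1 + Y0) := by
              have e1 : 0 ≤ K1 * (1 + B) := by positivity
              have e2 : 0 ≤ K2 * (1 + B) := by positivity
              have e : K1 * (1 + B) * Y1 + K2 * (1 + B) * (Y0 + Y1) + (1 + Y1) * (1 + BF) ≤
                  (K1 * (1 + B) + K2 * (1 + B) + 1 + BF) * (1 + Y1 + Y0) := by
                nlinarith [mul_nonneg e1 hY00, mul_nonneg hBF0 hY00, mul_nonneg e1 hY10,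
                  mul_nonneg e2 hY10, mul_nonneg e2 hY00]
              calc _ ≤ C * ((K1 * (1 + B) + K2 * (1 + B) + 1 + BF) * (1 + Y1 + Y0)) :=
                    mul_le_mul_of_nonneg_left e hC
                _ = _ := by ring
          _ ≤ A * (1 + Y1 + Y0) := by
              refine mul_le_mul_of_nonneg_right ?_ (by positivity)
              rw [hAdef]
              linarith
      · intro n t ht
        have hcont : Sm (m (n + 1)) := (hm.smooth (n + 1)).smooth
        have hz : ∀ t x, T0 ≤ |t| → dt (m (n + 1)) (t, x) = 0 :=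
          fun t x ht => dt_zero hV hd hm (n + 1) t x ht
        obtain ⟨y', hy1, -⟩ := hae (vel P (m n)) (m (n + 1)) F
          (hV.smooth R T0 P κ hR law _ (hm.smooth n)) (hm.smooth (n + 1)) hd.F_in t
          (fun x => hm.step n t x)
        have hy0 : y' = 0 := by
          rcases le_total 0 t with h' | h'
          · rw [abs_of_nonneg h'] at ht
            have h2 : ∀ s, t ≤ s → sl (m (n + 1)) s = sl (m (n + 1)) t := by
              intro s hs
              funext y
              exact (Vlb.const_right hcont hz y (ht.trans hs)).trans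
                (Vlb.const_right hcont hz y ht).symm
            have h1 : HasDerivWithinAt (fun s => nq univ k' (sl (m (n + 1)) s)) 0 (Ici t) t := by
              refine (hasDerivWithinAt_const t (Ici t)
                (nq univ k' (sl (m (n + 1)) t))).congr ?_ rfl
              intro s hs
              rw [h2 s hs]
            exact (uniqueDiffWithinAt_Ici t).eq_deriv _ hy1.hasDerivWithinAt h1
          · rw [abs_of_nonpos h'] at ht
            have h2 : ∀ s, s ≤ t → sl (m (n + 1)) s = sl (m (n + 1)) t := by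
              intro s hs
              funext y
              exact (Vlb.const_left hcont hz y (t := s) (by linarith)).trans
                (Vlb.const_left hcont hz y (t := t) (by linarith)).symm
            have h1 : HasDerivWithinAt (fun s => nq univ k' (sl (m (n + 1)) s)) 0 (Iic t) t := by
              refine (hasDerivWithinAt_const t (Iic t)
                (nq univ k' (sl (m (n + 1)) t))).congr ?_ rfl
              intro s hs
              rw [h2 s hs]
            exact (uniqueDiffWithinAt_Iic t).eq_deriv _ hy1.hasDerivWithinAt h1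
        rw [hy0] at hy1
        exact hy1

end MPfab
end

section
/-!
MP_fabde4_an, module REALIZE, part A: tools (bounds, flows, profiles, linearity of pull-backs).
-/
set_option autoImplicit false
open MeasureTheory Set Filter Topology

namespace MPfab.RzN

/-! ### bounds -/

section Bd

variable {F : Type*} [NormedAddCommGroup F] [NormedSpace ℝ F]

lemma bd_add {S : Set E} {k : ℕ} {f g : E → F} {c c' : ℝ} (hf : Sm f) (hg : Sm g)
    (h : Bd S k f c) (h' : Bd S k g c') : Bd S k (fun x => f x + g x) (c + c') := by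
  intro L hL x hx
  rw [EngM.pds_add hf hg]
  exact (norm_add_le _ _).trans (add_le_add (h L hL x hx) (h' L hL x hx))

lemma bd_mono {S : Set E} {k k' : ℕ} {f : E → F} {c c' : ℝ} (h : Bd S k' f c) (hk : k ≤ k')
    (hc : c ≤ c') : Bd S k f c' :=
  fun L hL x hx => (h L (hL.trans hk) x hx).trans hc

lemma bd_neg {S : Set E} {k : ℕ} {f : E → F} {c : ℝ} (hf : Sm f)
    (h : Bd S k f c) : Bd S k (fun x => -f x) c := by
  intro L hL x hx
  have e : (fun x => -f x) = fun x => (-1 : ℝ) • f x := by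
    funext x
    simp
  rw [e, EngM.pds_smul hf]
  simpa using h L hL x hx

lemma bd_nonneg {k : ℕ} {f : E → F} {c : ℝ} (h : Bd univ k f c) : 0 ≤ c :=
  (norm_nonneg _).trans (h [] (by simp) 0 (mem_univ _))

lemma db_mono {k k' : ℕ} {Φ : E → E} {c c' : ℝ} (h : DB k' c Φ) (hk : k ≤ k')
    (hc : c ≤ c') : DB k c' Φ :=
  fun L h1 hL x => (h L h1 (hL.trans hk) x).trans hc

lemma db_of_bd {k : ℕ} {c δ : ℝ} {Φ Φ' : E → E} (h : Sm Φ) (h' : Sm Φ') (h1 : DB k c Φ')
    (h2 : Bd univ k (fun x => Φ x - Φ' x) δ) : DB k (c + δ) Φ := by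
  intro L h1L hL x
  have e : pds L Φ x = pds L Φ' x + pds L (fun x => Φ x - Φ' x) x := by
    simp only [EngM.pds_sub h h']
    abel
  rw [e]
  exact (norm_add_le _ _).trans (add_le_add (h1 L h1L hL x) (h2 L hL x (mem_univ _)))

lemma db_nonneg {k : ℕ} {Φ : E → E} {c : ℝ} (hk : 1 ≤ k) (h : DB k c Φ) : 0 ≤ c :=
  (norm_nonneg _).trans (h [0] (by simp) (by simpa using hk) 0)

end Bd

/-! ### flows -/

section Flow

variable {R : ℝ} {B : E → E} {FB : ℝ × E → E}

lemma flow_wf (hB : In R B) (hF : IsFlow B FB) (ho : ∀ s x, R ≤ ‖x‖ → FB (s, x) = x) :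
    WF R (fun p => B p.2) FB (fun p => FB (-p.1, p.2)) where
  field := ⟨hB.smooth.comp contDiff_snd, fun _ x hx => hB.supp x hx⟩
  smooth := hF.smooth
  smoothi := hF.smooth.comp (contDiff_fst.neg.prodMk contDiff_snd)
  zero := hF.zero
  deriv := hF.deriv
  left s x := by
    have := hF.group (-s) s x
    simpa [hF.zero] using this
  right s x := by
    have := hF.group s (-s) x
    simpa [hF.zero] using this
  out := ho

lemma flow_dif (hF : IsFlow B FB) (ho : ∀ s x, R ≤ ‖x‖ → FB (s, x) = x) (t : ℝ) :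
    Dif R (sl FB t) (sl FB (-t)) where
  smooth := PDC.sl_smooth hF.smooth t
  smoothi := PDC.sl_smooth hF.smooth (-t)
  left x := by
    have := hF.group (-t) t x
    simpa [sl, hF.zero] using this
  right x := by
    have := hF.group t (-t) x
    simpa [sl, hF.zero] using this
  out x hx := ho t x hx

lemma flow_neg (hF : IsFlow B FB) : IsFlow (fun x => -B x) (fun p => FB (-p.1, p.2)) where
  smooth := hF.smooth.comp (contDiff_fst.neg.prodMk contDiff_snd)
  zero x := by simpa using hF.zero x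
  deriv s x := by
    have h1 := hF.deriv (-s) x
    have h2 := (h1.scomp s (hasDerivAt_neg s))
    simpa [Function.comp_def] using h2
  group s t x := by
    have := hF.group (-s) (-t) x
    simp only at this ⊢
    rw [this]
    congr 2
    ring

end Flow

/-! ### profiles -/

/-- a smooth function which is constant on a closed half line has derivative zero there -/
lemma deriv_const_left {f : ℝ → ℝ} (hf : Sm f) {a c : ℝ} (h : ∀ t, t ≤ a → f t = c) {t : ℝ}
    (ht : t ≤ a) : deriv f t = 0 := by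
  have h1 : HasDerivWithinAt f (deriv f t) (Iic t) t :=
    (hf.differentiable t).hasDerivAt.hasDerivWithinAt
  have h2 : HasDerivWithinAt f 0 (Iic t) t := by
    refine (hasDerivWithinAt_const t (Iic t) c).congr (fun y hy => ?_) (h t ht)
    exact h y (le_trans hy ht)
  exact (uniqueDiffWithinAt_Iic t).eq_deriv _ h1 h2

lemma deriv_const_right {f : ℝ → ℝ} (hf : Sm f) {a c : ℝ} (h : ∀ t, a ≤ t → f t = c) {t : ℝ}
    (ht : a ≤ t) : deriv f t = 0 := by
  have h1 : HasDerivWithinAt f (deriv f t) (Ici t) t :=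
    (hf.differentiable t).hasDerivAt.hasDerivWithinAt
  have h2 : HasDerivWithinAt f 0 (Ici t) t := by
    refine (hasDerivWithinAt_const t (Ici t) c).congr (fun y hy => ?_) (h t ht)
    exact h y (le_trans ht hy)
  exact (uniqueDiffWithinAt_Ici t).eq_deriv _ h1 h2

/-- the profile of a slot -/
noncomputable def gj (a b s : ℝ) : ℝ := Real.smoothTransition ((s - a) / (b - a))

lemma gj_sm (a b : ℝ) : Sm (gj a b) := by
  unfold gj
  exact Real.smoothTransition.contDiff.comp ((contDiff_id.sub contDiff_const).div_const _)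

lemma gj_zero {a b s : ℝ} (hab : a < b) (h : s ≤ a) : gj a b s = 0 := by
  unfold gj
  apply Real.smoothTransition.zero_of_nonpos
  exact div_nonpos_of_nonpos_of_nonneg (by linarith) (by linarith)

lemma gj_one {a b s : ℝ} (hab : a < b) (h : b ≤ s) : gj a b s = 1 := by
  unfold gj
  apply Real.smoothTransition.one_of_one_le
  rw [le_div_iff₀ (by linarith)]
  linarith

lemma gj_deriv {a b s : ℝ} (hab : a < b) (h : s ≤ a ∨ b ≤ s) : deriv (gj a b) s = 0 := by
  rcases h with h | h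
  · exact deriv_const_left (gj_sm a b) (fun t ht => gj_zero hab ht) h
  · exact deriv_const_right (gj_sm a b) (fun t ht => gj_one hab ht) h

/-! ### linearity of pull-backs -/

lemma pb_apply (Φ m : E → E) (x : E) (i : Fin 3) :
    pb Φ m x i = ∑ j, pd i Φ x j * m (Φ x) j := rfl

lemma pb_add (Φ m m' : E → E) (x : E) :
    pb Φ (fun y => m y + m' y) x = pb Φ m x + pb Φ m' x := by
  ext i
  simp only [pb_apply, PiLp.add_apply, mul_add, Finset.sum_add_distrib]

lemma pb_sub (Φ m m' : E → E) (x : E) :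
    pb Φ (fun y => m y - m' y) x = pb Φ m x - pb Φ m' x := by
  ext i
  simp only [pb_apply, PiLp.sub_apply, mul_sub, Finset.sum_sub_distrib]

lemma pb_smul (Φ m : E → E) (c : ℝ) (x : E) :
    pb Φ (fun y => c • m y) x = c • pb Φ m x := by
  ext i
  simp only [pb_apply, PiLp.smul_apply, smul_eq_mul, Finset.mul_sum]
  refine Finset.sum_congr rfl fun j _ => by ring

lemma pb_zero {Φ m : E → E} {x : E} (h : m (Φ x) = 0) : pb Φ m x = 0 := by
  ext i
  simp [pb_apply, h]

lemma pb_sum {ι : Type*} (s : Finset ι) (Φ : E → E) (m : ι → E → E) (x : E) :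
    pb Φ (fun y => ∑ k ∈ s, m k y) x = ∑ k ∈ s, pb Φ (m k) x := by
  classical
  induction s using Finset.induction_on with
  | empty =>
    simp only [Finset.sum_empty]
    exact pb_zero rfl
  | insert a s ha ih =>
    simp only [Finset.sum_insert ha]
    rw [pb_add, ih]

lemma pb_congr {Φ m m' : E → E} {x : E} (h : m (Φ x) = m' (Φ x)) : pb Φ m x = pb Φ m' x := by
  ext i
  simp [pb_apply, h]

lemma cr_smul (w b : E) (c : ℝ) : cr w (c • b) = c • cr w b := by
  ext i
  fin_cases i <;> simp <;> ring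

lemma gr_add {f g : E → ℝ} (hf : Sm f) (hg : Sm g) (x : E) :
    gr (fun y => f y + g y) x = gr f x + gr g x := by
  ext i
  rw [PiLp.add_apply, gr_apply, gr_apply, gr_apply]
  exact PDC.pd_add (hf.differentiable x) (hg.differentiable x) i

lemma gr_sub {f g : E → ℝ} (hf : Sm f) (hg : Sm g) (x : E) :
    gr (fun y => f y - g y) x = gr f x - gr g x := by
  ext i
  rw [PiLp.sub_apply, gr_apply, gr_apply, gr_apply]
  exact PDC.pd_sub (hf.differentiable x) (hg.differentiable x) i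

lemma gr_smul {f : E → ℝ} (hf : Sm f) (c : ℝ) (x : E) :
    gr (fun y => c * f y) x = c • gr f x := by
  ext i
  rw [PiLp.smul_apply, gr_apply, gr_apply]
  exact PDC.pd_const_smul c (hf.differentiable x) i

/-- constancy of a curve with zero derivative on an interval -/
lemma const_of_deriv {F : Type*} [NormedAddCommGroup F] [NormedSpace ℝ F] {f f' : ℝ → F}
    (hf : ∀ t, HasDerivAt f (f' t) t) {a b : ℝ} (hab : a ≤ b)
    (h : ∀ t, a ≤ t → t ≤ b → f' t = 0) : f b = f a := by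
  have h1 : ContinuousOn f (Icc a b) := fun t _ => (hf t).continuousAt.continuousWithinAt
  have h2 := constant_of_has_deriv_right_zero (f := f) (a := a) (b := b) h1
    (fun t ht => by
      have h3 := (hf t).hasDerivWithinAt (s := Ici t)
      rwa [h t ht.1 ht.2.le] at h3)
  exact h2 b ⟨hab, le_rfl⟩

end MPfab.RzN
end

section
/-!
MP_fabde4_an, module REALIZE, part D: choice of the number of cycles.
-/
set_option autoImplicit false
open MeasureTheory Set Filter Topology

namespace MPfab.RzN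

lemma uc_flow (hC : SpecCpt) {R : ℝ} {B : E → E} {FB : ℝ × E → E} (hF : IsFlow B FB)
    (ho : ∀ s x, R ≤ ‖x‖ → FB (s, x) = x) (T η : ℝ) (hη : 0 < η) (k : ℕ) :
    ∃ δ : ℝ, 0 < δ ∧ ∀ s ∈ Icc (-T) T, ∀ t ∈ Icc (-T) T, |s - t| < δ →
      Bd univ k (fun x => FB (s, x) - FB (t, x)) η := by
  obtain ⟨δ, hδ, h⟩ := hC.uc ℝ E R (fun p => FB p - p.2) (hF.smooth.sub contDiff_snd)
    (fun w x hx => by simp [ho w x hx]) (Icc (-T) T) isCompact_Icc k η hη
  refine ⟨δ, hδ, fun s hs t ht hst => ?_⟩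
  have h1 := h s hs t ht (by simpa [Real.norm_eq_abs] using hst)
  have e : (fun x => (fun p : ℝ × E => FB p - p.2) (s, x) -
      (fun p : ℝ × E => FB p - p.2) (t, x)) = fun x => FB (s, x) - FB (t, x) := by
    funext x
    simp only
    abel
  rwa [e] at h1

lemma slow_ex (hAvg : SpecAvg) (hC : SpecCpt) {R T : ℝ} {Cl : (E → E) → Prop}
    {w : ℝ → ℝ × E → E} {φ φi β βi FB I : ℝ × E → E} {B : E → E}
    (hD : Dsp Cl R w φ φi β βi B) (hR : 0 < R) (hT : 0 < T) (hF : IsFlow B FB)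
    (ho : ∀ s x, R ≤ ‖x‖ → FB (s, x) = x) (hI : InT R I) {η : ℝ} (hη : 0 < η) :
    ∃ (r : ℝ) (n : ℕ), 1 ≤ n ∧ 0 < r ∧ r ^ 2 = T / n ∧
      (∀ k : ℕ, k ≤ n → Bd univ 8 (fun x => (fun y => φ (r, y))^[k] x -
        FB (T / n * (k : ℝ), x)) η) ∧
      (∀ k : ℕ, k ≤ n → Bd univ 8 (fun x => (fun y => φi (r, y))^[k] x -
        FB (-(T / n * (k : ℝ)), x)) η) ∧
      ∀ s t, 0 ≤ s → s ≤ T → 0 ≤ t → t ≤ T → |s - t| ≤ T / n →
        Bd univ 8 (fun x => FB (s, x) - FB (t, x)) η ∧
        Bd univ 8 (fun x => FB (-s, x) - FB (-t, x)) η ∧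
        Bd univ 8 (fun x => I (s, x) - I (t, x)) η := by
  have e1 : (fun x => β (0, x)) = B := funext hD.zero
  have e2 : (fun x => βi (0, x)) = fun x => -B x := funext hD.zeroi
  obtain ⟨r1, hr1, h1⟩ := hAvg R β FB hR hD.sm (fun r x hx => (hD.out r x hx).1)
    (by rw [e1]; exact hF) ho 8 T η hT hη
  obtain ⟨r2, hr2, h2⟩ := hAvg R βi (fun p => FB (-p.1, p.2)) hR hD.smi
    (fun r x hx => (hD.out r x hx).2) (by rw [e2]; exact flow_neg hF)
    (fun s x hx => ho (-s) x hx) 8 T η hT hη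
  obtain ⟨d1, hd1, h3⟩ := uc_flow hC hF ho T η hη 8
  obtain ⟨d2, hd2, h4⟩ := hC.uc ℝ E R I hI.smooth (fun t x hx => hI.supp t x hx) (Icc (-T) T)
    isCompact_Icc 8 η hη
  set m : ℝ := min (min (r1 ^ 2) (r2 ^ 2)) (min d1 d2) with hm
  have hmpos : 0 < m := by
    rw [hm]
    positivity
  obtain ⟨n, hn⟩ := exists_nat_gt (T / m)
  have hn0 : 0 < (n : ℝ) := lt_trans (div_pos hT hmpos) hn
  have hn1 : 1 ≤ n := by
    have : 0 < n := by exact_mod_cast hn0
    exact this
  have hTn : T / n < m := by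
    rw [div_lt_iff₀ hn0]
    rw [div_lt_iff₀ hmpos] at hn
    linarith
  have hTn0 : 0 < T / n := div_pos hT hn0
  have hr : √(T / n) ^ 2 = T / n := Real.sq_sqrt hTn0.le
  have hrpos : 0 < √(T / n) := Real.sqrt_pos.mpr hTn0
  have hrr1 : √(T / n) < r1 := by
    have : T / n < r1 ^ 2 := hTn.trans_le ((min_le_left _ _).trans (min_le_left _ _))
    nlinarith
  have hrr2 : √(T / n) < r2 := by
    have : T / n < r2 ^ 2 := hTn.trans_le ((min_le_left _ _).trans (min_le_right _ _))
    nlinarith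
  have hkT : ∀ k : ℕ, k ≤ n → (k : ℝ) * √(T / n) ^ 2 ≤ T := by
    intro k hk
    rw [hr]
    have : (k : ℝ) ≤ n := by exact_mod_cast hk
    calc (k : ℝ) * (T / n) ≤ n * (T / n) := mul_le_mul_of_nonneg_right this hTn0.le
      _ = T := by field_simp
  refine ⟨√(T / n), n, hn1, hrpos, hr, ?_, ?_, ?_⟩
  · intro k hk
    have h := h1 (√(T / n)) hrpos hrr1 k (hkT k hk)
    have e3 : (fun y => y + √(T / n) ^ 2 • β (√(T / n), y)) = fun y => φ (√(T / n), y) :=
      funext fun y => (hD.exp _ y).symm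
    rw [e3, hr, mul_comm (k : ℝ)] at h
    exact h
  · intro k hk
    have h := h2 (√(T / n)) hrpos hrr2 k (hkT k hk)
    have e3 : (fun y => y + √(T / n) ^ 2 • βi (√(T / n), y)) = fun y => φi (√(T / n), y) :=
      funext fun y => (hD.expi _ y).symm
    rw [e3, hr, mul_comm (k : ℝ)] at h
    exact h
  · intro s t hs0 hsT ht0 htT hst
    have a1 : |s - t| < d1 :=
      hst.trans_lt (hTn.trans_le ((min_le_right _ _).trans (min_le_left _ _)))
    have a2 : |s - t| < d2 :=
      hst.trans_lt (hTn.trans_le ((min_le_right _ _).trans (min_le_right _ _)))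
    refine ⟨h3 s ⟨by linarith, hsT⟩ t ⟨by linarith, htT⟩ a1,
      h3 (-s) ⟨by linarith, by linarith⟩ (-t) ⟨by linarith, by linarith⟩ ?_,
      h4 s ⟨by linarith, hsT⟩ t ⟨by linarith, htT⟩ (by simpa [Real.norm_eq_abs] using a2)⟩
    have : -s - -t = -(s - t) := by ring
    rw [this, abs_neg]
    exact a1

end MPfab.RzN
end

section
/-!
MP_fabde4_an, module REALIZE, part B: the reference path in the moving frame, its time derivative and
the pressure.
-/
set_option autoImplicit false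
open MeasureTheory Set Filter Topology

namespace MPfab.RzN

/-- the increments -/
noncomputable def ak {J : ℕ} (I FB : ℝ × E → E) (af : E → E) (T τ : ℝ) (n : ℕ)
    (χ : Fin J → E → ℝ) (φk : ℕ → E → E) (k : ℕ) (j : Fin J) (x : E) : E :=
  χ j (φk (k + 1) x) • (I (τ * ((k : ℝ) + 1), x) - I (τ * (k : ℝ), x) +
    if k + 1 = n then pb (sl FB T) af x else 0)

/-- the reference in the frame, as a function of (clipped time, staircase, mixture) -/
noncomputable def mh {J : ℕ} (FB u I : ℝ × E → E) (v0 : E → E) (s0 s1 : Fin J → ℝ) (n : ℕ)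
    (a : ℕ → Fin J → E → E) (w : (ℝ × ℝ × ℝ) × E) : E :=
  pb (sl FB w.1.1) (sl u w.1.1) w.2 + (1 - w.1.2.2) • (v0 w.2 - u (0, w.2)) +
    ∑ k ∈ Finset.range n, ∑ j, gj (s0 j) (s1 j) (w.1.2.1 - (k : ℝ)) • a k j w.2 -
      I (w.1.1, w.2)

/-- the force of the relaxed solution -/
noncomputable def wf (B : E → E) (u : ℝ × E → E) (q : ℝ × E → ℝ) (Z2 Zo : ℝ × E → E)
    (p : ℝ × E) : E :=
  gr (sl q p.1) p.2 + Z2 p + Zo p - dt u p - lie B (sl u p.1) p.2

/-- the same in the frame -/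
noncomputable def wW (FB : ℝ × E → E) (B : E → E) (u : ℝ × E → E) (q : ℝ × E → ℝ)
    (Z2 Zo : ℝ × E → E) (p : ℝ × E) : E :=
  pb (sl FB p.1) (sl (wf B u q Z2 Zo) p.1) p.2

/-! ### smoothness and supports -/

lemma inT_pb (hA : SpecPbAlg) (hS : SpecPbSm) {R : ℝ} {Φ Ψ m : ℝ × E → E} (hΦ : Sm Φ)
    (hd : ∀ t, Dif R (sl Φ t) (sl Ψ t)) (hm : InT R m) :
    InT R (fun p => pb (sl Φ p.1) (sl m p.1) p.2) where
  smooth := hS.pb ℝ Φ m hΦ hm.smooth
  supp t x hx := (hA.inp R _ _ _ (hd t) (ItB.in_sl hm t)).supp x hx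

lemma inT_gr {R : ℝ} (hR : 0 < R) {q : ℝ × E → ℝ} (hq : InT R q) :
    InT R (fun p => gr (sl q p.1) p.2) where
  smooth := by
    rw [show Sm (fun p : ℝ × E => gr (sl q p.1) p.2) ↔ ∀ j, Sm (fun p : ℝ × E =>
      gr (sl q p.1) p.2 j) from contDiff_euclidean]
    intro j
    exact PDC.pds_sl hq.smooth [j]
  supp t x hx := by
    ext j
    exact (ItB.in_pd hR (ItB.in_sl hq t) j).supp x hx

lemma sm_pd {F : Type*} [NormedAddCommGroup F] [NormedSpace ℝ F] {m : ℝ × E → F} (h : Sm m)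
    (i : Fin 3) : Sm (fun p : ℝ × E => pd i (sl m p.1) p.2) := PDC.pds_sl h [i]

lemma sm_comp {X : Type*} [NormedAddCommGroup X] [NormedSpace ℝ X] {m : X → E} (h : Sm m)
    (j : Fin 3) : Sm (fun p => m p j) := contDiff_euclidean.mp h j

lemma inT_lie {R : ℝ} {B : E → E} {u : ℝ × E → E} (hB : In R B) (hu : InT R u) :
    InT R (fun p => lie B (sl u p.1) p.2) where
  smooth := by
    rw [show Sm (fun p : ℝ × E => lie B (sl u p.1) p.2) ↔ ∀ j, Sm (fun p : ℝ × E =>
      lie B (sl u p.1) p.2 j) from contDiff_euclidean]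
    intro i
    simp only [lie_apply]
    refine ContDiff.sum fun j _ => ?_
    have h1 : Sm (fun p : ℝ × E => B p.2 j) := sm_comp (hB.smooth.comp contDiff_snd) j
    have h2 : Sm (fun p : ℝ × E => pd j (sl u p.1) p.2 i) := sm_comp (sm_pd hu.smooth j) i
    have h3 : Sm (fun p : ℝ × E => sl u p.1 p.2 j) := sm_comp hu.smooth j
    have h4 : Sm (fun p : ℝ × E => pd i B p.2 j) :=
      sm_comp ((hB.smooth.pd i).comp contDiff_snd) j
    exact (h1.mul h2).add (h3.mul h4)
  supp t x hx := by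
    ext i
    rw [lie_apply]
    have h1 : B x = 0 := hB.supp x hx
    have h2 : sl u t x = 0 := hu.supp t x hx
    simp [h1, h2]

lemma inT_wf {R : ℝ} (hR : 0 < R) {B : E → E} {u : ℝ × E → E} {q : ℝ × E → ℝ}
    {Z2 Zo : ℝ × E → E} (hB : In R B) (hu : InT R u) (hq : InT R q) (h2 : InT R Z2)
    (ho : InT R Zo) : InT R (wf B u q Z2 Zo) := by
  have hdt : InT R (dt u) := by
    refine ⟨PDC.dt_smooth hu.smooth, fun t x hx => ?_⟩
    unfold dt
    have : (fun s => u (s, x)) = fun _ => (0 : E) := funext fun s => hu.supp s x hx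
    simp only [this, deriv_const]
  exact ItB.inT_sub (ItB.inT_sub (ItB.inT_add (ItB.inT_add (inT_gr hR hq) h2) ho) hdt)
    (inT_lie hB hu)

lemma in_ak {R : ℝ} {J : ℕ} {I FB : ℝ × E → E} {af : E → E} {T τ : ℝ} {n : ℕ}
    {χ : Fin J → E → ℝ} {φk : ℕ → E → E} (hA : SpecPbAlg) (hd : Dif R (sl FB T) (sl FB (-T)))
    (hI : InT R I) (haf : In R af) (hχ : ∀ j, Sm (χ j)) (hφ : ∀ k, Sm (φk k)) (k : ℕ)
    (j : Fin J) : In R (ak I FB af T τ n χ φk k j) := by
  have hb : In R (pb (sl FB T) af) := hA.inp R _ _ _ hd haf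
  have h1 := ItB.in_sl hI (τ * ((k : ℝ) + 1))
  have h2 := ItB.in_sl hI (τ * (k : ℝ))
  have hb' : In R (fun x => if k + 1 = n then pb (sl FB T) af x else 0) := by
    by_cases h : k + 1 = n
    · simp only [h, if_true]
      exact hb
    · simp only [h, if_false]
      exact ⟨contDiff_const, fun _ _ => rfl⟩
  refine ⟨?_, fun x hx => ?_⟩
  · unfold ak
    exact ((hχ j).comp (hφ (k + 1))).smul ((h1.smooth.sub h2.smooth).add hb'.smooth)
  · unfold ak
    have e1 : I (τ * ((k : ℝ) + 1), x) = 0 := h1.supp x hx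
    have e2 : I (τ * (k : ℝ), x) = 0 := h2.supp x hx
    have e3 : (if k + 1 = n then pb (sl FB T) af x else 0) = 0 := hb'.supp x hx
    rw [e1, e2, e3]
    simp

lemma mh_smooth {R : ℝ} {J : ℕ} {FB u I : ℝ × E → E} {v0 : E → E} {s0 s1 : Fin J → ℝ} {n : ℕ}
    {a : ℕ → Fin J → E → E} (hS : SpecPbSm) (hFB : Sm FB) (hu : InT R u) (hI : InT R I)
    (hv : In R v0) (ha : ∀ k j, In R (a k j)) : Sm (mh FB u I v0 s0 s1 n a) := by
  have p1 : Sm (fun w : (ℝ × ℝ × ℝ) × E => (w.1.1, w.2)) :=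
    (contDiff_fst.comp contDiff_fst).prodMk contDiff_snd
  have p2 : Sm (fun w : (ℝ × ℝ × ℝ) × E => w.1.2.1) :=
    contDiff_fst.comp (contDiff_snd.comp contDiff_fst)
  have p3 : Sm (fun w : (ℝ × ℝ × ℝ) × E => w.1.2.2) :=
    contDiff_snd.comp (contDiff_snd.comp contDiff_fst)
  have h1 : Sm (fun w : (ℝ × ℝ × ℝ) × E => pb (sl FB w.1.1) (sl u w.1.1) w.2) :=
    (hS.pb ℝ FB u hFB hu.smooth).comp p1
  have h2 : Sm (fun w : (ℝ × ℝ × ℝ) × E => v0 w.2 - u (0, w.2)) :=
    (hv.smooth.comp contDiff_snd).sub (hu.smooth.comp (contDiff_const.prodMk contDiff_snd))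
  have h3 : Sm (fun w : (ℝ × ℝ × ℝ) × E => ∑ k ∈ Finset.range n, ∑ j,
      gj (s0 j) (s1 j) (w.1.2.1 - (k : ℝ)) • a k j w.2) := by
    refine ContDiff.sum fun k _ => ContDiff.sum fun j _ => ?_
    exact ((gj_sm (s0 j) (s1 j)).comp (p2.sub contDiff_const)).smul
      ((ha k j).smooth.comp contDiff_snd)
  have h4 : Sm (fun w : (ℝ × ℝ × ℝ) × E => I (w.1.1, w.2)) := hI.smooth.comp p1
  exact ((h1.add ((contDiff_const.sub p3).smul h2)).add h3).sub h4

lemma mh_supp {R : ℝ} {J : ℕ} {FB u I : ℝ × E → E} {v0 : E → E} {s0 s1 : Fin J → ℝ} {n : ℕ}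
    {a : ℕ → Fin J → E → E} (hA : SpecPbAlg) (hd : ∀ t, Dif R (sl FB t) (sl FB (-t)))
    (hu : InT R u) (hI : InT R I)
    (hv : In R v0) (ha : ∀ k j, In R (a k j)) (w : ℝ × ℝ × ℝ) (x : E) (hx : R ≤ ‖x‖) :
    mh FB u I v0 s0 s1 n a (w, x) = 0 := by
  unfold mh
  have e1 : pb (sl FB w.1) (sl u w.1) x = 0 :=
    (hA.inp R _ _ _ (hd w.1) (ItB.in_sl hu w.1)).supp x hx
  have e2 : u (0, x) = 0 := hu.supp 0 x hx
  have e3 : I (w.1, x) = 0 := hI.supp _ x hx
  have e4 : ∀ k j, a k j x = 0 := fun k j => (ha k j).supp x hx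
  simp [e1, e2, e3, e4, hv.supp x hx]

/-! ### the time derivative of the reference -/

lemma mh_deriv {J : ℕ} {R : ℝ} {B : E → E} {FB u I Z2 : ℝ × E → E} {v0 : E → E}
    {s0 s1 : Fin J → ℝ} {n : ℕ} {a : ℕ → Fin J → E → E} {θ st β : ℝ → ℝ} (hD : SpecPbDt)
    (hB : In R B) (hF : IsFlow B FB) (hu : InT R u)
    (hI : ∀ t x, HasDerivAt (fun s => I (s, x)) (pb (sl FB t) (sl Z2 t) x) t)
    (hθ : Sm θ) (hst : Sm st) (hβ : Sm β) (t : ℝ) (x : E) :
    HasDerivAt (fun s => mh FB u I v0 s0 s1 n a ((θ s, st s, β s), x))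
      (deriv θ t • (pb (sl FB (θ t)) (fun y => dt u (θ t, y) + lie B (sl u (θ t)) y) x -
        pb (sl FB (θ t)) (sl Z2 (θ t)) x) - deriv β t • (v0 x - u (0, x)) +
        ∑ k ∈ Finset.range n, ∑ j,
          (deriv st t * deriv (gj (s0 j) (s1 j)) (st t - (k : ℝ))) • a k j x) t := by
  have dθ : HasDerivAt θ (deriv θ t) t := (hθ.differentiable t).hasDerivAt
  have dst : HasDerivAt st (deriv st t) t := (hst.differentiable t).hasDerivAt
  have dβ : HasDerivAt β (deriv β t) t := (hβ.differentiable t).hasDerivAt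
  have h1 : HasDerivAt (fun s => pb (sl FB (θ s)) (sl u (θ s)) x)
      (deriv θ t • pb (sl FB (θ t)) (fun y => dt u (θ t, y) + lie B (sl u (θ t)) y) x) t := by
    have h := hD FB (fun p => B p.2) u hF.smooth (hB.smooth.comp contDiff_snd) hu.smooth
      (fun t x => hF.deriv t x) (θ t) x
    exact HasDerivAt.scomp t h dθ
  have h2 : HasDerivAt (fun s => I (θ s, x))
      (deriv θ t • pb (sl FB (θ t)) (sl Z2 (θ t)) x) t :=
    HasDerivAt.scomp t (hI (θ t) x) dθ
  have h3 : HasDerivAt (fun s => (1 - β s) • (v0 x - u (0, x)))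
      (-(deriv β t) • (v0 x - u (0, x))) t := by
    have := ((hasDerivAt_const t (1 : ℝ)).sub dβ).smul_const (v0 x - u (0, x))
    simpa using this
  have h4 : HasDerivAt (fun s => ∑ k ∈ Finset.range n, ∑ j,
      gj (s0 j) (s1 j) (st s - (k : ℝ)) • a k j x)
      (∑ k ∈ Finset.range n, ∑ j,
          (deriv st t * deriv (gj (s0 j) (s1 j)) (st t - (k : ℝ))) • a k j x) t := by
    refine HasDerivAt.fun_sum fun k _ => HasDerivAt.fun_sum fun j _ => ?_
    have g1 : HasDerivAt (gj (s0 j) (s1 j)) (deriv (gj (s0 j) (s1 j)) (st t - (k : ℝ)))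
        (st t - (k : ℝ)) := ((gj_sm _ _).differentiable _).hasDerivAt
    have g2 : HasDerivAt (fun s => st s - (k : ℝ)) (deriv st t) t := dst.sub_const _
    have g3 := (HasDerivAt.comp t g1 g2).smul_const (a k j x)
    rw [mul_comm] at g3
    exact g3
  have h5 := ((h1.add h3).add h4).sub h2
  refine h5.congr_deriv ?_
  simp only [smul_sub, neg_smul]
  abel

/-! ### the force and the pressure -/

section Press

variable {J : ℕ} {R T ε : ℝ} {B : E → E} {FB u I Z2 Zo : ℝ × E → E} {q : ℝ × E → ℝ}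
  {v0 r0 : E → E} {q0 : E → ℝ} {s0 s1 : Fin J → ℝ} {n : ℕ} {a : ℕ → Fin J → E → E}
  {θ st β κ : ℝ → ℝ}

/-- the reference path -/
noncomputable def mref (FB u I : ℝ × E → E) (v0 : E → E) (s0 s1 : Fin J → ℝ) (n : ℕ)
    (a : ℕ → Fin J → E → E) (θ st β : ℝ → ℝ) (p : ℝ × E) : E :=
  mh FB u I v0 s0 s1 n a ((θ p.1, st p.1, β p.1), p.2)

/-- the force -/
noncomputable def Ff (FB u I : ℝ × E → E) (v0 : E → E) (s0 s1 : Fin J → ℝ) (n : ℕ)
    (a : ℕ → Fin J → E → E) (θ st β κ : ℝ → ℝ) (B : E → E) (q : ℝ × E → ℝ)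
    (Z2 Zo : ℝ × E → E) (p : ℝ × E) : E :=
  dt (mref FB u I v0 s0 s1 n a θ st β) p + κ p.1 • wW FB B u q Z2 Zo (θ p.1, p.2)

lemma Ff_eq (hD : SpecPbDt) (hB : In R B) (hF : IsFlow B FB) (hu : InT R u)
    (hI : ∀ t x, HasDerivAt (fun s => I (s, x)) (pb (sl FB t) (sl Z2 t) x) t)
    (hθ : Sm θ) (hst : Sm st) (hβ : Sm β) (hε : 0 < ε)
    (hκ1 : ∀ t, 0 ≤ t → t ≤ T → κ t = 1) (hθ1 : ∀ t, -ε ≤ t → t ≤ T + ε → θ t = t) (t : ℝ)
    (h0 : 0 ≤ t) (hT : t ≤ T) (x : E) :
    Ff FB u I v0 s0 s1 n a θ st β κ B q Z2 Zo (t, x) =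
      pb (sl FB t) (gr (sl q t)) x + pb (sl FB t) (sl Zo t) x -
        deriv β t • (v0 x - u (0, x)) + ∑ k ∈ Finset.range n, ∑ j,
          (deriv st t * deriv (gj (s0 j) (s1 j)) (st t - (k : ℝ))) • a k j x := by
  have h1 := (mh_deriv (v0 := v0) (s0 := s0) (s1 := s1) (n := n) (a := a) hD hB hF hu hI hθ hst
    hβ t x).deriv
  have hθd : deriv θ t = 1 := by
    have e : θ =ᶠ[𝓝 t] fun s => s := by
      filter_upwards [Ioo_mem_nhds (show -ε < t by linarith) (show t < T + ε by linarith)]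
        with s hs
      exact hθ1 s hs.1.le hs.2.le
    rw [e.deriv_eq]
    exact deriv_id t
  have hθt : θ t = t := hθ1 t (by linarith) (by linarith)
  have h2 : dt (mref FB u I v0 s0 s1 n a θ st β) (t, x) = _ := h1
  unfold Ff
  simp only
  rw [h2, hθd, hθt, hκ1 t h0 hT, one_smul, one_smul]
  have h3 : wW FB B u q Z2 Zo (t, x) = pb (sl FB t) (gr (sl q t)) x +
      pb (sl FB t) (sl Z2 t) x + pb (sl FB t) (sl Zo t) x -
      pb (sl FB t) (fun y => dt u (t, y) + lie B (sl u t) y) x := by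
    unfold wW
    rw [← pb_add, ← pb_add, ← pb_sub]
    apply pb_congr
    simp only [sl, wf]
    abel
  rw [h3]
  abel

end Press

end MPfab.RzN
end

section
/-!
MP_fabde4_an, module REALIZE, part C: the pressure, the values of the reference at integer values of
the staircase.
-/
set_option autoImplicit false
open MeasureTheory Set Filter Topology

namespace MPfab.RzN

/-- the pressure in the physical frame -/
noncomputable def prs (FB Ψ : ℝ × E → E) (q : ℝ × E → ℝ) (q0 : E → ℝ) (β : ℝ → ℝ)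
    (p : ℝ × E) : ℝ :=
  q (p.1, FB (p.1, Ψ p)) - deriv β p.1 * q0 (Ψ p)

lemma sm_deriv {f : ℝ → ℝ} (hf : Sm f) : Sm (deriv f) := by
  have h : Sm (fun x : ℝ => fderiv ℝ f x 1) :=
    (hf.fderiv_right (m := ((⊤ : ENat) : WithTop ENat)) (by simp)).clm_apply contDiff_const
  exact h

lemma prs_smooth {FB Ψ : ℝ × E → E} {q : ℝ × E → ℝ} {q0 : E → ℝ} {β : ℝ → ℝ} (hF : Sm FB)
    (hΨ : Sm Ψ) (hq : Sm q) (hq0 : Sm q0) (hβ : Sm β) : Sm (prs FB Ψ q q0 β) := by
  have h1 : Sm (fun p : ℝ × E => FB (p.1, Ψ p)) := hF.comp (contDiff_fst.prodMk hΨ)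
  have h2 : Sm (fun p : ℝ × E => q (p.1, FB (p.1, Ψ p))) := hq.comp (contDiff_fst.prodMk h1)
  exact h2.sub (((sm_deriv hβ).comp contDiff_fst).mul (hq0.comp hΨ))

lemma press {J : ℕ} {FB Ψ u Zo F : ℝ × E → E} {q : ℝ × E → ℝ}
    {v0 r0 : E → E} {q0 : E → ℝ} {s0 s1 : Fin J → ℝ} {n : ℕ} {a : ℕ → Fin J → E → E}
    {st β : ℝ → ℝ} (hA : SpecPbAlg) (hFB : Sm FB) (hΨ : Sm Ψ) (hq : Sm q) (hq0 : Sm q0) (t : ℝ)
    (x : E)
    (hF : F (t, Ψ (t, x)) = pb (sl FB t) (gr (sl q t)) (Ψ (t, x)) +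
        pb (sl FB t) (sl Zo t) (Ψ (t, x)) - deriv β t • (v0 (Ψ (t, x)) - u (0, Ψ (t, x))) +
        ∑ k ∈ Finset.range n, ∑ j,
          (deriv st t * deriv (gj (s0 j) (s1 j)) (st t - (k : ℝ))) • a k j (Ψ (t, x)))
    (hinit : ∀ y, v0 y - u (0, y) = gr q0 y + r0 y)
    (hZo : Zo (t, FB (t, Ψ (t, x))) = 0) (hr0 : r0 (Ψ (t, x)) = 0)
    (ha : ∀ k, k < n → ∀ j, deriv (gj (s0 j) (s1 j)) (st t - (k : ℝ)) ≠ 0 →
      a k j (Ψ (t, x)) = 0) :
    pb (sl Ψ t) (sl F t) x = gr (sl (prs FB Ψ q q0 β) t) x := by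
  have e1 : sl F t (sl Ψ t x) =
      (fun y => pb (sl FB t) (gr (sl q t)) y - deriv β t • gr q0 y) (sl Ψ t x) := by
    have e2 : pb (sl FB t) (sl Zo t) (Ψ (t, x)) = 0 := pb_zero hZo
    have e3 : ∑ k ∈ Finset.range n, ∑ j,
          (deriv st t * deriv (gj (s0 j) (s1 j)) (st t - (k : ℝ))) • a k j (Ψ (t, x)) = 0 := by
      refine Finset.sum_eq_zero fun k hk => Finset.sum_eq_zero fun j _ => ?_
      by_cases h : deriv (gj (s0 j) (s1 j)) (st t - (k : ℝ)) = 0
      · rw [h, mul_zero, zero_smul]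
      · rw [ha k (Finset.mem_range.mp hk) j h, smul_zero]
    change F (t, Ψ (t, x)) = pb (sl FB t) (gr (sl q t)) (Ψ (t, x)) - deriv β t • gr q0 (Ψ (t, x))
    rw [hF, e2, e3, hinit, hr0]
    simp
  rw [pb_congr (m' := fun y => pb (sl FB t) (gr (sl q t)) y - deriv β t • gr q0 y) e1, pb_sub,
    pb_smul]
  have e4 := hA.comp (sl Ψ t) (sl FB t) (gr (sl q t)) (PDC.sl_smooth hΨ t)
    (PDC.sl_smooth hFB t) x
  have hsm : Sm (fun y => sl FB t (sl Ψ t y)) := (PDC.sl_smooth hFB t).comp (PDC.sl_smooth hΨ t)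
  have e5 := hA.gr (fun y => sl FB t (sl Ψ t y)) (sl q t) hsm (PDC.sl_smooth hq t) x
  have e6 := hA.gr (sl Ψ t) q0 (PDC.sl_smooth hΨ t) hq0 x
  have e7 : pb (sl Ψ t) (fun y => pb (sl FB t) (gr (sl q t)) y) x =
      pb (sl Ψ t) (pb (sl FB t) (gr (sl q t))) x := rfl
  rw [e7, e4, e5]
  have e8 : pb (sl Ψ t) (fun y => gr q0 y) x = pb (sl Ψ t) (gr q0) x := rfl
  rw [e8, e6]
  have s1 : Sm (fun y => sl q t (sl FB t (sl Ψ t y))) := (PDC.sl_smooth hq t).comp hsm
  have s2 : Sm (fun y => q0 (sl Ψ t y)) := hq0.comp (PDC.sl_smooth hΨ t)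
  have e9 : sl (prs FB Ψ q q0 β) t =
      fun y => sl q t (sl FB t (sl Ψ t y)) - deriv β t * q0 (sl Ψ t y) := rfl
  have s3 : Sm (fun y => deriv β t * q0 (sl Ψ t y)) := contDiff_const.mul s2
  rw [e9, gr_sub s1 s3, gr_smul s2]

/-! ### sums of the increments -/

section Sums

variable {J : ℕ} {I FB Z2 : ℝ × E → E} {af : E → E} {T τ : ℝ} {n : ℕ}
    {χ : Fin J → E → ℝ} {φk : ℕ → E → E} {K K' : Set E}

lemma I_const (hI : ∀ t x, HasDerivAt (fun s => I (s, x)) (pb (sl FB t) (sl Z2 t) x) t)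
    (hZ : ∀ t x, x ∉ K → Z2 (t, x) = 0) {a b : ℝ} (hab : a ≤ b) (x : E)
    (h : ∀ t, a ≤ t → t ≤ b → FB (t, x) ∉ K) : I (b, x) = I (a, x) :=
  const_of_deriv (f := fun s => I (s, x)) (fun t => hI t x) hab
    (fun t h1 h2 => pb_zero (hZ t _ (h t h1 h2)))

lemma sum_ak (hτ : 0 ≤ τ)
    (hI : ∀ t x, HasDerivAt (fun s => I (s, x)) (pb (sl FB t) (sl Z2 t) x) t)
    (hZ : ∀ t x, x ∉ K → Z2 (t, x) = 0) (hχ : ∀ x ∈ K', ∑ j, χ j x = 1) (k : ℕ) (x : E)
    (h1 : ∀ t, τ * (k : ℝ) ≤ t → t ≤ τ * ((k : ℝ) + 1) → FB (t, x) ∈ K → φk (k + 1) x ∈ K')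
    (h2 : k + 1 = n → FB (T, x) ∈ tsupport af → φk (k + 1) x ∈ K') :
    ∑ j, ak I FB af T τ n χ φk k j x = I (τ * ((k : ℝ) + 1), x) - I (τ * (k : ℝ), x) +
      if k + 1 = n then pb (sl FB T) af x else 0 := by
  by_cases h : φk (k + 1) x ∈ K'
  · unfold ak
    rw [← Finset.sum_smul, hχ _ h, one_smul]
  · have e1 : I (τ * ((k : ℝ) + 1), x) - I (τ * (k : ℝ), x) = 0 := by
      rw [sub_eq_zero]
      refine I_const hI hZ (by nlinarith) x fun t h3 h4 h5 => h (h1 t h3 h4 h5)
    have e2 : (if k + 1 = n then pb (sl FB T) af x else 0) = 0 := by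
      by_cases hn : k + 1 = n
      · rw [if_pos hn]
        apply pb_zero
        have h5 : FB (T, x) ∉ tsupport af := fun h6 => h (h2 hn h6)
        exact image_eq_zero_of_notMem_tsupport h5
      · rw [if_neg hn]
    unfold ak
    rw [e1, e2]
    simp

lemma sum_ak' (hn : 1 ≤ n) (hτ : 0 ≤ τ) (hI0 : ∀ x, I (0, x) = 0)
    (hI : ∀ t x, HasDerivAt (fun s => I (s, x)) (pb (sl FB t) (sl Z2 t) x) t)
    (hZ : ∀ t x, x ∉ K → Z2 (t, x) = 0) (hχ : ∀ x ∈ K', ∑ j, χ j x = 1) (x : E)
    (h1 : ∀ k, k < n → ∀ t, τ * (k : ℝ) ≤ t → t ≤ τ * ((k : ℝ) + 1) → FB (t, x) ∈ K →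
      φk (k + 1) x ∈ K')
    (h2 : FB (T, x) ∈ tsupport af → φk n x ∈ K') (m : ℕ) (hm : m ≤ n) :
    ∑ k ∈ Finset.range m, ∑ j, ak I FB af T τ n χ φk k j x = I (τ * (m : ℝ), x) +
      if m = n then pb (sl FB T) af x else 0 := by
  induction m with
  | zero =>
    have : ¬ (0 = n) := by omega
    simp [hI0, this]
  | succ m ih =>
    have hm' : m < n := hm
    rw [Finset.sum_range_succ, ih hm'.le,
      sum_ak hτ hI hZ hχ m x (h1 m hm') (fun h => by rw [h]; exact h2)]
    have : ¬ (m = n) := by omega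
    rw [if_neg this]
    push_cast
    abel

lemma sum_gj {s0 s1 : Fin J → ℝ} (hs : ∀ j, 1 / 2 < s0 j ∧ s0 j < s1 j ∧ s1 j < 1)
    (a : ℕ → Fin J → E → E) (x : E) (m : ℕ) (hm : m ≤ n) :
    ∑ k ∈ Finset.range n, ∑ j, gj (s0 j) (s1 j) ((m : ℝ) - (k : ℝ)) • a k j x =
      ∑ k ∈ Finset.range m, ∑ j, a k j x := by
  have h1 : ∑ k ∈ Finset.range m, ∑ j, gj (s0 j) (s1 j) ((m : ℝ) - (k : ℝ)) • a k j x =
      ∑ k ∈ Finset.range n, ∑ j, gj (s0 j) (s1 j) ((m : ℝ) - (k : ℝ)) • a k j x := by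
    refine Finset.sum_subset (Finset.range_mono hm) fun k _ hk => ?_
    refine Finset.sum_eq_zero fun j _ => ?_
    have hk' : m ≤ k := by simpa using hk
    have : (m : ℝ) - (k : ℝ) ≤ s0 j := by
      have : (m : ℝ) ≤ k := by exact_mod_cast hk'
      linarith [(hs j).1]
    rw [gj_zero (hs j).2.1 this, zero_smul]
  rw [← h1]
  refine Finset.sum_congr rfl fun k hk => Finset.sum_congr rfl fun j _ => ?_
  have hk' : k + 1 ≤ m := by simpa using hk
  have : s1 j ≤ (m : ℝ) - (k : ℝ) := by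
    have : (k : ℝ) + 1 ≤ m := by exact_mod_cast hk'
    linarith [(hs j).2.2]
  rw [gj_one (hs j).2.1 this, one_smul]

lemma mh_at {u : ℝ × E → E} {v0 : E → E} {s0 s1 : Fin J → ℝ}
    (hs : ∀ j, 1 / 2 < s0 j ∧ s0 j < s1 j ∧ s1 j < 1) (hn : 1 ≤ n) (hτ : 0 ≤ τ)
    (hI0 : ∀ x, I (0, x) = 0)
    (hI : ∀ t x, HasDerivAt (fun s => I (s, x)) (pb (sl FB t) (sl Z2 t) x) t)
    (hZ : ∀ t x, x ∉ K → Z2 (t, x) = 0) (hχ : ∀ x ∈ K', ∑ j, χ j x = 1) (x : E)
    (h1 : ∀ k, k < n → ∀ t, τ * (k : ℝ) ≤ t → t ≤ τ * ((k : ℝ) + 1) → FB (t, x) ∈ K →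
      φk (k + 1) x ∈ K')
    (h2 : FB (T, x) ∈ tsupport af → φk n x ∈ K') (m : ℕ) (hm : m ≤ n) (t b : ℝ) :
    mh FB u I v0 s0 s1 n (ak I FB af T τ n χ φk) ((t, (m : ℝ), b), x) =
      pb (sl FB t) (sl u t) x + (1 - b) • (v0 x - u (0, x)) +
        (I (τ * (m : ℝ), x) + if m = n then pb (sl FB T) af x else 0) - I (t, x) := by
  unfold mh
  simp only
  rw [sum_gj hs _ x m hm, sum_ak' hn hτ hI0 hI hZ hχ x h1 h2 m hm]

end Sums

end MPfab.RzN
end

section
/-!
MP_fabde4_an, module REALIZE, part E: the residual and its bounds, the end.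
-/
set_option autoImplicit false
open MeasureTheory Set Filter Topology

namespace MPfab.RzN

/-- the nonlinear term in the frame -/
noncomputable def nl (P1 P2 : (E → E) → E → E) (Φ Ψ : E → E) (a : ℝ) (M : E → E) (x : E) : E :=
  cr (curl M x) (pv Φ Ψ (mix P1 P2 a (pb Ψ M)) x)

/-- the residual -/
noncomputable def gg (P1 P2 : (E → E) → E → E) (Φ Ψ V W : ℝ × E → E) (κ a θ : ℝ → ℝ)
    (p : ℝ × E) : E :=
  κ p.1 • (nl P1 P2 (sl Φ p.1) (sl Ψ p.1) (a p.1) (sl V p.1) p.2 - W (θ p.1, p.2))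

section G

variable {R T0 : ℝ} {P1 P2 : (E → E) → E → E} {Φ Ψ V W : ℝ × E → E} {κ a θ : ℝ → ℝ}

lemma cr_vel (t : ℝ) (x : E) :
    cr (curl (sl V t) x) (vel (mlaw P1 P2 Φ Ψ κ a) V (t, x)) =
      κ t • nl P1 P2 (sl Φ t) (sl Ψ t) (a t) (sl V t) x := by
  unfold vel mlaw nl
  rw [cr_smul]

lemma inT_resc {F : Type*} [NormedAddCommGroup F] [NormedSpace ℝ F] {W : ℝ × E → F}
    (hW : InT R W) (hκ : Sm κ) (hθ : Sm θ) :
    InT R (fun p : ℝ × E => κ p.1 • W (θ p.1, p.2)) where
  smooth := (hκ.comp contDiff_fst).smul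
    (hW.smooth.comp ((hθ.comp contDiff_fst).prodMk contDiff_snd))
  supp t x hx := by
    have := hW.supp (θ t) x hx
    simp [this]

lemma inT_gg (hI : SpecIncSm) (hA : SpecIncAlg) (hV : SpecVlb) (hR : 0 < R) {κ' : ℕ → ℝ → ℝ}
    (law : VLaw R T0 (mlaw P1 P2 Φ Ψ κ a) κ') (hVt : InT R V) (hW : InT R W) (hκ : Sm κ)
    (hθ : Sm θ) : InT R (gg P1 P2 Φ Ψ V W κ a θ) := by
  have h1 := ItB.inT_cr hI hA hR hVt (hV.smooth R T0 _ κ' hR law V hVt)
  have h2 := ItB.inT_sub h1 (inT_resc hW hκ hθ)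
  have e : gg P1 P2 Φ Ψ V W κ a θ = fun p : ℝ × E =>
      cr (curl (sl V p.1) p.2) (vel (mlaw P1 P2 Φ Ψ κ a) V p) - κ p.1 • W (θ p.1, p.2) := by
    funext p
    obtain ⟨t, x⟩ := p
    simp only
    rw [cr_vel, ← smul_sub]
    rfl
  rw [e]
  exact h2

lemma in_nl (hPA : SpecPbAlg) (hR : 0 < R) (h1 : COp R P1) (h2 : COp R P2) {Φ Ψ M : E → E}
    (a : ℝ) (hd : Dif R Φ Ψ) (hM : In R M) : In R (nl P1 P2 Φ Ψ a M) := by
  have hd' := hPA.dif R Φ Ψ hd
  exact ItB.in_cr (ItB.in_curl hR hM)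
    (hPA.inv R Φ Ψ _ hd (MovM.mix_in h1 h2 a (hPA.inp R Ψ Φ M hd' hM)))

lemma gg_fast (hH : SpecHSB) (hPA : SpecPbAlg) (hR : 0 < R) (h1 : COp R P1) (h2 : COp R P2)
    (hd : ∀ t, Dif R (sl Φ t) (sl Ψ t)) (hVt : InT R V) (hW : InT R W) {C : ℝ} (t : ℝ)
    (hκ : 0 ≤ κ t ∧ κ t ≤ 1)
    (b1 : √(nq univ 5 (nl P1 P2 (sl Φ t) (sl Ψ t) (a t) (sl V t))) ≤ C)
    (b2 : √(nq univ 5 (sl W (θ t))) ≤ C) :
    √(nq univ 5 (sl (gg P1 P2 Φ Ψ V W κ a θ) t)) ≤ 4 * C := by
  have hA : In R (nl P1 P2 (sl Φ t) (sl Ψ t) (a t) (sl V t)) :=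
    in_nl hPA hR h1 h2 (a t) (hd t) (ItB.in_sl hVt t)
  have hWi : In R (fun x => -sl W (θ t) x) := by
    have := ItB.in_sl hW (θ t)
    exact ⟨this.smooth.neg, fun x hx => by rw [this.supp x hx, neg_zero]⟩
  have e : sl (gg P1 P2 Φ Ψ V W κ a θ) t = fun x => κ t •
      (nl P1 P2 (sl Φ t) (sl Ψ t) (a t) (sl V t) x + -sl W (θ t) x) := by
    funext x
    rw [← sub_eq_add_neg]
    rfl
  have hsum := ItB.sqrt_nq_add hH 5 hA hWi hR
  rw [ItB.nq_neg hH 5 (ItB.in_sl hW (θ t)).smooth] at hsum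
  rw [e, ItB.nq_smul hH 5 (κ t) (hA.smooth.add hWi.smooth), Real.sqrt_mul (sq_nonneg _),
    Real.sqrt_sq hκ.1]
  have h0 := Real.sqrt_nonneg (nq univ 5 (fun x =>
    nl P1 P2 (sl Φ t) (sl Ψ t) (a t) (sl V t) x + -sl W (θ t) x))
  calc _ ≤ 1 * √(nq univ 5 (fun x =>
      nl P1 P2 (sl Φ t) (sl Ψ t) (a t) (sl V t) x + -sl W (θ t) x)) :=
        mul_le_mul_of_nonneg_right hκ.2 h0
    _ ≤ 4 * C := by linarith

lemma gg_zero (hH : SpecHSB) (t : ℝ) (hκ : κ t = 0) :
    √(nq univ 5 (sl (gg P1 P2 Φ Ψ V W κ a θ) t)) = 0 := by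
  have e : sl (gg P1 P2 Φ Ψ V W κ a θ) t = fun x => (0 : ℝ) • (0 : E) := by
    funext x
    change κ t • _ = _
    rw [hκ, zero_smul, zero_smul]
  rw [e, ItB.nq_smul hH 5 0 (a := fun _ : E => (0 : E)) contDiff_const]
  simp

lemma wW_eq {B : E → E} {FB u Z2 Zo : ℝ × E → E} {q : ℝ × E → ℝ} (hA : SpecPbAlg)
    {t : ℝ} (hd : Dif R (sl FB t) (sl FB (-t))) (hu : Sm u)
    (heq : ∀ x, dt u (t, x) + lie B (sl u t) x + cr (curl (sl u t) x) (P2 (sl u t) x) =
      gr (sl q t) x + Z2 (t, x) + Zo (t, x)) (x : E) :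
    wW FB B u q Z2 Zo (t, x) = cr (curl (pb (sl FB t) (sl u t)) x)
      (pv (sl FB t) (sl FB (-t)) (P2 (sl u t)) x) := by
  rw [hA.cr R (sl FB t) (sl FB (-t)) (sl u t) (P2 (sl u t)) hd (PDC.sl_smooth hu t) x]
  unfold wW
  simp only
  apply pb_congr
  have h := heq (sl FB t x)
  simp only [sl, wf] at h ⊢
  rw [← h]
  abel

lemma gg_slow {η : ℝ} {B : E → E} {FB u Z2 Zo : ℝ × E → E} {q : ℝ × E → ℝ} {S : E → E}
    (hPA : SpecPbAlg) {t : ℝ} (hd : Dif R (sl FB t) (sl FB (-t))) (hu : Sm u)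
    (heq : ∀ x, dt u (t, x) + lie B (sl u t) x + cr (curl (sl u t) x) (P2 (sl u t) x) =
      gr (sl q t) x + Z2 (t, x) + Zo (t, x))
    (hκ : κ t = 1) (hθ : θ t = t) (ha : a t = 1)
    (hVt : sl V t = fun y => pb (sl FB t) (sl u t) y + S y)
    (hC : √(nq univ 5 (fun x =>
      cr (curl (fun y => pb (sl FB t) (sl u t) y + S y) x)
        (pv (sl Φ t) (sl Ψ t) (P2 (pb (sl Ψ t) (fun y => pb (sl FB t) (sl u t) y + S y))) x) -
      cr (curl (pb (sl FB t) (sl u t)) x)
        (pv (sl FB t) (sl FB (-t)) (P2 (sl u t)) x))) ≤ η) :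
    √(nq univ 5 (sl (gg P1 P2 Φ Ψ V (wW FB B u q Z2 Zo) κ a θ) t)) ≤ η := by
  refine le_trans (le_of_eq ?_) hC
  congr 2
  funext x
  change κ t • (nl P1 P2 (sl Φ t) (sl Ψ t) (a t) (sl V t) x - wW FB B u q Z2 Zo (θ t, x)) = _
  rw [hκ, hθ, ha, one_smul, wW_eq (R := R) hPA hd hu heq x, hVt]
  unfold nl
  have e : mix P1 P2 1 (pb (sl Ψ t) fun y => pb (sl FB t) (sl u t) y + S y) =
      P2 (pb (sl Ψ t) fun y => pb (sl FB t) (sl u t) y + S y) := by
    funext y
    simp [mix]
  rw [e]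

end G

/-! ### the end -/

lemma p_sup (hS : SpecSupU) (hH : SpecHSB) {R : ℝ} (hR : 0 < R) {P : (E → E) → E → E}
    (hL : LOp R P) : ∃ C : ℝ, 0 ≤ C ∧ ∀ f : E → E, In R f → ∀ x,
      ‖P f x‖ ≤ C * √(nq univ 5 f) := by
  obtain ⟨C1, hC1, h1⟩ := hS R hR
  obtain ⟨C2, hC2, h2⟩ := hL.gain 5
  refine ⟨√C1 * C2, by positivity, fun f hf x => ?_⟩
  have a1 := h1 E (P f) (hL.cop.maps f hf) [] x
  have a2 := h2 f hf
  have a3 : hs univ (([] : List (Fin 3)).length + 3) (P f) ≤ hs univ 6 (P f) :=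
    hH.mono E univ _ _ _ (by simp)
  have a4 : ‖P f x‖ ^ 2 ≤ C1 * hs univ 6 (P f) :=
    a1.trans (mul_le_mul_of_nonneg_left a3 hC1)
  have a5 : ‖P f x‖ ≤ √C1 * √(hs univ 6 (P f)) := by
    rw [← Real.sqrt_mul hC1]
    exact Real.le_sqrt_of_sq_le a4
  calc ‖P f x‖ ≤ √C1 * √(hs univ 6 (P f)) := a5
    _ ≤ √C1 * (C2 * √(nq univ 5 f)) := mul_le_mul_of_nonneg_left a2 (Real.sqrt_nonneg _)
    _ = _ := by ring

lemma fin_close (hS : SpecSupU) (hH : SpecHSB) (hPA : SpecPbAlg) (hPbb : SpecPbb)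
    (hPbc : SpecPbc) (hChs : SpecChs) {R T K : ℝ} (hR : 0 < R) {P : (E → E) → E → E}
    (hL : LOp R P) {B : E → E} {FB : ℝ × E → E} (hF : IsFlow B FB)
    (ho : ∀ s x, R ≤ ‖x‖ → FB (s, x) = x) (hK1 : DB 8 K (sl FB T)) (hK2 : DB 8 K (sl FB (-T)))
    {u' : E → E} (hu' : In R u') {c : ℝ} (hc : Bd univ 7 (pb (sl FB T) u') c) :
    ∃ C : ℝ, 0 ≤ C ∧ ∀ (Φ Ψ M : E → E) (η δ : ℝ), Dif R Φ Ψ → DB 8 K Φ → DB 8 K Ψ →
      Bd univ 8 (fun x => Φ x - FB (T, x)) η → Bd univ 8 (fun x => Ψ x - FB (-T, x)) η →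
      In R M → √(nq univ 5 (fun x => M x - pb (sl FB T) u' x)) ≤ δ → ∀ x,
      ‖P (pb Ψ M) x - P u' x‖ ≤ C * (η + δ) := by
  obtain ⟨C1, hC1, h1⟩ := p_sup hS hH hR hL
  obtain ⟨C2, hC2, h2⟩ := hPbb R 5 K
  obtain ⟨C3, hC3, h3⟩ := hPbc 6 K
  obtain ⟨C4, hC4, h4⟩ := hChs R 6
  have hc0 : 0 ≤ c := bd_nonneg hc
  refine ⟨C1 * (2 * C2 + 8 * (C4 * (C3 * c))), by positivity, ?_⟩
  intro Φ Ψ M η δ hd hΦ hΨ hη1 hη2 hM hδ x
  have hη0 : 0 ≤ η := bd_nonneg hη1
  have hδ0 : 0 ≤ δ := (Real.sqrt_nonneg _).trans hδ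
  have hdF := flow_dif hF ho T
  have hdFi := hPA.dif R _ _ hdF
  have hd' := hPA.dif R _ _ hd
  set m' := pb (sl FB T) u' with hm'
  have hm'in : In R m' := hPA.inp R _ _ _ hdF hu'
  have hdm : In R (fun x => M x - m' x) := LopM.in_sub hM hm'in
  have i1 : In R (pb Ψ fun x => M x - m' x) := hPA.inp R _ _ _ hd' hdm
  have i2 : In R (fun x => pb Ψ m' x - pb (sl FB (-T)) m' x) :=
    LopM.in_sub (hPA.inp R _ _ _ hd' hm'in) (hPA.inp R _ _ _ hdFi hm'in)
  have e1 : ∀ y, pb (sl FB (-T)) m' y = u' y := by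
    intro y
    rw [hm', hPA.comp (sl FB (-T)) (sl FB T) u' hdF.smoothi hdF.smooth y]
    have : (fun y => sl FB T (sl FB (-T) y)) = fun y => y := funext hdF.right
    rw [this]
    exact hPA.id u' y
  have e2 : (fun y => pb Ψ M y - u' y) = fun y => pb Ψ (fun x => M x - m' x) y +
      (pb Ψ m' y - pb (sl FB (-T)) m' y) := by
    funext y
    rw [pb_sub, e1]
    abel
  have hPM : In R (pb Ψ M) := hPA.inp R _ _ _ hd' hM
  have e3 : P (pb Ψ M) x - P u' x = P (fun y => pb Ψ M y - u' y) x := by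
    have hn : In R (fun y => (-1 : ℝ) • u' y) := LopM.in_smul (-1) hu'
    have a1 := hL.cop.add (pb Ψ M) (fun y => (-1 : ℝ) • u' y) hPM hn
    rw [hL.cop.smul (-1) u' hu'] at a1
    have a2 : (fun y => pb Ψ M y + (-1 : ℝ) • u' y) = fun y => pb Ψ M y - u' y := by
      funext y
      rw [neg_one_smul, sub_eq_add_neg]
    rw [a2] at a1
    rw [a1]
    simp only [neg_one_smul, sub_eq_add_neg]
  have b1 := (h2 Ψ Φ hd' (db_mono hΨ (by norm_num) le_rfl) (db_mono hΦ (by norm_num) le_rfl)).1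
    (fun x => M x - m' x) hdm
  have b2 := (h3 R Ψ Φ (sl FB (-T)) (sl FB T) η hd' hdFi hΨ hΦ hK2 hK1
    (bd_mono hη2 (by norm_num) le_rfl) (bd_mono hη1 (by norm_num) le_rfl)).1 m' c hm'in.smooth hc
  have b3 := h4 E _ _ i2 b2
  have b4 := LopM.sqrt_nq_le 5 i2
  have b5 := ItB.sqrt_nq_add hH 5 i1 i2 hR
  have b6 := h1 (fun y => pb Ψ M y - u' y) (LopM.in_sub hPM hu') x
  rw [e3]
  refine b6.trans ?_
  rw [mul_assoc C1]
  refine mul_le_mul_of_nonneg_left ?_ hC1
  rw [e2]
  refine b5.trans ?_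
  have c1 : √(nq univ 5 (pb Ψ fun x => M x - m' x)) ≤ C2 * δ :=
    b1.trans (mul_le_mul_of_nonneg_left hδ hC2)
  have c2 : √(nq univ 5 (fun x => pb Ψ m' x - pb (sl FB (-T)) m' x)) ≤
      4 * (C4 * (C3 * c * η)) := b4.trans (mul_le_mul_of_nonneg_left b3 (by norm_num))
  calc _ ≤ 2 * (C2 * δ) + 2 * (4 * (C4 * (C3 * c * η))) := by linarith
    _ = 2 * C2 * δ + 8 * (C4 * (C3 * c)) * η := by ring
    _ ≤ (2 * C2 + 8 * (C4 * (C3 * c))) * (η + δ) := by
        have p1 : 0 ≤ 2 * C2 * η := by positivity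
        have p2 : 0 ≤ 8 * (C4 * (C3 * c)) * δ := by positivity
        nlinarith

end MPfab.RzN
end

section
/-!
MP_fabde4_an, module REALIZE, part F: more lemmas for the assembly.
-/
set_option autoImplicit false
open MeasureTheory Set Filter Topology

namespace MPfab.RzN

/-- smooth fields supported in a ball have bounded derivatives -/
lemma bd_of_in (hC : SpecCpt) {R : ℝ} {f : E → E} (hf : In R f) (k : ℕ) :
    ∃ c : ℝ, Bd univ k f c := by
  obtain ⟨c, hc⟩ := hC.bd ℝ E R (fun p => f p.2) (hf.smooth.comp contDiff_snd)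
    (fun _ x hx => hf.supp x hx) {0} isCompact_singleton k
  exact ⟨c, hc 0 (mem_singleton _)⟩

lemma iter_smooth {f : E → E} (hf : Sm f) (k : ℕ) : Sm (f^[k]) := by
  induction k with
  | zero => exact contDiff_id
  | succ k ih =>
    rw [Function.iterate_succ]
    exact ih.comp hf

lemma test_in {ρ : E → ℝ} {R : ℝ} {af : E → E} (h : Test (D ρ) af)
    (hb : ∀ x, ρ x ≤ 0 → ‖x‖ < R) : In R af := by
  refine ⟨h.smooth, fun x hx => ?_⟩
  by_contra hne
  have h1 : x ∈ tsupport af := subset_tsupport _ hne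
  have h2 : ρ x < 0 := h.sub h1
  linarith [hb x h2.le]

/-- the control field is a word -/
lemma word_time {Cl : (E → E) → Prop} {C : ℝ × E → E} (h : Word Cl C) {st : ℝ → ℝ}
    (hst : Sm st) : Word Cl (fun p : ℝ × E => deriv st p.1 • C (st p.1, p.2)) := by
  obtain ⟨N, lam, X, h1, h2, h3⟩ := h
  refine ⟨N, fun i t => deriv st t * lam i (st t), X, fun i => (sm_deriv hst).mul
    ((h1 i).comp hst), h2, fun p => ?_⟩
  simp only
  rw [h3, Finset.smul_sum]
  refine Finset.sum_congr rfl fun i _ => ?_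
  rw [smul_smul]

lemma word_tan {ρ : E → ℝ} {R : ℝ} {P : (E → E) → E → E} {Q : (E → E) → E → ℝ} {B0 : Set E}
    (hCT : SpecCTan) (hd : Dat ρ R P Q B0) {b : ℝ × E → E} (h : Word (Ctl Q B0) b) (s : ℝ) :
    Tan ρ (sl b s) := by
  obtain ⟨N, lam, X, h1, h2, h3⟩ := h
  intro x hx
  have e : sl b s x = ∑ i, lam i s • X i x := h3 (s, x)
  rw [e, map_sum]
  refine Finset.sum_eq_zero fun i _ => ?_
  rw [map_smul]
  obtain ⟨Ψ, hΨ, hX⟩ := h2 i
  have h4 := (hCT ρ R P Q B0 Ψ hd.dom hd.ler hd.sub hΨ hd.pos).2 x hx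
  rw [hX, h4, smul_zero]

/-- points of the closed domain stay there, backwards -/
lemma stay {ρ : E → ℝ} {R : ℝ} {c Θ Θi : ℝ × E → E} (hWft : SpecWftan) (hρ : Dom ρ)
    (hW : WF R c Θ Θi) (ht : ∀ s, Tan ρ (sl c s)) (s : ℝ) {x : E} (hx : ρ x ≤ 0) :
    ρ (Θi (s, x)) ≤ 0 := by
  have h := hWft ρ R c Θ Θi hρ hW ht s (Θi (s, x))
  rw [hW.right] at h
  rcases lt_or_eq_of_le hx with h1 | h1
  · exact (h.1.mp h1).le
  · exact (h.2.mp h1).le

lemma stay' {ρ : E → ℝ} {R : ℝ} {c Θ Θi : ℝ × E → E} (hWft : SpecWftan) (hρ : Dom ρ)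
    (hW : WF R c Θ Θi) (ht : ∀ s, Tan ρ (sl c s)) (s : ℝ) {x : E} (hx : ρ x ≤ 0) :
    ρ (Θ (s, x)) ≤ 0 := by
  have h := hWft ρ R c Θ Θi hρ hW ht s x
  rcases lt_or_eq_of_le hx with h1 | h1
  · exact (h.1.mpr h1).le
  · exact (h.2.mpr h1).le

/-- integral of the majorants -/
lemma int_le {h : ℝ → ℝ} (hc : Continuous h) {T0 c1 c2 H G : ℝ} (hc2 : 0 ≤ c2)
    (hH : (∫ t in (-T0)..T0, h t) ≤ H) (hG : 2 * T0 * c1 + c2 * H ≤ G) :
    (∫ t in (-T0)..T0, (c1 + c2 * h t)) ≤ G := by
  have hi : IntervalIntegrable (fun t => c2 * h t) volume (-T0) T0 :=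
    (continuous_const.mul hc).intervalIntegrable _ _
  rw [intervalIntegral.integral_add (by simp) hi,
    intervalIntegral.integral_const, intervalIntegral.integral_const_mul]
  have : c2 * (∫ t in (-T0)..T0, h t) ≤ c2 * H := mul_le_mul_of_nonneg_left hH hc2
  simp only [smul_eq_mul]
  nlinarith

/-- the choice of the constants of the slow phase -/
lemma slow_bounds {R η1 : ℝ} {FB I : ℝ × E → E} {t s : ℝ} {Φ Ψ φ φi : E → E}
    (hI : InT R I) (hΦ : Φ = φ) (hΨ : Ψ = φi) (hφ : Sm φ) (hφi : Sm φi) (hFB : Sm FB)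
    (h1 : Bd univ 8 (fun x => φ x - FB (s, x)) η1)
    (h2 : Bd univ 8 (fun x => φi x - FB (-s, x)) η1)
    (h3 : Bd univ 8 (fun x => FB (s, x) - FB (t, x)) η1)
    (h4 : Bd univ 8 (fun x => FB (-s, x) - FB (-t, x)) η1) :
    Bd univ 8 (fun x => Φ x - FB (t, x)) (η1 + η1) ∧
      Bd univ 8 (fun x => Ψ x - FB (-t, x)) (η1 + η1) ∧ In R (fun x => I (s, x) - I (t, x)) := by
  have s1 : ∀ t, Sm (fun x => FB (t, x)) := fun t => PDC.sl_smooth hFB t
  refine ⟨?_, ?_, LopM.in_sub (ItB.in_sl hI s) (ItB.in_sl hI t)⟩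
  · have h := bd_add (hφ.sub (s1 s)) ((s1 s).sub (s1 t)) h1 h3
    have e : (fun x => Φ x - FB (t, x)) =
        fun x => (φ x - FB (s, x)) + (FB (s, x) - FB (t, x)) := by
      funext x
      rw [hΦ]
      abel
    rw [e]
    exact h
  · have h := bd_add (hφi.sub (s1 (-s))) ((s1 (-s)).sub (s1 (-t))) h2 h4
    have e : (fun x => Ψ x - FB (-t, x)) =
        fun x => (φi x - FB (-s, x)) + (FB (-s, x) - FB (-t, x)) := by
      funext x
      rw [hΨ]
      abel
    rw [e]
    exact h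

end MPfab.RzN
end

section
/-!
MP_fabde4_an, module REALIZE: the real controlled solution in the moving frame.
-/
set_option autoImplicit false
open MeasureTheory Set Filter Topology

namespace MPfab

open RzN

theorem specRealize (hComm : SpecComm) (hReset : SpecReset) (hCyc : SpecCyc)
    (hSched : SpecSched) (hTint : SpecTint) (hAvg : SpecAvg) (hCont : SpecCont)
    (hMov : SpecMov) (hFast : SpecFastB) (hPT : SpecPT) (hPA : SpecPbAlg) (hPD : SpecPbDt)
    (hPS : SpecPbSm) (hC : SpecCpt) (hWfl : SpecWfl) (hWft : SpecWftan) (hLop : SpecLop)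
    (hI : SpecIncSm) (hIA : SpecIncAlg) (hVlb : SpecVlb) (hPbb : SpecPbb) (hPbc : SpecPbc)
    (hChs : SpecChs) (hCT : SpecCTan) (hS : SpecSupU) (hH : SpecHSB) : SpecRealize := by
  intro σ ρ R T P1 Q1 P2 Q2 B0 FB u q Z2 Zo K v0 q0 r0 af nn X Y H hX hY hHc lv η hη
  have hR := lv.dat.pos
  have hT := lv.Tpos
  set B : E → E := drift X Y H with hB
  have hρ : Dom ρ := lv.dat.dom.toDom
  have hL1 : LOp R P1 := hLop σ R P1 Q1 lv.domσ.toDom lv.ler1
  have hL2 : LOp R P2 := hLop ρ R P2 Q2 hρ lv.dat.ler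
  have hd : ∀ t, Dif R (sl FB t) (sl FB (-t)) := flow_dif lv.flow lv.outF
  have hafR : In R af := test_in lv.test lv.dat.ball
  -- the compact neighbourhood
  have hK1c : IsCompact (K ∪ tsupport af) := lv.cpt.union lv.test.cpt
  have hK1s : K ∪ tsupport af ⊆ D ρ := union_subset lv.subK lv.test.sub
  obtain ⟨d1, hd1, hK's⟩ := hK1c.exists_cthickening_subset_open (EngM.D_open hρ) hK1s
  set K' : Set E := Metric.cthickening d1 (K ∪ tsupport af) with hK'
  have hK'c : IsCompact K' := hK1c.cthickening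
  -- the loops
  obtain ⟨J, χ, s0, s1, c, Θ, Θi, hχt, hχ1, hcw, hcf, hcs, hΘ1, hslot⟩ :=
    hReset ρ R P2 Q2 B0 K' lv.dat hK'c hK's
  have hss : ∀ j, 1 / 2 < s0 j ∧ s0 j < s1 j ∧ s1 j < 1 := fun j =>
    ⟨(hslot j).1, (hslot j).2.1, (hslot j).2.2.1⟩
  -- the displacement
  have hCl : ∀ Z, Ctl Q2 B0 Z → In R Z := by
    rintro Z ⟨Ψ, hΨ, rfl⟩
    exact (hCT ρ R P2 Q2 B0 Ψ lv.dat.dom lv.dat.ler lv.dat.sub hΨ hR).1
  obtain ⟨w, φ, φi, βd, βi, hDsp0⟩ := hComm R (Ctl Q2 B0) nn X Y H hR hCl hX hY hHc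
  have hDsp : Dsp (Ctl Q2 B0) R w φ φi βd βi B := hDsp0
  -- the primitive
  have hZin : InT R (fun p : ℝ × E => pb (sl FB p.1) (sl Z2 p.1) p.2) :=
    inT_pb (Ψ := fun p => FB (-p.1, p.2)) hPA hPS lv.flow.smooth hd lv.inZ2
  obtain ⟨I, hIin, hI0, hId⟩ := hTint E R _ hZin
  have hId' : ∀ t x, HasDerivAt (fun s => I (s, x)) (pb (sl FB t) (sl Z2 t) x) t := hId
  -- constants of the slow phase
  obtain ⟨cF, hcF⟩ := hC.db ℝ R FB lv.flow.smooth (fun w x hx => lv.outF w x hx) (Icc (-T) T)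
    isCompact_Icc 8
  have huin : InT R (fun p : ℝ × E => pb (sl FB p.1) (sl u p.1) p.2) :=
    inT_pb (Ψ := fun p => FB (-p.1, p.2)) hPA hPS lv.flow.smooth hd lv.inu
  obtain ⟨cu, hcu⟩ := hC.bd ℝ E R _ huin.smooth (fun w x hx => huin.supp w x hx) (Icc (-T) T)
    isCompact_Icc 8
  obtain ⟨Ks, hKs1, hKs2⟩ : ∃ Ks : ℝ, cF + 1 ≤ Ks ∧ cu + 1 ≤ Ks :=
    ⟨max (cF + 1) (cu + 1), le_max_left _ _, le_max_right _ _⟩
  obtain ⟨cs, hcs'⟩ := hFast R P1 P2 hR hL1 hL2 Ks
  obtain ⟨Cf, hCf⟩ := hMov R P1 P2 hR hL1 hL2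
  obtain ⟨C0, hC0, hpt⟩ := hPT R (T + 2) hR (by linarith)
  -- the end
  have hu' : In R (fun y => u (T, y) + af y) := LopM.in_add (ItB.in_sl lv.inu T) hafR
  have hTm : T ∈ Icc (-T) T := ⟨by linarith, le_rfl⟩
  have hTm' : -T ∈ Icc (-T) T := ⟨le_rfl, by linarith⟩
  have hKF1 : DB 8 Ks (sl FB T) := db_mono (hcF T hTm) le_rfl (by linarith)
  have hKF2 : DB 8 Ks (sl FB (-T)) := db_mono (hcF (-T) hTm') le_rfl (by linarith)
  obtain ⟨c', hc'⟩ := bd_of_in hC (hPA.inp R _ _ _ (hd T) hu') 7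
  obtain ⟨C1, hC1, hfin⟩ := fin_close hS hH hPA hPbb hPbc hChs hR hL2 lv.flow lv.outF hKF1 hKF2
    hu' hc'
  -- the choice of the accuracy
  set A : ℝ := 2 * (T + 2) * (C0 * |Cf Ks| * (1 + |cs|)) + 1 with hA
  set e0 : ℝ := min 1 (η / (2 * (C1 + 1))) with he0
  have he0pos : 0 < e0 := by
    rw [he0]
    positivity
  have he01 : e0 ≤ 1 := min_le_left _ _
  have he0η : C1 * (e0 + e0) ≤ η := by
    have h1 : e0 ≤ η / (2 * (C1 + 1)) := min_le_right _ _
    have h2 : e0 * (2 * (C1 + 1)) ≤ η := by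
      rwa [le_div_iff₀ (by positivity)] at h1
    nlinarith
  set G : ℝ := e0 * Real.exp (-(2 * A)) with hG
  have hGpos : 0 < G := mul_pos he0pos (Real.exp_pos _)
  have hGA : G * Real.exp (2 * A) = e0 := by
    rw [hG, mul_assoc, ← Real.exp_add]
    simp
  set γs : ℝ := G / (4 * (T + 2) * (C0 + 1)) with hγs
  have hγspos : 0 < γs := by
    rw [hγs]
    positivity
  have hγs2 : 2 * (T + 2) * (C0 * γs) ≤ G / 2 := by
    have h1 : γs * (4 * (T + 2) * (C0 + 1)) = G := by
      rw [hγs]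
      field_simp
    have h2 : 0 ≤ 4 * (T + 2) * γs := by positivity
    nlinarith
  obtain ⟨δ, hδ, hcont⟩ := hCont R T P2 B FB u hR hL2 lv.inB lv.flow lv.outF lv.inu γs hγspos
  set η1 : ℝ := min (min (δ / 2) (d1 / 2)) (min (e0 / 2) (1 / 2)) with hη1
  have hη1pos : 0 < η1 := by
    rw [hη1]
    positivity
  have hη1δ : η1 + η1 ≤ δ := by
    have : η1 ≤ δ / 2 := (min_le_left _ _).trans (min_le_left _ _)
    linarith
  have hη1d : η1 + η1 ≤ d1 := by
    have : η1 ≤ d1 / 2 := (min_le_left _ _).trans (min_le_right _ _)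
    linarith
  have hη1e : η1 + η1 ≤ e0 := by
    have : η1 ≤ e0 / 2 := (min_le_right _ _).trans (min_le_left _ _)
    linarith
  have hη11 : η1 + η1 ≤ 1 := by
    have : η1 ≤ 1 / 2 := (min_le_right _ _).trans (min_le_right _ _)
    linarith
  -- the number of cycles
  obtain ⟨r, n, hn1, hr, hrn, hfw, hbw, huc⟩ := slow_ex hAvg hC hDsp hR hT lv.flow lv.outF hIin
    hη1pos
  have hn0 : 0 < (n : ℝ) := by exact_mod_cast hn1
  set τ : ℝ := T / n with hτ
  have hτpos : 0 < τ := div_pos hT hn0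
  have hτn : τ * (n : ℝ) = T := by
    rw [hτ]
    field_simp
  obtain ⟨C, ΘN, ΘNi, hCw, hCWF, hΘk, hΘs⟩ :=
    hCyc (Ctl Q2 B0) R w φ φi βd βi c Θ Θi B hDsp hcw hcf hcs hΘ1 r n
  have hφ1 : Sm (fun y => φ (r, y)) := by
    have e : (fun y => φ (r, y)) = fun y => y + r ^ 2 • βd (r, y) := funext fun y => hDsp.exp r y
    rw [e]
    exact contDiff_id.add ((hDsp.sm.comp (contDiff_const.prodMk contDiff_id)).const_smul _)
  have hφi1 : Sm (fun y => φi (r, y)) := by
    have e : (fun y => φi (r, y)) = fun y => y + r ^ 2 • βi (r, y) :=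
      funext fun y => hDsp.expi r y
    rw [e]
    exact contDiff_id.add ((hDsp.smi.comp (contDiff_const.prodMk contDiff_id)).const_smul _)
  set φk : ℕ → E → E := fun k => (fun y => φ (r, y))^[k] with hφk
  have hφks : ∀ k, Sm (φk k) := fun k => iter_smooth hφ1 k
  set a : ℕ → Fin J → E → E := ak I FB af T τ n χ φk with ha
  have hain : ∀ k j, In R (a k j) := fun k j =>
    in_ak hPA (hd T) hIin hafR (fun j => (hχt j).smooth) hφks k j
  -- supports
  have hgood : ∀ k, k < n → ∀ t, τ * (k : ℝ) ≤ t → t ≤ τ * ((k : ℝ) + 1) → ∀ x,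
      ‖φk (k + 1) x - FB (t, x)‖ ≤ d1 := by
    intro k hk t h1 h2 x
    have b1 := hfw (k + 1) hk [] (by simp) x (mem_univ _)
    have hk' : (k : ℝ) + 1 ≤ n := by exact_mod_cast hk
    have hk0 : (0 : ℝ) ≤ k := Nat.cast_nonneg k
    have b2 := (huc (τ * ((k : ℝ) + 1)) t (by positivity) (by nlinarith) (by nlinarith)
      (by nlinarith) (by rw [abs_of_nonneg (by linarith)]; nlinarith)).1 [] (by simp) x
        (mem_univ _)
    simp only [pds] at b1 b2
    push_cast at b1
    calc ‖φk (k + 1) x - FB (t, x)‖ = ‖(φk (k + 1) x - FB (τ * ((k : ℝ) + 1), x)) +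
        (FB (τ * ((k : ℝ) + 1), x) - FB (t, x))‖ := by
          congr 1
          abel
      _ ≤ η1 + η1 := (norm_add_le _ _).trans (add_le_add b1 b2)
      _ ≤ d1 := hη1d
  have hg1 : ∀ x, ∀ k, k < n → ∀ t, τ * (k : ℝ) ≤ t → t ≤ τ * ((k : ℝ) + 1) → FB (t, x) ∈ K →
      φk (k + 1) x ∈ K' := by
    intro x k hk t h1 h2 h3
    refine Metric.mem_cthickening_of_dist_le _ (FB (t, x)) d1 _ (Or.inl h3) ?_
    rw [dist_eq_norm]
    exact hgood k hk t h1 h2 x
  have hg2 : ∀ x, FB (T, x) ∈ tsupport af → φk n x ∈ K' := by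
    intro x h3
    refine Metric.mem_cthickening_of_dist_le _ (FB (T, x)) d1 _ (Or.inr h3) ?_
    rw [dist_eq_norm]
    have b1 := hfw n le_rfl [] (by simp) x (mem_univ _)
    simp only [pds] at b1
    rw [hτn] at b1
    exact b1.trans (by linarith)
  have hmh : ∀ m : ℕ, m ≤ n → ∀ t b x, mh FB u I v0 s0 s1 n a ((t, (m : ℝ), b), x) =
      pb (sl FB t) (sl u t) x + (1 - b) • (v0 x - u (0, x)) +
        (I (τ * (m : ℝ), x) + if m = n then pb (sl FB T) af x else 0) - I (t, x) :=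
    fun m hm t b x => mh_at hss hn1 hτpos.le hI0 hId' lv.suppZ2 hχ1 x (hg1 x) (hg2 x) m hm t b
  -- constants of the fast phase
  have hdN := hWfl.dif R C ΘN ΘNi hCWF
  obtain ⟨f1, hf1⟩ := hC.db ℝ R ΘN hCWF.smooth (fun s x hx => hCWF.out s x hx) (Icc 0 (n : ℝ))
    isCompact_Icc 8
  obtain ⟨f2, hf2⟩ := hC.db ℝ R ΘNi hCWF.smoothi
    (fun s x hx => (hPA.dif R _ _ (hdN s)).out x hx) (Icc 0 (n : ℝ)) isCompact_Icc 8
  have hmhs : Sm (mh FB u I v0 s0 s1 n a) :=
    mh_smooth hPS lv.flow.smooth lv.inu hIin lv.inv0 hain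
  have hmhz := mh_supp (s0 := s0) (s1 := s1) (n := n) hPA hd lv.inu hIin lv.inv0 hain
  obtain ⟨f3, hf3⟩ := hC.bd (ℝ × ℝ × ℝ) E R (mh FB u I v0 s0 s1 n a) hmhs hmhz
    (Icc (-1) (T + 1) ×ˢ (Icc 0 (n : ℝ) ×ˢ Icc 0 1))
    (isCompact_Icc.prod (isCompact_Icc.prod isCompact_Icc)) 8
  have hWin : InT R (wW FB B u q Z2 Zo) :=
    inT_pb (Ψ := fun p => FB (-p.1, p.2)) hPA hPS lv.flow.smooth hd
      (inT_wf hR lv.inB lv.inu lv.inq lv.inZ2 lv.inZo)
  obtain ⟨f4, hf4⟩ := hC.bd ℝ E R (wW FB B u q Z2 Zo) hWin.smooth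
    (fun w x hx => hWin.supp w x hx) (Icc (-1) (T + 1)) isCompact_Icc 8
  obtain ⟨Kf, hKf1, hKf2, hKf3, hKf4⟩ : ∃ Kf : ℝ, f1 ≤ Kf ∧ f2 ≤ Kf ∧ f3 ≤ Kf ∧ f4 ≤ Kf :=
    ⟨max (max f1 f2) (max f3 f4), (le_max_left _ _).trans (le_max_left _ _),
      (le_max_right _ _).trans (le_max_left _ _), (le_max_left _ _).trans (le_max_right _ _),
      (le_max_right _ _).trans (le_max_right _ _)⟩
  obtain ⟨cf, hcf'⟩ := hFast R P1 P2 hR hL1 hL2 Kf
  -- the length of the fast phases
  set M0 : ℝ := C0 * |Cf Kf| * (1 + |cf|) + C0 * (4 * |cf|) with hM0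
  have hM00 : 0 ≤ M0 := by
    rw [hM0]
    positivity
  obtain ⟨ε, hε, hε1, hε2, hε3⟩ : ∃ ε : ℝ, 0 < ε ∧ 4 * ε < T / n ∧ ε < 1 ∧
      M0 * (6 * ((n : ℝ) + 1) * ε) ≤ min 1 (G / 2) := by
    refine ⟨min (min (τ / 8) (1 / 2)) (min 1 (G / 2) / (6 * ((n : ℝ) + 1) * (M0 + 1))), ?_, ?_,
      ?_, ?_⟩
    · positivity
    · have : min (min (τ / 8) (1 / 2)) (min 1 (G / 2) / (6 * ((n : ℝ) + 1) * (M0 + 1))) ≤ τ / 8 :=
        (min_le_left _ _).trans (min_le_left _ _)
      have h2 : T / n = τ := rfl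
      rw [h2]
      linarith
    · have : min (min (τ / 8) (1 / 2)) (min 1 (G / 2) / (6 * ((n : ℝ) + 1) * (M0 + 1))) ≤
        1 / 2 := (min_le_left _ _).trans (min_le_right _ _)
      linarith
    · have h1 : min (min (τ / 8) (1 / 2)) (min 1 (G / 2) / (6 * ((n : ℝ) + 1) * (M0 + 1))) ≤
        min 1 (G / 2) / (6 * ((n : ℝ) + 1) * (M0 + 1)) := min_le_right _ _
      set e : ℝ := min (min (τ / 8) (1 / 2)) (min 1 (G / 2) / (6 * ((n : ℝ) + 1) * (M0 + 1)))
      have he : 0 ≤ e := by positivity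
      rw [le_div_iff₀ (by positivity)] at h1
      have h2 : 0 ≤ 6 * ((n : ℝ) + 1) * e := by positivity
      nlinarith
  obtain ⟨st, κ, β, θ, h, hst, hκ, hβ, hθ, hh, hst01, hκ01, hβ01, hθ01, hh01, hst0, hstT, hκ1,
    hκ0, hβ0, hβ1, hθ1, hθd, hint, hcase⟩ := hSched T n ε hT hn1 hε hε1 hε2
  -- the frame
  have hst00 : st 0 = 0 := hst0 0 hε.le
  have hWFb := hWfl.time R C ΘN ΘNi st hCWF hst hst00
  set b : ℝ × E → E := fun p => deriv st p.1 • C (st p.1, p.2) with hb
  set Φ : ℝ × E → E := fun p => ΘN (st p.1, p.2) with hΦ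
  set Ψ : ℝ × E → E := fun p => ΘNi (st p.1, p.2) with hΨ
  have hdΦ : ∀ t, Dif R (sl Φ t) (sl Ψ t) := hWfl.dif R b Φ Ψ hWFb
  have hbword : Word (Ctl Q2 B0) b := word_time hCw hst
  have hbt : ∀ s, Tan ρ (sl b s) := word_tan hCT lv.dat hbword
  have hκT0 : ∀ t, T + 2 ≤ |t| → κ t = 0 := by
    intro t ht
    apply hκ0
    rcases le_abs.mp ht with h1 | h1
    · right
      linarith
    · left
      linarith
  obtain ⟨κ', law, hκ'⟩ := hCf (T + 2) κ β Φ Ψ (by linarith) hκ hβ hκT0 hβ01 hWFb.smooth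
    hWFb.smoothi hdΦ
  have hVin : InT R (mref FB u I v0 s0 s1 n a θ st β) := by
    refine ⟨?_, fun t x hx => hmhz _ x hx⟩
    exact hmhs.comp (((hθ.comp contDiff_fst).prodMk ((hst.comp contDiff_fst).prodMk
      (hβ.comp contDiff_fst))).prodMk contDiff_snd)
  set V : ℝ × E → E := mref FB u I v0 s0 s1 n a θ st β with hV
  have hFin : InT R (Ff FB u I v0 s0 s1 n a θ st β κ B q Z2 Zo) := by
    have hdt : InT R (dt V) := by
      refine ⟨PDC.dt_smooth hVin.smooth, fun t x hx => ?_⟩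
      unfold dt
      have : (fun s => V (s, x)) = fun _ => (0 : E) := funext fun s => hVin.supp s x hx
      simp only [this, deriv_const]
    exact ItB.inT_add hdt (inT_resc hWin hκ hθ)
  have hgin : InT R (gg P1 P2 Φ Ψ V (wW FB B u q Z2 Zo) κ β θ) :=
    inT_gg hI hIA hVlb hR law hVin hWin hκ hθ
  set F : ℝ × E → E := Ff FB u I v0 s0 s1 n a θ st β κ B q Z2 Zo with hF
  set g : ℝ × E → E := gg P1 P2 Φ Ψ V (wW FB B u q Z2 Zo) κ β θ with hg
  have hvan : ∀ t x, T + 2 ≤ |t| → F (t, x) = 0 ∧ g (t, x) = 0 := by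
    intro t x ht
    have k0 := hκT0 t ht
    have hεT : ε ≤ T := by
      have h2 : T / n ≤ T := div_le_self hT.le (by exact_mod_cast hn1)
      linarith
    have dst : deriv st t = 0 := by
      rcases le_abs.mp ht with h1 | h1
      · exact deriv_const_right hst hstT (by linarith)
      · exact deriv_const_left hst hst0 (by linarith)
    have dβ : deriv β t = 0 := by
      rcases le_abs.mp ht with h1 | h1
      · exact deriv_const_right hβ hβ1 (by linarith)
      · exact deriv_const_left hβ hβ0 (by linarith)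
    have h1 := (mh_deriv (v0 := v0) (s0 := s0) (s1 := s1) (n := n) (a := a) hPD lv.inB lv.flow
      lv.inu hId' hθ hst hβ t x).deriv
    rw [dst, dβ, hθd t ht] at h1
    constructor
    · change dt V (t, x) + κ t • _ = 0
      rw [k0, zero_smul, add_zero]
      refine Eq.trans h1 ?_
      simp
    · change κ t • _ = 0
      rw [k0, zero_smul]
  have heqA : EqA (vel (mlaw P1 P2 Φ Ψ κ β) V) (fun p => F p + g p) V := by
    intro t x
    rw [cr_vel]
    change _ = (dt V (t, x) + κ t • wW FB B u q Z2 Zo (θ t, x)) + κ t • (_ - _)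
    rw [smul_sub]
    abel
  -- slow times
  have hεT : ε ≤ T := by
    have h2 : T / n ≤ T := div_le_self hT.le (by exact_mod_cast hn1)
    linarith
  have hθ' : ∀ t, 0 ≤ t → t ≤ T → θ t = t := fun t h1 h2 => hθ1 t (by linarith) (by linarith)
  have hslow : ∀ t, ε ≤ t → t ≤ T → ∀ k : ℕ, k < n → T / n * (k : ℝ) ≤ t →
      t ≤ T / n * ((k : ℝ) + 1) → st t = (k : ℝ) → κ t = 1 → DB 8 Ks (sl Φ t) ∧
      DB 8 Ks (sl Ψ t) ∧ Bd univ 8 (sl V t) Ks ∧ √(nq univ 5 (sl g t)) ≤ γs := by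
    intro t hεt htT k hk hkt htk hstk hκt
    have ht0 : 0 ≤ t := by linarith
    have hk' : (k : ℝ) + 1 ≤ n := by exact_mod_cast hk
    have hk0 : (0 : ℝ) ≤ k := Nat.cast_nonneg k
    have hs0 : 0 ≤ τ * (k : ℝ) := by positivity
    have hsT : τ * (k : ℝ) ≤ T := hkt.trans htT
    have habs : |τ * (k : ℝ) - t| ≤ T / n := by
      have e1 : τ * (k : ℝ) ≤ t := hkt
      have e2 : t ≤ τ * ((k : ℝ) + 1) := htk
      have e3 : T / n = τ := rfl
      rw [abs_le, e3]
      constructor <;> nlinarith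
    obtain ⟨u1, u2, u3⟩ := huc (τ * (k : ℝ)) t hs0 hsT ht0 htT habs
    have eΦ : sl Φ t = φk k := by
      funext x
      change ΘN (st t, x) = _
      rw [hstk]
      exact (hΘk k x hk.le).1
    have eΨ : sl Ψ t = (fun y => φi (r, y))^[k] := by
      funext x
      change ΘNi (st t, x) = _
      rw [hstk]
      exact (hΘk k x hk.le).2
    obtain ⟨w1, w2, w3⟩ := slow_bounds hIin eΦ eΨ (hφks k) (iter_smooth hφi1 k) lv.flow.smooth
      (hfw k hk.le) (hbw k hk.le) u1 u2
    have hVt : sl V t = fun y => pb (sl FB t) (sl u t) y +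
        (fun x => I (τ * (k : ℝ), x) - I (t, x)) y := by
      funext y
      change mh FB u I v0 s0 s1 n a ((θ t, st t, β t), y) = _
      have hkn : ¬ (k = n) := by omega
      rw [hθ' t ht0 htT, hstk, hβ1 t hεt, hmh k hk.le, if_neg hkn]
      simp only [sub_self, zero_smul, add_zero]
      abel
    have tmem : t ∈ Icc (-T) T := ⟨by linarith, htT⟩
    have tmem' : -t ∈ Icc (-T) T := ⟨by linarith, by linarith⟩
    have hdb1 : DB 8 Ks (sl Φ t) :=
      db_mono (db_of_bd (hdΦ t).smooth (hd t).smooth (hcF t tmem) w1) le_rfl (by linarith)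
    have hdb2 : DB 8 Ks (sl Ψ t) :=
      db_mono (db_of_bd (hdΦ t).smoothi (hd t).smoothi (hcF (-t) tmem') w2) le_rfl
        (by linarith)
    have hV8 : Bd univ 8 (sl V t) Ks := by
      rw [hVt]
      exact bd_mono (bd_add (PDC.sl_smooth huin.smooth t) w3.smooth (hcu t tmem) u3) le_rfl
        (by linarith)
    refine ⟨hdb1, hdb2, hV8, ?_⟩
    refine gg_slow hPA (hd t) lv.inu.smooth (fun x => lv.eq t x ht0 htT) hκt (hθ' t ht0 htT)
      (hβ1 t hεt) hVt ?_
    exact hcont t ht0 htT (sl Φ t) (sl Ψ t) (fun x => I (τ * (k : ℝ), x) - I (t, x)) (hdΦ t)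
      (bd_mono w1 le_rfl hη1δ) (bd_mono w2 le_rfl hη1δ) w3 (bd_mono u3 le_rfl (by linarith))
  -- fast times
  have hfast : ∀ t, DB 8 Kf (sl Φ t) ∧ DB 8 Kf (sl Ψ t) ∧ Bd univ 8 (sl V t) Kf ∧
      Bd univ 8 (sl (wW FB B u q Z2 Zo) (θ t)) Kf := by
    intro t
    exact ⟨db_mono (hf1 (st t) (hst01 t)) le_rfl hKf1, db_mono (hf2 (st t) (hst01 t)) le_rfl hKf2,
      bd_mono (hf3 (θ t, st t, β t) ⟨hθ01 t, hst01 t, hβ01 t⟩) le_rfl hKf3,
      bd_mono (hf4 (θ t) (hθ01 t)) le_rfl hKf4⟩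
  have hnqV : ∀ t, √(nq univ 6 (sl V t)) ≤ |cf| := by
    intro t
    obtain ⟨z1, z2, z3, z4⟩ := hfast t
    exact ((hcf' (sl Φ t) (sl Ψ t) (sl V t) (β t) (hdΦ t) z1 z2 (ItB.in_sl hVin t) z3
      (hβ01 t).1 (hβ01 t).2).1).trans (le_abs_self _)
  have hgf : ∀ t, √(nq univ 5 (sl g t)) ≤ 4 * |cf| := by
    intro t
    obtain ⟨z1, z2, z3, z4⟩ := hfast t
    have y1 := (hcf' (sl Φ t) (sl Ψ t) (sl V t) (β t) (hdΦ t) z1 z2 (ItB.in_sl hVin t) z3
      (hβ01 t).1 (hβ01 t).2).2
    have y2 := (hcf' (sl Φ t) (sl Ψ t) (sl (wW FB B u q Z2 Zo) (θ t)) (β t) (hdΦ t) z1 z2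
      (ItB.in_sl hWin (θ t)) z4 (hβ01 t).1 (hβ01 t).2).1
    have y3 : √(nq univ 5 (sl (wW FB B u q Z2 Zo) (θ t))) ≤
        √(nq univ 6 (sl (wW FB B u q Z2 Zo) (θ t))) :=
      Real.sqrt_le_sqrt (ItB.nq_mono hH (by norm_num) _)
    exact gg_fast hH hPA hR hL1.cop hL2.cop hdΦ hVin hWin t (hκ01 t)
      (y1.trans (le_abs_self _)) ((y3.trans y2).trans (le_abs_self _))
  -- the bounds for PT
  set c1 : ℝ := C0 * |Cf Ks| * (1 + |cs|) with hc1
  set c2 : ℝ := C0 * |Cf Kf| * (1 + |cf|) with hc2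
  have hc10 : 0 ≤ c1 := by positivity
  have hc20 : 0 ≤ c2 := by positivity
  have hαb : ∀ t, C0 * κ' 5 t * (1 + √(nq univ 6 (sl V t))) ≤ c1 + c2 * h t := by
    intro t
    have n0 := Real.sqrt_nonneg (nq univ 6 (sl V t))
    have h0 := (hh01 t).1
    have k0 := law.nonneg 5 t
    rcases hcase t with hk | hk | ⟨e1, e2, e3, k, ek, e4, e5, e6⟩
    · obtain ⟨z1, z2, z3, z4⟩ := hfast t
      have k1 := hκ' t Kf (db_mono z1 (by norm_num) le_rfl) (db_mono z2 (by norm_num) le_rfl)
      rw [hk, abs_zero, mul_zero] at k1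
      have k2 : κ' 5 t = 0 := le_antisymm k1 k0
      rw [k2, mul_zero, zero_mul]
      positivity
    · obtain ⟨z1, z2, z3, z4⟩ := hfast t
      have k1 := hκ' t Kf (db_mono z1 (by norm_num) le_rfl) (db_mono z2 (by norm_num) le_rfl)
      have k2 : Cf Kf * |κ t| ≤ |Cf Kf| := by
        have a1 : |κ t| ≤ 1 := by
          rw [abs_of_nonneg (hκ01 t).1]
          exact (hκ01 t).2
        calc Cf Kf * |κ t| ≤ |Cf Kf| * |κ t| :=
              mul_le_mul_of_nonneg_right (le_abs_self _) (abs_nonneg _)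
          _ ≤ |Cf Kf| * 1 := mul_le_mul_of_nonneg_left a1 (abs_nonneg _)
          _ = |Cf Kf| := mul_one _
      have k3 : C0 * κ' 5 t ≤ C0 * |Cf Kf| := mul_le_mul_of_nonneg_left (k1.trans k2) hC0
      have k4 : 1 + √(nq univ 6 (sl V t)) ≤ 1 + |cf| := by linarith [hnqV t]
      have k5 := mul_le_mul k3 k4 (by positivity) (by positivity)
      rw [hk, mul_one]
      linarith
    · obtain ⟨z1, z2, z3, z4⟩ := hslow t e1 e2 k ek e4 e5 e6 e3
      have k1 := hκ' t Ks (db_mono z1 (by norm_num) le_rfl) (db_mono z2 (by norm_num) le_rfl)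
      rw [e3, abs_one, mul_one] at k1
      have k2 : √(nq univ 6 (sl V t)) ≤ |cs| :=
        ((hcs' (sl Φ t) (sl Ψ t) (sl V t) (β t) (hdΦ t) z1 z2 (ItB.in_sl hVin t) z3
          (hβ01 t).1 (hβ01 t).2).1).trans (le_abs_self _)
      have k3 : C0 * κ' 5 t ≤ C0 * |Cf Ks| :=
        mul_le_mul_of_nonneg_left (k1.trans (le_abs_self _)) hC0
      have k4 : 1 + √(nq univ 6 (sl V t)) ≤ 1 + |cs| := by linarith
      have k5 := mul_le_mul k3 k4 (by positivity) (by positivity)
      have k6 : 0 ≤ c2 * h t := by positivity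
      linarith
  have hγb : ∀ t, C0 * √(nq univ 5 (sl g t)) ≤ C0 * γs + C0 * (4 * |cf|) * h t := by
    intro t
    have h0 := (hh01 t).1
    rcases hcase t with hk | hk | ⟨e1, e2, e3, k, ek, e4, e5, e6⟩
    · rw [hg, gg_zero hH t hk, mul_zero]
      positivity
    · have k1 := mul_le_mul_of_nonneg_left (hgf t) hC0
      have k2 : 0 ≤ C0 * γs := by positivity
      rw [hk, mul_one]
      linarith
    · have k1 := mul_le_mul_of_nonneg_left (hslow t e1 e2 k ek e4 e5 e6 e3).2.2.2 hC0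
      have k6 : 0 ≤ C0 * (4 * |cf|) * h t := by positivity
      linarith
  have hHn : 0 ≤ 6 * ((n : ℝ) + 1) * ε := by positivity
  have hAi : (∫ t in (-(T + 2))..(T + 2), (c1 + c2 * h t)) ≤ A := by
    refine int_le hh hc20 hint ?_
    have k1 : c2 * (6 * ((n : ℝ) + 1) * ε) ≤ M0 * (6 * ((n : ℝ) + 1) * ε) := by
      refine mul_le_mul_of_nonneg_right ?_ hHn
      have : 0 ≤ C0 * (4 * |cf|) := by positivity
      linarith
    have k2 : M0 * (6 * ((n : ℝ) + 1) * ε) ≤ 1 := hε3.trans (min_le_left _ _)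
    rw [hA]
    linarith
  have hGi : (∫ t in (-(T + 2))..(T + 2), (C0 * γs + C0 * (4 * |cf|) * h t)) ≤ G := by
    refine int_le hh (by positivity) hint ?_
    have k1 : C0 * (4 * |cf|) * (6 * ((n : ℝ) + 1) * ε) ≤ M0 * (6 * ((n : ℝ) + 1) * ε) := by
      refine mul_le_mul_of_nonneg_right ?_ hHn
      linarith
    have k2 : M0 * (6 * ((n : ℝ) + 1) * ε) ≤ G / 2 := hε3.trans (min_le_right _ _)
    linarith
  obtain ⟨m, hm, hm0, hmeq, hmc⟩ := hpt (mlaw P1 P2 Φ Ψ κ β) κ' law V F g hVin hFin hgin hvan heqA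
    (fun t => c1 + c2 * h t) (fun t => C0 * γs + C0 * (4 * |cf|) * h t)
    (continuous_const.add (continuous_const.mul hh)) (continuous_const.add
      (continuous_const.mul hh)) hαb hγb A G hAi hGi (by rw [hGA]; exact he01)
  -- the initial value
  have hm0' : ∀ x, m (0, x) = v0 x := by
    intro x
    have e1 : m (0, x) = V (0, x) := congrFun hm0 x
    rw [e1]
    change mh FB u I v0 s0 s1 n a ((θ 0, st 0, β 0), x) = _
    have h0n : ¬ (0 = n) := by omega
    have e2 := hmh 0 (Nat.zero_le n) 0 0 x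
    have e3 : pb (sl FB 0) (sl u 0) x = u (0, x) := by
      have : sl FB 0 = fun y => y := funext lv.flow.zero
      rw [this]
      exact hPA.id _ x
    rw [if_neg h0n, Nat.cast_zero, mul_zero, hI0, e3] at e2
    rw [hθ' 0 le_rfl hT.le, hst00, hβ0 0 le_rfl, e2]
    simp
  -- the pressure
  have hpress : ∀ t x, 0 ≤ t → t ≤ T → σ x ≤ 0 →
      pb (sl Ψ t) (sl F t) x = gr (sl (prs FB Ψ q q0 β) t) x := by
    intro t x ht0 htT hσ
    have hρx : ρ x ≤ 0 := lv.sub x hσ
    have hρΨ : ρ (Ψ (t, x)) ≤ 0 := stay hWft hρ hWFb hbt t hρx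
    have hρF : ρ (FB (t, Ψ (t, x))) ≤ 0 :=
      stay' hWft hρ (flow_wf lv.inB lv.flow lv.outF) (fun s => lv.tanB) t hρΨ
    refine press (r0 := r0) (Zo := Zo) (s0 := s0) (s1 := s1) (n := n) (a := a) (st := st) hPA
      lv.flow.smooth hWFb.smoothi lv.inq.smooth lv.inq0.smooth t x ?_ lv.init
      (lv.suppZo t _ ht0 htT hρF) (lv.suppr0 _ hρΨ) ?_
    · exact Ff_eq hPD lv.inB lv.flow lv.inu hId' hθ hst hβ hε hκ1 hθ1 t ht0 htT (Ψ (t, x))
    · intro k hk j hne
      by_contra hak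
      have hs' : s0 j ≤ st t - (k : ℝ) ∧ st t - (k : ℝ) ≤ s1 j := by
        constructor
        · by_contra hlt
          exact hne (gj_deriv (hss j).2.1 (Or.inl (not_le.mp hlt).le))
        · by_contra hlt
          exact hne (gj_deriv (hss j).2.1 (Or.inr (not_le.mp hlt).le))
      have hχ : χ j (φk (k + 1) (Ψ (t, x))) ≠ 0 := by
        intro h0
        apply hak
        rw [ha]
        unfold ak
        rw [h0, zero_smul]
      have h1 := (hslot j).2.2.2 (st t - (k : ℝ)) (φk (k + 1) (Ψ (t, x))) hs'.1 hs'.2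
        (subset_tsupport _ hχ)
      have h2 := hΘs k (st t - (k : ℝ)) (Ψ (t, x)) hk (by linarith [(hss j).1])
        (by linarith [(hss j).2.2])
      rw [add_sub_cancel] at h2
      have h3 : ΘN (st t, Ψ (t, x)) = x := hWFb.right t x
      have h4 : x ∈ B0 := by
        rw [← h3, h2]
        exact h1
      linarith [lv.out0 x h4]
  -- the final value
  have hclose : ∀ x, ‖P2 (pb (sl Ψ T) (sl m T)) x - P2 (fun y => u (T, y) + af y) x‖ ≤ η := by
    have hstTn : st T = (n : ℝ) := hstT T le_rfl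
    have eΦ : sl Φ T = φk n := by
      funext x
      change ΘN (st T, x) = _
      rw [hstTn]
      exact (hΘk n x le_rfl).1
    have eΨ : sl Ψ T = (fun y => φi (r, y))^[n] := by
      funext x
      change ΘNi (st T, x) = _
      rw [hstTn]
      exact (hΘk n x le_rfl).2
    have w1 : Bd univ 8 (fun x => sl Φ T x - FB (T, x)) η1 := by
      have h1 := hfw n le_rfl
      rw [hτn] at h1
      rw [eΦ]
      exact h1
    have w2 : Bd univ 8 (fun x => sl Ψ T x - FB (-T, x)) η1 := by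
      have h1 := hbw n le_rfl
      rw [hτn] at h1
      rw [eΨ]
      exact h1
    have hVT : ∀ x, V (T, x) = pb (sl FB T) (fun y => u (T, y) + af y) x := by
      intro x
      change mh FB u I v0 s0 s1 n a ((θ T, st T, β T), x) = _
      have e1 : pb (sl FB T) (fun y => u (T, y) + af y) x =
          pb (sl FB T) (sl u T) x + pb (sl FB T) af x := pb_add (sl FB T) (sl u T) af x
      rw [hθ' T hT.le le_rfl, hstTn, hβ1 T hεT, hmh n le_rfl, if_pos rfl, hτn, e1]
      simp only [sub_self, zero_smul, add_zero]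
      abel
    have hdb1 : DB 8 Ks (sl Φ T) :=
      db_mono (db_of_bd (hdΦ T).smooth (hd T).smooth (hcF T hTm) w1) le_rfl (by linarith)
    have hdb2 : DB 8 Ks (sl Ψ T) :=
      db_mono (db_of_bd (hdΦ T).smoothi (hd T).smoothi (hcF (-T) hTm') w2) le_rfl
        (by linarith)
    have hmc' := hmc T
    rw [hGA] at hmc'
    have e : (fun x => m (T, x) - V (T, x)) =
        fun x => sl m T x - pb (sl FB T) (fun y => u (T, y) + af y) x := by
      funext x
      rw [hVT x]
      rfl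
    rw [e] at hmc'
    intro x
    refine (hfin (sl Φ T) (sl Ψ T) (sl m T) η1 e0 (hdΦ T) hdb1 hdb2 w1 w2 (ItB.in_sl hm T) hmc'
      x).trans ?_
    have h1 : C1 * (η1 + e0) ≤ C1 * (e0 + e0) := mul_le_mul_of_nonneg_left (by linarith) hC1
    exact h1.trans he0η
  have hb0 : ∀ x, b (0, x) = 0 := by
    intro x
    have : deriv st 0 = 0 := deriv_const_left hst hst0 hε.le
    change deriv st 0 • _ = 0
    rw [this, zero_smul]
  have hbT : ∀ x, b (T, x) = 0 := by
    intro x
    have : deriv st T = 0 := deriv_const_right hst hstT le_rfl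
    change deriv st T • _ = 0
    rw [this, zero_smul]
  exact ⟨κ, β, b, Φ, Ψ, m, F, prs FB Ψ q q0 β, hκ, hβ, prs_smooth lv.flow.smooth hWFb.smoothi
    lv.inq.smooth lv.inq0.smooth hβ, hκ1, hβ0 0 le_rfl, hβ1 T hεT, hbword, hb0, hbT, hWFb, hm,
    hmeq, hm0', hpress, hclose⟩

end MPfab
end

section
/-! MP_fabde4_an, assembly of the existence theorem PT. -/
set_option autoImplicit false
open MeasureTheory Set

namespace MPfab

namespace PTx

open ItB ItH

variable {F : Type} [NormedAddCommGroup F] [NormedSpace ℝ F]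

omit [NormedSpace ℝ F] in
lemma sq_le_eta (a b : F) {η : ℝ} (hη : 0 < η) :
    ‖a + b‖ ^ 2 ≤ (1 + η) * ‖a‖ ^ 2 + (1 + 1 / η) * ‖b‖ ^ 2 := by
  have h1 := norm_add_le a b
  have h2 : ‖a + b‖ ^ 2 ≤ (‖a‖ + ‖b‖) ^ 2 := by gcongr
  refine h2.trans ?_
  have h3 : 2 * (‖a‖ * ‖b‖) ≤ η * ‖a‖ ^ 2 + 1 / η * ‖b‖ ^ 2 := by
    have h4 : 0 ≤ (η * ‖a‖ - ‖b‖) ^ 2 := sq_nonneg _
    have h5 : η * ‖a‖ ^ 2 + 1 / η * ‖b‖ ^ 2 - 2 * (‖a‖ * ‖b‖) =
        1 / η * (η * ‖a‖ - ‖b‖) ^ 2 := by
      field_simp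
      ring
    have h6 : 0 ≤ 1 / η * (η * ‖a‖ - ‖b‖) ^ 2 := by positivity
    linarith
  nlinarith

lemma in_add {R : ℝ} {f g : E → F} (hf : In R f) (hg : In R g) : In R (fun x => f x + g x) :=
  ⟨hf.smooth.add hg.smooth, fun x hx => by simp [hf.supp x hx, hg.supp x hx]⟩

lemma hs_add_eta {R : ℝ} (hR : 0 < R) {η : ℝ} (hη : 0 < η) (k : ℕ) :
    ∀ f g : E → F, In R f → In R g → hs univ k (fun x => f x + g x) ≤
      (1 + η) * hs univ k f + (1 + 1 / η) * hs univ k g := by
  have base : ∀ f g : E → F, In R f → In R g → ∫ x in (univ : Set E), ‖f x + g x‖ ^ 2 ≤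
      (1 + η) * (∫ x in (univ : Set E), ‖f x‖ ^ 2) +
      (1 + 1 / η) * ∫ x in (univ : Set E), ‖g x‖ ^ 2 := by
    intro f g hf hg
    rw [← integral_const_mul, ← integral_const_mul, setIntegral_univ, setIntegral_univ,
      setIntegral_univ, ← integral_add ((Vlb.sq_integrable hf).const_mul _)
        ((Vlb.sq_integrable hg).const_mul _)]
    apply integral_mono (Vlb.sq_integrable (in_add hf hg))
      (((Vlb.sq_integrable hf).const_mul _).add ((Vlb.sq_integrable hg).const_mul _))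
    intro x
    exact sq_le_eta _ _ hη
  induction k with
  | zero => exact base
  | succ k ih =>
    intro f g hf hg
    have hpd : ∀ i, pd i (fun x => f x + g x) = fun x => pd i f x + pd i g x := by
      intro i
      funext x
      rw [pd_def, fderiv_fun_add (hf.smooth.differentiable x) (hg.smooth.differentiable x)]
      rfl
    have h1 := base f g hf hg
    have h2 : ∑ i, hs univ k (pd i (fun x => f x + g x)) ≤
        ∑ i, ((1 + η) * hs univ k (pd i f) + (1 + 1 / η) * hs univ k (pd i g)) := by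
      refine Finset.sum_le_sum fun i _ => ?_
      rw [hpd]
      exact ih _ _ (in_pd hR hf i) (in_pd hR hg i)
    rw [Finset.sum_add_distrib, ← Finset.mul_sum, ← Finset.mul_sum] at h2
    simp only [hs]
    linarith

lemma hs_curl (hH : SpecHSB) {R : ℝ} (hR : 0 < R) (k : ℕ) {f : E → E} (hf : In R f) :
    hs univ k (curl f) ≤ 12 * hs univ (k + 1) f := by
  have hc := hH.comp univ k (curl f) MeasurableSet.univ (Or.inr (Vlb.cpt (in_curl hR hf)))
    hf.smooth.curl
  have key : ∀ i j : Fin 3, hs univ k (fun x => pd i f x j) ≤ hs univ (k + 1) f := by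
    intro i j
    have h1 := hH.comp univ k (pd i f) MeasurableSet.univ (Or.inr (Vlb.cpt (in_pd hR hf i)))
      (hf.smooth.pd i)
    have h2 : hs univ k (fun x => pd i f x j) ≤ ∑ l, hs univ k (fun x => pd i f x l) :=
      Finset.single_le_sum (f := fun l => hs univ k (fun x => pd i f x l))
        (fun l _ => hH.nonneg ℝ univ k _) (Finset.mem_univ j)
    have h3 := hH.pds_le E univ k [i] f hf.smooth
    have h4 : pds [i] f = pd i f := rfl
    rw [h4] at h3
    have h5 : [i].length = 1 := rfl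
    rw [h5] at h3
    linarith
  have hpj : ∀ i j : Fin 3, In R (fun x => pd i f x j) := by
    intro i j
    refine ⟨(hf.smooth.pd i).comp_apply j, fun x hx => ?_⟩
    rw [(in_pd hR hf i).supp x hx]
    rfl
  have sub : ∀ i j i' j' : Fin 3, hs univ k (fun x => pd i f x j - pd i' f x j') ≤
      4 * hs univ (k + 1) f := by
    intro i j i' j'
    have hn : In R (fun x => (-1 : ℝ) • pd i' f x j') :=
      ⟨(hpj i' j').smooth.const_smul (-1 : ℝ), fun x hx => by simp [(hpj i' j').supp x hx]⟩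
    have h1 := hH.add_le ℝ univ k (fun x => pd i f x j) (fun x => (-1 : ℝ) • pd i' f x j')
      MeasurableSet.univ (Or.inr ⟨Vlb.cpt (hpj i j), Vlb.cpt hn⟩) (hpj i j).smooth hn.smooth
    have h2 := hH.smul ℝ univ k (-1) (fun x => pd i' f x j') (hpj i' j').smooth
    have h3 : (fun x => pd i f x j - pd i' f x j') =
        fun x => pd i f x j + (-1 : ℝ) • pd i' f x j' := by
      funext x
      simp [sub_eq_add_neg]
    rw [h3]
    rw [h2] at h1
    have := key i j
    have := key i' j'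
    linarith
  rw [hc]
  simp only [Fin.sum_univ_three]
  have e0 := sub 1 2 2 1
  have e1 := sub 2 0 0 2
  have e2 := sub 0 1 1 0
  have f0 : (fun x => curl f x 0) = fun x => pd 1 f x 2 - pd 2 f x 1 := rfl
  have f1 : (fun x => curl f x 1) = fun x => pd 2 f x 0 - pd 0 f x 2 := rfl
  have f2 : (fun x => curl f x 2) = fun x => pd 0 f x 1 - pd 1 f x 0 := rfl
  rw [f0, f1, f2]
  linarith

end PTx

open ItB ItH PTx

theorem specPT (hH : SpecHSB) (hI : SpecIncSm) (hA : SpecIncAlg) (hV : SpecVlb)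
    (hEx : SpecItEx) (hBase : SpecItBase) (hHigh : SpecItHigh) (hDiff : SpecItDiff)
    (hLim : SpecLimC) (hLimEq : SpecLimEq) (hBoot : SpecBoot) : SpecPT := by
  intro R T0 hR hT
  obtain ⟨C, hC, hb⟩ := hBase R hR
  refine ⟨C, hC, ?_⟩
  intro P κ law V F g hVi hFi hgi hsupp heq α γ hα hγ hα1 hγ1 A G hA' hG' hsmall
  have hd : Data R T0 P κ V F g :=
    { R_pos := hR, T_pos := hT, law := law, V_in := hVi, F_in := hFi, g_in := hgi,
      F_supp := fun t x h => (hsupp t x h).1, g_supp := fun t x h => (hsupp t x h).2,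
      eq := heq }
  have hα0 : ∀ t, 0 ≤ α t := by
    intro t
    refine le_trans ?_ (hα1 t)
    have := law.nonneg 5 t
    positivity
  have hγ0 : ∀ t, 0 ≤ γ t := by
    intro t
    refine le_trans ?_ (hγ1 t)
    positivity
  obtain ⟨m, hm⟩ := hEx R T0 P κ V F g hd
  have habs : ∀ f : ℝ → ℝ, Continuous f → (∀ t, 0 ≤ f t) → ∀ t, |t| ≤ T0 →
      |∫ s in (0 : ℝ)..t, f s| ≤ ∫ s in (-T0)..T0, f s := by
    intro f hf hf0 t ht
    have h1 : |∫ s in (0 : ℝ)..t, f s| ≤ |∫ s in (-T0)..T0, f s| := by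
      apply intervalIntegral.abs_integral_mono_interval
      · rw [uIoc_of_le (by linarith : -T0 ≤ T0)]
        intro s hs
        rw [mem_uIoc] at hs
        have := abs_le.mp ht
        rcases hs with hs | hs
        · exact ⟨by linarith [hs.1], by linarith [hs.2]⟩
        · exact ⟨by linarith [hs.1], by linarith [hs.2]⟩
      · exact Filter.Eventually.of_forall hf0
      · exact hf.intervalIntegrable _ _
    have h2 : 0 ≤ ∫ s in (-T0)..T0, f s :=
      intervalIntegral.integral_nonneg (by linarith) fun s _ => hf0 s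
    rwa [abs_of_nonneg h2] at h1
  have hG0 : 0 ≤ G := by
    refine le_trans ?_ hG'
    exact intervalIntegral.integral_nonneg (by linarith) fun s _ => hγ0 s
  have hGA : ∀ t, |t| ≤ T0 → |∫ s in (0 : ℝ)..t, γ s| *
      Real.exp (2 * |∫ s in (0 : ℝ)..t, α s|) ≤ G * Real.exp (2 * A) := by
    intro t ht
    have h1 := (habs γ hγ hγ0 t ht).trans hG'
    have h2 := (habs α hα hα0 t ht).trans hA'
    gcongr
  have hbase := hb T0 P κ V F g hd m hm α γ hα hγ hα0 hγ0 hα1 hγ1
    (fun t ht => (hGA t ht).trans hsmall)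
  set B := G * Real.exp (2 * A) with hB
  have hB0 : 0 ≤ B := by positivity
  -- the bound for all times
  have hall : ∀ n t, √(nq univ 5 (fun x => m n (t, x) - V (t, x))) ≤ B := by
    intro n t
    have hδ : InT R (fun p => m n p - V p) := inT_sub (hm.smooth n) hVi
    have hz : ∀ t x, T0 ≤ |t| → dt (fun p => m n p - V p) (t, x) = 0 := by
      intro t x ht
      have h1 := dt_zero hV hd hm n t x ht
      have h2 := dt_zero hV hd hm 0 t x ht
      rw [hm.zero] at h2
      have s1 : DifferentiableAt ℝ (fun s => m n (s, x)) t :=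
        ((hm.smooth n).smooth.comp (contDiff_id.prodMk contDiff_const)).differentiable
          (by simp) t
      have s2 : DifferentiableAt ℝ (fun s => V (s, x)) t :=
        (hVi.smooth.comp (contDiff_id.prodMk contDiff_const)).differentiable (by simp) t
      have h3 : dt (fun p => m n p - V p) (t, x) = dt (m n) (t, x) - dt V (t, x) :=
        deriv_fun_sub s1 s2
      rw [h3, h1, h2, sub_zero]
    obtain ⟨s, hs1, hs2⟩ := Vlb.const_abs hδ.smooth hz hT t
    have h3 := (hbase n s hs1).trans (hGA s hs1)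
    have h4 : (fun x => m n (t, x) - V (t, x)) = fun x => m n (s, x) - V (s, x) := hs2
    rw [h4]
    exact h3
  -- uniform bounds
  obtain ⟨BV, hBV⟩ := nq_bdd hV hI hA hR hT hVi
    (fun t x ht => by
      have := dt_zero hV hd hm 0 t x ht
      rwa [hm.zero] at this) 5
  have hb5 : ∃ B', ∀ n t, nq univ 5 (sl (m n) t) ≤ B' := by
    refine ⟨2 * B ^ 2 + 2 * BV, fun n t => ?_⟩
    have hδ : InT R (fun p => m n p - V p) := inT_sub (hm.smooth n) hVi
    have h1 : sl (m n) t = fun x => sl (fun p => m n p - V p) t x + sl V t x := by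
      funext x
      simp [sl]
    rw [h1]
    refine (nq_add hH 5 (in_sl hδ t) (in_sl hVi t) hR).trans ?_
    have h2 : nq univ 5 (sl (fun p => m n p - V p) t) ≤ B ^ 2 := by
      have h3 := hall n t
      have h4 := Real.sqrt_le_iff.mp h3
      exact h4.2
    have h5 := hBV t
    linarith
  have hhigh := hHigh R T0 P κ V F g hd m hm hb5
  have hdiff := hDiff.hs R T0 P κ V F g hd m hm hhigh
  obtain ⟨M, hM0, -, hMc⟩ := hLim R hR m (fun n => hI.inc E R 0 _ hR (hm.smooth n)) hdiff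
  have hMeq := hLimEq R T0 P κ V F g hd m hm M hM0 hMc
  obtain ⟨hMT, hMi, hMe⟩ := hBoot R T0 P κ V F g hd M hM0 hMeq
  refine ⟨M, hMT, hMi, hMe, ?_⟩
  intro t
  -- pass to the limit in the bound
  obtain ⟨a, ha, hab⟩ := hMc 6
  have hle : ∀ η : ℝ, 0 < η → nq univ 5 (fun x => M (t, x) - V (t, x)) ≤ (1 + η) * B ^ 2 := by
    intro η hη
    have hstep : ∀ n, nq univ 5 (fun x => M (t, x) - V (t, x)) ≤
        (1 + η) * B ^ 2 + (1 + 1 / η) * (13 * a n ^ 2) := by
      intro n
      have h1 : InT R (fun p => m n p - V p) := inT_sub (hm.smooth n) hVi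
      have h2 : InT R (fun p => M p - m n p) := inT_sub hMT (hm.smooth n)
      set f := sl (fun p => m n p - V p) t with hf
      set e := sl (fun p => M p - m n p) t with he
      have hfi : In R f := in_sl h1 t
      have hei : In R e := in_sl h2 t
      have h3 : (fun x => M (t, x) - V (t, x)) = fun x => f x + e x := by
        funext x
        simp [hf, he, sl]
      have h4 : curl (fun x => f x + e x) = fun x => curl f x + curl e x :=
        funext fun x => curl_add hfi.smooth hei.smooth x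
      have h5 := hs_add_eta hR hη 5 (curl f) (curl e) (in_curl hR hfi) (in_curl hR hei)
      have h6 := hs_add_eta hR hη 0 f e hfi hei
      have h7 := hs_curl hH hR 5 hei
      have h8 : hs univ 0 e ≤ hs univ 6 e := hH.mono E univ 0 6 e (by norm_num)
      have h9 : hs univ 6 e ≤ a n ^ 2 := by
        have h10 := hab n t
        have h11 : hs univ 6 (fun x => m n (t, x) - M (t, x)) = hs univ 6 e := by
          have h12 := hH.smul E univ 6 (-1) e hei.smooth
          have h13 : (fun x => (-1 : ℝ) • e x) = fun x => m n (t, x) - M (t, x) := by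
            funext x
            simp [he, sl]
          rw [h13] at h12
          rw [h12]
          ring
        rw [h11] at h10
        exact (Real.sqrt_le_iff.mp h10).2
      have h14 : nq univ 5 f ≤ B ^ 2 := (Real.sqrt_le_iff.mp (hall n t)).2
      have h15 : nq univ 5 f = hs univ 5 (curl f) + hs univ 0 f := rfl
      rw [h3]
      unfold nq
      rw [h4]
      have hη1 : 0 < 1 + 1 / η := by positivity
      have h16 : (1 + 1 / η) * hs univ 5 (curl e) ≤ (1 + 1 / η) * (12 * a n ^ 2) := by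
        gcongr
        linarith
      have h17 : (1 + 1 / η) * hs univ 0 e ≤ (1 + 1 / η) * a n ^ 2 := by
        gcongr
        linarith
      have h18 : (1 + η) * nq univ 5 f ≤ (1 + η) * B ^ 2 := by gcongr
      rw [h15] at h18
      linarith
    have hlim : Filter.Tendsto (fun n => (1 + η) * B ^ 2 + (1 + 1 / η) * (13 * a n ^ 2))
        Filter.atTop (nhds ((1 + η) * B ^ 2 + (1 + 1 / η) * (13 * 0 ^ 2))) := by
      exact tendsto_const_nhds.add (((ha.pow 2).const_mul 13).const_mul _)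
    have := ge_of_tendsto' hlim hstep
    simpa using this
  have hfin : nq univ 5 (fun x => M (t, x) - V (t, x)) ≤ B ^ 2 := by
    have hlim : Filter.Tendsto (fun η : ℝ => (1 + η) * B ^ 2) (nhdsWithin 0 (Ioi 0))
        (nhds ((1 + 0) * B ^ 2)) := by
      apply tendsto_nhdsWithin_of_tendsto_nhds
      exact (Continuous.tendsto (by fun_prop) 0)
    have h1 := ge_of_tendsto hlim (eventually_nhdsWithin_of_forall fun η hη => hle η hη)
    simpa using h1
  exact Real.sqrt_le_iff.mpr ⟨hB0, hfin⟩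

end MPfab
end
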