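import Pool.Agent.Lib.MP_fabde4_an.M.Lop
import Pool.Agent.Lib.MP_fabde4_an.N.Tint
import Pool.Agent.Lib.MP_fabde4_an.Gauss
import Pool.Agent.Lib.MP_fabde4_an.PT
import Pool.Agent.Lib.MP_fabde4_an.F.Bdry
import Pool.Agent.Lib.MP_fabde4_an.Eng
import Pool.Agent.Lib.MP_fabde4_an.B.NormD
import Pool.Agent.Lib.MP_fabde4_an.Gaff
import Pool.Agent.Lib.MP_fabde4_an.M.Cont
import Pool.Agent.Lib.MP_fabde4_an.N.FlowBd
import Pool.Agent.Lib.MP_fabde4_an.B.SobD
import Pool.Agent.Lib.MP_fabde4_an.B.Cr
import Pool.Agent.Lib.MP_fabde4_an.B.Collar
import Pool.Agent.Lib.MP_fabde4_an.F.EllD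
import Pool.Agent.Lib.MP_fabde4_an.B.Had
import Pool.Agent.Lib.MP_fabde4_an.B.Seel
import Pool.Agent.Lib.MP_fabde4_an.B.Pot
import Pool.Agent.Lib.MP_fabde4_an.B.RungeD
import Pool.Agent.Lib.MP_fabde4_an.B.WTan
import Pool.Agent.Lib.MP_fabde4_an.N.Reset
import Pool.Agent.Lib.MP_fabde4_an.N.Final
import Pool.Agent.Lib.MP_fabde4_an.M.Wftan
import Pool.Agent.Lib.MP_fabde4_an.F.Ident
import Pool.Agent.Lib.MP_fabde4_an.F.Ideal
import Pool.Agent.Lib.MP_fabde4_an.F.Last
import Pool.Agent.Lib.MP_fabde4_an.F.Lode
import Pool.Agent.Lib.MP_fabde4_an.F.Orbit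
import Pool.Agent.Lib.MP_fabde4_an.N.RxA
import Pool.Agent.Lib.MP_fabde4_an.N.Relax
import Pool.Agent.Lib.MP_fabde4_an.N.Sched

section
/-!
MP_fabde4_an, part P: modules SUPU, DHS.
-/
set_option autoImplicit false
open MeasureTheory Set

namespace MPfab

open INC in
/-- module SUPU -/
theorem specSupU (hSob : SpecSob) (hBall : SpecBall) (hHSB : SpecHSB) : SpecSupU := by
  intro R hR
  obtain ⟨C, hC, h⟩ := hSob (ballρ R) (hBall.dom R hR)
  refine ⟨C, hC, ?_⟩
  intro F _ _ f hf L x
  have hL := In.pds hR hf L
  have hnn := hHSB.nonneg F univ (L.length + 3) f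
  by_cases hx : ballρ R x < 0
  · have h1 := h F (pds L f) hL.smooth x hx
    rw [← hBall.hs_eq R F 3 (pds L f) hR hL] at h1
    refine h1.trans (mul_le_mul_of_nonneg_left ?_ hC)
    have h2 := hHSB.pds_le F univ 3 L f hf.smooth
    rwa [Nat.add_comm 3 L.length] at h2
  · have h2 : R ≤ ‖x‖ := by
      unfold ballρ at hx
      have h3 : R ^ 2 ≤ ‖x‖ ^ 2 := by linarith
      exact (pow_le_pow_iff_left₀ hR.le (norm_nonneg x) (by norm_num)).1 h3
    rw [hL.supp x h2, norm_zero]
    have : 0 ≤ C * hs univ (L.length + 3) f := mul_nonneg hC hnn
    simpa using this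

end MPfab
end

section
/-!
MP_fabde4_an: assembly of the modules (helper60).  Hypothesis-free theorems `allX : SpecX`.
-/
set_option autoImplicit false

namespace MPfab

/-! ### toolbox A -/

theorem allPDC : SpecPDC := specPDC
theorem allLeib : SpecLeib := specLeib
theorem allHSB : SpecHSB := specHSB
theorem allMult : SpecMult := specMult
theorem allBnd : SpecBnd := specBnd
theorem allTanD : SpecTanD := specTanD allBnd
theorem allBrkT : SpecBrkT := specBrkT allTanD
theorem allGauss : SpecGauss := specGauss allBnd
theorem allGaff : SpecGaff := specGaff allGauss allTanD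
theorem allDivCurl : SpecDivCurl := specDivCurl allHSB allMult allBrkT allGaff
theorem allSob : SpecSob := specSob
theorem allProd : SpecProd := specProd allSob allPDC allHSB
theorem allCrude : SpecCrude := specCrude allHSB allLeib allProd
theorem allTder : SpecTder := specTder
theorem allEng : SpecEng := specEng allHSB allSob allGauss allPDC allLeib allTder allProd
theorem allEng0 : SpecEng0 := specEng0 allHSB allSob allGauss allPDC allLeib allTder allProd
theorem allBall : SpecBall := specBall

/-! ### flows -/

theorem allNormal : SpecNormal := specNormal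
theorem allGlob : SpecGlob := specGlob
theorem allFlowC : SpecFlowC := specFlowC allGlob
theorem allFlowT : SpecFlowT := specFlowT allGlob allFlowC
theorem allFlowA : SpecFlowA := specFlowA allGlob allFlowC
theorem allCollar : SpecCollar := specCollar allFlowA
theorem allPint : SpecPint := specPint
theorem allHad : SpecHad := specHad allCollar allPint
theorem allHadT : SpecHadT := specHadT allCollar allPint
theorem allFtan : SpecFtan := specFtan allHadT
theorem allCr : SpecCr := specCr allHad allCollar

/-! ### part P -/

theorem allIncSm : SpecIncSm := specIncSm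
theorem allIncAlg : SpecIncAlg := specIncAlg
theorem allSupU : SpecSupU := specSupU allSob allBall allHSB
theorem allIncOp : SpecIncOp := specIncOp allSupU allBall allHSB
theorem allBil : SpecBil := specBil allProd allBall allLeib allHSB
theorem allCrb : SpecCrb := specCrb allProd allBall allLeib allHSB
theorem allDhs : SpecDhs := specDhs allTder allBall allHSB
theorem allAen : SpecAen := specAen allEng allDhs allCrb allBall allHSB
theorem allLinT : SpecLinT := specLinT allFlowT
theorem allLinA : SpecLinA := specLinA allLinT
theorem allGron1 : SpecGron1 := specGron1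
theorem allGron2 : SpecGron2 := specGron2
theorem allGron3 : SpecGron3 := specGron3
theorem allVlb : SpecVlb := specVlb allIncSm allDhs
theorem allItEx : SpecItEx := specItEx allVlb allLinA
theorem allItBase : SpecItBase :=
  specItBase allPDC allHSB allIncSm allIncAlg allBil allCrb allAen allGron1 allVlb
theorem allItHigh : SpecItHigh := specItHigh allHSB allIncSm allIncAlg allAen allGron2 allVlb
theorem allItM : SpecItM := specItM allSupU allCrb allVlb
theorem allItDiff : SpecItDiff :=
  specItDiff allIncSm allIncAlg allSupU allBil allCrb allAen allGron3 allVlb allItM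
theorem allLimC : SpecLimC := specLimC allSupU
theorem allLimEq : SpecLimEq := specLimEq allIncSm allIncAlg allSupU
theorem allBoot : SpecBoot := specBoot allIncSm allIncAlg
theorem allPT : SpecPT :=
  specPT allHSB allIncSm allIncAlg allVlb allItEx allItBase allItHigh allItDiff allLimC allLimEq
    allBoot

/-! ### toolbox B -/

theorem allAbs : SpecAbs := specAbs
theorem allMulop : SpecMulop := specMulop
theorem allPull1 : SpecPull1 := specPull1 allFlowA allFtan
theorem allPull2 : SpecPull2 := specPull2 allFlowA allFtan
theorem allPull3 : SpecPull3 := specPull3 allFlowA allFtan allMulop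
theorem allMvp : SpecMvp := specMvp
theorem allUc : SpecUc := specUc
theorem allConn : SpecConn := specConn
theorem allLiec : SpecLiec := specLiec allFlowA allFtan
theorem allNormd : SpecNormd := specNormd
theorem allSobd : SpecSobd := specSobd
theorem allSeec : SpecSeec := specSeec
theorem allFlat : SpecFlat := specFlat
theorem allSeel : SpecSeel := specSeel allCollar
theorem allExtb : SpecExtb := specExtb allSeel allCollar allPDC
theorem allPoin : SpecPoin := specPoin
theorem allWtan : SpecWtan := specWtan allGauss
theorem allWeyl : SpecWeyl := specWeyl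
theorem allIntr : SpecIntr := specIntr allWeyl allGauss allPDC
theorem allPot : SpecPot := specPot allPoin allWeyl allSobd allExtb allGauss
theorem allNeu : SpecNeu :=
  specNeu allAbs allPull1 allPull2 allPull3 allLiec allIntr allNormd allSobd allExtb allPot allWtan
theorem allSpan : SpecSpan := specSpan allGauss
theorem allRunge : SpecRunge := specRunge allCr
theorem allLeray : SpecLeray :=
  specLeray allNeu allPoin allSeel allNormal allGauss allDivCurl allPDC allHSB

/-! ### part M -/

theorem allCmul : SpecCmul := specCmul
theorem allCcomp : SpecCcomp := specCcomp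
theorem allCdiff : SpecCdiff := specCdiff
theorem allHmul : SpecHmul := specHmul
theorem allHcomp : SpecHcomp := specHcomp
theorem allChs : SpecChs := specChs
theorem allCpt : SpecCpt := specCpt
theorem allPbSm : SpecPbSm := specPbSm
theorem allPbAlg : SpecPbAlg := specPbAlg
theorem allPbDt : SpecPbDt := specPbDt
theorem allPbb : SpecPbb := specPbb allCmul
theorem allPbc : SpecPbc := specPbc
theorem allIncPull : SpecIncPull := specIncPull
theorem allLop : SpecLop := specLop
theorem allMov : SpecMov := specMov allPbAlg allPbb allIncOp allCpt
theorem allFastB : SpecFastB := specFastB allPbAlg allPbb allHmul allChs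
theorem allCont : SpecCont :=
  specCont allPbAlg allPbb allPbc allPbSm allCpt allHmul allChs allIncOp
theorem allWfl : SpecWfl := specWfl
theorem allWfrep : SpecWfrep := specWfrep
theorem allWftan : SpecWftan := specWftan allNormal allFtan
theorem allComm : SpecComm := specComm allPint allFlowA
theorem allAvg : SpecAvg := specAvg allPint allCpt allCcomp allCdiff

/-! ### part F -/

theorem allDivB : SpecDivB := specDivB
theorem allBdry : SpecBdry := specBdry allHad
theorem allCuba : SpecCuba := specCuba
theorem allCutF : SpecCutF := specCutF allHad allCr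
theorem allEllD : SpecEllD := specEllD allGauss allDivCurl allSob allPoin
theorem allFlatD : SpecFlatD := specFlatD allHad
theorem allLayer : SpecLayer := specLayer
theorem allHarm : SpecHarm := specHarm allHad
theorem allIdent : SpecIdent := specIdent
theorem allTheta : SpecTheta := specTheta
theorem allNeuC : SpecNeuC := specNeuC
theorem allBrkG : SpecBrkG := specBrkG
theorem allLode : SpecLode := specLode allPint
theorem allIdBase : SpecIdBase := specIdBase allHad
theorem allIdStep : SpecIdStep := specIdStep allPDC allHadT allTheta allLode
theorem allIdeal : SpecIdeal := specIdeal allIdBase allIdStep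
theorem allLast : SpecLast := specLast allCutF allEllD
theorem allCTan : SpecCTan := specCTan
theorem allOrbit : SpecOrbit := specOrbit allSpan

/-! ### part N -/

theorem allBrkC : SpecBrkC := specBrkC allCmul
theorem allClose : SpecClose := specClose
theorem allCyc : SpecCyc := specCyc
theorem allTint : SpecTint := specTint
theorem allSched : SpecSched := specSched
theorem allDom2 : SpecDom2 := specDom2
theorem allFinal : SpecFinal := specFinal allIncOp
theorem allReset : SpecReset := specReset allOrbit allCTan allFlowA
theorem allFlowBd : SpecFlowBd := specFlowBd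
theorem allRxA : SpecRxA :=
  specRxA allBdry allDivB allFlatD allSeel allSob allHSB allBrkC allBrkT allCTan allRunge
theorem allRxB : SpecRxB :=
  specRxB allIdeal allPT allMov allLop allFlowA allFlowBd allPbAlg allPbDt allPbSm allPbb allSched allVlb
    allIncSm allIncAlg allHmul allChs allCpt allHSB
theorem allRelax : SpecRelax :=
  specRelax allRxA allRxB allIncOp allIncSm allLop
theorem allRealize : SpecRealize :=
  specRealize allComm allReset allCyc allSched allTint allAvg allCont allMov allFastB allPT allPbAlg
    allPbDt allPbSm allCpt allWfl allWftan allLop allIncSm allIncAlg allVlb allPbb allPbc allChs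
    allCTan allSupU allHSB

end MPfab
end
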