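import Mathlib

/-!
MP_fabde4_an: common definitions (vector calculus on `E = EuclideanSpace ℝ (Fin 3)`, smooth domains,
Sobolev seminorms).  All functions are defined on the whole space; only the values on the domain count.
-/

set_option autoImplicit false
open MeasureTheory Set

namespace MPfab

/-- the Euclidean space -/
abbrev E := EuclideanSpace ℝ (Fin 3)

/-- the standard basis vectors -/
noncomputable def eb (i : Fin 3) : E := EuclideanSpace.single i 1

/-- smooth maps -/
abbrev Sm {X Y : Type*} [NormedAddCommGroup X] [NormedSpace ℝ X] [NormedAddCommGroup Y]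
    [NormedSpace ℝ Y] (f : X → Y) : Prop := ContDiff ℝ ((⊤ : ENat) : WithTop ENat) f

/-- partial derivatives -/
noncomputable def pd {F : Type*} [NormedAddCommGroup F] [NormedSpace ℝ F] (i : Fin 3) (f : E → F)
    (x : E) : F := fderiv ℝ f x (eb i)

/-- divergence -/
noncomputable def dv (w : E → E) (x : E) : ℝ := ∑ i, pd i w x i

/-- curl -/
noncomputable def curl (w : E → E) (x : E) : E :=
  WithLp.toLp 2 ![pd 1 w x 2 - pd 2 w x 1, pd 2 w x 0 - pd 0 w x 2, pd 0 w x 1 - pd 1 w x 0]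

/-- cross product -/
noncomputable def cr (u v : E) : E :=
  WithLp.toLp 2 ![u 1 * v 2 - u 2 * v 1, u 2 * v 0 - u 0 * v 2, u 0 * v 1 - u 1 * v 0]

/-- gradient (equal to Mathlib's `gradient`, see `gradient_eq`) -/
noncomputable def gr (f : E → ℝ) (x : E) : E := WithLp.toLp 2 fun i => pd i f x

/-- Laplacian -/
noncomputable def lap (f : E → ℝ) (x : E) : ℝ := ∑ i, pd i (pd i f) x

/-- Lie derivative of the 1-form `w` along the vector field `T`: `T·∇w + (DT)ᵀ w` -/
noncomputable def lie (T w : E → E) (x : E) : E :=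
  WithLp.toLp 2 fun i => ∑ j, (T x j * pd j w x i + w x j * pd i T x j)

/-- Lie derivative of 2-forms as vectors: `X·∇w - w·∇X + (div X) w` -/
noncomputable def lie2 (X w : E → E) (x : E) : E :=
  WithLp.toLp 2 fun i => (∑ j, (X x j * pd j w x i - w x j * pd j X x i)) + dv X x * w x i

/-- Lie bracket `[X,Y] = X·∇Y - Y·∇X` -/
noncomputable def brk (X Y : E → E) (x : E) : E :=
  WithLp.toLp 2 fun i => ∑ j, (X x j * pd j Y x i - Y x j * pd j X x i)

/-- the domain of a function -/
def D (ρ : E → ℝ) : Set E := {x | ρ x < 0}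

/-- `ρ` defines a bounded smooth domain (connectedness is a separate hypothesis) -/
structure Dom (ρ : E → ℝ) : Prop where
  smooth : Sm ρ
  bdd : Bornology.IsBounded (D ρ)
  reg : ∀ x, ρ x = 0 → fderiv ℝ ρ x ≠ 0

/-- tangential to the boundary -/
def Tan (ρ : E → ℝ) (w : E → E) : Prop := ∀ x, ρ x = 0 → fderiv ℝ ρ x (w x) = 0

/-- smooth, divergence free in the closed domain and tangential to the boundary -/
structure InX (ρ : E → ℝ) (w : E → E) : Prop where
  smooth : Sm w
  dv0 : ∀ x, ρ x ≤ 0 → dv w x = 0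
  tan : Tan ρ w

/-- `hs S k f` = square of the `H^k` norm of `f` on `S` -/
noncomputable def hs {F : Type*} [NormedAddCommGroup F] [NormedSpace ℝ F] (S : Set E) :
    ℕ → (E → F) → ℝ
  | 0, f => ∫ x in S, ‖f x‖ ^ 2
  | k + 1, f => (∫ x in S, ‖f x‖ ^ 2) + ∑ i, hs S k (pd i f)

/-- the energy `|curl w|²_{H^k(S)} + |w|²_{L²(S)}` -/
noncomputable def nq (S : Set E) (k : ℕ) (w : E → E) : ℝ := hs S k (curl w) + hs S 0 w

/-- smooth and supported in the ball of radius `R` -/
structure In {F : Type*} [NormedAddCommGroup F] [NormedSpace ℝ F] (R : ℝ) (f : E → F) : Prop where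
  smooth : Sm f
  supp : ∀ x, R ≤ ‖x‖ → f x = 0

/-- the same for time dependent functions -/
structure InT {F : Type*} [NormedAddCommGroup F] [NormedSpace ℝ F] (R : ℝ) (f : ℝ × E → F) :
    Prop where
  smooth : Sm f
  supp : ∀ t x, R ≤ ‖x‖ → f (t, x) = 0

/-! ### basic facts -/

lemma pd_def {F : Type*} [NormedAddCommGroup F] [NormedSpace ℝ F] (i : Fin 3) (f : E → F) (x : E) :
    pd i f x = fderiv ℝ f x (eb i) := rfl

@[simp] lemma eb_same (i : Fin 3) : eb i i = 1 := by simp [eb]

lemma eb_apply (i j : Fin 3) : eb i j = if j = i then 1 else 0 := by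
  simp [eb]

@[simp] lemma gr_apply (f : E → ℝ) (x : E) (i : Fin 3) : gr f x i = pd i f x := rfl

lemma lie_apply (T w : E → E) (x : E) (i : Fin 3) :
    lie T w x i = ∑ j, (T x j * pd j w x i + w x j * pd i T x j) := rfl

lemma lie2_apply (X w : E → E) (x : E) (i : Fin 3) :
    lie2 X w x i = (∑ j, (X x j * pd j w x i - w x j * pd j X x i)) + dv X x * w x i := rfl

lemma brk_apply (X Y : E → E) (x : E) (i : Fin 3) :
    brk X Y x i = ∑ j, (X x j * pd j Y x i - Y x j * pd j X x i) := rfl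

@[simp] lemma curl_apply0 (w : E → E) (x : E) : curl w x 0 = pd 1 w x 2 - pd 2 w x 1 := rfl
@[simp] lemma curl_apply1 (w : E → E) (x : E) : curl w x 1 = pd 2 w x 0 - pd 0 w x 2 := rfl
@[simp] lemma curl_apply2 (w : E → E) (x : E) : curl w x 2 = pd 0 w x 1 - pd 1 w x 0 := rfl
@[simp] lemma cr_apply0 (u v : E) : cr u v 0 = u 1 * v 2 - u 2 * v 1 := rfl
@[simp] lemma cr_apply1 (u v : E) : cr u v 1 = u 2 * v 0 - u 0 * v 2 := rfl
@[simp] lemma cr_apply2 (u v : E) : cr u v 2 = u 0 * v 1 - u 1 * v 0 := rfl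

lemma inner_eq (u v : E) : inner ℝ u v = ∑ i, u i * v i := by
  simp [PiLp.inner_apply, mul_comm]

lemma fderiv_eq_sum {F : Type*} [NormedAddCommGroup F] [NormedSpace ℝ F] (f : E → F) (x v : E) :
    fderiv ℝ f x v = ∑ i, v i • pd i f x := by
  conv_lhs => rw [← (EuclideanSpace.basisFun (Fin 3) ℝ).sum_repr v]
  simp [pd, eb, map_sum]

lemma inner_gr (f : E → ℝ) (x v : E) : inner ℝ v (gr f x) = fderiv ℝ f x v := by
  rw [inner_eq, fderiv_eq_sum]
  simp

lemma gradient_eq (f : E → ℝ) (x : E) : gradient f x = gr f x := by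
  ext i
  have h1 : inner ℝ (gradient f x) (eb i) = fderiv ℝ f x (eb i) := by
    unfold gradient
    rw [InnerProductSpace.toDual_symm_apply]
  rw [gr_apply, pd_def, ← h1, eb, EuclideanSpace.inner_single_right]
  simp

lemma tan_iff {ρ : E → ℝ} {w : E → E} :
    Tan ρ w ↔ ∀ x, ρ x = 0 → inner ℝ (w x) (gradient ρ x) = 0 := by
  unfold Tan
  simp only [gradient_eq, inner_gr]

/-- the divergence of the frozen statement -/
lemma dv_eq (w : E → E) (x : E) : dv w x = ∑ i : Fin 3,
    inner ℝ (fderiv ℝ w x (EuclideanSpace.single i 1)) (EuclideanSpace.single i 1) := by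
  unfold dv pd eb
  refine Finset.sum_congr rfl fun i _ => ?_
  rw [EuclideanSpace.inner_single_right]
  simp

lemma pd_apply {w : E → E} {x : E} (h : DifferentiableAt ℝ w x) (i j : Fin 3) :
    pd i w x j = pd i (fun y => w y j) x := by
  unfold pd
  have h1 := (hasFDerivWithinAt_euclidean.mp (h.hasFDerivAt.hasFDerivWithinAt (s := univ))) j
  rw [hasFDerivWithinAt_univ] at h1
  rw [h1.fderiv]
  rfl

lemma Sm.pd {F : Type*} [NormedAddCommGroup F] [NormedSpace ℝ F] {f : E → F} (h : Sm f)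
    (i : Fin 3) : Sm (pd i f) := by
  unfold MPfab.pd
  exact (h.fderiv_right (m := ((⊤ : ENat) : WithTop ENat)) (by simp)).clm_apply contDiff_const

lemma Sm.comp_apply {w : E → E} (h : Sm w) (j : Fin 3) : Sm (fun y => w y j) :=
  contDiff_euclidean.mp h j

lemma sm_iff {w : E → E} : Sm w ↔ ∀ j, Sm (fun y => w y j) := contDiff_euclidean

lemma Sm.gr {f : E → ℝ} (h : Sm f) : Sm (gr f) := by
  rw [sm_iff]
  intro j
  exact h.pd j

lemma Sm.lap {f : E → ℝ} (h : Sm f) : Sm (lap f) := by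
  unfold MPfab.lap
  exact ContDiff.sum fun i _ => (h.pd i).pd i

lemma Sm.dv {w : E → E} (h : Sm w) : Sm (dv w) := by
  unfold MPfab.dv
  exact ContDiff.sum fun i _ => (h.pd i).comp_apply i

lemma Sm.curl {w : E → E} (h : Sm w) : Sm (curl w) := by
  rw [sm_iff]
  intro j
  fin_cases j
  · exact ((h.pd 1).comp_apply 2).sub ((h.pd 2).comp_apply 1)
  · exact ((h.pd 2).comp_apply 0).sub ((h.pd 0).comp_apply 2)
  · exact ((h.pd 0).comp_apply 1).sub ((h.pd 1).comp_apply 0)

lemma Sm.lie {T w : E → E} (hT : Sm T) (h : Sm w) : Sm (lie T w) := by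
  rw [sm_iff]
  intro j
  simp only [lie_apply]
  exact ContDiff.sum fun i _ => ((hT.comp_apply i).mul ((h.pd i).comp_apply j)).add
    ((h.comp_apply i).mul ((hT.pd j).comp_apply i))

lemma Sm.brk {T w : E → E} (hT : Sm T) (h : Sm w) : Sm (brk T w) := by
  rw [sm_iff]
  intro j
  simp only [brk_apply]
  exact ContDiff.sum fun i _ => ((hT.comp_apply i).mul ((h.pd i).comp_apply j)).sub
    ((h.comp_apply i).mul ((hT.pd i).comp_apply j))

lemma Sm.lie2 {T w : E → E} (hT : Sm T) (h : Sm w) : Sm (lie2 T w) := by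
  rw [sm_iff]
  intro j
  simp only [lie2_apply]
  exact (ContDiff.sum fun i _ => ((hT.comp_apply i).mul ((h.pd i).comp_apply j)).sub
    ((h.comp_apply i).mul ((hT.pd i).comp_apply j))).add (hT.dv.mul (h.comp_apply j))

lemma Sm.cr {u v : E → E} (hu : Sm u) (hv : Sm v) : Sm (fun x => cr (u x) (v x)) := by
  rw [sm_iff]
  intro j
  fin_cases j
  · exact ((hu.comp_apply 1).mul (hv.comp_apply 2)).sub ((hu.comp_apply 2).mul (hv.comp_apply 1))
  · exact ((hu.comp_apply 2).mul (hv.comp_apply 0)).sub ((hu.comp_apply 0).mul (hv.comp_apply 2))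
  · exact ((hu.comp_apply 0).mul (hv.comp_apply 1)).sub ((hu.comp_apply 1).mul (hv.comp_apply 0))

lemma Sm.differentiable {X Y : Type*} [NormedAddCommGroup X] [NormedSpace ℝ X]
    [NormedAddCommGroup Y] [NormedSpace ℝ Y] {f : X → Y} (h : Sm f) : Differentiable ℝ f :=
  ContDiff.differentiable h (by simp)

end MPfab
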