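import Pool.Agent.Lib.MP_fabde4_an.Defs

/-!
MP_fabde4_an, toolbox A (helper59): integration by parts, Gaffney, div-curl estimates, Sobolev
embedding, product and energy estimates on a smooth bounded domain.
Text: /team-store/MP_fabde4_an_TOOLSA.md.
-/

set_option autoImplicit false
open MeasureTheory Set

namespace MPfab

/-! ### more definitions -/

/-- time slice -/
def sl {F : Type*} (f : ℝ × E → F) (t : ℝ) : E → F := fun x => f (t, x)

/-- time derivative -/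
noncomputable def dt {F : Type*} [NormedAddCommGroup F] [NormedSpace ℝ F] (f : ℝ × E → F)
    (p : ℝ × E) : F := deriv (fun s => f (s, p.2)) p.1

/-- iterated partial derivatives along a list of indices (the head is applied last) -/
noncomputable def pds {F : Type*} [NormedAddCommGroup F] [NormedSpace ℝ F] :
    List (Fin 3) → (E → F) → E → F
  | [], f => f
  | i :: L, f => pd i (pds L f)

/-- general transport operator `u·∇a + Z`, `Z_i = ∑ c i j p q (∂_p u_q) a_j`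
(`lie` and `lie2` are of this form) -/
noncomputable def trc (c : Fin 3 → Fin 3 → Fin 3 → Fin 3 → ℝ) (u a : E → E) (x : E) : E :=
  WithLp.toLp 2 fun i => (∑ j, u x j * pd j a x i) +
    ∑ j, ∑ p, ∑ q, c i j p q * pd p u x q * a x j

/-- the big ball as a domain -/
noncomputable def ballρ (R : ℝ) (x : E) : ℝ := ‖x‖ ^ 2 - R ^ 2

/-! ### Specs -/

/-- PDC (calculus of partial derivatives). -/
structure SpecPDC : Prop where
  comm : ∀ (F : Type) [NormedAddCommGroup F] [NormedSpace ℝ F] (f : E → F), Sm f →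
    ∀ (i j : Fin 3) (x : E), pd i (pd j f) x = pd j (pd i f) x
  pds_comm : ∀ (F : Type) [NormedAddCommGroup F] [NormedSpace ℝ F] (f : E → F), Sm f →
    ∀ (i : Fin 3) (L : List (Fin 3)) (x : E), pds L (pd i f) x = pd i (pds L f) x
  pds_smooth : ∀ (F : Type) [NormedAddCommGroup F] [NormedSpace ℝ F] (f : E → F), Sm f →
    ∀ (L : List (Fin 3)), Sm (pds L f)
  sl_smooth : ∀ (F : Type) [NormedAddCommGroup F] [NormedSpace ℝ F] (f : ℝ × E → F), Sm f →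
    ∀ t, Sm (sl f t)
  dt_smooth : ∀ (F : Type) [NormedAddCommGroup F] [NormedSpace ℝ F] (f : ℝ × E → F), Sm f →
    Sm (dt f)
  pdt_smooth : ∀ (F : Type) [NormedAddCommGroup F] [NormedSpace ℝ F] (f : ℝ × E → F), Sm f →
    ∀ L : List (Fin 3), Sm (fun p : ℝ × E => pds L (sl f p.1) p.2)
  dt_pds : ∀ (F : Type) [NormedAddCommGroup F] [NormedSpace ℝ F] (f : ℝ × E → F), Sm f →
    ∀ (L : List (Fin 3)) (t : ℝ) (x : E),
      HasDerivAt (fun s => pds L (sl f s) x) (pds L (sl (dt f) t) x) t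
  curl_gr : ∀ f : E → ℝ, Sm f → ∀ x, curl (gr f) x = 0
  dv_curl : ∀ w : E → E, Sm w → ∀ x, dv (curl w) x = 0
  curl_lie : ∀ X m : E → E, Sm X → Sm m → ∀ x, curl (lie X m) x = lie2 X (curl m) x
  lie_gr : ∀ (X : E → E) (q : E → ℝ), Sm X → Sm q → ∀ x,
    lie X (gr q) x = gr (fun y => fderiv ℝ q y (X y)) x
  lie_trc : ∃ c, ∀ X m : E → E, lie X m = trc c X m
  lie2_trc : ∃ c, ∀ X m : E → E, lie2 X m = trc c X m

/-- LEIB (Leibniz formula with the term of order zero in `f` isolated). -/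
def SpecLeib : Prop := ∀ L : List (Fin 3), ∃ T : List (List (Fin 3) × List (Fin 3)),
  (∀ p ∈ T, 1 ≤ p.1.length ∧ p.1.length + p.2.length = L.length) ∧
  ∀ f g : E → ℝ, Sm f → Sm g → ∀ x, pds L (fun y => f y * g y) x =
    f x * pds L g x + (T.map fun p => pds p.1 f x * pds p.2 g x).sum

/-- HSB (basic properties of `hs`); `S` bounded and measurable where integrability matters. -/
structure SpecHSB : Prop where
  nonneg : ∀ (F : Type) [NormedAddCommGroup F] [NormedSpace ℝ F] (S : Set E) (k : ℕ) (f : E → F),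
    0 ≤ hs S k f
  mono : ∀ (F : Type) [NormedAddCommGroup F] [NormedSpace ℝ F] (S : Set E) (j k : ℕ) (f : E → F),
    j ≤ k → hs S j f ≤ hs S k f
  pds_le : ∀ (F : Type) [NormedAddCommGroup F] [NormedSpace ℝ F] (S : Set E) (k : ℕ)
    (L : List (Fin 3)) (f : E → F), Sm f → hs S k (pds L f) ≤ hs S (k + L.length) f
  /-- domain monotonicity -/
  mono_set : ∀ (F : Type) [NormedAddCommGroup F] [NormedSpace ℝ F] (S S' : Set E) (k : ℕ)
    (f : E → F), MeasurableSet S' → S ⊆ S' → (Bornology.IsBounded S' ∨ HasCompactSupport f) →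
    Sm f → hs S k f ≤ hs S' k f
  congr : ∀ (F : Type) [NormedAddCommGroup F] [NormedSpace ℝ F] (S : Set E) (k : ℕ)
    (f g : E → F), IsOpen S → (∀ x ∈ S, f x = g x) → hs S k f = hs S k g
  add_le : ∀ (F : Type) [NormedAddCommGroup F] [NormedSpace ℝ F] (S : Set E) (k : ℕ)
    (f g : E → F), MeasurableSet S → (Bornology.IsBounded S ∨
      (HasCompactSupport f ∧ HasCompactSupport g)) → Sm f → Sm g →
    hs S k (fun x => f x + g x) ≤ 2 * hs S k f + 2 * hs S k g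
  smul : ∀ (F : Type) [NormedAddCommGroup F] [NormedSpace ℝ F] (S : Set E) (k : ℕ)
    (c : ℝ) (f : E → F), Sm f → hs S k (fun x => c • f x) = c ^ 2 * hs S k f
  /-- components -/
  comp : ∀ (S : Set E) (k : ℕ) (w : E → E), MeasurableSet S → (Bornology.IsBounded S ∨
      HasCompactSupport w) → Sm w → hs S k w = ∑ j, hs S k (fun x => w x j)
  /-- sum over all lists of length at most `k` -/
  upper : ∀ k : ℕ, ∃ T : List (List (Fin 3)), (∀ L ∈ T, L.length ≤ k) ∧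
    ∀ (F : Type) [NormedAddCommGroup F] [NormedSpace ℝ F] (S : Set E) (f : E → F), Sm f →
      hs S k f = (T.map fun L => ∫ x in S, ‖pds L f x‖ ^ 2).sum

/-- MULT (multiplication by a smooth coefficient). -/
def SpecMult : Prop := ∀ (S : Set E), MeasurableSet S → Bornology.IsBounded S →
  ∀ (a : E → ℝ), Sm a → ∀ k : ℕ, ∃ C : ℝ, 0 ≤ C ∧
    ∀ (F : Type) [NormedAddCommGroup F] [NormedSpace ℝ F] (f : E → F), Sm f →
      hs S k (fun x => a x • f x) ≤ C * hs S k f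

/-- BND (a smooth function vanishing on the regular level `ρ = 0` is `O(ρ)`). -/
def SpecBnd : Prop := ∀ ρ : E → ℝ, Sm ρ → (∀ x, ρ x = 0 → fderiv ℝ ρ x ≠ 0) →
  ∀ h : E → ℝ, Sm h → (∀ x, ρ x = 0 → h x = 0) → ∀ R : ℝ, ∃ C : ℝ, 0 ≤ C ∧
    ∀ x, ‖x‖ ≤ R → |h x| ≤ C * |ρ x|

/-- TAND (tangential derivatives of a function vanishing on the boundary vanish there). -/
def SpecTanD : Prop := ∀ ρ : E → ℝ, Sm ρ → (∀ x, ρ x = 0 → fderiv ℝ ρ x ≠ 0) →
  ∀ h : E → ℝ, Sm h → (∀ x, ρ x = 0 → h x = 0) →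
    ∀ x v, ρ x = 0 → fderiv ℝ ρ x v = 0 → fderiv ℝ h x v = 0

/-- BRKT (the bracket of tangential fields is tangential, and divergence free if they are). -/
structure SpecBrkT : Prop where
  tan : ∀ ρ : E → ℝ, Sm ρ → (∀ x, ρ x = 0 → fderiv ℝ ρ x ≠ 0) →
    ∀ X Y : E → E, Sm X → Sm Y → Tan ρ X → Tan ρ Y → Tan ρ (brk X Y)
  dv : ∀ X Y : E → E, Sm X → Sm Y → ∀ x,
    dv (brk X Y) x = fderiv ℝ (dv Y) x (X x) - fderiv ℝ (dv X) x (Y x)
  /-- curl of the bracket `T·∇w - w·∇T`: `T·∇ curl w` up to terms with smooth coefficients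
  (depending on `T`) times first derivatives of `w` and `w` -/
  curl : ∀ T : E → E, Sm T → ∃ (a : Fin 3 → Fin 3 → Fin 3 → E → ℝ) (b : Fin 3 → Fin 3 → E → ℝ),
    (∀ i j l, Sm (a i j l)) ∧ (∀ i j, Sm (b i j)) ∧ ∀ w : E → E, Sm w → ∀ x i,
      MPfab.curl (brk T w) x i = fderiv ℝ (MPfab.curl w) x (T x) i +
        (∑ j, ∑ l, a i j l x * pd j w x l) + ∑ j, b i j x * w x j

/-- GAUSS. -/
def SpecGauss : Prop := ∀ ρ : E → ℝ, Dom ρ → ∀ w : E → E, Sm w → Tan ρ w →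
  ∫ x in D ρ, dv w x = 0

/-- GAFF (Gaffney inequality). -/
def SpecGaff : Prop := ∀ ρ : E → ℝ, Dom ρ → ∃ C : ℝ, 0 ≤ C ∧ ∀ w : E → E, Sm w → Tan ρ w →
  hs (D ρ) 1 w ≤ C * (hs (D ρ) 0 (curl w) + hs (D ρ) 0 (dv w) + hs (D ρ) 0 w)

/-- DIVCURL. -/
def SpecDivCurl : Prop := ∀ ρ : E → ℝ, Dom ρ → ∀ k : ℕ, ∃ C : ℝ, 0 ≤ C ∧
  ∀ w : E → E, Sm w → Tan ρ w →
    hs (D ρ) (k + 1) w ≤ C * (hs (D ρ) k (curl w) + hs (D ρ) k (dv w) + hs (D ρ) 0 w)

/-- SOB (`H³(D) ⊆ L^∞(D)`). -/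
def SpecSob : Prop := ∀ ρ : E → ℝ, Dom ρ → ∃ C : ℝ, 0 ≤ C ∧
  ∀ (F : Type) [NormedAddCommGroup F] [NormedSpace ℝ F] (f : E → F), Sm f →
    ∀ x ∈ D ρ, ‖f x‖ ^ 2 ≤ C * hs (D ρ) 3 f

/-- PROD (product estimate, the factor `f` in the sup norm). -/
def SpecProd : Prop := ∀ ρ : E → ℝ, Dom ρ → ∃ C : ℝ, 0 ≤ C ∧
  ∀ (A B : List (Fin 3)) (f g : E → ℝ), Sm f → Sm g →
    ∫ x in D ρ, (pds A f x * pds B g x) ^ 2 ≤
      C * hs (D ρ) (A.length + 3) f * hs (D ρ) B.length g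

/-- CRUDE (bilinear estimates for transport operators). -/
def SpecCrude : Prop := ∀ ρ : E → ℝ, Dom ρ → ∀ c k, ∃ C : ℝ, 0 ≤ C ∧
  ∀ u a : E → E, Sm u → Sm a →
    hs (D ρ) k (trc c u a) ≤ C * hs (D ρ) (k + 1) u * hs (D ρ) (k + 4) a ∧
    hs (D ρ) k (trc c u a) ≤ C * hs (D ρ) (k + 4) u * hs (D ρ) (k + 1) a

/-- TDER (differentiation of `hs` in time): on a bounded measurable set. -/
def SpecTder : Prop := ∀ (S : Set E), MeasurableSet S → Bornology.IsBounded S →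
  ∀ (F : ℝ × E → ℝ), Sm F → ∀ t,
    HasDerivAt (fun s => ∫ x in S, F (s, x)) (∫ x in S, dt F (t, x)) t

/-- ENG (energy inequality for transport, `k ≥ 5`; `κ = max (k-1) 5`). -/
def SpecEng : Prop := ∀ ρ : E → ℝ, Dom ρ → ∀ c k, 5 ≤ k → ∃ C : ℝ, 0 ≤ C ∧
  ∀ u a g : ℝ × E → E, Sm u → Sm a → Sm g → ∀ t : ℝ, Tan ρ (sl u t) →
    (∀ x ∈ D ρ, dt a (t, x) + trc c (sl u t) (sl a t) x = g (t, x)) →
    ∃ y' : ℝ, HasDerivAt (fun s => hs (D ρ) k (sl a s)) y' t ∧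
      |y'| ≤ C * (√(hs (D ρ) (max (k - 1) 5 + 1) (sl u t)) * hs (D ρ) k (sl a t) +
        √(hs (D ρ) (k + 1) (sl u t)) * √(hs (D ρ) (max (k - 1) 5) (sl a t)) *
          √(hs (D ρ) k (sl a t)) +
        √(hs (D ρ) k (sl a t)) * √(hs (D ρ) k (sl g t)))

/-- ENG0 (the `L²` version). -/
def SpecEng0 : Prop := ∀ ρ : E → ℝ, Dom ρ → ∀ c, ∃ C : ℝ, 0 ≤ C ∧
  ∀ u a g : ℝ × E → E, Sm u → Sm a → Sm g → ∀ t : ℝ, Tan ρ (sl u t) →
    (∀ x ∈ D ρ, dt a (t, x) + trc c (sl u t) (sl a t) x = g (t, x)) →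
    ∃ y' : ℝ, HasDerivAt (fun s => hs (D ρ) 0 (sl a s)) y' t ∧
      |y'| ≤ C * (√(hs (D ρ) 4 (sl u t)) * hs (D ρ) 0 (sl a t) +
        √(hs (D ρ) 0 (sl a t)) * √(hs (D ρ) 0 (sl g t)))

/-- DISP (`N`-norm of a transported 1-form; `nq`). -/
def SpecDisp : Prop := ∀ ρ : E → ℝ, Dom ρ → ∃ C : ℝ, 0 ≤ C ∧
  ∀ u a g : ℝ × E → E, Sm u → Sm a → Sm g → ∀ t : ℝ, Tan ρ (sl u t) →
    (∀ x ∈ D ρ, dt a (t, x) + lie (sl u t) (sl a t) x = g (t, x)) →
    ∃ y' : ℝ, HasDerivAt (fun s => nq (D ρ) 5 (sl a s)) y' t ∧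
      |y'| ≤ C * (√(hs (D ρ) 6 (sl u t)) * nq (D ρ) 5 (sl a t) +
        √(nq (D ρ) 5 (sl a t)) * √(nq (D ρ) 5 (sl g t)))

/-- STABD (stability of the Euler flow with potentials in the domain, in the `N`-norm):
`u` solution, `W` reference with residual `Z`, `b` the tangential extra velocity. -/
def SpecStabD : Prop := ∀ ρ : E → ℝ, Dom ρ → ∃ C : ℝ, 0 ≤ C ∧
  ∀ (u W b f Z : ℝ × E → E) (q q' : ℝ × E → ℝ), Sm u → Sm W → Sm b → Sm f → Sm Z → Sm q →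
    Sm q' → ∀ t : ℝ, InX ρ (sl u t) → InX ρ (sl W t) → Tan ρ (sl b t) →
    (∀ x ∈ D ρ, dt u (t, x) + lie (sl (u + b) t) (sl u t) x = f (t, x) + gr (sl q t) x) →
    (∀ x ∈ D ρ, dt W (t, x) + lie (sl (W + b) t) (sl W t) x =
      f (t, x) + gr (sl q' t) x + Z (t, x)) →
    ∃ y' : ℝ, HasDerivAt (fun s => nq (D ρ) 5 (sl (u - W) s)) y' t ∧
      |y'| ≤ C * ((√(hs (D ρ) 6 (sl (u + b) t)) + √(hs (D ρ) 10 (sl W t))) *
          nq (D ρ) 5 (sl (u - W) t) +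
        √(nq (D ρ) 5 (sl (u - W) t)) * √(nq (D ρ) 5 (sl Z t)))

/-- BALL (the ball as a domain, and functions supported in it). -/
structure SpecBall : Prop where
  dom : ∀ R : ℝ, 0 < R → Dom (ballρ R)
  tan : ∀ (R : ℝ) (u : E → E), 0 < R → In R u → Tan (ballρ R) u
  hs_eq : ∀ (R : ℝ) (F : Type) [NormedAddCommGroup F] [NormedSpace ℝ F] (k : ℕ) (f : E → F),
    0 < R → In R f → hs univ k f = hs (D (ballρ R)) k f

end MPfab
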